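import Pool.Agent.X120.HG.Hdt

/-!
# Comparison isomorphisms on Hodge forms
-/

set_option autoImplicit false
set_option linter.unusedSectionVars false

open Matrix Module

namespace Pool.Agent.X120.HG

open Pool.Agent.X120.GS.TT

section
variable {n₀ k m r : ℕ} {n : Fin k → ℕ}

theorem Dt_apply {K : Type} [Field K] (X : TM n₀ n K) (T : (Fin r → Fin n₀) → (Fin m → Σ i, Fin (n i)) → K)
    (a : Fin r → Fin n₀) (I : Fin m → Σ i, Fin (n i)) :
    Dt X T a I = dr X.1 (fun a => T a I) a + dr (blockDiagonal' X.2) (T a) I := by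
  show m0 (rh r X.1) T a I + dr (blockDiagonal' X.2) (T a) I = _
  rw [← rh_mulVec]
  unfold m0
  rw [Finset.sum_apply]
  rfl

/-- the action of a pair on forms -/
def act2 (g₀ : Matrix (Fin n₀) (Fin n₀) ℂ) (g : ∀ i, Matrix (Fin (n i)) (Fin (n i)) ℂ)
    (T : (Fin r → Fin n₀) → (Fin m → Σ i, Fin (n i)) → ℂ) : (Fin r → Fin n₀) → (Fin m → Σ i, Fin (n i)) → ℂ :=
  fun a I => ∑ b : Fin r → Fin n₀, ∑ J : Fin m → Σ i, Fin (n i),
    (∏ l, g₀ (a l) (b l)) * (∏ l, blockDiagonal' g (I l) (J l)) * T b J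

theorem act2_add (g₀ : Matrix (Fin n₀) (Fin n₀) ℂ) (g : ∀ i, Matrix (Fin (n i)) (Fin (n i)) ℂ)
    (T S : (Fin r → Fin n₀) → (Fin m → Σ i, Fin (n i)) → ℂ) : act2 g₀ g (T + S) = act2 g₀ g T + act2 g₀ g S := by
  funext a I
  simp only [act2, Pi.add_apply, mul_add, Finset.sum_add_distrib]

theorem act2_smul (g₀ : Matrix (Fin n₀) (Fin n₀) ℂ) (g : ∀ i, Matrix (Fin (n i)) (Fin (n i)) ℂ) (c : ℂ)
    (T : (Fin r → Fin n₀) → (Fin m → Σ i, Fin (n i)) → ℂ) : act2 g₀ g (c • T) = c • act2 g₀ g T := by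
  funext a I
  simp only [act2, Pi.smul_apply, smul_eq_mul, Finset.mul_sum]
  exact Finset.sum_congr rfl fun b _ => Finset.sum_congr rfl fun J _ => by ring

theorem act2_zero (g₀ : Matrix (Fin n₀) (Fin n₀) ℂ) (g : ∀ i, Matrix (Fin (n i)) (Fin (n i)) ℂ) :
    act2 g₀ g (0 : (Fin r → Fin n₀) → (Fin m → Σ i, Fin (n i)) → ℂ) = 0 := by
  funext a I
  simp [act2]

/-- a rational form as a complex form -/
def cst2 (T : (Fin r → Fin n₀) → (Fin m → Σ i, Fin (n i)) → ℚ) : (Fin r → Fin n₀) → (Fin m → Σ i, Fin (n i)) → ℂ :=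
  fun a I => ((T a I : ℚ) : ℂ)

theorem act2_tp (g₀ : Matrix (Fin n₀) (Fin n₀) ℂ) (g : ∀ i, Matrix (Fin (n i)) (Fin (n i)) ℂ) (v : (Fin r → Fin n₀) → ℚ)
    (P : (Fin m → Σ i, Fin (n i)) → ℚ) :
    act2 g₀ g (cst2 (tp v P)) = fun a I => act g₀ (cst v) a * act (blockDiagonal' g) (cst P) I := by
  funext a I
  unfold act2 act cst2 tp cst
  rw [Finset.sum_mul]
  refine Finset.sum_congr rfl fun b _ => ?_
  rw [Finset.mul_sum]
  refine Finset.sum_congr rfl fun J _ => ?_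
  rw [Pi.smul_apply, smul_eq_mul]
  push_cast
  ring

theorem fm_act {B g : ∀ i, Matrix (Fin (n i)) (Fin (n i)) ℂ} {μ : Fin k → ℂ} (h : ∀ i, g i * B i * (g i)ᵀ = μ i • B i)
    (c : Fin k) : blockDiagonal' g * fm ℂ B c * (blockDiagonal' g)ᵀ = μ c • fm ℂ B c := by
  rw [fm_eq, blockDiagonal'_transpose, ← blockDiagonal'_mul, ← blockDiagonal'_mul, ← blockDiagonal'_smul]
  congr 1
  funext i
  rw [Pi.smul_apply]
  by_cases hc : i = c
  · subst hc
    rw [if_pos rfl]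
    exact h i
  · rw [if_neg hc, Matrix.mul_zero, Matrix.zero_mul, smul_zero]

theorem act_mat {B g : ∀ i, Matrix (Fin (n i)) (Fin (n i)) ℂ} {μ : Fin k → ℂ} (h : ∀ i, g i * B i * (g i)ᵀ = μ i • B i)
    {s : ℕ} (e : Fin s × Fin 2 ≃ Fin m) (c : Fin s → Fin k) :
    act (blockDiagonal' g) (matB B e c) = (∏ l, μ (c l)) • matB B e c := by
  have h1 := act_prod (blockDiagonal' g) e (fun (l : Fin s) (x y : Σ i, Fin (n i)) => fm ℂ B (c l) x y)
  refine h1.trans ?_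
  funext I
  rw [Pi.smul_apply, smul_eq_mul]
  have h2 : matB B e c I = ∏ l, fm ℂ B (c l) (I (e (l, 0))) (I (e (l, 1))) := rfl
  rw [h2, ← Finset.prod_mul_distrib]
  refine Finset.prod_congr rfl fun l _ => ?_
  have h3 := congrFun (congrFun (fm_act h (c l)) (I (e (l, 0)))) (I (e (l, 1)))
  rw [Matrix.smul_apply, smul_eq_mul, Matrix.mul_apply] at h3
  rw [← h3, Fintype.sum_prod_type, Finset.sum_comm]
  refine Finset.sum_congr rfl fun y _ => ?_
  rw [Matrix.mul_apply, Finset.sum_mul]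
  refine Finset.sum_congr rfl fun x _ => ?_
  rw [Matrix.transpose_apply]
  ring

/-- **Comparison isomorphisms.** If the Hodge forms on the fixed structure are mapped to Hodge forms of another structure,
then all generated Hodge forms are. -/
theorem abs_of {A : ∀ i, Matrix (Fin (n i)) (Fin (n i)) ℚ} {Φ₀ Φ₀' : Matrix (Fin n₀) (Fin n₀) ℂ}
    {Φ : ∀ i, Matrix (Fin (n i)) (Fin (n i)) ℂ} {w : Fin k → ℕ}
    (hΦ : ∀ i, Φ i * cq (A i) + cq (A i) * (Φ i)ᵀ = (w i : ℂ) • cq (A i)) {Λ : Type} {g₀ : Λ → Matrix (Fin n₀) (Fin n₀) ℂ}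
    {g : Λ → ∀ i, Matrix (Fin (n i)) (Fin (n i)) ℂ} {χ : Λ → ℂ} (hχ : ∀ l, χ l ≠ 0)
    (hg : ∀ l i, g l i * cq (A i) * (g l i)ᵀ = (χ l) ^ w i • cq (A i))
    (h0 : ∀ (q : ℤ) (v : (Fin r → Fin n₀) → ℚ), dr Φ₀ (cst v) = (q : ℂ) • cst v → ∃ v' : (Fin r → Fin n₀) → ℚ,
      dr Φ₀' (cst v') = (q : ℂ) • cst v' ∧ ∀ l, act (g₀ l) (cst v) = (χ l) ^ q • cst v')
    {τ : Fin m → Fin k} {c : ℤ} {T : (Fin r → Fin n₀) → (Fin m → Σ i, Fin (n i)) → ℚ}
    (hT : T ∈ Submodule.span ℚ {S | ∃ (v : (Fin r → Fin n₀) → ℚ) (P : (Fin m → Σ i, Fin (n i)) → ℚ), P ∈ Pr A τ ∧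
      rh r Φ₀ *ᵥ (fun a => (v a : ℂ)) = ((c : ℂ) - (∑ l, (w (τ l) : ℂ)) / 2) • (fun a => (v a : ℂ)) ∧ S = tp v P}) :
    ∃ T' : (Fin r → Fin n₀) → (Fin m → Σ i, Fin (n i)) → ℚ, (∀ a, OfType τ (T' a)) ∧
      (∀ a, Dt ((Φ₀', Φ) : TM n₀ n ℂ) (cst2 T') a = (c : ℂ) • cst2 T' a) ∧
      ∀ l, act2 (g₀ l) (g l) (cst2 T) = (χ l) ^ c • cst2 T' := by
  classical
  induction hT using Submodule.span_induction with
  | mem x hx =>
    obtain ⟨v, P, ⟨s, e, c', hc', rfl⟩, hv, rfl⟩ := hx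
    have hν : (∑ l, (w (τ l) : ℂ)) / 2 = ((∑ l, w (c' l) : ℕ) : ℂ) := by
      rw [← Equiv.sum_comp e, Fintype.sum_prod_type]
      have h3 : ∀ l : Fin s, ∑ ε : Fin 2, (w (τ (e (l, ε))) : ℂ) = 2 * (w (c' l) : ℂ) := by
        intro l
        rw [Fin.sum_univ_two, ← (hc' l).1, ← (hc' l).2]
        ring
      rw [Finset.sum_congr rfl fun l _ => h3 l, ← Finset.mul_sum]
      push_cast
      ring
    set N : ℕ := ∑ l, w (c' l) with hN
    have hq : ((c : ℂ) - (∑ l, (w (τ l) : ℂ)) / 2) = ((c - (N : ℤ) : ℤ) : ℂ) := by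
      rw [hν]
      push_cast
      ring
    rw [hq, rh_mulVec] at hv
    obtain ⟨v', hv', hg'⟩ := h0 _ v hv
    refine ⟨tp v' (pq A e c'), ?_, ?_, ?_⟩
    · intro a I hI
      have h1 : pq A e c' I ≠ 0 := right_ne_zero_of_mul (a := v' a) hI
      intro l
      obtain ⟨⟨l', ε⟩, rfl⟩ := e.surjective l
      have h3 := pq_type h1 l'
      have h4 : ε = 0 ∨ ε = 1 := by
        fin_cases ε
        · exact Or.inl rfl
        · exact Or.inr rfl
      rcases h4 with rfl | rfl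
      · rw [h3.1, (hc' l').1]
      · rw [h3.2, (hc' l').2]
    · intro a
      funext I
      rw [Dt_apply]
      have e1 : (fun a => cst2 (tp v' (pq A e c')) a I) = (cst (pq A e c') I) • cst v' := by
        funext b
        show ((v' b * pq A e c' I : ℚ) : ℂ) = ((pq A e c' I : ℚ) : ℂ) * ((v' b : ℚ) : ℂ)
        push_cast
        ring
      have e2 : cst2 (tp v' (pq A e c')) a = ((v' a : ℚ) : ℂ) • cst (pq A e c') := by
        funext J
        show ((v' a * pq A e c' J : ℚ) : ℂ) = ((v' a : ℚ) : ℂ) * ((pq A e c' J : ℚ) : ℂ)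
        push_cast
        ring
      have e3 : dr (blockDiagonal' Φ) (cst (pq A e c')) = (N : ℂ) • cst (pq A e c') := by
        rw [cst_pq, dr_mat hΦ, hN]
        push_cast
        rfl
      show dr Φ₀' (fun a => cst2 (tp v' (pq A e c')) a I) a + dr (blockDiagonal' Φ) (cst2 (tp v' (pq A e c')) a) I =
        (c : ℂ) * cst2 (tp v' (pq A e c')) a I
      rw [e1, e2, dr_smul, hv', dr_smul, e3]
      show cst (pq A e c') I * (((c - (N : ℤ) : ℤ) : ℂ) * ((v' a : ℚ) : ℂ)) + ((v' a : ℚ) : ℂ) * ((N : ℂ) * cst (pq A e c') I) =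
        (c : ℂ) * (((v' a : ℚ) : ℂ) * cst (pq A e c') I)
      push_cast
      ring
    · intro l
      rw [act2_tp, hg', cst_pq, act_mat (μ := fun i => (χ l) ^ w i) (hg l)]
      funext a I
      have e1 : (∏ l', (χ l) ^ w (c' l')) = (χ l) ^ N := by rw [hN, Finset.prod_pow_eq_pow_sum]
      rw [e1]
      show (χ l) ^ (c - (N : ℤ)) * ((v' a : ℚ) : ℂ) * ((χ l) ^ N * matB (fun i => cq (A i)) e c' I) =
        (χ l) ^ c * ((v' a * pq A e c' I : ℚ) : ℂ)
      have e2 : matB (fun i => cq (A i)) e c' I = ((pq A e c' I : ℚ) : ℂ) := by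
        rw [← cst_pq]
        rfl
      rw [e2, zpow_sub₀ (hχ l), zpow_natCast]
      have e3 : (χ l) ^ N ≠ 0 := pow_ne_zero _ (hχ l)
      push_cast
      field_simp
  | zero =>
    refine ⟨0, fun a I hI => absurd rfl hI, fun a => ?_, fun l => ?_⟩
    · have e1 : cst2 (0 : (Fin r → Fin n₀) → (Fin m → Σ i, Fin (n i)) → ℚ) = 0 := by
        funext a I
        simp [cst2]
      rw [e1]
      funext I
      rw [Dt_apply]
      show dr Φ₀' (0 : (Fin r → Fin n₀) → ℂ) a + dr (blockDiagonal' Φ) (0 : (Fin m → Σ i, Fin (n i)) → ℂ) I = (c : ℂ) * 0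
      rw [dr_zero, dr_zero]
      simp
    · have e1 : cst2 (0 : (Fin r → Fin n₀) → (Fin m → Σ i, Fin (n i)) → ℚ) = 0 := by
        funext a I
        simp [cst2]
      rw [e1, act2_zero, smul_zero]
  | add x y _ _ hx hy =>
    obtain ⟨T₁, h1, h2, h3⟩ := hx
    obtain ⟨T₂, h1', h2', h3'⟩ := hy
    have ec : ∀ x y : (Fin r → Fin n₀) → (Fin m → Σ i, Fin (n i)) → ℚ, cst2 (x + y) = cst2 x + cst2 y := by
      intro x y
      funext a I
      simp [cst2]
    refine ⟨T₁ + T₂, ?_, ?_, ?_⟩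
    · intro a I hI
      by_cases h : T₁ a I = 0
      · refine h1' a I fun h' => hI ?_
        show T₁ a I + T₂ a I = 0
        rw [h, h', add_zero]
      · exact h1 a I h
    · intro a
      funext I
      have e1 := congrFun (h2 a) I
      have e2 := congrFun (h2' a) I
      rw [Dt_apply] at e1 e2 ⊢
      rw [ec]
      show dr Φ₀' ((fun a => cst2 T₁ a I) + (fun a => cst2 T₂ a I)) a + dr (blockDiagonal' Φ) (cst2 T₁ a + cst2 T₂ a) I =
        (c : ℂ) * (cst2 T₁ a I + cst2 T₂ a I)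
      rw [dr_add, dr_add, Pi.add_apply, Pi.add_apply]
      have e1' : (((c : ℂ) • cst2 T₁ a) I) = (c : ℂ) * cst2 T₁ a I := rfl
      have e2' : (((c : ℂ) • cst2 T₂ a) I) = (c : ℂ) * cst2 T₂ a I := rfl
      rw [e1'] at e1
      rw [e2'] at e2
      linear_combination e1 + e2
    · intro l
      rw [ec, act2_add, h3, h3', ec, smul_add]
  | smul q x _ hx =>
    obtain ⟨T₁, h1, h2, h3⟩ := hx
    have ec : ∀ (q : ℚ) (x : (Fin r → Fin n₀) → (Fin m → Σ i, Fin (n i)) → ℚ), cst2 (q • x) = (q : ℂ) • cst2 x := by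
      intro q x
      funext a I
      simp [cst2]
    refine ⟨q • T₁, ?_, ?_, ?_⟩
    · intro a I hI
      exact h1 a I (right_ne_zero_of_mul (a := q) hI)
    · intro a
      funext I
      have e1 := congrFun (h2 a) I
      rw [Dt_apply] at e1 ⊢
      rw [ec]
      show dr Φ₀' ((q : ℂ) • (fun a => cst2 T₁ a I)) a + dr (blockDiagonal' Φ) ((q : ℂ) • cst2 T₁ a) I =
        (c : ℂ) * ((q : ℂ) * cst2 T₁ a I)
      rw [dr_smul, dr_smul, Pi.smul_apply, Pi.smul_apply, smul_eq_mul, smul_eq_mul]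
      have e1' : (((c : ℂ) • cst2 T₁ a) I) = (c : ℂ) * cst2 T₁ a I := rfl
      rw [e1'] at e1
      linear_combination (q : ℂ) * e1
    · intro l
      rw [ec, act2_smul, h3, ec, smul_comm]

end

end Pool.Agent.X120.HG
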