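import Pool.Agent.X120.HG.Hdt
import Pool.Agent.X120.GS.Degv

/-!
# Genericity for families with big symplectic monodromy
-/

set_option autoImplicit false

open Matrix Module PowerSeries

namespace Pool.Agent.X120.HG

open Pool.Agent.X120.GS Pool.Agent.Y120.R Pool.Agent.Y123.GN

section
variable {k : ℕ} {n : Fin k → ℕ}

/-- **no quadratic relations with coefficients in `M`** -/
theorem noQ_fam {ρ : Fin k → ℕ} {d : ∀ i, Fin (n i) → ℚ} {M : Submodule ℚ ℂ} {D : ℕ} (hD : 2 ≤ D)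
    {ℓ : ∀ i, Matrix (Fin (n i)) (Fin (n i)) ℂ} {h : ∀ i, Fin (ρ i) → ℚ⟦X⟧}
    {P : ∀ i, Fin (n i) → Fin (n i) → MvPolynomial (Option (Fin (ρ i))) ℂ} {t : Fin k → ℕ} (hgood : GoodC D M ℓ h P t)
    {i : Fin k} {B : Matrix (Fin (n i)) (Fin (n i)) ℂ} (hBd : IsUnit B.det) (hBt : Bᵀ = -B)
    (hBG : ∀ g : (Matrix (Fin (n i)) (Fin (n i)) ℂ)ˣ, (g : Matrix (Fin (n i)) (Fin (n i)) ℂ) * B *
      (g : Matrix (Fin (n i)) (Fin (n i)) ℂ)ᵀ = B → g ∈ Gs (h i) (P i)) (hℓ : IsUnit (ℓ i))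
    (h0 : (ℓ i * pM (h i) (P i) (t i : ℝ)) *ᵥ (fun a => (d i a : ℂ)) ≠ 0) :
    NoQ M ((ℓ i * pM (h i) (P i) (t i : ℝ)) *ᵥ fun a => (d i a : ℂ)) := by
  classical
  intro Q hQ hQM hQ0
  set F : MvPolynomial (Σ i, Fin (n i) × Fin (n i)) ℂ :=
    ∑ j, ∑ l, MvPolynomial.C (Q j l) * MvPolynomial.map (algebraMap ℚ ℂ) (lfm d i j * lfm d i l) with hF
  have hev : ∀ X : ∀ i, Matrix (Fin (n i)) (Fin (n i)) ℂ,
      MvPolynomial.aeval (fun v : Σ i, Fin (n i) × Fin (n i) => X v.1 v.2.1 v.2.2) F =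
        (X i *ᵥ fun a => (d i a : ℂ)) ⬝ᵥ (Q *ᵥ (X i *ᵥ fun a => (d i a : ℂ))) := by
    intro X
    rw [hF, map_sum]
    show _ = ∑ j, (X i *ᵥ fun a => (d i a : ℂ)) j * ∑ l, Q j l * (X i *ᵥ fun a => (d i a : ℂ)) l
    refine Finset.sum_congr rfl fun j _ => ?_
    rw [map_sum, Finset.mul_sum]
    refine Finset.sum_congr rfl fun l _ => ?_
    rw [map_mul, MvPolynomial.aeval_C, MvPolynomial.aeval_map_algebraMap, map_mul, lfm_ev, lfm_ev]
    rw [Algebra.algebraMap_self_apply]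
    ring
  set z := pM (h i) (P i) (t i : ℝ) *ᵥ fun a => (d i a : ℂ) with hz
  have hz0 : z ≠ 0 := by
    intro h1
    apply h0
    rw [← Matrix.mulVec_mulVec, ← hz, h1, Matrix.mulVec_zero]
  have h2 : (ℓ i)ᵀ * Q * ℓ i = 0 := by
    refine quad_zero hBd hBt hz0 ?_ fun g hg => ?_
    · rw [Matrix.transpose_mul, Matrix.transpose_mul, Matrix.transpose_transpose, hQ, Matrix.mul_assoc]
    have hgu : IsUnit g := by
      rw [Matrix.isUnit_iff_isUnit_det, isUnit_iff_ne_zero]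
      intro h3
      have h4 := congrArg Matrix.det hg
      rw [det_mul, det_mul, h3, zero_mul, zero_mul] at h4
      exact hBd.ne_zero h4.symm
    have h1 := hgood F (by
        refine (MvPolynomial.totalDegree_finsetSum_le fun j _ => ?_)
        refine (MvPolynomial.totalDegree_finsetSum_le fun l _ => ?_)
        refine (MvPolynomial.totalDegree_mul _ _).trans ?_
        rw [MvPolynomial.totalDegree_C, zero_add]
        refine (map_deg _).trans ((MvPolynomial.totalDegree_mul _ _).trans ?_)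
        exact (Nat.add_le_add (lfm_deg _ _ _) (lfm_deg _ _ _)).trans hD) (fun s => by
        rw [hF, MvPolynomial.coeff_sum]
        refine M.sum_mem fun j _ => ?_
        rw [MvPolynomial.coeff_sum]
        exact M.sum_mem fun l _ => coeff_mem (hQM j l) _ _) (by
        rw [hev fun i => ℓ i * pM (h i) (P i) (t i : ℝ)]
        exact hQ0) (Function.update 1 i hgu.unit) (fun l => by
        by_cases hl : l = i
        · subst hl
          rw [Function.update_self]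
          exact hBG _ hg
        · rw [Function.update_of_ne hl]
          exact one_mem _)
    rw [hev fun v => ℓ v * (((Function.update 1 i hgu.unit : ∀ i, (Matrix (Fin (n i)) (Fin (n i)) ℂ)ˣ) v :
      Matrix (Fin (n v)) (Fin (n v)) ℂ) * pM (h v) (P v) (t v : ℝ)), Function.update_self, IsUnit.unit_spec] at h1
    have h5 : (ℓ i * (g * pM (h i) (P i) (t i : ℝ))) *ᵥ (fun a => (d i a : ℂ)) = ℓ i *ᵥ (g *ᵥ z) := by
      rw [hz, Matrix.mulVec_mulVec, Matrix.mulVec_mulVec, Matrix.mul_assoc]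
    rw [h5] at h1
    rw [← Matrix.mulVec_mulVec, ← Matrix.mulVec_mulVec, Matrix.dotProduct_mulVec (g *ᵥ z), Matrix.vecMul_transpose]
    exact h1
  obtain ⟨u, hu⟩ := hℓ
  have hd : IsUnit (ℓ i).det := (Matrix.isUnit_iff_isUnit_det _).1 ⟨u, hu⟩
  have hdt : IsUnit (ℓ i)ᵀ.det := by rw [det_transpose]; exact hd
  have h3 := congrArg (fun M => ((ℓ i)ᵀ)⁻¹ * M * (ℓ i)⁻¹) h2
  simp only [Matrix.mul_zero, Matrix.zero_mul, ← Matrix.mul_assoc, Matrix.nonsing_inv_mul _ hdt, Matrix.one_mul] at h3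
  rw [Matrix.mul_assoc, Matrix.mul_nonsing_inv _ hd, Matrix.mul_one] at h3
  exact h3

/-- **no relations of bidegree `(2, 2)`** -/
theorem noB_fam {ρ : Fin k → ℕ} {d : ∀ i, Fin (n i) → ℚ} {M : Submodule ℚ ℂ} (hM : (1 : ℂ) ∈ M) {D : ℕ} (hD : 4 ≤ D)
    {ℓ : ∀ i, Matrix (Fin (n i)) (Fin (n i)) ℂ} {h : ∀ i, Fin (ρ i) → ℚ⟦X⟧}
    {P : ∀ i, Fin (n i) → Fin (n i) → MvPolynomial (Option (Fin (ρ i))) ℂ} {t : Fin k → ℕ} (hgood : GoodC D M ℓ h P t)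
    {i j : Fin k} (hij : i ≠ j) {B : Matrix (Fin (n j)) (Fin (n j)) ℂ} (hBd : IsUnit B.det) (hBt : Bᵀ = -B)
    (hBG : ∀ g : (Matrix (Fin (n j)) (Fin (n j)) ℂ)ˣ, (g : Matrix (Fin (n j)) (Fin (n j)) ℂ) * B *
      (g : Matrix (Fin (n j)) (Fin (n j)) ℂ)ᵀ = B → g ∈ Gs (h j) (P j)) (hℓ : IsUnit (ℓ j))
    (h0 : (ℓ j * pM (h j) (P j) (t j : ℝ)) *ᵥ (fun a => (d j a : ℂ)) ≠ 0) :
    NoB ((ℓ i * pM (h i) (P i) (t i : ℝ)) *ᵥ fun a => (d i a : ℂ))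
      ((ℓ j * pM (h j) (P j) (t j : ℝ)) *ᵥ fun a => (d j a : ℂ)) := by
  classical
  intro Q₁ Q₁' Q₂ Q₂' hrel
  let qf : ∀ i, Matrix (Fin (n i)) (Fin (n i)) ℚ → MvPolynomial (Σ i, Fin (n i) × Fin (n i)) ℚ := fun i Q =>
    ∑ x, ∑ y, MvPolynomial.C (Q x y) * (lfm d i x * lfm d i y)
  have hqd : ∀ i Q, (qf i Q).totalDegree ≤ 2 := by
    intro i Q
    refine (MvPolynomial.totalDegree_finsetSum_le fun x _ => ?_)
    refine (MvPolynomial.totalDegree_finsetSum_le fun y _ => ?_)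
    refine (MvPolynomial.totalDegree_mul _ _).trans ?_
    rw [MvPolynomial.totalDegree_C, zero_add]
    refine (MvPolynomial.totalDegree_mul _ _).trans ?_
    exact Nat.add_le_add (lfm_deg _ _ _) (lfm_deg _ _ _)
  have hqe : ∀ i Q, ∀ X : ∀ i, Matrix (Fin (n i)) (Fin (n i)) ℂ,
      MvPolynomial.aeval (fun v : Σ i, Fin (n i) × Fin (n i) => X v.1 v.2.1 v.2.2) (qf i Q) =
        (X i *ᵥ fun a => (d i a : ℂ)) ⬝ᵥ (cq Q *ᵥ (X i *ᵥ fun a => (d i a : ℂ))) := by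
    intro i Q X
    rw [map_sum]
    show _ = ∑ x, (X i *ᵥ fun a => (d i a : ℂ)) x * ∑ y, cq Q x y * (X i *ᵥ fun a => (d i a : ℂ)) y
    refine Finset.sum_congr rfl fun x _ => ?_
    rw [map_sum, Finset.mul_sum]
    refine Finset.sum_congr rfl fun y _ => ?_
    rw [map_mul, map_mul, MvPolynomial.aeval_C, lfm_ev, lfm_ev]
    have h2 : (algebraMap ℚ ℂ) (Q x y) = cq Q x y := by
      rw [eq_ratCast]
      rfl
    rw [h2]
    ring
  set F₀ : MvPolynomial (Σ i, Fin (n i) × Fin (n i)) ℚ := qf j Q₂ * qf i Q₁' - qf j Q₂' * qf i Q₁ with hF₀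
  set F : MvPolynomial (Σ i, Fin (n i) × Fin (n i)) ℂ := MvPolynomial.map (algebraMap ℚ ℂ) F₀ with hF
  set ui := (ℓ i * pM (h i) (P i) (t i : ℝ)) *ᵥ fun a => (d i a : ℂ) with hui
  set z := pM (h j) (P j) (t j : ℝ) *ᵥ fun a => (d j a : ℂ) with hz
  have hz0 : z ≠ 0 := by
    intro h1
    apply h0
    rw [← Matrix.mulVec_mulVec, ← hz, h1, Matrix.mulVec_zero]
  have hmain : ∀ g : Matrix (Fin (n j)) (Fin (n j)) ℂ, g * B * gᵀ = B →
      ((ℓ j *ᵥ (g *ᵥ z)) ⬝ᵥ (cq Q₂ *ᵥ (ℓ j *ᵥ (g *ᵥ z)))) * (ui ⬝ᵥ (cq Q₁' *ᵥ ui)) =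
        ((ℓ j *ᵥ (g *ᵥ z)) ⬝ᵥ (cq Q₂' *ᵥ (ℓ j *ᵥ (g *ᵥ z)))) * (ui ⬝ᵥ (cq Q₁ *ᵥ ui)) := by
    intro g hg
    have hgu : IsUnit g := by
      rw [Matrix.isUnit_iff_isUnit_det, isUnit_iff_ne_zero]
      intro h3
      have h4 := congrArg Matrix.det hg
      rw [det_mul, det_mul, h3, zero_mul, zero_mul] at h4
      exact hBd.ne_zero h4.symm
    have h1 := hgood F (by
        refine (map_deg _).trans ((MvPolynomial.totalDegree_sub _ _).trans (max_le ?_ ?_))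
        · exact ((MvPolynomial.totalDegree_mul _ _).trans (Nat.add_le_add (hqd _ _) (hqd _ _))).trans hD
        · exact ((MvPolynomial.totalDegree_mul _ _).trans (Nat.add_le_add (hqd _ _) (hqd _ _))).trans hD) (fun s => by
        have h2 := coeff_mem hM F₀ s
        rwa [MvPolynomial.C_1, one_mul] at h2) (by
        rw [hF, MvPolynomial.aeval_map_algebraMap, map_sub, map_mul, map_mul,
          hqe j Q₂ fun i => ℓ i * pM (h i) (P i) (t i : ℝ), hqe i Q₁' fun i => ℓ i * pM (h i) (P i) (t i : ℝ),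
          hqe j Q₂' fun i => ℓ i * pM (h i) (P i) (t i : ℝ), hqe i Q₁ fun i => ℓ i * pM (h i) (P i) (t i : ℝ), sub_eq_zero]
        exact hrel) (Function.update 1 j hgu.unit) (fun l => by
        by_cases hl : l = j
        · subst hl
          rw [Function.update_self]
          exact hBG _ hg
        · rw [Function.update_of_ne hl]
          exact one_mem _)
    have e1 := fun i Q => hqe i Q (fun v => ℓ v * (((Function.update 1 j hgu.unit :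
      ∀ i, (Matrix (Fin (n i)) (Fin (n i)) ℂ)ˣ) v : Matrix (Fin (n v)) (Fin (n v)) ℂ) * pM (h v) (P v) (t v : ℝ)))
    rw [hF, MvPolynomial.aeval_map_algebraMap, map_sub, map_mul, map_mul, e1, e1, e1, e1, Function.update_self,
      Function.update_of_ne hij, sub_eq_zero, IsUnit.unit_spec] at h1
    have h5 : (ℓ j * (g * pM (h j) (P j) (t j : ℝ))) *ᵥ (fun a => (d j a : ℂ)) = ℓ j *ᵥ (g *ᵥ z) := by
      rw [hz, Matrix.mulVec_mulVec, Matrix.mulVec_mulVec, Matrix.mul_assoc]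
    have h6 : (ℓ i * (((1 : ∀ i, (Matrix (Fin (n i)) (Fin (n i)) ℂ)ˣ) i : Matrix (Fin (n i)) (Fin (n i)) ℂ) *
        pM (h i) (P i) (t i : ℝ))) *ᵥ (fun a => (d i a : ℂ)) = ui := by
      rw [hui, Pi.one_apply, Units.val_one, Matrix.one_mul]
    rw [h5, h6] at h1
    exact h1
  set α := ui ⬝ᵥ (cq Q₁' *ᵥ ui) with hα
  set β := ui ⬝ᵥ (cq Q₁ *ᵥ ui) with hβ
  set R := α • (cq Q₂ + (cq Q₂)ᵀ) - β • (cq Q₂' + (cq Q₂')ᵀ) with hR
  have hRt : Rᵀ = R := by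
    rw [hR, Matrix.transpose_sub, Matrix.transpose_smul, Matrix.transpose_smul, Matrix.transpose_add, Matrix.transpose_add,
        Matrix.transpose_transpose, Matrix.transpose_transpose, add_comm (cq Q₂)ᵀ, add_comm (cq Q₂')ᵀ]
  have h2 : (ℓ j)ᵀ * R * ℓ j = 0 := by
    refine quad_zero hBd hBt hz0 ?_ fun g hg => ?_
    · rw [Matrix.transpose_mul, Matrix.transpose_mul, Matrix.transpose_transpose, hRt, Matrix.mul_assoc]
    have h3 := hmain g hg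
    rw [← Matrix.mulVec_mulVec, ← Matrix.mulVec_mulVec, Matrix.dotProduct_mulVec (g *ᵥ z), Matrix.vecMul_transpose, hR,
      Matrix.sub_mulVec, Matrix.smul_mulVec, Matrix.smul_mulVec, Matrix.add_mulVec, Matrix.add_mulVec,
      dotProduct_sub, dotProduct_smul, dotProduct_smul, dotProduct_add, dotProduct_add, quad_tr', quad_tr', smul_eq_mul,
      smul_eq_mul]
    linear_combination 2 * h3
  obtain ⟨u, hu⟩ := hℓ
  have hd : IsUnit (ℓ j).det := (Matrix.isUnit_iff_isUnit_det _).1 ⟨u, hu⟩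
  have hdt : IsUnit (ℓ j)ᵀ.det := by rw [det_transpose]; exact hd
  have h3 := congrArg (fun M => ((ℓ j)ᵀ)⁻¹ * M * (ℓ j)⁻¹) h2
  simp only [Matrix.mul_zero, Matrix.zero_mul, ← Matrix.mul_assoc, Matrix.nonsing_inv_mul _ hdt, Matrix.one_mul] at h3
  rw [Matrix.mul_assoc, Matrix.mul_nonsing_inv _ hd, Matrix.mul_one] at h3
  exact sub_eq_zero.1 h3

/-- **The counting theorem for families with big monodromy.** -/
theorem fam_gen (n₀ k e e' : ℕ) (ρ n : Fin k → ℕ) (h : ∀ i, Fin (ρ i) → ℚ⟦X⟧) {b : Fin k → ℕ} (hb : ∀ i, 2 ≤ b i)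
    (hF : ∀ i δ, FamG δ (h i) (b i)) :
    ∃ K : ℝ, 0 ≤ K ∧ ∀ (B₀ : Matrix (Fin n₀) (Fin n₀) ℂ), IsUnit B₀.det → ∀ p₀ : Fin n₀ → ℤ,
      ∀ P : ∀ i, Fin (n i) → Fin (n i) → MvPolynomial (Fin (ρ i)) ℂ, (∀ i a b, (P i a b).totalDegree ≤ e) →
      ∀ Λ : ∀ i, Matrix (Fin (n i)) (Fin (n i)) (Polynomial ℂ), (∀ i a b, (Λ i a b).natDegree ≤ e') →
      ∀ B : ∀ i, Matrix (Fin (n i)) (Fin (n i)) ℂ, (∀ i, IsUnit (B i).det) → (∀ i, (B i)ᵀ = -B i) →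
      (∀ i, ∀ g : (Matrix (Fin (n i)) (Fin (n i)) ℂ)ˣ, (g : Matrix (Fin (n i)) (Fin (n i)) ℂ) * B i *
        (g : Matrix (Fin (n i)) (Fin (n i)) ℂ)ᵀ = B i → g ∈ Gs (h i) (soM P i)) →
      ∀ d : ∀ i, Fin (n i) → ℚ, ∀ w : Fin k → ℕ, (∀ i, 0 < w i) → ∀ N : ℕ, 2 ≤ N →
      ∀ S : Finset (Fin k → ℕ), (∀ t ∈ S, (∀ i, 1 ≤ t i ∧ t i ≤ N) ∧
        ¬ ∀ (A : ∀ i, Matrix (Fin (n i)) (Fin (n i)) ℚ) (H : ∀ i, ℕ → Submodule ℂ (Fin (n i) → ℂ)),
          (∀ i, HS (w i) (A i) (H i)) → (∀ i, IsUnit (lamT Λ b t i)) →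
          (∀ i, (lamT Λ b t i * pM (h i) (soM P i) (Pool.Agent.X120.GS.tp b t i : ℝ)) *ᵥ (fun a => (d i a : ℂ)) ≠ 0) →
          (∀ i, H i (w i) = Submodule.span ℂ
            {(lamT Λ b t i * pM (h i) (soM P i) (Pool.Agent.X120.GS.tp b t i : ℝ)) *ᵥ fun a => (d i a : ℂ)}) →
          RG (opB B₀ p₀) w A H) →
        (S.card : ℝ) * N ≤ K * (N : ℝ) ^ k * Real.log N := by
  classical
  obtain ⟨d', hd⟩ := rel_mult n₀
  set D : ℕ := ((n₀ * n₀) * (n₀ * n₀) + 1) ^ d' with hD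
  obtain ⟨K, hK, hcount⟩ := rel_degV k D 4 e e' ρ n h hb hF
  refine ⟨K, hK, ?_⟩
  intro B₀ hB₀ p₀ P hP Λ hΛ B hBd hBt hBG d w hw N hN S hS
  have hEf := (EntM_fin B₀).1
  obtain ⟨hVf, hVd⟩ := finrank_pow_le' (EntM B₀) d'
  have hVD : Module.finrank ℚ (EntM B₀ ^ d' : Submodule ℚ ℂ) ≤ D := hVd.trans (Nat.pow_le_pow_left (EntM_fin B₀).2 d')
  have h1M : (1 : ℂ) ∈ EntM B₀ ^ d' := by
    refine pow_mono' (EntM_one B₀) (Nat.zero_le d') ?_
    rw [pow_zero]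
    exact Submodule.one_le.1 le_rfl
  refine hcount P hP Λ hΛ (EntM B₀ ^ d') hVD N hN S fun t ht => ?_
  obtain ⟨hbox, hnot⟩ := hS t ht
  refine ⟨hbox, fun hgood => hnot ?_⟩
  intro A H hH hΛu hω0 hHω
  have hdata := fun i => (hH i).data (hw i) (hω0 i) (hHω i)
  choose B' p i₀ i₁ c₀ hHD hc₀ hBc hop using hdata
  intro V hbr hΦ X hX
  refine hd B₀ hB₀ p₀ k n w A B' p i₀ i₁ hHD ?_ ?_ V hbr (hΦ _ hop) X hX
  · intro i
    rw [hBc]
    exact (noQ_fam (D := 4) (by norm_num) hgood (hBd i) (hBt i) (hBG i) (hΛu i) (hω0 i)).smul (hc₀ i)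
  · intro i j hij
    rw [hBc, hBc]
    exact (noB_fam h1M le_rfl hgood hij (hBd j) (hBt j) (hBG j) (hΛu j) (hω0 j)).smul (hc₀ i) (hc₀ j)

end

end Pool.Agent.X120.HG
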