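import Pool.Agent.X120.HG.Cnt

/-!
# One family, and commutative Mumford–Tate groups
-/

set_option autoImplicit false

open Matrix

namespace Pool.Agent.X120.HG

open Pool.Agent.Y119.HY

/-- all fibres at `1 / s` are generic -/
def G1 {m : ℕ} (β : Fin m → ℚ) (s : ℕ) (C : Matrix (Fin (2 * m)) (Fin (2 * m)) ℂ) : Prop :=
  ∀ (A : Matrix (Fin (2 * m)) (Fin (2 * m)) ℚ) (H : ℕ → Submodule ℂ (Fin (2 * m) → ℂ)), HS (2 * m - 1) A H →
    H (2 * m - 1) = Submodule.span ℂ {Pool.Agent.Y118.CM.perr β s 0 ᵥ* C} →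
    ∀ V : Submodule ℚ (Matrix (Fin (2 * m)) (Fin (2 * m)) ℚ), (∀ X ∈ V, ∀ Y ∈ V, X * Y - Y * X ∈ V) →
      (∀ Φ, Hop (2 * m - 1) H Φ → ∀ φ : ℂ →ₗ[ℚ] ℚ, ph φ Φ ∈ V) → ∀ X, IsSp A X → X ∈ V

theorem hyp_one (m : ℕ) (hm : 1 ≤ m) (β : Fin m → ℚ) (hβ : ∀ j, ∀ a : ℤ, β j ≠ a) (b : ℕ) (hb : 2 ≤ b) :
    ∃ K : ℝ, 0 ≤ K ∧ ∀ C : Matrix (Fin (2 * m)) (Fin (2 * m)) ℂ, C.det ≠ 0 → ∀ N : ℕ, 2 ≤ N →
      (({t : ℕ | 1 ≤ t ∧ t ≤ N ∧ ¬ G1 β (b ^ t) C}.ncard : ℕ) : ℝ) ≤ K * Real.log N := by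
  classical
  obtain ⟨K, hK, hcount⟩ := hyp_gen 0 1 (fun _ => m) (fun _ => hm) (fun _ => β) (fun _ => hβ) (fun _ => b) (fun _ => hb)
  refine ⟨K, hK, ?_⟩
  intro C hC N hN
  set S := {t : ℕ | 1 ≤ t ∧ t ≤ N ∧ ¬ G1 β (b ^ t) C} with hS
  have hfin : S.Finite := by
    refine (Set.finite_Iic N).subset ?_
    intro t ht
    exact ht.2.1
  have h1 := hcount 1 (by rw [Matrix.det_one]; exact isUnit_one) (fun i => i.elim0) (fun _ => C) (fun _ => hC) N hN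
    (hfin.toFinset.map ⟨fun t _ => t, fun x y h => congrFun h 0⟩) (by
      intro t ht
      rw [Finset.mem_map] at ht
      obtain ⟨t, ht', rfl⟩ := ht
      have ht'' := hfin.mem_toFinset.1 ht'
      refine ⟨fun _ => ⟨ht''.1, ht''.2.1⟩, fun hgood => ht''.2.2 ?_⟩
      intro A H hH hω V hbr hΦ X hX
      let V' : Submodule ℚ (TM 0 (fun _ : Fin 1 => 2 * m) ℚ) :=
        { carrier := {X | X.2 0 ∈ V}
          zero_mem' := V.zero_mem
          add_mem' := fun hx hy => V.add_mem hx hy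
          smul_mem' := fun c _ hx => V.smul_mem c hx }
      exact hgood (fun _ => A) (fun _ => H) (fun _ => hH) (fun _ => hω) V' (fun X hX Y hY => hbr _ hX _ hY)
        (fun Φ hop φ => hΦ _ (hop 0) φ) (fun _ => X) (fun _ => hX))
  rw [Finset.card_map, pow_one] at h1
  rw [Set.ncard_eq_toFinset_card S hfin]
  have hN0 : (0 : ℝ) < N := by
    have : 0 < N := by omega
    exact_mod_cast this
  have h2 : ((hfin.toFinset.card : ℕ) : ℝ) * N ≤ (K * Real.log N) * N := by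
    calc ((hfin.toFinset.card : ℕ) : ℝ) * N ≤ K * N * Real.log N := h1
      _ = _ := by ring
  exact le_of_mul_le_mul_right h2 hN0

/-- the Hodge operator is unique -/
theorem hop_unique {n w : ℕ} {H : ℕ → Submodule ℂ (Fin n → ℂ)} (hspan : (⨆ p : {p : ℕ // p ≤ w}, H p) = ⊤)
    {Φ Φ' : Matrix (Fin n) (Fin n) ℂ} (h : Hop w H Φ) (h' : Hop w H Φ') : Φ = Φ' := by
  have h1 : ∀ v : Fin n → ℂ, v ᵥ* Φ = v ᵥ* Φ' := by
    intro v
    have hv : v ∈ ⨆ p : {p : ℕ // p ≤ w}, H p := by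
      rw [hspan]
      exact Submodule.mem_top
    induction hv using Submodule.iSup_induction' with
    | mem p x hx => rw [h p p.2 x hx, h' p p.2 x hx]
    | zero => rw [Matrix.zero_vecMul, Matrix.zero_vecMul]
    | add x y _ _ hx hy => rw [Matrix.add_vecMul, Matrix.add_vecMul, hx, hy]
  ext i j
  have h2 := congrFun (h1 (Pi.single i 1)) j
  rw [Matrix.single_one_vecMul, Matrix.single_one_vecMul] at h2
  exact h2

/-- the symplectic Lie algebra is not commutative -/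
theorem sp_not_comm {n : ℕ} (hn : 0 < n) {A : Matrix (Fin n) (Fin n) ℚ} (hA : Aᵀ = -A) (hAd : A.det ≠ 0) :
    ∃ X Y, IsSp A X ∧ IsSp A Y ∧ X * Y ≠ Y * X := by
  by_contra hcon
  push Not at hcon
  set u : Fin n → ℚ := Pi.single ⟨0, hn⟩ 1 with hu
  have h1 : mu A u ∈ (⊥ : Submodule ℚ (Matrix (Fin n) (Fin n) ℚ)) := by
    refine sp_perfect hA hAd (P := ⊥) (fun X Y hX hY => ?_) (mu_sp hA u)
    rw [Submodule.mem_bot, hcon X Y hX hY, sub_self]
  rw [Submodule.mem_bot] at h1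
  unfold mu at h1
  have h2 : Matrix.vecMulVec u u = 0 := by
    have h3 := congrArg (fun M => A⁻¹ * M) h1
    simp only [← Matrix.mul_assoc, Matrix.nonsing_inv_mul _ (isUnit_iff_ne_zero.2 hAd), Matrix.one_mul, Matrix.mul_zero] at h3
    exact h3
  have h3 := congrFun (congrFun h2 ⟨0, hn⟩) ⟨0, hn⟩
  rw [Matrix.vecMulVec_apply, hu, Pi.single_eq_same] at h3
  norm_num at h3

end Pool.Agent.X120.HG
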