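import Pool.Agent.X120.HG.Hdg
import Pool.Agent.X120.HG.One

/-!
# Hodge forms on products of fibres of hypergeometric families and a fixed structure
-/

set_option autoImplicit false

open Matrix Module

namespace Pool.Agent.X120.HG

/-- the Hodge operator is a similitude -/
theorem HS.op {n w : ℕ} {A : Matrix (Fin n) (Fin n) ℚ} {H : ℕ → Submodule ℂ (Fin n → ℂ)} (h : HS w A H)
    {Φ : Matrix (Fin n) (Fin n) ℂ} (hop : Hop w H Φ) : Φ * cq A + cq A * Φᵀ = (w : ℂ) • cq A := by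
  have h1 : ∀ v u : Fin n → ℂ, v ⬝ᵥ ((Φ * cq A + cq A * Φᵀ) *ᵥ u) = v ⬝ᵥ (((w : ℂ) • cq A) *ᵥ u) := by
    intro v u
    have hv : v ∈ ⨆ p : {p : ℕ // p ≤ w}, H p := by
      rw [h.span]
      exact Submodule.mem_top
    have hu : u ∈ ⨆ p : {p : ℕ // p ≤ w}, H p := by
      rw [h.span]
      exact Submodule.mem_top
    induction hv using Submodule.iSup_induction' with
    | mem p x hx =>
      induction hu using Submodule.iSup_induction' with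
      | mem q y hy =>
        rw [Matrix.add_mulVec, dotProduct_add, ← Matrix.mulVec_mulVec, ← Matrix.mulVec_mulVec, Matrix.dotProduct_mulVec x Φ,
          hop p p.2 x hx, Matrix.mulVec_transpose, hop q q.2 y hy, Matrix.mulVec_smul, dotProduct_smul, smul_dotProduct,
          Matrix.smul_mulVec, dotProduct_smul, smul_eq_mul, smul_eq_mul, smul_eq_mul]
        by_cases hpq : (p : ℕ) + (q : ℕ) = w
        · have h3 : (((p : ℕ) : ℂ)) + (((q : ℕ) : ℂ)) = (w : ℂ) := by exact_mod_cast hpq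
          rw [← h3]
          ring
        · rw [h.orth p p.2 q q.2 hpq x hx y hy]
          ring
      | zero => rw [Matrix.mulVec_zero, Matrix.mulVec_zero]
      | add y z _ _ hy hz => rw [Matrix.mulVec_add, Matrix.mulVec_add, dotProduct_add, dotProduct_add, hy, hz]
    | zero => rw [zero_dotProduct, zero_dotProduct]
    | add x y _ _ hx hy => rw [add_dotProduct, add_dotProduct, hx, hy]
  ext i j
  have h2 := h1 (Pi.single i 1) (Pi.single j 1)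
  rw [Matrix.mulVec_single_one, Matrix.mulVec_single_one, single_one_dotProduct, single_one_dotProduct] at h2
  exact h2

theorem phi_dr0 {n₀ r : ℕ} (Z : Matrix (Fin n₀) (Fin n₀) ℂ) (F : (Fin r → Fin n₀) → ℚ) (φ : ℂ →ₗ[ℚ] ℚ)
    (I : Fin r → Fin n₀) : φ (dr Z (cst F) I) = dr (ph φ Z) F I := by
  unfold dr dl cst
  rw [map_sum]
  refine Finset.sum_congr rfl fun l _ => ?_
  rw [map_sum]
  refine Finset.sum_congr rfl fun y _ => ?_
  rw [mul_comm, phi_rat, mul_comm]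
  rfl

theorem phi_rh {n₀ r : ℕ} (Z : Matrix (Fin n₀) (Fin n₀) ℂ) (φ : ℂ →ₗ[ℚ] ℚ) (a b : Fin r → Fin n₀) :
    φ (rh r Z a b) = rh r (ph φ Z) a b := by
  classical
  have h1 : (Pi.single b (1 : ℂ) : (Fin r → Fin n₀) → ℂ) = cst (Pi.single b (1 : ℚ)) := by
    funext I
    unfold cst
    by_cases h : I = b
    · subst h
      simp
    · rw [Pi.single_eq_of_ne h, Pi.single_eq_of_ne h, Rat.cast_zero]
  show φ (dr Z (Pi.single b 1) a) = dr (ph φ Z) (Pi.single b 1) a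
  rw [h1]
  exact phi_dr0 Z _ φ a

/-- all Hodge forms are combinations of products of Hodge forms on the fixed structure and of the polarisations -/
def AllGen {n₀ k : ℕ} {n : Fin k → ℕ} (Φ₀ : Matrix (Fin n₀) (Fin n₀) ℂ) (w : Fin k → ℕ)
    (A : ∀ i, Matrix (Fin (n i)) (Fin (n i)) ℚ) (H : ∀ i, ℕ → Submodule ℂ (Fin (n i) → ℂ)) : Prop :=
  ∀ Φ : ∀ i, Matrix (Fin (n i)) (Fin (n i)) ℂ, (∀ i, Hop (w i) (H i) (Φ i)) → ∀ (r m : ℕ) (τ : Fin m → Fin k)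
    (T : (Fin r → Fin n₀) → (Fin m → Σ i, Fin (n i)) → ℚ) (c : ℂ), (∀ a, OfType τ (T a)) →
    (∀ a, Dt ((Φ₀, Φ) : TM n₀ n ℂ) (fun a => cst (T a)) a = c • cst (T a)) →
    T ∈ Submodule.span ℚ {S | ∃ (v : (Fin r → Fin n₀) → ℚ) (P : (Fin m → Σ i, Fin (n i)) → ℚ), P ∈ Pr A τ ∧
      rh r Φ₀ *ᵥ (fun a => (v a : ℂ)) = (c - (∑ l, (w (τ l) : ℂ)) / 2) • (fun a => (v a : ℂ)) ∧ S = tp v P}

theorem allgen_of {n₀ k : ℕ} {n : Fin k → ℕ} {Φ₀ : Matrix (Fin n₀) (Fin n₀) ℂ} {w : Fin k → ℕ}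
    {A : ∀ i, Matrix (Fin (n i)) (Fin (n i)) ℚ} {H : ∀ i, ℕ → Submodule ℂ (Fin (n i) → ℂ)}
    (hH : ∀ i, HS (w i) (A i) (H i)) (h : RG Φ₀ w A H) : AllGen Φ₀ w A H := by
  intro Φ hop r m τ T c hT hc
  refine hodge_forms (fun i => (hH i).alt) (fun i => (hH i).nondeg) (fun i => (hH i).op (hop i)) hT ?_ hc
  refine h (VT T) (VT_br T) ?_
  intro Φ' hop' φ
  have hΦ' : Φ' = Φ := by
    funext i
    exact hop_unique (hH i).span (hop' i) (hop i)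
  rw [hΦ']
  refine ⟨φ c, fun a => ?_⟩
  funext I
  have h1 := congrArg φ (congrFun (hc a) I)
  have e1 : Dt ((Φ₀, Φ) : TM n₀ n ℂ) (fun a => cst (T a)) a I =
      ∑ b, rh r Φ₀ a b * cst (T b) I + dr (blockDiagonal' Φ) (cst (T a)) I := by
    show m0 (rh r Φ₀) (fun a => cst (T a)) a I + dr (blockDiagonal' Φ) (cst (T a)) I = _
    unfold m0
    rw [Finset.sum_apply]
    rfl
  have e2 : (c • cst (T a)) I = c * ((T a I : ℚ) : ℂ) := rfl
  have e3 : ∀ (z : ℂ) (q : ℚ), φ (z * (q : ℂ)) = φ z * q := by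
    intro z q
    rw [mul_comm, phi_rat, mul_comm]
  rw [e1, e2, map_add, map_sum, e3, phi_dr] at h1
  have e4 : Dt ((ph φ Φ₀, fun i => ph φ (Φ i)) : TM n₀ n ℚ) T a I =
      ∑ b, rh r (ph φ Φ₀) a b * T b I + dr (blockDiagonal' fun i => ph φ (Φ i)) (T a) I := by
    show m0 (rh r (ph φ Φ₀)) T a I + dr (blockDiagonal' fun i => ph φ (Φ i)) (T a) I = _
    unfold m0
    rw [Finset.sum_apply]
    rfl
  rw [e4]
  show _ = φ c * T a I
  rw [← h1]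
  congr 1
  refine Finset.sum_congr rfl fun b _ => ?_
  unfold cst
  rw [e3, phi_rh]

/-- **The counting theorem for Hodge forms.** -/
theorem hyp_hodge (n₀ k : ℕ) (m : Fin k → ℕ) (hm : ∀ i, 1 ≤ m i) (β : ∀ i, Fin (m i) → ℚ)
    (hβ : ∀ i j, ∀ a : ℤ, β i j ≠ a) (b : Fin k → ℕ) (hb : ∀ i, 2 ≤ b i) :
    ∃ K : ℝ, 0 ≤ K ∧ ∀ (B₀ : Matrix (Fin n₀) (Fin n₀) ℂ), IsUnit B₀.det → ∀ p₀ : Fin n₀ → ℤ,
      ∀ C : ∀ i, Matrix (Fin (2 * m i)) (Fin (2 * m i)) ℂ, (∀ i, (C i).det ≠ 0) → ∀ N : ℕ, 2 ≤ N →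
      ∀ S : Finset (Fin k → ℕ), (∀ t ∈ S, (∀ i, 1 ≤ t i ∧ t i ≤ N) ∧
        ¬ ∀ (A : ∀ i, Matrix (Fin (2 * m i)) (Fin (2 * m i)) ℚ) (H : ∀ i, ℕ → Submodule ℂ (Fin (2 * m i) → ℂ)),
          (∀ i, HS (2 * m i - 1) (A i) (H i)) →
          (∀ i, H i (2 * m i - 1) = Submodule.span ℂ {Pool.Agent.Y118.CM.perr (β i) (b i ^ t i) 0 ᵥ* C i}) →
          AllGen (opB B₀ p₀) (fun i => 2 * m i - 1) A H) →
        (S.card : ℝ) * N ≤ K * (N : ℝ) ^ k * Real.log N := by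
  obtain ⟨K, hK, hcount⟩ := hyp_gen n₀ k m hm β hβ b hb
  refine ⟨K, hK, ?_⟩
  intro B₀ hB₀ p₀ C hC N hN S hS
  refine hcount B₀ hB₀ p₀ C hC N hN S fun t ht => ⟨(hS t ht).1, fun hgood => (hS t ht).2 ?_⟩
  intro A H hH hω
  exact allgen_of hH (hgood A H hH hω)

end Pool.Agent.X120.HG
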