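import Pool.Agent.X120.HG.Inc

/-!
# Fraction-free elimination
-/

set_option autoImplicit false

open Matrix Module

namespace Pool.Agent.X120.HG

theorem finrank_mul_le' (M N : Submodule ℚ ℂ) [Module.Finite ℚ M] [Module.Finite ℚ N] :
    Module.Finite ℚ (M * N : Submodule ℚ ℂ) ∧ finrank ℚ (M * N : Submodule ℚ ℂ) ≤ finrank ℚ M * finrank ℚ N := by
  rw [← Submodule.mulMap_range, ← Module.finrank_tensorProduct (R := ℚ)]
  exact ⟨inferInstance, LinearMap.finrank_range_le _⟩

theorem finrank_pow_le' (M : Submodule ℚ ℂ) [Module.Finite ℚ M] (d : ℕ) :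
    Module.Finite ℚ (M ^ d : Submodule ℚ ℂ) ∧ finrank ℚ (M ^ d : Submodule ℚ ℂ) ≤ finrank ℚ M ^ d := by
  induction d with
  | zero =>
    rw [pow_zero, pow_zero, Submodule.one_eq_span]
    exact ⟨inferInstance, (finrank_span_singleton (one_ne_zero)).le⟩
  | succ d ih =>
    obtain ⟨h1, h2⟩ := ih
    rw [pow_succ, pow_succ]
    obtain ⟨h3, h4⟩ := finrank_mul_le' (M ^ d) M
    exact ⟨h3, h4.trans (Nat.mul_le_mul_right _ h2)⟩

theorem pow_mono' {M : Submodule ℚ ℂ} (h1 : (1 : ℂ) ∈ M) {d e : ℕ} (h : d ≤ e) : M ^ d ≤ M ^ e := by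
  obtain ⟨c, rfl⟩ := Nat.exists_eq_add_of_le h
  clear h
  induction c with
  | zero => exact le_rfl
  | succ c ih =>
    refine ih.trans ?_
    intro x hx
    rw [← add_assoc, pow_succ]
    have := Submodule.mul_mem_mul hx h1
    rwa [mul_one] at this

/-- **Fraction-free elimination**: the relations between vectors with coordinates in `M` are combinations of relations with
coefficients in a power of `M`. -/
theorem ann (r : ℕ) : ∃ d : ℕ, ∀ (s : ℕ) (M : Submodule ℚ ℂ), (1 : ℂ) ∈ M → ∀ e : Fin r → Fin s → ℂ, (∀ q b, e q b ∈ M) →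
    ∀ x : Fin s → ℂ, (∀ κ : Fin s → ℂ, (∀ b, κ b ∈ M ^ d) → (∀ q, ∑ b, κ b * e q b = 0) → ∑ b, κ b * x b = 0) →
      x ∈ Submodule.span ℂ (Set.range e) := by
  classical
  induction r with
  | zero =>
    refine ⟨0, fun s M hM e _ x h => ?_⟩
    have h1 : x = 0 := by
      funext b
      have h2 := h (Pi.single b 1) (fun b' => by
        rw [pow_zero, Submodule.mem_one]
        by_cases hb : b' = b
        · subst hb
          exact ⟨1, by simp⟩
        · rw [Pi.single_eq_of_ne hb]
          exact ⟨0, by simp⟩) (fun q => q.elim0)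
      rw [Finset.sum_eq_single b] at h2
      · simpa using h2
      · intro b' _ hb
        rw [Pi.single_eq_of_ne hb, zero_mul]
      · intro hb
        exact absurd (Finset.mem_univ _) hb
    rw [h1]
    exact Submodule.zero_mem _
  | succ r ih =>
    obtain ⟨d, hd⟩ := ih
    refine ⟨2 * d + 1, fun s M hM e he x h => ?_⟩
    have hsub : Set.range (fun q : Fin r => e q.succ) ⊆ Set.range e := by
      rintro _ ⟨q, rfl⟩
      exact ⟨q.succ, rfl⟩
    by_cases h0 : e 0 = 0
    · refine Submodule.span_mono hsub (hd s M hM (fun q => e q.succ) (fun q b => he _ b) x ?_)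
      intro κ hκ hκe
      refine h κ (fun b => pow_mono' hM (by omega) (hκ b)) ?_
      intro q
      refine Fin.cases ?_ (fun q => hκe q) q
      rw [h0]
      simp
    · obtain ⟨b₀, hb₀⟩ : ∃ b, e 0 b ≠ 0 := by
        by_contra hcon
        push Not at hcon
        exact h0 (funext hcon)
      set p := e 0 b₀ with hp
      set e' : Fin r → Fin s → ℂ := fun q b => p * e q.succ b - e q.succ b₀ * e 0 b with he'
      set x' : Fin s → ℂ := fun b => p * x b - x b₀ * e 0 b with hx'
      have hM2 : ∀ u ∈ M, ∀ v ∈ M, u * v ∈ M ^ 2 := by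
        intro u hu v hv
        rw [pow_two]
        exact Submodule.mul_mem_mul hu hv
      have h1 : (1 : ℂ) ∈ M ^ 2 := by
        have := hM2 1 hM 1 hM
        rwa [mul_one] at this
      have key : x' ∈ Submodule.span ℂ (Set.range e') := by
        refine hd s (M ^ 2) h1 e' (fun q b => (M ^ 2).sub_mem (hM2 _ (he _ _) _ (he _ _)) (hM2 _ (he _ _) _ (he _ _))) x' ?_
        intro κ' hκ' hκe'
        have hκ'' : ∀ b, κ' b ∈ M ^ (2 * d) := fun b => by
          rw [pow_mul]
          exact hκ' b
        set κ : Fin s → ℂ := fun b => if b = b₀ then -∑ c ∈ Finset.univ.erase b₀, κ' c * e 0 c else κ' b * p with hκ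
        -- the sum against a vector
        have hs : ∀ y : Fin s → ℂ, ∑ b, κ b * y b =
            ∑ b ∈ Finset.univ.erase b₀, κ' b * (p * y b - y b₀ * e 0 b) := by
          intro y
          rw [← Finset.add_sum_erase _ _ (Finset.mem_univ b₀)]
          have e1 : κ b₀ = -∑ c ∈ Finset.univ.erase b₀, κ' c * e 0 c := by
            rw [hκ]
            simp
          have e2 : ∑ b ∈ Finset.univ.erase b₀, κ b * y b = ∑ b ∈ Finset.univ.erase b₀, κ' b * p * y b := by
            refine Finset.sum_congr rfl fun b hb => ?_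
            rw [hκ]
            simp only
            rw [if_neg (Finset.ne_of_mem_erase hb)]
          rw [e1, e2, neg_mul, Finset.sum_mul, ← Finset.sum_neg_distrib, ← Finset.sum_add_distrib]
          refine Finset.sum_congr rfl fun b _ => ?_
          ring
        have hs' : ∀ y : Fin s → ℂ, ∑ b ∈ Finset.univ.erase b₀, κ' b * (p * y b - y b₀ * e 0 b) =
            ∑ b, κ' b * (p * y b - y b₀ * e 0 b) := by
          intro y
          refine Finset.sum_subset (Finset.erase_subset _ _) fun b _ hb => ?_
          have hb' : b = b₀ := by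
            by_contra hne
            exact hb (Finset.mem_erase.2 ⟨hne, Finset.mem_univ _⟩)
          rw [hb', ← hp]
          ring
        have h2 := h κ (by
          intro b
          rw [hκ]
          simp only
          split_ifs
          · refine Submodule.neg_mem _ (Submodule.sum_mem _ fun c _ => ?_)
            rw [pow_succ]
            exact Submodule.mul_mem_mul (hκ'' c) (he 0 c)
          · rw [pow_succ]
            exact Submodule.mul_mem_mul (hκ'' b) (he 0 b₀)) (by
          intro q
          rw [hs, hs']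
          refine Fin.cases ?_ (fun q => hκe' q) q
          refine Finset.sum_eq_zero fun b _ => ?_
          rw [← hp]
          ring)
        rw [hs, hs'] at h2
        exact h2
      have h3 : x = p⁻¹ • (x' + x b₀ • e 0) := by
        funext b
        rw [Pi.smul_apply, Pi.add_apply, Pi.smul_apply, smul_eq_mul, smul_eq_mul, hx']
        simp only
        field_simp
        ring
      rw [h3]
      refine Submodule.smul_mem _ _ (Submodule.add_mem _ ?_ (Submodule.smul_mem _ _ (Submodule.subset_span ⟨0, rfl⟩)))
      refine (Submodule.span_le.2 ?_) key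
      rintro _ ⟨q, rfl⟩
      have h4 : e' q = p • e q.succ - e q.succ b₀ • e 0 := by
        funext b
        rw [Pi.sub_apply, Pi.smul_apply, Pi.smul_apply, smul_eq_mul, smul_eq_mul]
      rw [h4]
      exact Submodule.sub_mem _ (Submodule.smul_mem _ _ (Submodule.subset_span ⟨_, rfl⟩))
        (Submodule.smul_mem _ _ (Submodule.subset_span ⟨_, rfl⟩))

end Pool.Agent.X120.HG
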