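import Pool.Agent.X120.HG.Hyt

/-!
# Counting non-generic tuples of fibres
-/

set_option autoImplicit false

open Matrix

namespace Pool.Agent.X120.HG

open Pool.Agent.Y119.HY Pool.Agent.Y119.HZ Pool.Agent.Y118.CM
open Pool.Agent.X120.GS (GoodZ)

/-- a Hodge structure with the first bilinear relation -/
structure HS {n : ℕ} (w : ℕ) (A : Matrix (Fin n) (Fin n) ℚ) (H : ℕ → Submodule ℂ (Fin n → ℂ)) : Prop where
  alt : Aᵀ = -A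
  nondeg : A.det ≠ 0
  span : (⨆ p : {p : ℕ // p ≤ w}, H p) = ⊤
  conj : ∀ p ≤ w, ∀ v ∈ H p, (fun i => star (v i)) ∈ H (w - p)
  orth : ∀ p ≤ w, ∀ r ≤ w, p + r ≠ w → ∀ v ∈ H p, ∀ u ∈ H r, v ⬝ᵥ (cq A *ᵥ u) = 0

theorem HS.data {n w : ℕ} (hw : 0 < w) {A : Matrix (Fin n) (Fin n) ℚ} {H : ℕ → Submodule ℂ (Fin n → ℂ)} (h : HS w A H)
    {ω : Fin n → ℂ} (hω0 : ω ≠ 0) (hω : H w = Submodule.span ℂ {ω}) :
    ∃ (B : Matrix (Fin n) (Fin n) ℂ) (p : Fin n → ℕ) (i₀ i₁ : Fin n) (c₀ : ℂ), HD w A B p i₀ i₁ ∧ c₀ ≠ 0 ∧ B i₀ = c₀ • ω ∧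
      Hop w H (opB B (pz p)) := by
  obtain ⟨B, p, i₀, i₁, c₀, hB, hp, h0, h1, hform, hconj', hc₀0, hc₀, hop⟩ := hodge_data hw h.nondeg h.span h.conj h.orth hω0 hω
  refine ⟨B, p, i₀, i₁, c₀, ⟨hw, h.alt, h.nondeg, hB, hp, h0, h1, hform, hconj'⟩, hc₀0, hc₀, ?_⟩
  have h2 : opB B (pz p) = B⁻¹ * Matrix.diagonal (fun i => (p i : ℂ)) * B := by
    unfold opB pz
    simp
  rw [h2]
  exact hop

/-- relative genericity of a tuple of Hodge structures -/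
def RG {n₀ k : ℕ} {n : Fin k → ℕ} (Φ₀ : Matrix (Fin n₀) (Fin n₀) ℂ) (w : Fin k → ℕ)
    (A : ∀ i, Matrix (Fin (n i)) (Fin (n i)) ℚ) (H : ∀ i, ℕ → Submodule ℂ (Fin (n i) → ℂ)) : Prop :=
  ∀ V : Submodule ℚ (TM n₀ n ℚ), (∀ X ∈ V, ∀ Y ∈ V, tbr X Y ∈ V) →
    (∀ Φ : ∀ i, Matrix (Fin (n i)) (Fin (n i)) ℂ, (∀ i, Hop (w i) (H i) (Φ i)) →
      ∀ φ : ℂ →ₗ[ℚ] ℚ, ((ph φ Φ₀, fun i => ph φ (Φ i)) : TM n₀ n ℚ) ∈ V) →
    ∀ X : ∀ i, Matrix (Fin (n i)) (Fin (n i)) ℚ, (∀ i, IsSp (A i) (X i)) → ((0, X) : TM n₀ n ℚ) ∈ V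

/-- **The counting theorem.** -/
theorem hyp_gen (n₀ k : ℕ) (m : Fin k → ℕ) (hm : ∀ i, 1 ≤ m i) (β : ∀ i, Fin (m i) → ℚ)
    (hβ : ∀ i j, ∀ a : ℤ, β i j ≠ a) (b : Fin k → ℕ) (hb : ∀ i, 2 ≤ b i) :
    ∃ K : ℝ, 0 ≤ K ∧ ∀ (B₀ : Matrix (Fin n₀) (Fin n₀) ℂ), IsUnit B₀.det → ∀ p₀ : Fin n₀ → ℤ,
      ∀ C : ∀ i, Matrix (Fin (2 * m i)) (Fin (2 * m i)) ℂ, (∀ i, (C i).det ≠ 0) → ∀ N : ℕ, 2 ≤ N →
      ∀ S : Finset (Fin k → ℕ), (∀ t ∈ S, (∀ i, 1 ≤ t i ∧ t i ≤ N) ∧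
        ¬ ∀ (A : ∀ i, Matrix (Fin (2 * m i)) (Fin (2 * m i)) ℚ) (H : ∀ i, ℕ → Submodule ℂ (Fin (2 * m i) → ℂ)),
          (∀ i, HS (2 * m i - 1) (A i) (H i)) →
          (∀ i, H i (2 * m i - 1) = Submodule.span ℂ {perr (β i) (b i ^ t i) 0 ᵥ* C i}) →
          RG (opB B₀ p₀) (fun i => 2 * m i - 1) A H) →
        (S.card : ℝ) * N ≤ K * (N : ℝ) ^ k * Real.log N := by
  classical
  obtain ⟨d, hd⟩ := rel_mult n₀
  have hβ' : ∀ i j, ∀ l : ℕ, (l : ℚ) + β i j ≠ 0 ∧ (l : ℚ) + -β i j ≠ 0 := by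
    intro i j l
    constructor
    · intro h
      apply hβ i j (-(l : ℤ))
      push_cast
      linear_combination h
    · intro h
      apply hβ i j (l : ℤ)
      push_cast
      linear_combination -h
  have hQ : ∀ i, QD (2 * m i) (QB (β i)) := fun i => QD_QB (hm i) (hβ' i)
  have hdd : ∀ i, (fun c : Fin (2 * m i) => (dd (β i) 0 c : ℂ)) ≠ 0 := by
    intro i h
    have h1 := congrFun h ⟨0, by have := hm i; omega⟩
    have h2 : (dd (β i) 0 0 : ℂ) = 0 := h1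
    have h3 : dd (β i) 0 0 ≠ 0 := dd_ne fun j => by
      have := hβ i j 0
      simpa using this
    exact h3 (by exact_mod_cast h2)
  set D : ℕ := ((n₀ * n₀) * (n₀ * n₀) + 1) ^ d with hD
  obtain ⟨K, hK, hcount⟩ := Pool.Agent.X120.GS.hyp_relV k D 4 (fun i => 2 * m i)
      (fun i => QB (β i)) hQ (fun i μ hμ => Pool.Agent.X120.GS.QB_rat (β i) hμ)
      (fun i a c => sdc_hps (hβ' i) (hQ i) a c) (b := b) hb
  refine ⟨K, hK, ?_⟩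
  intro B₀ hB₀ p₀ C hC N hN S hS
  have hΩ : ∀ i, IsUnit (Omc (β i) (C i)) := fun i => Omc_unit (hQ i) (hC i)
  have hEf := (EntM_fin B₀).1
  obtain ⟨hVf, hVd⟩ := finrank_pow_le' (EntM B₀) d
  have hVD : Module.finrank ℚ (EntM B₀ ^ d : Submodule ℚ ℂ) ≤ D := hVd.trans (Nat.pow_le_pow_left (EntM_fin B₀).2 d)
  have h1M : (1 : ℂ) ∈ EntM B₀ ^ d := by
    refine pow_mono' (EntM_one B₀) (Nat.zero_le d) ?_
    rw [pow_zero]
    exact Submodule.one_le.1 le_rfl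
  refine hcount (fun i => Omc (β i) (C i)) hΩ (EntM B₀ ^ d) hVD N hN S fun t ht => ?_
  obtain ⟨hbox, hnot⟩ := hS t ht
  refine ⟨hbox, fun hgood => hnot ?_⟩
  intro A H hH hHω
  have hs : ∀ i, 2 ≤ b i ^ t i := fun i => (hb i).trans (Nat.le_self_pow (by have := (hbox i).1; omega) _)
  set W : ∀ i, Matrix (Fin (2 * m i)) (Fin (2 * m i)) ℂ := fun i => (Yt (2 * m i) (QB (β i)) (b i ^ t i) * Omc (β i) (C i))ᵀ with hW
  set B' : ∀ i, Matrix (Fin (2 * m i)) (Fin (2 * m i)) ℂ := fun i =>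
    (Omc (β i) (C i))ᵀ * cm (Jm (2 * m i) (QB (β i))) * Omc (β i) (C i) with hB'
  have hWJ : ∀ i, W i * cm (Jm (2 * m i) (QB (β i))) * (W i)ᵀ = B' i := fun i =>
    Pool.Agent.Y123.GN.cM_form (k := k) (n := fun i => 2 * m i) (Q := fun i => QB (β i)) hQ (fun i => Omc (β i) (C i))
      (t := fun i => b i ^ t i) hs i
  have hWu : ∀ i, IsUnit (W i) := fun i =>
    Pool.Agent.Y123.GN.cM_unit (k := k) (n := fun i => 2 * m i) (Q := fun i => QB (β i)) hQ hΩ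
      (t := fun i => b i ^ t i) hs i
  have hBt : ∀ i, (B' i)ᵀ = -B' i := fun i =>
    Pool.Agent.Y123.GN.PM'_skew (k := k) (n := fun i => 2 * m i) (Q := fun i => QB (β i)) hQ (fun i => Omc (β i) (C i)) i
  have hBd : ∀ i, IsUnit (B' i).det := fun i => isUnit_iff_ne_zero.2
    (Pool.Agent.Y123.GN.PM'_det (k := k) (n := fun i => 2 * m i) (Q := fun i => QB (β i)) hQ hΩ i)
  have hω : ∀ i, perr (β i) (b i ^ t i) 0 ᵥ* C i = W i *ᵥ fun c => ((dd (β i) 0 c : ℚ) : ℂ) := fun i =>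
    per_om (hm i) (hQ i) (hs i) (C i)
  have hω0 : ∀ i, W i *ᵥ (fun c => ((dd (β i) 0 c : ℚ) : ℂ)) ≠ 0 := by
    intro i h
    apply hdd i
    have hWd := (Matrix.isUnit_iff_isUnit_det _).1 (hWu i)
    have h3 := congrArg (fun x => (W i)⁻¹ *ᵥ x) h
    simp only [Matrix.mulVec_mulVec, Matrix.nonsing_inv_mul _ hWd, Matrix.one_mulVec, Matrix.mulVec_zero] at h3
    exact h3
  have hw : ∀ i, 0 < 2 * m i - 1 := fun i => by have := hm i; omega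
  have hdata := fun i => (hH i).data (hw i) (ω := W i *ᵥ fun c => ((dd (β i) 0 c : ℚ) : ℂ)) (hω0 i)
    (by rw [hHω i, hω i])
  choose B p i₀ i₁ c₀ hHD hc₀ hBc hop using hdata
  intro V hbr hΦ X hX
  refine hd B₀ hB₀ p₀ k (fun i => 2 * m i) (fun i => 2 * m i - 1) A B p i₀ i₁ hHD ?_ ?_ V hbr (hΦ _ hop) X hX
  · intro i
    rw [hBc]
    exact (noQ_of (d := fun i c => dd (β i) 0 c) (D := 4) (by norm_num) hgood hWJ hBd hBt (hω0 i)).smul (hc₀ i)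
  · intro i j hij
    rw [hBc, hBc]
    exact (noB_of (d := fun i c => dd (β i) 0 c) h1M le_rfl hgood hWJ hBd hBt hij (hω0 j)).smul (hc₀ i) (hc₀ j)

end Pool.Agent.X120.HG
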