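import Pool.Agent.X120.HG.Sp

/-!
# Complexifications of rational spaces of pairs of matrices
-/

set_option autoImplicit false

open Matrix

namespace Pool.Agent.X120.HG

section one
variable {n : ℕ}

/-- a functional applied to the entries -/
noncomputable def ph (φ : ℂ →ₗ[ℚ] ℚ) (Z : Matrix (Fin n) (Fin n) ℂ) : Matrix (Fin n) (Fin n) ℚ := Z.map φ

variable (φ : ℂ →ₗ[ℚ] ℚ)

theorem phi_rat (q : ℚ) (z : ℂ) : φ ((q : ℂ) * z) = q * φ z := by
  have h1 : (q : ℂ) * z = q • z := (Rat.smul_def q z).symm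
  rw [h1, map_smul, smul_eq_mul]

theorem ph_add (Z W : Matrix (Fin n) (Fin n) ℂ) : ph φ (Z + W) = ph φ Z + ph φ W := by
  ext i j
  simp [ph]

theorem ph_sub (Z W : Matrix (Fin n) (Fin n) ℂ) : ph φ (Z - W) = ph φ Z - ph φ W := by
  ext i j
  simp [ph]

theorem ph_neg (Z : Matrix (Fin n) (Fin n) ℂ) : ph φ (-Z) = -ph φ Z := by
  ext i j
  simp [ph]

theorem ph_zero : ph φ (0 : Matrix (Fin n) (Fin n) ℂ) = 0 := by
  ext i j
  simp [ph]

theorem ph_tr (Z : Matrix (Fin n) (Fin n) ℂ) : ph φ Zᵀ = (ph φ Z)ᵀ := rfl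

theorem ph_mul_right (Z : Matrix (Fin n) (Fin n) ℂ) (A : Matrix (Fin n) (Fin n) ℚ) : ph φ (Z * cq A) = ph φ Z * A := by
  ext i j
  unfold ph cq
  rw [Matrix.map_apply, Matrix.mul_apply, Matrix.mul_apply, map_sum]
  refine Finset.sum_congr rfl fun l _ => ?_
  rw [Matrix.map_apply, Matrix.map_apply, mul_comm, phi_rat, mul_comm]

theorem ph_mul_left (Z : Matrix (Fin n) (Fin n) ℂ) (A : Matrix (Fin n) (Fin n) ℚ) : ph φ (cq A * Z) = A * ph φ Z := by
  ext i j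
  unfold ph cq
  rw [Matrix.map_apply, Matrix.mul_apply, Matrix.mul_apply, map_sum]
  refine Finset.sum_congr rfl fun l _ => ?_
  rw [Matrix.map_apply, Matrix.map_apply, phi_rat]

theorem ph_smul_cq (c : ℂ) (A : Matrix (Fin n) (Fin n) ℚ) : ph φ (c • cq A) = φ c • A := by
  ext i j
  unfold ph cq
  rw [Matrix.map_apply, Matrix.smul_apply, Matrix.smul_apply, Matrix.map_apply, smul_eq_mul, smul_eq_mul, mul_comm, phi_rat,
    mul_comm]

theorem ph_cq (A : Matrix (Fin n) (Fin n) ℚ) : ph φ (cq A) = φ 1 • A := by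
  have h1 := ph_smul_cq φ 1 A
  rwa [one_smul] at h1

theorem trace_ph (Z : Matrix (Fin n) (Fin n) ℂ) : (ph φ Z).trace = φ Z.trace := by
  unfold ph Matrix.trace
  rw [map_sum]
  rfl

/-- the functional `z ↦ φ (c z)` -/
noncomputable def phs (c : ℂ) : ℂ →ₗ[ℚ] ℚ := φ ∘ₗ (LinearMap.mulLeft ℚ c)

theorem ph_smul (c : ℂ) (Z : Matrix (Fin n) (Fin n) ℂ) : ph φ (c • Z) = ph (phs φ c) Z := rfl

/-- the functional `z ↦ φ (conj z)` -/
noncomputable def phc : ℂ →ₗ[ℚ] ℚ where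
  toFun := fun z => φ (star z)
  map_add' := fun x y => by rw [star_add, map_add]
  map_smul' := fun q x => by
    have h1 : star (q • x) = q • star x := by
      rw [Rat.smul_def, Rat.smul_def, star_mul']
      congr 1
      simp
    rw [h1, map_smul, RingHom.id_apply]

theorem ph_star (Z : Matrix (Fin n) (Fin n) ℂ) : ph φ (Z.map star) = ph (phc φ) Z := rfl

end one

/-- all entries of finitely many matrices are combinations of coordinates -/
theorem decomp {ι : Type} [Fintype ι] (z : ι → ℂ) : ∃ (m : ℕ) (c : Fin m → ℂ) (φ : Fin m → (ℂ →ₗ[ℚ] ℚ)),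
    ∀ i, z i = ∑ j, c j * ((φ j (z i) : ℚ) : ℂ) := by
  classical
  set b := Module.Basis.ofVectorSpace ℚ ℂ with hb
  set s : Finset _ := Finset.univ.biUnion fun i => (b.repr (z i)).support with hs
  refine ⟨s.card, fun j => b (s.equivFin.symm j), fun j => b.coord (s.equivFin.symm j), fun i => ?_⟩
  have h1 := b.linearCombination_repr (z i)
  rw [Finsupp.linearCombination_apply, Finsupp.sum_of_support_subset (s := s)] at h1
  · have h2 : ∑ j : Fin s.card, b (s.equivFin.symm j) * ((b.coord (s.equivFin.symm j) (z i) : ℚ) : ℂ) =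
        ∑ a : s, b a * ((b.coord a (z i) : ℚ) : ℂ) :=
      Equiv.sum_comp s.equivFin.symm fun a : s => b a * ((b.coord a (z i) : ℚ) : ℂ)
    rw [h2, Finset.sum_coe_sort s fun a => b a * ((b.coord a (z i) : ℚ) : ℂ)]
    conv_lhs => rw [← h1]
    refine Finset.sum_congr rfl fun a _ => ?_
    rw [Rat.smul_def, mul_comm]
    rfl
  · intro a ha
    rw [hs, Finset.mem_biUnion]
    exact ⟨i, Finset.mem_univ _, ha⟩
  · intro a _
    rw [zero_smul]

section one'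
variable {n : ℕ}

theorem cx_of {V : Submodule ℚ (Matrix (Fin n) (Fin n) ℚ)} {Z : Matrix (Fin n) (Fin n) ℂ} (h : ∀ φ, ph φ Z ∈ V) :
    Z ∈ cx V := by
  obtain ⟨m, c, φ, h1⟩ := decomp (fun x : Fin n × Fin n => Z x.1 x.2)
  have h2 : Z = ∑ j, c j • cq (ph (φ j) Z) := by
    ext a b
    rw [Matrix.sum_apply]
    exact h1 (a, b)
  rw [h2]
  exact Submodule.sum_mem _ fun j _ => Submodule.smul_mem _ _ (Submodule.subset_span ⟨_, h (φ j), rfl⟩)

theorem of_cx {V : Submodule ℚ (Matrix (Fin n) (Fin n) ℚ)} {Z : Matrix (Fin n) (Fin n) ℂ} (h : Z ∈ cx V)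
    (φ : ℂ →ₗ[ℚ] ℚ) : ph φ Z ∈ V := by
  unfold cx at h
  induction h using Submodule.span_induction generalizing φ with
  | mem x hx =>
    obtain ⟨Y, hY, rfl⟩ := hx
    rw [ph_cq]
    exact V.smul_mem _ hY
  | zero =>
    rw [ph_zero]
    exact V.zero_mem
  | add x y _ _ hx hy =>
    rw [ph_add]
    exact V.add_mem (hx φ) (hy φ)
  | smul a x _ hx =>
    rw [ph_smul]
    exact hx _

end one'

section pair
variable {a b : ℕ}

/-- the pairs of matrices -/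
abbrev PM (a b : ℕ) (K : Type) : Type := Matrix (Fin a) (Fin a) K × Matrix (Fin b) (Fin b) K

/-- the complexification -/
def inC (V : Submodule ℚ (PM a b ℚ)) : Submodule ℂ (PM a b ℂ) where
  carrier := {Z | ∀ φ : ℂ →ₗ[ℚ] ℚ, ((ph φ Z.1, ph φ Z.2) : PM a b ℚ) ∈ V}
  zero_mem' := fun φ => by
    show ((ph φ 0, ph φ 0) : PM a b ℚ) ∈ V
    rw [ph_zero, ph_zero]
    exact V.zero_mem
  add_mem' := fun {x y} hx hy φ => by
    show ((ph φ (x.1 + y.1), ph φ (x.2 + y.2)) : PM a b ℚ) ∈ V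
    rw [ph_add, ph_add]
    exact V.add_mem (hx φ) (hy φ)
  smul_mem' := fun c x hx φ => by
    show ((ph φ (c • x.1), ph φ (c • x.2)) : PM a b ℚ) ∈ V
    rw [ph_smul, ph_smul]
    exact hx _

variable {V : Submodule ℚ (PM a b ℚ)}

theorem inC_of {Z : PM a b ℚ} (hZ : Z ∈ V) : ((cq Z.1, cq Z.2) : PM a b ℂ) ∈ inC V := by
  intro φ
  show ((ph φ (cq Z.1), ph φ (cq Z.2)) : PM a b ℚ) ∈ V
  rw [ph_cq, ph_cq]
  exact V.smul_mem _ hZ

theorem inC_star {Z : PM a b ℂ} (hZ : Z ∈ inC V) : ((Z.1.map star, Z.2.map star) : PM a b ℂ) ∈ inC V :=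
  fun φ => hZ (phc φ)

theorem sum_pair {m : ℕ} (c : Fin m → ℂ) (F : Fin m → Matrix (Fin a) (Fin a) ℂ) (G : Fin m → Matrix (Fin b) (Fin b) ℂ) :
    ((∑ j, c j • F j, ∑ j, c j • G j) : PM a b ℂ) = ∑ j, c j • ((F j, G j) : PM a b ℂ) := by
  refine Prod.ext ?_ ?_
  · rw [Prod.fst_sum]
    rfl
  · rw [Prod.snd_sum]
    rfl

theorem br_sum {m : ℕ} (c : Fin m → ℂ) (Z : Matrix (Fin a) (Fin a) ℂ) (W : Fin m → Matrix (Fin a) (Fin a) ℂ) :
    Z * (∑ j, c j • W j) - (∑ j, c j • W j) * Z = ∑ j, c j • (Z * W j - W j * Z) := by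
  rw [Finset.mul_sum, Finset.sum_mul, ← Finset.sum_sub_distrib]
  refine Finset.sum_congr rfl fun j _ => ?_
  rw [Matrix.mul_smul, Matrix.smul_mul, smul_sub]

theorem inC_br1 (hbr : ∀ X ∈ V, ∀ Y ∈ V, ((X.1 * Y.1 - Y.1 * X.1, X.2 * Y.2 - Y.2 * X.2) : PM a b ℚ) ∈ V)
    {Z : PM a b ℂ} (hZ : Z ∈ inC V) {Y : PM a b ℚ} (hY : Y ∈ V) :
    ((Z.1 * cq Y.1 - cq Y.1 * Z.1, Z.2 * cq Y.2 - cq Y.2 * Z.2) : PM a b ℂ) ∈ inC V := by
  intro ψ
  show ((ph ψ (Z.1 * cq Y.1 - cq Y.1 * Z.1), ph ψ (Z.2 * cq Y.2 - cq Y.2 * Z.2)) : PM a b ℚ) ∈ V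
  rw [ph_sub, ph_sub, ph_mul_left, ph_mul_right, ph_mul_left, ph_mul_right]
  exact hbr _ (hZ ψ) _ hY

theorem decomp_pair (W : PM a b ℂ) : ∃ (m : ℕ) (c : Fin m → ℂ) (φ : Fin m → (ℂ →ₗ[ℚ] ℚ)),
    W.1 = ∑ j, c j • cq (ph (φ j) W.1) ∧ W.2 = ∑ j, c j • cq (ph (φ j) W.2) := by
  obtain ⟨m, c, φ, h1⟩ := decomp (Sum.elim (fun x : Fin a × Fin a => W.1 x.1 x.2) (fun x : Fin b × Fin b => W.2 x.1 x.2))
  refine ⟨m, c, φ, ?_, ?_⟩
  · ext i j
    rw [Matrix.sum_apply]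
    exact h1 (Sum.inl (i, j))
  · ext i j
    rw [Matrix.sum_apply]
    exact h1 (Sum.inr (i, j))

/-- brackets -/
theorem inC_br (hbr : ∀ X ∈ V, ∀ Y ∈ V, ((X.1 * Y.1 - Y.1 * X.1, X.2 * Y.2 - Y.2 * X.2) : PM a b ℚ) ∈ V)
    {Z W : PM a b ℂ} (hZ : Z ∈ inC V) (hW : W ∈ inC V) :
    ((Z.1 * W.1 - W.1 * Z.1, Z.2 * W.2 - W.2 * Z.2) : PM a b ℂ) ∈ inC V := by
  obtain ⟨m, c, φ, e1, e2⟩ := decomp_pair W
  have h4 := br_sum c Z.1 fun j => cq (ph (φ j) W.1)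
  have h5 := br_sum c Z.2 fun j => cq (ph (φ j) W.2)
  rw [← e1] at h4
  rw [← e2] at h5
  rw [h4, h5, sum_pair c (fun j => Z.1 * cq (ph (φ j) W.1) - cq (ph (φ j) W.1) * Z.1)
    (fun j => Z.2 * cq (ph (φ j) W.2) - cq (ph (φ j) W.2) * Z.2)]
  refine Submodule.sum_mem _ fun j _ => Submodule.smul_mem _ _ ?_
  have hw : ((ph (φ j) W.1, ph (φ j) W.2) : PM a b ℚ) ∈ V := hW (φ j)
  have h6 := inC_br1 hbr hZ hw
  exact h6

/-- linear functionals on pairs -/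
theorem exists_fun_p {X : PM a b ℚ} (hX : X ∉ V) :
    ∃ L : PM a b ℚ, (∀ Y ∈ V, (Y.1 * L.1).trace + (Y.2 * L.2).trace = 0) ∧ (X.1 * L.1).trace + (X.2 * L.2).trace ≠ 0 := by
  obtain ⟨f, hf1, hf2⟩ := Submodule.exists_le_ker_of_notMem hX
  have h1 : ∀ Y : PM a b ℚ, (Y.1 * Matrix.of fun j i => f (Matrix.single i j 1, 0)).trace +
      (Y.2 * Matrix.of fun j i => f (0, Matrix.single i j 1)).trace = f Y := by
    intro Y
    have e0 : Y = (Y.1, 0) + (0, Y.2) := by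
      rw [Prod.mk_add_mk, add_zero, zero_add]
    have e1 : (Y.1 * Matrix.of fun j i => f (Matrix.single i j 1, 0)).trace = f (Y.1, 0) := by
      have h2 : (Y.1, (0 : Matrix (Fin b) (Fin b) ℚ)) = ∑ i, ∑ j, Y.1 i j • (Matrix.single i j (1 : ℚ), (0 : Matrix (Fin b) (Fin b) ℚ)) := by
        refine Prod.ext ?_ ?_
        · simp only [Prod.fst_sum]
          show Y.1 = ∑ i, ∑ j, Y.1 i j • Matrix.single i j (1 : ℚ)
          conv_lhs => rw [Matrix.matrix_eq_sum_single Y.1]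
          refine Finset.sum_congr rfl fun i _ => Finset.sum_congr rfl fun j _ => ?_
          rw [Matrix.smul_single, smul_eq_mul, mul_one]
        · simp only [Prod.snd_sum]
          show (0 : Matrix (Fin b) (Fin b) ℚ) = ∑ i, ∑ j, Y.1 i j • (0 : Matrix (Fin b) (Fin b) ℚ)
          simp
      rw [h2, map_sum, Matrix.trace]
      refine Finset.sum_congr rfl fun i _ => ?_
      rw [map_sum, Matrix.diag_apply, Matrix.mul_apply]
      refine Finset.sum_congr rfl fun j _ => ?_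
      rw [Matrix.of_apply, map_smul, smul_eq_mul]
    have e2 : (Y.2 * Matrix.of fun j i => f (0, Matrix.single i j 1)).trace = f (0, Y.2) := by
      have h2 : ((0 : Matrix (Fin a) (Fin a) ℚ), Y.2) = ∑ i, ∑ j, Y.2 i j • ((0 : Matrix (Fin a) (Fin a) ℚ), Matrix.single i j (1 : ℚ)) := by
        refine Prod.ext ?_ ?_
        · simp only [Prod.fst_sum]
          show (0 : Matrix (Fin a) (Fin a) ℚ) = ∑ i, ∑ j, Y.2 i j • (0 : Matrix (Fin a) (Fin a) ℚ)
          simp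
        · simp only [Prod.snd_sum]
          show Y.2 = ∑ i, ∑ j, Y.2 i j • Matrix.single i j (1 : ℚ)
          conv_lhs => rw [Matrix.matrix_eq_sum_single Y.2]
          refine Finset.sum_congr rfl fun i _ => Finset.sum_congr rfl fun j _ => ?_
          rw [Matrix.smul_single, smul_eq_mul, mul_one]
      rw [h2, map_sum, Matrix.trace]
      refine Finset.sum_congr rfl fun i _ => ?_
      rw [map_sum, Matrix.diag_apply, Matrix.mul_apply]
      refine Finset.sum_congr rfl fun j _ => ?_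
      rw [Matrix.of_apply, map_smul, smul_eq_mul]
    rw [e1, e2]
    conv_rhs => rw [e0, map_add]
  refine ⟨(Matrix.of fun j i => f (Matrix.single i j 1, 0), Matrix.of fun j i => f (0, Matrix.single i j 1)), ?_, ?_⟩
  · intro Y hY
    rw [h1]
    exact hf2 hY
  · rw [h1]
    exact hf1

/-- the value of a functional -/
def vl (L : PM a b ℚ) (Z : PM a b ℂ) : ℂ := (Z.1 * cq L.1).trace + (Z.2 * cq L.2).trace

theorem vl_ph (L : PM a b ℚ) (Z : PM a b ℂ) (φ : ℂ →ₗ[ℚ] ℚ) :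
    (ph φ Z.1 * L.1).trace + (ph φ Z.2 * L.2).trace = φ (vl L Z) := by
  unfold vl
  rw [map_add, ← trace_ph, ← trace_ph, ph_mul_right, ph_mul_right]

theorem phi_zero {z : ℂ} (h : ∀ φ : ℂ →ₗ[ℚ] ℚ, φ z = 0) : z = 0 := by
  obtain ⟨m, c, φ, h1⟩ := decomp (fun _ : Fin 1 => z)
  rw [h1 0]
  refine Finset.sum_eq_zero fun j _ => ?_
  rw [h, Rat.cast_zero, mul_zero]

theorem vl_zero {L : PM a b ℚ} (hL : ∀ Y ∈ V, (Y.1 * L.1).trace + (Y.2 * L.2).trace = 0) {Z : PM a b ℂ}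
    (hZ : Z ∈ inC V) : vl L Z = 0 := by
  refine phi_zero fun φ => ?_
  rw [← vl_ph]
  exact hL _ (hZ φ)

/-- membership by functionals -/
theorem inC_iff {Z : PM a b ℂ} (h : ∀ L : PM a b ℚ, (∀ Y ∈ V, (Y.1 * L.1).trace + (Y.2 * L.2).trace = 0) → vl L Z = 0) :
    Z ∈ inC V := by
  intro φ
  by_contra hno
  obtain ⟨L, h1, h2⟩ := exists_fun_p hno
  apply h2
  show (ph φ Z.1 * L.1).trace + (ph φ Z.2 * L.2).trace = 0
  rw [vl_ph, h L h1, map_zero]

end pair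

end Pool.Agent.X120.HG
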