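import Pool.Agent.X120.GS.TF
import Pool.Agent.X120.HG.Inc

/-!
# The action of Lie algebras on tensors
-/

set_option autoImplicit false
set_option linter.unusedSectionVars false

open Matrix

namespace Pool.Agent.X120.HG

open Pool.Agent.X120.GS.TT

section
variable {κ : Type} [Fintype κ] [DecidableEq κ] {R : Type} [Fintype R] {K : Type} [Field K]

/-- the action at one place -/
def dl (X : Matrix R R K) (l : κ) (F : (κ → R) → K) : (κ → R) → K := fun I => ∑ y, X (I l) y * F (Function.update I l y)

/-- the action of a matrix as a derivation -/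
def dr (X : Matrix R R K) (F : (κ → R) → K) : (κ → R) → K := fun I => ∑ l, dl X l F I

theorem dr_eq (X : Matrix R R K) (F : (κ → R) → K) : dr X F = ∑ l, dl X l F := by
  funext I
  rw [Finset.sum_apply]
  rfl

theorem dl_mul (X Y : Matrix R R K) (l : κ) (F : (κ → R) → K) : dl X l (dl Y l F) = dl (X * Y) l F := by
  funext I
  unfold dl
  simp only [Function.update_self, Function.update_idem, Finset.mul_sum]
  rw [Finset.sum_comm]
  refine Finset.sum_congr rfl fun z _ => ?_
  rw [Matrix.mul_apply, Finset.sum_mul]
  refine Finset.sum_congr rfl fun y _ => ?_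
  ring

theorem dl_comm (X Y : Matrix R R K) {l l' : κ} (h : l ≠ l') (F : (κ → R) → K) :
    dl X l (dl Y l' F) = dl Y l' (dl X l F) := by
  funext I
  unfold dl
  simp only [Function.update_of_ne h, Function.update_of_ne h.symm, Finset.mul_sum]
  rw [Finset.sum_comm]
  refine Finset.sum_congr rfl fun z _ => Finset.sum_congr rfl fun y _ => ?_
  rw [Function.update_comm h]
  ring

theorem dl_add (X : Matrix R R K) (l : κ) (F G : (κ → R) → K) : dl X l (F + G) = dl X l F + dl X l G := by
  funext I
  simp only [dl, Pi.add_apply, mul_add, Finset.sum_add_distrib]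

theorem dl_smul (X : Matrix R R K) (l : κ) (c : K) (F : (κ → R) → K) : dl X l (c • F) = c • dl X l F := by
  funext I
  simp only [dl, Pi.smul_apply, smul_eq_mul, Finset.mul_sum]
  exact Finset.sum_congr rfl fun y _ => by ring

theorem dl_sub' (X Y : Matrix R R K) (l : κ) (F : (κ → R) → K) : dl (X - Y) l F = dl X l F - dl Y l F := by
  funext I
  simp only [dl, Pi.sub_apply, Matrix.sub_apply, sub_mul, Finset.sum_sub_distrib]

theorem dl_add' (X Y : Matrix R R K) (l : κ) (F : (κ → R) → K) : dl (X + Y) l F = dl X l F + dl Y l F := by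
  funext I
  simp only [dl, Pi.add_apply, Matrix.add_apply, add_mul, Finset.sum_add_distrib]

theorem dl_smul' (c : K) (X : Matrix R R K) (l : κ) (F : (κ → R) → K) : dl (c • X) l F = c • dl X l F := by
  funext I
  simp only [dl, Pi.smul_apply, Matrix.smul_apply, smul_eq_mul, Finset.mul_sum, mul_assoc]

theorem dl_zero (X : Matrix R R K) (l : κ) : dl X l (0 : (κ → R) → K) = 0 := by
  funext I
  simp [dl]

theorem dl_sum (X : Matrix R R K) (l : κ) (F : κ → (κ → R) → K) : dl X l (∑ l', F l') = ∑ l', dl X l (F l') := by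
  funext I
  simp only [dl, Finset.sum_apply, Finset.mul_sum]
  rw [Finset.sum_comm]

theorem dr_add (X : Matrix R R K) (F G : (κ → R) → K) : dr X (F + G) = dr X F + dr X G := by
  simp only [dr_eq, dl_add, Finset.sum_add_distrib]

theorem dr_smul (X : Matrix R R K) (c : K) (F : (κ → R) → K) : dr X (c • F) = c • dr X F := by
  simp only [dr_eq, dl_smul, Finset.smul_sum]

theorem dr_zero (X : Matrix R R K) : dr X (0 : (κ → R) → K) = 0 := by
  simp only [dr_eq, dl_zero, Finset.sum_const_zero]

theorem dr_add' (X Y : Matrix R R K) (F : (κ → R) → K) : dr (X + Y) F = dr X F + dr Y F := by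
  simp only [dr_eq, dl_add', Finset.sum_add_distrib]

theorem dr_sub' (X Y : Matrix R R K) (F : (κ → R) → K) : dr (X - Y) F = dr X F - dr Y F := by
  simp only [dr_eq, dl_sub', Finset.sum_sub_distrib]

theorem dr_smul' (c : K) (X : Matrix R R K) (F : (κ → R) → K) : dr (c • X) F = c • dr X F := by
  simp only [dr_eq, dl_smul', Finset.smul_sum]

theorem dr_zero' (F : (κ → R) → K) : dr (0 : Matrix R R K) F = 0 := by
  funext I
  simp [dr, dl]

/-- **brackets** -/
theorem dr_br (X Y : Matrix R R K) (F : (κ → R) → K) : dr X (dr Y F) - dr Y (dr X F) = dr (X * Y - Y * X) F := by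
  simp only [dr_eq, dl_sum]
  have h1 : ∀ l l', dl X l (dl Y l' F) - dl Y l' (dl X l F) = if l = l' then dl (X * Y - Y * X) l F else 0 := by
    intro l l'
    split_ifs with h
    · subst h
      rw [dl_mul, dl_mul, dl_sub']
    · rw [dl_comm X Y h, sub_self]
  have h2 : ∑ l, ∑ l', dl Y l (dl X l' F) = ∑ l, ∑ l', dl Y l' (dl X l F) := Finset.sum_comm
  rw [h2, ← Finset.sum_sub_distrib]
  refine Finset.sum_congr rfl fun l _ => ?_
  rw [← Finset.sum_sub_distrib, Finset.sum_congr rfl fun l' _ => h1 l l', Finset.sum_ite_eq, if_pos (Finset.mem_univ _)]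

end

section
variable {κ : Type} [Fintype κ] [DecidableEq κ]

/-- the derivative of the action of a one-parameter family -/
theorem act_hasDeriv {R : Type} [Fintype R] [DecidableEq R] (Y : Matrix R R ℂ) (F : (κ → R) → ℂ) (I : κ → R) :
    HasDerivAt (fun s : ℂ => act (1 + s • Y) F I) (dr Y F I) 0 := by
  have h2 : HasDerivAt (fun s : ℂ => ∑ J : κ → R, (∏ l, (1 + s • Y) (I l) (J l)) * F J)
      (∑ J : κ → R, (∑ l, (∏ l' ∈ Finset.univ.erase l, (1 + (0 : ℂ) • Y) (I l') (J l')) • Y (I l) (J l)) * F J) 0 := by
    refine HasDerivAt.fun_sum fun J _ => ?_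
    refine HasDerivAt.mul_const ?_ _
    refine HasDerivAt.fun_finsetProd fun l _ => ?_
    have h3 : (fun s : ℂ => (1 + s • Y) (I l) (J l)) = fun s => (1 : Matrix R R ℂ) (I l) (J l) + s * Y (I l) (J l) := by
      funext s
      rw [Matrix.add_apply, Matrix.smul_apply, smul_eq_mul]
    rw [h3]
    have h4 := ((hasDerivAt_id (0 : ℂ)).mul_const (Y (I l) (J l))).const_add ((1 : Matrix R R ℂ) (I l) (J l))
    rw [one_mul] at h4
    exact h4
  have h5 : (∑ J : κ → R, (∑ l, (∏ l' ∈ Finset.univ.erase l, (1 + (0 : ℂ) • Y) (I l') (J l')) • Y (I l) (J l)) * F J) =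
      dr Y F I := by
    simp only [zero_smul, add_zero, smul_eq_mul, Finset.sum_mul]
    rw [Finset.sum_comm]
    refine Finset.sum_congr rfl fun l _ => ?_
    symm
    refine Finset.sum_of_injOn (fun x => Function.update I l x) ?_ (fun _ _ => Finset.mem_coe.2 (Finset.mem_univ _)) ?_ ?_
    · intro x _ y _ hxy
      have := congrFun hxy l
      simpa using this
    · intro J _ hJ
      obtain ⟨l', hl', hne⟩ : ∃ l', l' ≠ l ∧ I l' ≠ J l' := by
        by_contra hno
        push Not at hno
        apply hJ
        refine ⟨J l, Finset.mem_coe.2 (Finset.mem_univ _), ?_⟩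
        funext l'
        by_cases hl : l' = l
        · subst hl
          simp
        · show Function.update I l (J l) l' = J l'
          rw [Function.update_of_ne hl]
          exact hno l' hl
      have h6 : (1 : Matrix R R ℂ) (I l') (J l') = 0 := Matrix.one_apply_ne hne
      rw [Finset.prod_eq_zero (f := fun l' => (1 : Matrix R R ℂ) (I l') (J l')) (Finset.mem_erase.2 ⟨hl', Finset.mem_univ _⟩) h6,
        zero_mul, zero_mul]
    · intro x _
      have h5 : ∏ l' ∈ Finset.univ.erase l, (1 : Matrix R R ℂ) (I l') (Function.update I l x l') = 1 := by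
        refine Finset.prod_eq_one fun l' hl' => ?_
        rw [Function.update_of_ne (Finset.ne_of_mem_erase hl'), Matrix.one_apply_eq]
      rw [h5, one_mul, Function.update_self]
  rw [← h5]
  exact h2

/-- equivariance -/
theorem act_dr {M N : Type} [Fintype M] [Fintype N] [DecidableEq M] [DecidableEq N] {g : Matrix M N ℂ} {X : Matrix N N ℂ}
    {Y : Matrix M M ℂ} (h : Y * g = g * X) (F : (κ → N) → ℂ) : act g (dr X F) = dr Y (act g F) := by
  funext I
  have h1 := act_hasDeriv Y (act g F) I
  have h2 : HasDerivAt (fun s : ℂ => act g (act (1 + s • X) F) I) (act g (dr X F) I) 0 := by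
    unfold act
    refine HasDerivAt.fun_sum fun J _ => ?_
    exact (act_hasDeriv X F J).const_mul _
  have h3 : (fun s : ℂ => act (1 + s • Y) (act g F) I) = fun s : ℂ => act g (act (1 + s • X) F) I := by
    funext s
    rw [← act_mul, ← act_mul, Matrix.add_mul, Matrix.mul_add, Matrix.one_mul, Matrix.mul_one, Matrix.smul_mul, Matrix.mul_smul, h]
  rw [h3] at h1
  exact h2.unique h1

/-- components -/
theorem dr_cmp {k : ℕ} {R : Fin k → Type} [∀ i, Fintype (R i)] [∀ i, DecidableEq (R i)] {K : Type} [Field K]
    (X : ∀ i, Matrix (R i) (R i) K) (t : κ → Fin k) (F : (κ → Σ i, R i) → K) :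
    dr (blockDiagonal' X) (fun I => if ∀ l, (I l).1 = t l then F I else 0) =
      fun I => if ∀ l, (I l).1 = t l then dr (blockDiagonal' X) F I else 0 := by
  funext I
  unfold dr dl
  by_cases ht : ∀ l, (I l).1 = t l
  · rw [if_pos ht]
    refine Finset.sum_congr rfl fun l _ => Finset.sum_congr rfl fun y _ => ?_
    beta_reduce
    by_cases hy : (I l).1 = y.1
    · rw [if_pos]
      intro l'
      by_cases hl : l' = l
      · subst hl
        rw [Function.update_self, ← hy]
        exact ht l'
      · rw [Function.update_of_ne hl]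
        exact ht l'
    · have h3 : blockDiagonal' X (I l) y = 0 := blockDiagonal'_apply_ne _ _ _ hy
      rw [h3, zero_mul, zero_mul]
  · rw [if_neg ht]
    refine Finset.sum_eq_zero fun l _ => Finset.sum_eq_zero fun y _ => ?_
    beta_reduce
    by_cases hy : (I l).1 = y.1
    · rw [if_neg, mul_zero]
      intro h
      apply ht
      intro l'
      have h1 := h l'
      by_cases hl : l' = l
      · subst hl
        rw [Function.update_self, ← hy] at h1
        exact h1
      · rw [Function.update_of_ne hl] at h1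
        exact h1
    · have h3 : blockDiagonal' X (I l) y = 0 := blockDiagonal'_apply_ne _ _ _ hy
      rw [h3, zero_mul]

end

end Pool.Agent.X120.HG
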