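import Pool.Agent.X120.HG.Abs
import Pool.Agent.X120.GS.Cls
import Pool.Agent.X120.GS.Fpg

/-!
# de Rham-Betti classes relative to a fixed object
-/

set_option autoImplicit false
set_option linter.unusedSectionVars false

open Matrix Module

namespace Pool.Agent.X120.HG

open Pool.Agent.Y123.GN Pool.Agent.Y123.ST Pool.Agent.TH127.PT Pool.Agent.TH119.DR Pool.Agent.X120.GS.TT Pool.Agent.X120.GS

section
variable {n₀ k m r : ℕ} {n : Fin k → ℕ}

theorem act2_eq (g₀ : Matrix (Fin n₀) (Fin n₀) ℂ) (g : ∀ i, Matrix (Fin (n i)) (Fin (n i)) ℂ)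
    (T : (Fin r → Fin n₀) → (Fin m → Σ i, Fin (n i)) → ℂ) (a : Fin r → Fin n₀) :
    act2 g₀ g T a = ∑ b : Fin r → Fin n₀, (∏ l, g₀ (a l) (b l)) • act (blockDiagonal' g) (T b) := by
  funext I
  rw [Finset.sum_apply]
  unfold act2 act
  refine Finset.sum_congr rfl fun b _ => ?_
  rw [Pi.smul_apply, smul_eq_mul, Finset.mul_sum]
  refine Finset.sum_congr rfl fun J _ => ?_
  ring

theorem act2_mul (g₀ h₀ : Matrix (Fin n₀) (Fin n₀) ℂ) (g h : ∀ i, Matrix (Fin (n i)) (Fin (n i)) ℂ)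
    (T : (Fin r → Fin n₀) → (Fin m → Σ i, Fin (n i)) → ℂ) :
    act2 (g₀ * h₀) (fun i => g i * h i) T = act2 g₀ g (act2 h₀ h T) := by
  classical
  funext a
  rw [act2_eq, act2_eq]
  have h1 : ∀ b : Fin r → Fin n₀, act (blockDiagonal' g) (act2 h₀ h T b) =
      ∑ c : Fin r → Fin n₀, (∏ l, h₀ (b l) (c l)) • act (blockDiagonal' fun i => g i * h i) (T c) := by
    intro b
    rw [act2_eq, act_sum]
    refine Finset.sum_congr rfl fun c _ => ?_
    rw [act_smul, ← act_mul, ← blockDiagonal'_mul]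
  simp only [h1, Finset.smul_sum, smul_smul]
  rw [Finset.sum_comm]
  refine Finset.sum_congr rfl fun c _ => ?_
  rw [← Finset.sum_smul]
  congr 1
  simp only [Matrix.mul_apply]
  rw [Finset.prod_univ_sum, Fintype.piFinset_univ]
  refine Finset.sum_congr rfl fun b _ => ?_
  rw [Finset.prod_mul_distrib]

theorem act2_one (T : (Fin r → Fin n₀) → (Fin m → Σ i, Fin (n i)) → ℂ) :
    act2 (1 : Matrix (Fin n₀) (Fin n₀) ℂ) (1 : ∀ i, Matrix (Fin (n i)) (Fin (n i)) ℂ) T = T := by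
  classical
  funext a
  rw [act2_eq, Finset.sum_eq_single a]
  · rw [blockDiagonal'_one, act_one]
    simp
  · intro b _ hb
    obtain ⟨l, hl⟩ : ∃ l, a l ≠ b l := by
      by_contra hno
      push Not at hno
      exact hb (funext fun l => (hno l).symm)
    have h1 : (1 : Matrix (Fin n₀) (Fin n₀) ℂ) (a l) (b l) = 0 := Matrix.one_apply_ne hl
    rw [Finset.prod_eq_zero (f := fun l => (1 : Matrix (Fin n₀) (Fin n₀) ℂ) (a l) (b l)) (Finset.mem_univ l) h1, zero_smul]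
  · intro h
    exact absurd (Finset.mem_univ _) h

theorem act2_inv {x : Matrix (Fin n₀) (Fin n₀) ℂ} (hx : IsUnit x) {X : ∀ i, Matrix (Fin (n i)) (Fin (n i)) ℂ}
    (hX : ∀ i, IsUnit (X i)) (T : (Fin r → Fin n₀) → (Fin m → Σ i, Fin (n i)) → ℂ) :
    act2 x⁻¹ (fun i => (X i)⁻¹) (act2 x X T) = T := by
  rw [← act2_mul, Matrix.nonsing_inv_mul _ ((Matrix.isUnit_iff_isUnit_det _).1 hx)]
  have h1 : (fun i => (X i)⁻¹ * X i) = 1 := by
    funext i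
    exact Matrix.nonsing_inv_mul _ ((Matrix.isUnit_iff_isUnit_det _).1 (hX i))
  rw [h1, act2_one]

theorem act2_pure (g₀ : Matrix (Fin n₀) (Fin n₀) ℂ) (g : ∀ i, Matrix (Fin (n i)) (Fin (n i)) ℂ) (v : (Fin r → Fin n₀) → ℂ)
    (P : (Fin m → Σ i, Fin (n i)) → ℂ) :
    act2 g₀ g (fun a I => v a * P I) = fun a I => act g₀ v a * act (blockDiagonal' g) P I := by
  funext a I
  unfold act2 act
  rw [Finset.sum_mul]
  refine Finset.sum_congr rfl fun b _ => ?_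
  rw [Finset.mul_sum]
  refine Finset.sum_congr rfl fun J _ => ?_
  ring

theorem act2_sum {ι : Type} (s : Finset ι) (g₀ : Matrix (Fin n₀) (Fin n₀) ℂ) (g : ∀ i, Matrix (Fin (n i)) (Fin (n i)) ℂ)
    (T : ι → (Fin r → Fin n₀) → (Fin m → Σ i, Fin (n i)) → ℂ) :
    act2 g₀ g (∑ i ∈ s, T i) = ∑ i ∈ s, act2 g₀ g (T i) := by
  classical
  induction s using Finset.induction_on with
  | empty => rw [Finset.sum_empty, Finset.sum_empty, act2_zero]
  | insert a s ha ih => rw [Finset.sum_insert ha, Finset.sum_insert ha, act2_add, ih]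

/-- the block matrix `x ⊕ μ` -/
noncomputable def wT (x : Matrix (Fin n₀) (Fin n₀) ℂ) (μ : ℂ) : Matrix (Fin n₀ ⊕ Unit) (Fin n₀ ⊕ Unit) ℂ :=
  Matrix.fromBlocks x 0 0 (Matrix.of fun _ _ => μ)

theorem wT_mul (x y : Matrix (Fin n₀) (Fin n₀) ℂ) (μ ν : ℂ) : wT x μ * wT y ν = wT (x * y) (μ * ν) := by
  unfold wT
  rw [Matrix.fromBlocks_multiply]
  simp only [Matrix.mul_zero, Matrix.zero_mul, add_zero, zero_add]
  congr 1
  ext i j
  rw [Matrix.mul_apply]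
  simp

theorem wT_one : wT (1 : Matrix (Fin n₀) (Fin n₀) ℂ) 1 = 1 := by
  unfold wT
  have h1 : (Matrix.of fun _ _ => (1 : ℂ) : Matrix Unit Unit ℂ) = 1 := by
    ext i j
    simp
  rw [h1, fromBlocks_one]

theorem wT_inj {x y : Matrix (Fin n₀) (Fin n₀) ℂ} {μ ν : ℂ} (h : wT x μ = wT y ν) : x = y ∧ μ = ν := by
  constructor
  · ext i j
    exact congrFun (congrFun h (Sum.inl i)) (Sum.inl j)
  · exact congrFun (congrFun h (Sum.inr ())) (Sum.inr ())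

theorem wT_unit {x : Matrix (Fin n₀) (Fin n₀) ℂ} {μ : ℂ} : IsUnit (wT x μ) ↔ IsUnit x ∧ μ ≠ 0 := by
  have h1 : (Matrix.of fun _ _ => μ : Matrix Unit Unit ℂ).det = μ := by
    rw [Matrix.det_unique]
    rfl
  rw [Matrix.isUnit_iff_isUnit_det, Matrix.isUnit_iff_isUnit_det]
  unfold wT
  rw [Matrix.det_fromBlocks_zero₂₁, h1, IsUnit.mul_iff]
  exact and_congr Iff.rfl isUnit_iff_ne_zero

theorem EGw_inv {x : Matrix (Fin n₀) (Fin n₀) ℂ} {μ : ℂ} {X : ∀ i, Matrix (Fin (n i)) (Fin (n i)) ℂ} (hx : IsUnit x)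
    (hμ : μ ≠ 0) (hX : ∀ i, IsUnit (X i)) :
    (EG (wT x μ) X)⁻¹ = EG (wT x⁻¹ μ⁻¹) (fun i => (X i)⁻¹) := by
  refine Matrix.inv_eq_right_inv ?_
  rw [EG_mul, wT_mul, mul_inv_cancel₀ hμ, Matrix.mul_nonsing_inv _ ((Matrix.isUnit_iff_isUnit_det _).1 hx), wT_one]
  have h5 : (fun i => X i * (X i)⁻¹) = 1 := by
    funext i
    exact Matrix.mul_nonsing_inv _ ((Matrix.isUnit_iff_isUnit_det _).1 (hX i))
  rw [h5, EG_one]

theorem EGw_unit {x : Matrix (Fin n₀) (Fin n₀) ℂ} {μ : ℂ} {X : ∀ i, Matrix (Fin (n i)) (Fin (n i)) ℂ} (hx : IsUnit x)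
    (hμ : μ ≠ 0) (hX : ∀ i, IsUnit (X i)) : IsUnit (EG (wT x μ) X) := by
  have h1 : EG (wT x μ) X * EG (wT x⁻¹ μ⁻¹) (fun i => (X i)⁻¹) = 1 := by
    rw [EG_mul, wT_mul, mul_inv_cancel₀ hμ, Matrix.mul_nonsing_inv _ ((Matrix.isUnit_iff_isUnit_det _).1 hx), wT_one]
    have h5 : (fun i => X i * (X i)⁻¹) = 1 := by
      funext i
      exact Matrix.mul_nonsing_inv _ ((Matrix.isUnit_iff_isUnit_det _).1 (hX i))
    rw [h5, EG_one]
  exact (Matrix.isUnit_iff_isUnit_det _).2 (IsUnit.of_mul_eq_one (b := (EG (wT x⁻¹ μ⁻¹) (fun i => (X i)⁻¹)).det)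
    (by rw [← det_mul, h1, det_one]))

/-- the block of an index -/
def blw : IG (Fin n₀ ⊕ Unit) n → Option (Option (Fin k))
  | Sum.inl (Sum.inl _) => none
  | Sum.inl (Sum.inr _) => some none
  | Sum.inr x => some (some x.1)

theorem EGw_off {x : Matrix (Fin n₀) (Fin n₀) ℂ} {μ : ℂ} {X : ∀ i, Matrix (Fin (n i)) (Fin (n i)) ℂ}
    {a b : IG (Fin n₀ ⊕ Unit) n} (h : blw a ≠ blw b) : EG (wT x μ) X a b = 0 := by
  rcases a with (a | a) | ⟨i, a⟩ <;> rcases b with (b | b) | ⟨i', b⟩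
  · exact absurd rfl h
  · rfl
  · rfl
  · rfl
  · exact absurd rfl h
  · rfl
  · rfl
  · rfl
  · show blockDiagonal' X ⟨i, a⟩ ⟨i', b⟩ = 0
    refine blockDiagonal'_apply_ne _ _ _ fun hi => h ?_
    show some (some i) = some (some i')
    rw [hi]

theorem EGw_of {x : Matrix (IG (Fin n₀ ⊕ Unit) n) (IG (Fin n₀ ⊕ Unit) n) ℂ} (h : ∀ a b, blw a ≠ blw b → x a b = 0) :
    x = EG (wT (Matrix.of fun a b => x (Sum.inl (Sum.inl a)) (Sum.inl (Sum.inl b)))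
      (x (Sum.inl (Sum.inr ())) (Sum.inl (Sum.inr ()))))
      (fun i => Matrix.of fun a b => x (Sum.inr ⟨i, a⟩) (Sum.inr ⟨i, b⟩)) := by
  ext a b
  rcases a with (a | a) | ⟨i, a⟩ <;> rcases b with (b | b) | ⟨i', b⟩
  · rfl
  · rw [h _ _ (by simp [blw])]
    rfl
  · rw [h _ _ (by simp [blw])]
    rfl
  · rw [h _ _ (by simp [blw])]
    rfl
  · rfl
  · rw [h _ _ (by simp [blw])]
    rfl
  · rw [h _ _ (by simp [blw])]
    rfl
  · rw [h _ _ (by simp [blw])]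
    rfl
  · show _ = blockDiagonal' (fun i => Matrix.of fun a b => x (Sum.inr ⟨i, a⟩) (Sum.inr ⟨i, b⟩)) ⟨i, a⟩ ⟨i', b⟩
    by_cases hi : i = i'
    · subst hi
      rw [blockDiagonal'_apply_eq]
      rfl
    · rw [blockDiagonal'_apply_ne _ _ _ hi]
      refine h _ _ ?_
      intro h2
      exact hi (Option.some.inj (Option.some.inj h2))

end

section
variable {n₀ k m r : ℕ} {n : Fin k → ℕ} {K : Subfield ℂ}

/-- a form over `K` as a complex form -/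
def ck2 (T : (Fin r → Fin n₀) → (Fin m → Σ i, Fin (n i)) → K) : (Fin r → Fin n₀) → (Fin m → Σ i, Fin (n i)) → ℂ :=
  fun a I => (T a I : ℂ)

/-- the torsor of a class -/
def clsR (j : ℤ) (u v : (Fin r → Fin n₀) → (Fin m → Σ i, Fin (n i)) → K) :
    Set (Matrix (IG (Fin n₀ ⊕ Unit) n) (IG (Fin n₀ ⊕ Unit) n) ℂ) :=
  {y | ∃ (x : Matrix (Fin n₀) (Fin n₀) ℂ) (μ : ℂ) (X : ∀ i, Matrix (Fin (n i)) (Fin (n i)) ℂ), IsUnit x ∧ μ ≠ 0 ∧
    (∀ i, IsUnit (X i)) ∧ y = EG (wT x μ) X ∧ act2 x X (ck2 u) = μ ^ j • ck2 v}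

theorem zrel {z : ℂ} (hz : z ≠ 0) (j : ℤ) (a b : ℂ) : a * z ^ (-j).toNat - b * z ^ j.toNat = 0 ↔ a = z ^ j * b := by
  have h1 : z ^ j * z ^ (-j).toNat = z ^ j.toNat := by
    rcases le_total 0 j with hj | hj
    · have e1 : (-j).toNat = 0 := by omega
      rw [e1, pow_zero, mul_one, ← zpow_natCast, Int.toNat_of_nonneg hj]
    · have e1 : j.toNat = 0 := by omega
      have e2 : (((-j).toNat : ℕ) : ℤ) = -j := Int.toNat_of_nonneg (by omega)
      rw [e1, pow_zero, ← zpow_natCast, e2, ← zpow_add₀ hz, add_neg_cancel, zpow_zero]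
  rw [← h1, sub_eq_zero]
  have h2 : z ^ (-j).toNat ≠ 0 := pow_ne_zero _ hz
  constructor
  · intro h
    have h3 : a * z ^ (-j).toNat = (z ^ j * b) * z ^ (-j).toNat := by rw [h]; ring
    exact mul_right_cancel₀ h2 h3
  · intro h
    rw [h]
    ring

theorem clsR_sub (j : ℤ) (u v : (Fin r → Fin n₀) → (Fin m → Σ i, Fin (n i)) → K) : IsSubtorsor K (clsR j u v) := by
  classical
  have hunit : ∀ y ∈ clsR j u v, IsUnit y := by
    rintro _ ⟨x, μ, X, hx, hμ, hX, rfl, -⟩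
    exact EGw_unit hx hμ hX
  refine subT_iff.1 ⟨?_, {p | ∃ a b : IG (Fin n₀ ⊕ Unit) n, blw a ≠ blw b ∧ p = MvPolynomial.X (a, b)} ∪
    {p | ∃ (a : Fin r → Fin n₀) (I : Fin m → Σ i, Fin (n i)),
      p = (∑ b : Fin r → Fin n₀, ∑ J : Fin m → Σ i, Fin (n i), MvPolynomial.C (u b J) *
      ((∏ l, MvPolynomial.X (Sum.inl (Sum.inl (a l)), Sum.inl (Sum.inl (b l)))) *
        ∏ l, MvPolynomial.X (Sum.inr (I l), Sum.inr (J l)))) *
        MvPolynomial.X (Sum.inl (Sum.inr ()), Sum.inl (Sum.inr ())) ^ (-j).toNat -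
      MvPolynomial.C (v a I) * MvPolynomial.X (Sum.inl (Sum.inr ()), Sum.inl (Sum.inr ())) ^ j.toNat}, fun y => ?_⟩
  · rintro _ ⟨x₁, z₁, X₁, hx₁, hz₁, hX₁, rfl, h₁⟩ _ ⟨x₂, z₂, X₂, hx₂, hz₂, hX₂, rfl, h₂⟩ _ ⟨x₃, z₃, X₃, hx₃, hz₃, hX₃, rfl, h₃⟩
    refine ⟨x₁ * x₂⁻¹ * x₃, z₁ * z₂⁻¹ * z₃, fun i => X₁ i * (X₂ i)⁻¹ * X₃ i, ?_, mul_ne_zero (mul_ne_zero hz₁ (inv_ne_zero hz₂)) hz₃,
      fun i => ?_, ?_, ?_⟩
    · exact (hx₁.mul (Matrix.isUnit_nonsing_inv_iff.2 hx₂)).mul hx₃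
    · exact ((hX₁ i).mul (Matrix.isUnit_nonsing_inv_iff.2 (hX₂ i))).mul (hX₃ i)
    · rw [EGw_inv hx₂ hz₂ hX₂, EG_mul, EG_mul, wT_mul, wT_mul]
    · have e2 : act2 x₂⁻¹ (fun i => (X₂ i)⁻¹) (ck2 v) = z₂ ^ (-j) • ck2 u := by
        have h4 := act2_inv hx₂ hX₂ (ck2 u)
        rw [h₂, act2_smul] at h4
        rw [← h4, smul_smul, ← zpow_add₀ hz₂, neg_add_cancel, zpow_zero, one_smul]
      have e3 := act2_mul (x₁ * x₂⁻¹) x₃ (fun i => X₁ i * (X₂ i)⁻¹) X₃ (ck2 u)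
      have e4 := act2_mul x₁ x₂⁻¹ X₁ (fun i => (X₂ i)⁻¹) (ck2 v)
      refine e3.trans ?_
      rw [h₃, act2_smul, e4, e2, act2_smul, h₁, smul_smul, smul_smul]
      congr 1
      rw [mul_zpow, mul_zpow, _root_.inv_zpow, _root_.zpow_neg]
      ring
  · -- the equations
    have hev : ∀ (a : Fin r → Fin n₀) (I : Fin m → Σ i, Fin (n i)),
        MvPolynomial.eval (fun b : IG (Fin n₀ ⊕ Unit) n × IG (Fin n₀ ⊕ Unit) n => y b.1 b.2)
        (MvPolynomial.map (algebraMap K ℂ) ((∑ b : Fin r → Fin n₀, ∑ J : Fin m → Σ i, Fin (n i), MvPolynomial.C (u b J) *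
      ((∏ l, MvPolynomial.X (Sum.inl (Sum.inl (a l)), Sum.inl (Sum.inl (b l)))) *
        ∏ l, MvPolynomial.X (Sum.inr (I l), Sum.inr (J l)))) *
        MvPolynomial.X (Sum.inl (Sum.inr ()), Sum.inl (Sum.inr ())) ^ (-j).toNat -
      MvPolynomial.C (v a I) * MvPolynomial.X (Sum.inl (Sum.inr ()), Sum.inl (Sum.inr ())) ^ j.toNat)) =
        (∑ b : Fin r → Fin n₀, ∑ J : Fin m → Σ i, Fin (n i), (u b J : ℂ) *
          ((∏ l, y (Sum.inl (Sum.inl (a l))) (Sum.inl (Sum.inl (b l)))) * ∏ l, y (Sum.inr (I l)) (Sum.inr (J l)))) *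
          y (Sum.inl (Sum.inr ())) (Sum.inl (Sum.inr ())) ^ (-j).toNat -
          (v a I : ℂ) * y (Sum.inl (Sum.inr ())) (Sum.inl (Sum.inr ())) ^ j.toNat := by
      intro a I
      simp only [map_sub, map_mul, map_sum, map_prod, map_pow, MvPolynomial.map_X, MvPolynomial.map_C,
        MvPolynomial.eval_X, MvPolynomial.eval_C]
      rfl
    have hact : ∀ (x : Matrix (Fin n₀) (Fin n₀) ℂ) (μ : ℂ) (X : ∀ i, Matrix (Fin (n i)) (Fin (n i)) ℂ), y = EG (wT x μ) X →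
        ∀ (a : Fin r → Fin n₀) (I : Fin m → Σ i, Fin (n i)), (∑ b : Fin r → Fin n₀, ∑ J : Fin m → Σ i, Fin (n i), (u b J : ℂ) *
          ((∏ l, y (Sum.inl (Sum.inl (a l))) (Sum.inl (Sum.inl (b l)))) * ∏ l, y (Sum.inr (I l)) (Sum.inr (J l)))) =
          act2 x X (ck2 u) a I := by
      rintro x μ X rfl a I
      unfold act2
      refine Finset.sum_congr rfl fun b _ => Finset.sum_congr rfl fun J _ => ?_
      rw [mul_comm]
      rfl
    constructor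
    · rintro ⟨x, z, X, hx, hz, hX, rfl, h⟩
      refine ⟨EGw_unit hx hz hX, ?_⟩
      rintro p (⟨a, b, hab, rfl⟩ | ⟨a, I, rfl⟩)
      · rw [MvPolynomial.map_X, MvPolynomial.eval_X]
        exact EGw_off hab
      · rw [hev, hact x z X rfl]
        have h0 : EG (wT x z) X (Sum.inl (Sum.inr ())) (Sum.inl (Sum.inr ())) = z := rfl
        rw [h0, zrel hz]
        exact congrFun (congrFun h a) I
    · rintro ⟨hy, hp⟩
      have h1 := EGw_of (x := y) fun a b hab => by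
        have h2 := hp _ (Or.inl ⟨a, b, hab, rfl⟩)
        rwa [MvPolynomial.map_X, MvPolynomial.eval_X] at h2
      have hu := hy
      rw [h1] at hu
      obtain ⟨hx, hz⟩ := wT_unit.1 (EG_unit hu)
      refine ⟨_, _, _, hx, hz, EG_block_unit hu, h1, ?_⟩
      funext a I
      have h2 := hp _ (Or.inr ⟨a, I, rfl⟩)
      rw [hev, zrel hz, hact _ _ _ h1] at h2
      exact h2

/-- **classes are invariant** -/
theorem inv_of_sta {D : ℕ} {C₀ : Matrix (Fin n₀) (Fin n₀) ℂ} (hC₀ : IsUnit C₀) {Z B : ∀ i, Matrix (Fin (n i)) (Fin (n i)) ℂ}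
    (hZ : ∀ i, IsUnit (Z i)) (hB : ∀ i, Spf (B i)) (hsta : StaG D (wT C₀ tpi) Z B)
    (hKf : FiniteDimensional ℚ K) (hKD : finrank ℚ K ≤ D) {j : ℤ} {u v : (Fin r → Fin n₀) → (Fin m → Σ i, Fin (n i)) → K}
    (hc : act2 C₀ Z (ck2 u) = tpi ^ j • ck2 v) (g : ∀ i, Matrix (Fin (n i)) (Fin (n i)) ℂ)
    (hgB : ∀ i, g i * B i * (g i)ᵀ = B i) (a : Fin r → Fin n₀) :
    act (blockDiagonal' g) (fun I => (v a I : ℂ)) = fun I => (v a I : ℂ) := by
  have hcT : EG (wT C₀ tpi) Z ∈ clsR j u v := ⟨C₀, tpi, Z, hC₀, tpi_ne, hZ, rfl, hc⟩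
  have hdet : ∀ i, (g i).det = 1 := fun i => sp_det1 (hB i) (hgB i)
  have hgu : ∀ i, IsUnit (g i) := fun i => (Matrix.isUnit_iff_isUnit_det _).2 (by rw [hdet i]; exact isUnit_one)
  have h1 := hsta K hKf hKD _ (clsR_sub j u v) hcT (fun i => (hgu i).unit) (fun i => ⟨hdet i, hgB i⟩) _ hcT
  rw [EG_mul, Matrix.one_mul] at h1
  obtain ⟨x, z, X, hx, hz, hX, hzX, h2⟩ := h1
  obtain ⟨h3, h4⟩ := EG_inj hzX
  obtain ⟨h5, h6⟩ := wT_inj h3
  subst h5 h6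
  have h7 : X = fun i => g i * Z i := by
    rw [← h4]
    rfl
  have h8 := act2_mul (1 : Matrix (Fin n₀) (Fin n₀) ℂ) C₀ g Z (ck2 u)
  rw [Matrix.one_mul, ← h7, h2, hc, act2_smul] at h8
  have h9 := smul_right_injective _ (zpow_ne_zero j tpi_ne) h8
  have h10 := congrFun h9 a
  rw [act2_eq, Finset.sum_eq_single a] at h10
  · simp only [Matrix.one_apply_eq, Finset.prod_const_one, one_smul] at h10
    exact h10.symm
  · intro b _ hb
    obtain ⟨l, hl⟩ : ∃ l, a l ≠ b l := by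
      by_contra hno
      push Not at hno
      exact hb (funext fun l => (hno l).symm)
    have h1 : (1 : Matrix (Fin n₀) (Fin n₀) ℂ) (a l) (b l) = 0 := Matrix.one_apply_ne hl
    rw [Finset.prod_eq_zero (f := fun l => (1 : Matrix (Fin n₀) (Fin n₀) ℂ) (a l) (b l)) (Finset.mem_univ l) h1, zero_smul]
  · intro h
    exact absurd (Finset.mem_univ _) h

end

end Pool.Agent.X120.HG
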