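import Pool.Agent.X120.HG.Drb

/-!
# de Rham-Betti classes relative to a fixed object are generated by polarisations and classes of the fixed object
-/

set_option autoImplicit false
set_option linter.unusedSectionVars false

open Matrix Module

namespace Pool.Agent.X120.HG

open Pool.Agent.Y123.GN Pool.Agent.X120.GS.TT Pool.Agent.X120.GS

section
variable {κ : Type} [Fintype κ] [DecidableEq κ] {k : ℕ} {n : Fin k → ℕ}

theorem fm_act' {J B g : ∀ i, Matrix (Fin (n i)) (Fin (n i)) ℂ} {μ : Fin k → ℂ} (h : ∀ i, g i * J i * (g i)ᵀ = μ i • B i)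
    (c : Fin k) : blockDiagonal' g * fm ℂ J c * (blockDiagonal' g)ᵀ = μ c • fm ℂ B c := by
  rw [fm_eq, fm_eq, blockDiagonal'_transpose, ← blockDiagonal'_mul, ← blockDiagonal'_mul, ← blockDiagonal'_smul]
  congr 1
  funext i
  rw [Pi.smul_apply]
  by_cases hc : i = c
  · subst hc
    rw [if_pos rfl, if_pos rfl]
    exact h i
  · rw [if_neg hc, if_neg hc, Matrix.mul_zero, Matrix.zero_mul, smul_zero]

theorem act_mat' {J B g : ∀ i, Matrix (Fin (n i)) (Fin (n i)) ℂ} {μ : Fin k → ℂ} (h : ∀ i, g i * J i * (g i)ᵀ = μ i • B i)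
    {s : ℕ} (e : Fin s × Fin 2 ≃ κ) (c : Fin s → Fin k) :
    act (blockDiagonal' g) (matB J e c) = (∏ l, μ (c l)) • matB B e c := by
  have h1 := act_prod (blockDiagonal' g) e (fun (l : Fin s) (x y : Σ i, Fin (n i)) => fm ℂ J (c l) x y)
  refine h1.trans ?_
  funext I
  rw [Pi.smul_apply, smul_eq_mul]
  have h2 : matB B e c I = ∏ l, fm ℂ B (c l) (I (e (l, 0))) (I (e (l, 1))) := rfl
  rw [h2, ← Finset.prod_mul_distrib]
  refine Finset.prod_congr rfl fun l _ => ?_
  have h3 := congrFun (congrFun (fm_act' h (c l)) (I (e (l, 0)))) (I (e (l, 1)))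
  rw [Matrix.smul_apply, smul_eq_mul, Matrix.mul_apply] at h3
  rw [← h3, Fintype.sum_prod_type, Finset.sum_comm]
  refine Finset.sum_congr rfl fun y _ => ?_
  rw [Matrix.mul_apply, Finset.sum_mul]
  refine Finset.sum_congr rfl fun x _ => ?_
  rw [Matrix.transpose_apply]
  ring

end

section
variable {n₀ k m r : ℕ} {n : Fin k → ℕ} {K : Subfield ℂ}

theorem cast_matQ (B : ∀ i, Matrix (Fin (n i)) (Fin (n i)) ℚ) {s : ℕ} (e : Fin s × Fin 2 ≃ Fin m) (c : Fin s → Fin k)
    (I : Fin m → Σ i, Fin (n i)) : ((matQ K B e c I : K) : ℂ) = matB (fun i => cq (B i)) e c I := by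
  unfold matQ matB
  push_cast
  refine Finset.prod_congr rfl fun l _ => ?_
  split_ifs
  · rw [bd_cq]
    exact map_ratCast (algebraMap K ℂ) _
  · rfl

theorem matQ_type {B : ∀ i, Matrix (Fin (n i)) (Fin (n i)) ℚ} {s : ℕ} {e : Fin s × Fin 2 ≃ Fin m} {c : Fin s → Fin k}
    {I : Fin m → Σ i, Fin (n i)} (h : matQ K B e c I ≠ 0) (l : Fin s) :
    (I (e (l, 0))).1 = c l ∧ (I (e (l, 1))).1 = c l := by
  unfold matQ at h
  have h1 := Finset.prod_ne_zero_iff.1 h l (Finset.mem_univ l)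
  by_cases h2 : (I (e (l, 0))).1 = c l
  · rw [if_pos h2] at h1
    refine ⟨h2, ?_⟩
    by_contra h3
    apply h1
    have h4 : (I (e (l, 0))).1 ≠ (I (e (l, 1))).1 := by
      rw [h2]
      exact fun h => h3 h.symm
    have h5 : ∀ x y : Σ i, Fin (n i), x.1 ≠ y.1 → blockDiagonal' B x y = 0 := by
      rintro ⟨i, x⟩ ⟨j, y⟩ h
      exact blockDiagonal'_apply_ne _ _ _ h
    rw [h5 _ _ h4]
    exact Rat.cast_zero
  · rw [if_neg h2] at h1
    exact absurd rfl h1

/-- the products of type `τ` -/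
def PK (K : Subfield ℂ) (B : ∀ i, Matrix (Fin (n i)) (Fin (n i)) ℚ) (τ : Fin m → Fin k) : Set ((Fin m → Σ i, Fin (n i)) → K) :=
  {P | ∃ (s : ℕ) (e : Fin s × Fin 2 ≃ Fin m) (c : Fin s → Fin k),
    (∀ l, τ (e (l, 0)) = c l ∧ τ (e (l, 1)) = c l) ∧ P = matQ K B e c}

theorem span_typeK {B : ∀ i, Matrix (Fin (n i)) (Fin (n i)) ℚ} {τ : Fin m → Fin k} {v : (Fin m → Σ i, Fin (n i)) → K}
    (hv : v ∈ Submodule.span K {w | ∃ (s : ℕ) (e : Fin s × Fin 2 ≃ Fin m) (c : Fin s → Fin k), w = matQ K B e c})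
    (hτ : ∀ I, v I ≠ 0 → ∀ l, (I l).1 = τ l) : v ∈ Submodule.span K (PK K B τ) := by
  classical
  let π : ((Fin m → Σ i, Fin (n i)) → K) →ₗ[K] ((Fin m → Σ i, Fin (n i)) → K) :=
    { toFun := fun F I => if ∀ l, (I l).1 = τ l then F I else 0
      map_add' := by
        intro F G
        funext I
        show (if ∀ l, (I l).1 = τ l then F I + G I else 0) = (if ∀ l, (I l).1 = τ l then F I else 0) +
          (if ∀ l, (I l).1 = τ l then G I else 0)
        split_ifs <;> simp
      map_smul' := by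
        intro a F
        funext I
        show (if ∀ l, (I l).1 = τ l then a * F I else 0) = a * (if ∀ l, (I l).1 = τ l then F I else 0)
        split_ifs <;> simp }
  have h1 : π v = v := by
    funext I
    show (if ∀ l, (I l).1 = τ l then v I else 0) = v I
    split_ifs with h
    · rfl
    · by_contra h2
      exact h (hτ I (Ne.symm h2))
  rw [← h1]
  have h2 : π v ∈ (Submodule.span K {w | ∃ (s : ℕ) (e : Fin s × Fin 2 ≃ Fin m) (c : Fin s → Fin k), w = matQ K B e c}).map π :=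
    ⟨v, hv, rfl⟩
  rw [Submodule.map_span] at h2
  refine Submodule.span_le.2 ?_ h2
  rintro _ ⟨_, ⟨s, e, c, rfl⟩, rfl⟩
  by_cases hc : ∀ l, τ (e (l, 0)) = c l ∧ τ (e (l, 1)) = c l
  · have h3 : π (matQ K B e c) = matQ K B e c := by
      funext I
      show (if ∀ l, (I l).1 = τ l then matQ K B e c I else 0) = matQ K B e c I
      split_ifs with h
      · rfl
      · by_contra h4
        apply h
        intro l
        obtain ⟨⟨l', ε⟩, rfl⟩ := e.surjective l
        have h5 := matQ_type (Ne.symm h4) l'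
        have h6 : ε = 0 ∨ ε = 1 := by
          fin_cases ε
          · exact Or.inl rfl
          · exact Or.inr rfl
        rcases h6 with rfl | rfl
        · rw [h5.1, (hc l').1]
        · rw [h5.2, (hc l').2]
    rw [h3]
    exact Submodule.subset_span ⟨s, e, c, hc, rfl⟩
  · have h3 : π (matQ K B e c) = 0 := by
      funext I
      show (if ∀ l, (I l).1 = τ l then matQ K B e c I else 0) = 0
      split_ifs with h
      · by_contra h4
        apply hc
        intro l
        have h5 := matQ_type h4 l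
        rw [← h, ← h]
        exact h5
      · rfl
    rw [h3]
    exact Submodule.zero_mem _

/-- **Generation.** -/
theorem cls_gen {K L : Subfield ℂ} (hLK : L ≤ K) {J B : ∀ i, Matrix (Fin (n i)) (Fin (n i)) ℚ} (hB : ∀ i, IsUnit (B i))
    (hBt : ∀ i, (B i)ᵀ = -B i) {C₀ : Matrix (Fin n₀) (Fin n₀) ℂ} (hC₀ : IsUnit C₀) {Z : ∀ i, Matrix (Fin (n i)) (Fin (n i)) ℂ}
    (hZ : ∀ i, IsUnit (Z i)) {w : Fin k → ℕ} (hf : ∀ i, Z i * cq (J i) * (Z i)ᵀ = tpi ^ w i • cq (B i))
    {τ : Fin m → Fin k} {j : ℤ} {u v : (Fin r → Fin n₀) → (Fin m → Σ i, Fin (n i)) → ℂ} (huK : ∀ a I, u a I ∈ K)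
    (hvL : ∀ a I, v a I ∈ L)
    (hc : act2 C₀ Z u = tpi ^ j • v) (hτ : ∀ a I, v a I ≠ 0 → ∀ l, (I l).1 = τ l)
    (hinv : ∀ g : ∀ i, Matrix (Fin (n i)) (Fin (n i)) ℂ, (∀ i, g i * cq (B i) * (g i)ᵀ = cq (B i)) → ∀ a,
      act (blockDiagonal' g) (v a) = v a) :
    (u, v) ∈ Submodule.span L {p : ((Fin r → Fin n₀) → (Fin m → Σ i, Fin (n i)) → ℂ) ×
      ((Fin r → Fin n₀) → (Fin m → Σ i, Fin (n i)) → ℂ) |
      ∃ (s : ℕ) (e : Fin s × Fin 2 ≃ Fin m) (c : Fin s → Fin k) (u₀ v₀ : (Fin r → Fin n₀) → ℂ),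
      (∀ l, τ (e (l, 0)) = c l ∧ τ (e (l, 1)) = c l) ∧ (∀ a, u₀ a ∈ K) ∧ (∀ a, v₀ a ∈ L) ∧
      (act C₀ u₀ = tpi ^ (j - ∑ l, (w (c l) : ℤ)) • v₀) ∧
      p = (fun a I => u₀ a * matB (fun i => cq (J i)) e c I, fun a I => v₀ a * matB (fun i => cq (B i)) e c I)} := by
  classical
  have htpi : tpi ≠ 0 := tpi_ne
  -- the Betti side
  let vL : (Fin r → Fin n₀) → (Fin m → Σ i, Fin (n i)) → L := fun a I => ⟨v a I, hvL a I⟩
  have h1 : ∀ a, vL a ∈ Submodule.span L (PK L B τ) := fun a =>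
    span_typeK (cls_span B hB hBt fun g hg => hinv g (fun i => by
      have e1 : cq (B i) = (B i).map (algebraMap ℚ ℂ) := cq_eq _
      rw [e1]
      exact hg i) a) (fun I hI => hτ a I fun h0 => hI (Subtype.ext h0))
  obtain ⟨b, hb1, hb2, hb3⟩ := exists_linearIndependent L (PK L B τ)
  rw [← hb2] at h1
  have : Finite b := hb3.finite
  have : Fintype b := Fintype.ofFinite b
  have hr : Set.range (Subtype.val : b → (Fin m → Σ i, Fin (n i)) → L) = b := Subtype.range_coe
  have h2 : ∀ a, ∃ V : b → L, ∑ P, V P • (P : (Fin m → Σ i, Fin (n i)) → L) = vL a := by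
    intro a
    have h3 := h1 a
    rw [← hr] at h3
    exact (Submodule.mem_span_range_iff_exists_fun L).1 h3
  choose V hV using h2
  have hb4 : ∀ P : b, ∃ (s : ℕ) (e : Fin s × Fin 2 ≃ Fin m) (c : Fin s → Fin k),
    (∀ l, τ (e (l, 0)) = c l ∧ τ (e (l, 1)) = c l) ∧ (P : (Fin m → Σ i, Fin (n i)) → L) = matQ L B e c := fun P => hb1 P.2
  choose s e c hec hP using hb4
  -- the weight
  have hNh : ∀ P : b, 2 * ∑ l, (w (c P l)) = ∑ l, w (τ l) := by
    intro P
    rw [← Equiv.sum_comp (e P), Fintype.sum_prod_type, Finset.mul_sum]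
    refine Finset.sum_congr rfl fun l _ => ?_
    rw [Fin.sum_univ_two, (hec P l).1, (hec P l).2]
    ring
  set N : ℕ := (∑ l, w (τ l)) / 2 with hN
  have hNP : ∀ P : b, ∑ l, w (c P l) = N := by
    intro P
    have := hNh P
    omega
  -- the de Rham side
  let Pd : b → (Fin m → Σ i, Fin (n i)) → L := fun P => matQ L J (e P) (c P)
  have hact : ∀ P : b, act (blockDiagonal' Z) (fun I => ((Pd P I : L) : ℂ)) = tpi ^ N • fun I => (((P : (Fin m → Σ i, Fin (n i)) → L) I : L) : ℂ) := by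
    intro P
    have e1 : (fun I => ((Pd P I : L) : ℂ)) = matB (fun i => cq (J i)) (e P) (c P) := by
      funext I
      exact cast_matQ J (e P) (c P) I
    have e2 : (fun I => (((P : (Fin m → Σ i, Fin (n i)) → L) I : L) : ℂ)) = matB (fun i => cq (B i)) (e P) (c P) := by
      funext I
      rw [hP P]
      exact cast_matQ B (e P) (c P) I
    rw [e1, e2, act_mat' (μ := fun i => tpi ^ w i) hf, Finset.prod_pow_eq_pow_sum, hNP]
  have hbinj : Function.Injective (Fintype.linearCombination L Pd) := by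
    rw [← LinearMap.ker_eq_bot, LinearMap.ker_eq_bot']
    intro f hf0
    have e1 : (fun I => ((∑ P, f P • Pd P : (Fin m → Σ i, Fin (n i)) → L) I : ℂ)) = 0 := by
      have e0 : ∑ P, f P • Pd P = 0 := hf0
      rw [e0]
      rfl
    have e2 : (fun I => ((∑ P, f P • Pd P : (Fin m → Σ i, Fin (n i)) → L) I : ℂ)) =
        ∑ P, (f P : ℂ) • fun I => ((Pd P I : L) : ℂ) := by
      funext I
      rw [Finset.sum_apply, Finset.sum_apply]
      push_cast
      rfl
    rw [e2] at e1
    have e3 := congrArg (act (blockDiagonal' Z)) e1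
    rw [act_sum, act_zero] at e3
    have e4 : ∑ P, (f P : ℂ) • (fun I => (((P : (Fin m → Σ i, Fin (n i)) → L) I : L) : ℂ)) = 0 := by
      have e5 : tpi ^ N • ∑ P, (f P : ℂ) • (fun I => (((P : (Fin m → Σ i, Fin (n i)) → L) I : L) : ℂ)) = 0 := by
        rw [← e3, Finset.smul_sum]
        refine Finset.sum_congr rfl fun P _ => ?_
        rw [act_smul, hact, smul_comm]
      exact (smul_eq_zero.1 e5).resolve_left (pow_ne_zero _ htpi)
    have e5 : ∑ P, f P • (P : (Fin m → Σ i, Fin (n i)) → L) = 0 := by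
      funext I
      have e6 := congrFun e4 I
      rw [Finset.sum_apply] at e6 ⊢
      apply Subtype.ext
      push_cast
      exact e6
    funext P
    exact (Fintype.linearIndependent_iff.1 hb3) f e5 P
  obtain ⟨G, hG⟩ := LinearMap.exists_leftInverse_of_injective (Fintype.linearCombination L Pd) (LinearMap.ker_eq_bot.2 hbinj)
  -- the functionals over `ℂ`
  let GC : ((Fin m → Σ i, Fin (n i)) → ℂ) → b → ℂ := fun F P => ∑ I, F I * (G (Pi.single I 1) P : ℂ)
  have hGC : ∀ f : (Fin m → Σ i, Fin (n i)) → L, GC (fun I => (f I : ℂ)) = fun P => (G f P : ℂ) := by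
    intro f
    funext P
    have e1 : f = ∑ I, f I • (Pi.single I (1 : L) : (Fin m → Σ i, Fin (n i)) → L) := by
      funext I
      rw [Finset.sum_apply, Finset.sum_eq_single I]
      · simp
      · intro J' _ hJ'
        rw [Pi.smul_apply, Pi.single_eq_of_ne (Ne.symm hJ'), smul_zero]
      · intro h
        exact absurd (Finset.mem_univ _) h
    conv_rhs => rw [e1, map_sum, Finset.sum_apply]
    show ∑ I, (f I : ℂ) * (G (Pi.single I 1) P : ℂ) = _
    push_cast
    refine Finset.sum_congr rfl fun I _ => ?_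
    rw [map_smul, Pi.smul_apply, smul_eq_mul]
    push_cast
    rfl
  have hGPd : ∀ P Q : b, G (Pd P) Q = if Q = P then 1 else 0 := by
    intro P Q
    have e1 : Pd P = Fintype.linearCombination L Pd (Pi.single P 1) := by
      rw [Fintype.linearCombination_apply, Finset.sum_eq_single P]
      · simp
      · intro Q _ hQ
        rw [Pi.single_eq_of_ne hQ, zero_smul]
      · intro h
        exact absurd (Finset.mem_univ _) h
    have e2 := LinearMap.congr_fun hG (Pi.single P 1)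
    rw [LinearMap.comp_apply, ← e1] at e2
    rw [e2]
    show (Pi.single P (1 : L) : b → L) Q = _
    rw [Pi.single_apply]
  -- the coefficients of `u`
  let Uc : b → (Fin r → Fin n₀) → ℂ := fun P => act C₀⁻¹ (tpi ^ (j - (N : ℤ)) • fun a => (V a P : ℂ))
  have hUc : ∀ P, act C₀ (Uc P) = tpi ^ (j - (N : ℤ)) • fun a => (V a P : ℂ) := by
    intro P
    show act C₀ (act C₀⁻¹ _) = _
    rw [← act_mul, Matrix.mul_nonsing_inv _ ((Matrix.isUnit_iff_isUnit_det _).1 hC₀), act_one]
  have hva : ∀ a I, v a I = ∑ P, (V a P : ℂ) * (((P : (Fin m → Σ i, Fin (n i)) → L) I : L) : ℂ) := by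
    intro a I
    have e1 : ((vL a I : L) : ℂ) = v a I := rfl
    rw [← e1, ← hV a, Finset.sum_apply]
    push_cast
    rfl
  have hu : u = fun a I => ∑ P, Uc P a * ((Pd P I : L) : ℂ) := by
    have e1 : act2 C₀ Z (fun a I => ∑ P, Uc P a * ((Pd P I : L) : ℂ)) = tpi ^ j • v := by
      have e2 : (fun (a : Fin r → Fin n₀) (I : Fin m → Σ i, Fin (n i)) => ∑ P, Uc P a * ((Pd P I : L) : ℂ)) =
          ∑ P, fun a I => Uc P a * ((Pd P I : L) : ℂ) := by
        funext a I
        rw [Finset.sum_apply, Finset.sum_apply]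
      rw [e2, act2_sum]
      funext a I
      rw [Finset.sum_apply, Finset.sum_apply]
      have e3 : ∀ P : b, act2 C₀ Z (fun a I => Uc P a * ((Pd P I : L) : ℂ)) a I =
          tpi ^ j * ((V a P : ℂ) * (((P : (Fin m → Σ i, Fin (n i)) → L) I : L) : ℂ)) := by
        intro P
        rw [act2_pure, hUc, hact]
        show (tpi ^ (j - (N : ℤ)) * (V a P : ℂ)) * (tpi ^ N * (((P : (Fin m → Σ i, Fin (n i)) → L) I : L) : ℂ)) = _
        rw [zpow_sub₀ htpi, zpow_natCast]
        have e4 : tpi ^ N ≠ 0 := pow_ne_zero _ htpi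
        field_simp
      rw [Finset.sum_congr rfl fun P _ => e3 P, ← Finset.mul_sum]
      show _ = tpi ^ j * v a I
      rw [← hva]
    have e2 := act2_inv hC₀ hZ u
    have e3 := act2_inv hC₀ hZ (fun (a : Fin r → Fin n₀) (I : Fin m → Σ i, Fin (n i)) => ∑ P, Uc P a * ((Pd P I : L) : ℂ))
    rw [← e2, hc, ← e1, e3]
  have hU : ∀ a P, Uc P a ∈ K := by
    intro a P
    have e0 : GC (u a) P = Uc P a := by
      have e2 : u a = fun I => ∑ Q, Uc Q a * ((Pd Q I : L) : ℂ) := congrFun hu a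
      rw [e2]
      show ∑ I, (∑ Q, Uc Q a * ((Pd Q I : L) : ℂ)) * (G (Pi.single I 1) P : ℂ) = _
      simp only [Finset.sum_mul]
      rw [Finset.sum_comm]
      have e3 : ∀ Q : b, ∑ I, Uc Q a * ((Pd Q I : L) : ℂ) * (G (Pi.single I 1) P : ℂ) = Uc Q a * (if P = Q then 1 else 0) := by
        intro Q
        have e4 := congrFun (hGC (Pd Q)) P
        have e5 : ∑ I, ((Pd Q I : L) : ℂ) * (G (Pi.single I 1) P : ℂ) = ((G (Pd Q) P : L) : ℂ) := e4
        simp only [mul_assoc]
        rw [← Finset.mul_sum, e5, hGPd]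
        congr 1
        split_ifs
        · rfl
        · rfl
      rw [Finset.sum_congr rfl fun Q _ => e3 Q]
      simp
    rw [← e0]
    exact K.sum_mem fun I _ => K.mul_mem (huK a I) (hLK (G (Pi.single I 1) P).2)
  -- the end
  have huv : (u, v) = ∑ P : b, ((fun a I => Uc P a * matB (fun i => cq (J i)) (e P) (c P) I,
      fun a I => (V a P : ℂ) * matB (fun i => cq (B i)) (e P) (c P) I) :
      ((Fin r → Fin n₀) → (Fin m → Σ i, Fin (n i)) → ℂ) × ((Fin r → Fin n₀) → (Fin m → Σ i, Fin (n i)) → ℂ)) := by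
    refine Prod.ext ?_ ?_
    · rw [Prod.fst_sum]
      funext a I
      rw [Finset.sum_apply, Finset.sum_apply]
      have e1 := congrFun (congrFun hu a) I
      refine e1.trans (Finset.sum_congr rfl fun P _ => ?_)
      have e2 : ((Pd P I : L) : ℂ) = matB (fun i => cq (J i)) (e P) (c P) I := cast_matQ J (e P) (c P) I
      rw [e2]
    · rw [Prod.snd_sum]
      funext a I
      rw [Finset.sum_apply, Finset.sum_apply]
      refine (hva a I).trans (Finset.sum_congr rfl fun P _ => ?_)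
      have e2 : (((P : (Fin m → Σ i, Fin (n i)) → L) I : L) : ℂ) = matB (fun i => cq (B i)) (e P) (c P) I := by
        rw [hP P]
        exact cast_matQ B (e P) (c P) I
      rw [e2]
  rw [huv]
  refine Submodule.sum_mem _ fun P _ => Submodule.subset_span ⟨s P, e P, c P, Uc P, fun a => (V a P : ℂ), hec P,
    fun a => hU a P, fun a => (V a P).2, ?_, rfl⟩
  have e1 : (∑ l, (w (c P l) : ℤ)) = (N : ℤ) := by
    rw [← hNP P]
    push_cast
    rfl
  rw [e1, ← hUc P]

end

end Pool.Agent.X120.HG
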