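import Pool.Agent.X120.HG.Der

/-!
# The first fundamental theorem for products of symplectic Lie algebras
-/

set_option autoImplicit false

open Matrix Module

namespace Pool.Agent.X120.HG

open Pool.Agent.H204R3.SP Pool.Agent.H204R3.GP Pool.Agent.W437.HD Pool.Agent.X120.GS.TT

variable {κ : Type} [Fintype κ] [DecidableEq κ] {k : ℕ} {n : Fin k → ℕ}

/-- symplectic bases in terms of matrices -/
theorem exists_frame' {n : ℕ} {B : Matrix (Fin n) (Fin n) ℂ} (hB : IsUnit B) (hBt : Bᵀ = -B) :
    ∃ (R : Type) (_ : Fintype R) (_ : DecidableEq R) (inv : R → R) (jj : R → ℂ) (Φ : Matrix R (Fin n) ℂ)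
      (Ψ : Matrix (Fin n) R ℂ), (∀ x, inv (inv x) = x) ∧ (∀ x, jj (inv x) = -jj x) ∧ (∀ x, jj x = 1 ∨ jj x = -1) ∧
      Φ * Ψ = 1 ∧ Ψ * Φ = 1 ∧ Φ * B * Φᵀ = Matrix.of fun x y => JJ inv jj x y := by
  classical
  have halt : ∀ v : Fin n → ℂ, v ⬝ᵥ (B *ᵥ v) = 0 := by
    intro v
    have h1 : v ⬝ᵥ (B *ᵥ v) = v ⬝ᵥ (Bᵀ *ᵥ v) := by
      rw [Matrix.mulVec_transpose, dotProduct_comm v (v ᵥ* B), ← Matrix.dotProduct_mulVec]
    rw [hBt, Matrix.neg_mulVec, dotProduct_neg] at h1
    linear_combination (1 / 2 : ℂ) * h1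
  obtain ⟨R, h1, h2, e, inv, jj, h3, h4, h5, h6, h7⟩ := exists_darboux (finrank ℂ (Fin n → ℂ)) (Fin n → ℂ)
    (Matrix.toLinearMap₂' ℂ B) (fun v => by rw [Matrix.toLinearMap₂'_apply']; exact halt v) (fun u hu => by
      have h1 : B *ᵥ u = 0 := by
        funext i
        have h2 := hu (Pi.single i 1)
        rw [Matrix.toLinearMap₂'_apply', single_one_dotProduct] at h2
        exact h2
      obtain ⟨b, hb⟩ := hB
      have h3 : ((b⁻¹ : (Matrix (Fin n) (Fin n) ℂ)ˣ) : Matrix (Fin n) (Fin n) ℂ) *ᵥ (B *ᵥ u) = u := by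
        rw [← hb, mulVec_mulVec, Units.inv_mul, one_mulVec]
      rw [← h3, h1, mulVec_zero]) le_rfl
  have hΨΦ : (Matrix.of fun (j : Fin n) x => e.repr (Pi.single j 1) x) * (Matrix.of fun x (j : Fin n) => e x j) =
      (1 : Matrix (Fin n) (Fin n) ℂ) := by
    ext i j
    rw [Matrix.mul_apply]
    have h1 := congrFun (e.sum_repr (Pi.single i 1)) j
    rw [Finset.sum_apply] at h1
    rw [Matrix.one_apply]
    have h2 : (Pi.single i (1 : ℂ) : Fin n → ℂ) j = if i = j then 1 else 0 := by
      rw [Pi.single_apply]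
      simp only [eq_comm]
    rw [← h2, ← h1]
    exact Finset.sum_congr rfl fun x _ => rfl
  have hcard : Fintype.card R = Fintype.card (Fin n) := by
    have h1 := Module.finrank_eq_card_basis e
    rw [Module.finrank_fintype_fun_eq_card] at h1
    exact h1.symm
  refine ⟨R, h1, h2, inv, jj, Matrix.of fun x j => e x j, Matrix.of fun j x => e.repr (Pi.single j 1) x, h3, h5, h6, ?_, hΨΦ, ?_⟩
  · exact (Matrix.mul_eq_one_comm_of_card_eq _ _ _ hcard).2 hΨΦ
  · ext x y
    have h8 := h7 x y
    rw [Matrix.toLinearMap₂'_apply'] at h8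
    rw [Matrix.of_apply, ← h8, Matrix.mul_assoc, Matrix.mul_apply]
    simp only [dotProduct, Matrix.transpose_apply, Matrix.mul_apply, mulVec, Matrix.of_apply]

/-- **The first fundamental theorem for products of symplectic Lie algebras.** -/
theorem fft_lie (B : ∀ i, Matrix (Fin (n i)) (Fin (n i)) ℂ) (hB : ∀ i, IsUnit (B i)) (hBt : ∀ i, (B i)ᵀ = -B i)
    (F : (κ → Σ i, Fin (n i)) → ℂ)
    (hinv : ∀ X : ∀ i, Matrix (Fin (n i)) (Fin (n i)) ℂ, (∀ i, X i * B i + B i * (X i)ᵀ = 0) → dr (blockDiagonal' X) F = 0) :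
    F ∈ Submodule.span ℂ {w | ∃ (m : ℕ) (e : Fin m × Fin 2 ≃ κ) (c : Fin m → Fin k), w = matB B e c} := by
  classical
  choose R hR1 hR2 inv jj Φ Ψ h3 h5 h6 hΦΨ hΨΦ hJ using fun i => exists_frame' (hB i) (hBt i)
  set J : ∀ i, Matrix (R i) (R i) ℂ := fun i => Matrix.of fun x y => JJ (inv i) (jj i) x y with hJd
  have hJt : ∀ i, (J i)ᵀ = -J i := by
    intro i
    rw [hJd]
    beta_reduce
    rw [← hJ i, Matrix.transpose_mul, Matrix.transpose_mul, Matrix.transpose_transpose, hBt, Matrix.neg_mul, Matrix.mul_neg,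
      Matrix.mul_assoc]
  have hBJ : ∀ i, Ψ i * J i * (Ψ i)ᵀ = B i := by
    intro i
    have h1 : J i = Φ i * B i * (Φ i)ᵀ := (hJ i).symm
    rw [h1]
    have h2 : (Φ i)ᵀ * (Ψ i)ᵀ = 1 := by rw [← Matrix.transpose_mul, hΨΦ, Matrix.transpose_one]
    calc Ψ i * (Φ i * B i * (Φ i)ᵀ) * (Ψ i)ᵀ = (Ψ i * Φ i) * B i * ((Φ i)ᵀ * (Ψ i)ᵀ) := by simp only [Matrix.mul_assoc]
      _ = B i := by rw [hΨΦ, h2, Matrix.one_mul, Matrix.mul_one]
  let invt : (Σ i, R i) → (Σ i, R i) := fun x => ⟨x.1, inv x.1 x.2⟩
  let jjt : (Σ i, R i) → ℂ := fun x => jj x.1 x.2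
  have hJJt : ∀ x y : Σ i, R i, JJ invt jjt x y = blockDiagonal' J x y := JJ_total inv jj
  have hanti : ∀ x y : Σ i, R i, JJ invt jjt x y = -JJ invt jjt y x := by
    intro x y
    rw [hJJt, hJJt, ← Matrix.transpose_apply (blockDiagonal' J), blockDiagonal'_transpose]
    have h1 : (fun i => (J i)ᵀ) = -J := by
      funext i
      exact hJt i
    rw [h1, blockDiagonal'_neg, Matrix.neg_apply]
  have hBdJ : ∀ i, B i = Ψ i * J i * (Ψ i)ᵀ := fun i => (hBJ i).symm
  -- the transported tensor
  set G0 : (κ → Σ i, R i) → ℂ := act (blockDiagonal' Φ) F with hG0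
  have hG0inv : ∀ Y : ∀ i, Matrix (R i) (R i) ℂ, (∀ i, Y i * J i + J i * (Y i)ᵀ = 0) → dr (blockDiagonal' Y) G0 = 0 := by
    intro Y hY
    have e1 := hinv (fun i => Ψ i * Y i * Φ i) (fun i => by
      have e2 : (Φ i)ᵀ * (Ψ i)ᵀ = 1 := by rw [← Matrix.transpose_mul, hΨΦ, Matrix.transpose_one]
      have e3 : (Ψ i)ᵀ * (Φ i)ᵀ = 1 := by rw [← Matrix.transpose_mul, hΦΨ, Matrix.transpose_one]
      rw [Matrix.transpose_mul, Matrix.transpose_mul, hBdJ i]
      calc Ψ i * Y i * Φ i * (Ψ i * J i * (Ψ i)ᵀ) + Ψ i * J i * (Ψ i)ᵀ * ((Φ i)ᵀ * ((Y i)ᵀ * (Ψ i)ᵀ))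
          = Ψ i * Y i * (Φ i * Ψ i) * J i * (Ψ i)ᵀ + Ψ i * J i * ((Ψ i)ᵀ * (Φ i)ᵀ) * (Y i)ᵀ * (Ψ i)ᵀ := by
            simp only [Matrix.mul_assoc]
        _ = Ψ i * (Y i * J i + J i * (Y i)ᵀ) * (Ψ i)ᵀ := by
            rw [hΦΨ, e3, Matrix.mul_one, Matrix.mul_one, Matrix.mul_add, Matrix.add_mul]
            simp only [Matrix.mul_assoc]
        _ = 0 := by rw [hY, Matrix.mul_zero, Matrix.zero_mul])
    have e2 : blockDiagonal' Y * blockDiagonal' Φ = blockDiagonal' Φ * blockDiagonal' (fun i => Ψ i * Y i * Φ i) := by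
      rw [← blockDiagonal'_mul, ← blockDiagonal'_mul]
      congr 1
      funext i
      rw [← Matrix.mul_assoc, ← Matrix.mul_assoc, hΦΨ, Matrix.one_mul]
    rw [hG0, ← act_dr e2, e1, act_zero]
  rcases Nat.even_or_odd (Fintype.card κ) with ⟨m, hm⟩ | hodd
  swap
  · -- odd degree
    have hz : G0 = 0 := by
      funext I
      have e1 := congrFun (hG0inv (fun i => Matrix.diagonal (jj i)) (fun i => by
        ext x y
        rw [Matrix.add_apply, Matrix.diagonal_transpose, Matrix.diagonal_mul, Matrix.mul_diagonal, Matrix.zero_apply]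
        show jj i x * JJ (inv i) (jj i) x y + JJ (inv i) (jj i) x y * jj i y = 0
        unfold JJ
        split_ifs with h
        · rw [h, h5]
          ring
        · ring)) I
      have e2 : dr (blockDiagonal' fun i => Matrix.diagonal (jj i)) G0 I = (∑ l, jj (I l).1 (I l).2) * G0 I := by
        unfold dr dl
        rw [Finset.sum_mul]
        refine Finset.sum_congr rfl fun l _ => ?_
        rw [Finset.sum_eq_single (I l)]
        · have e3 : (blockDiagonal' fun i => Matrix.diagonal (jj i)) (I l) (I l) = jj (I l).1 (I l).2 := by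
            have e4 : I l = ⟨(I l).1, (I l).2⟩ := rfl
            rw [e4, blockDiagonal'_apply_eq, Matrix.diagonal_apply_eq]
          rw [e3, Function.update_eq_self]
        · intro y _ hy
          have e3 : (blockDiagonal' fun i => Matrix.diagonal (jj i)) (I l) y = 0 := by
            have e4 : (blockDiagonal' fun i => Matrix.diagonal (jj i)) = Matrix.diagonal (fun x : Σ i, R i => jj x.1 x.2) := by
              exact blockDiagonal'_diagonal _
            rw [e4, Matrix.diagonal_apply_ne _ (Ne.symm hy)]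
          rw [e3, zero_mul]
        · intro h
          exact absurd (Finset.mem_univ _) h
      rw [e2, Pi.zero_apply] at e1
      refine (mul_eq_zero.1 e1).resolve_left ?_
      -- an odd number of signs
      have e3 : ∀ l, ∃ a : ℤ, jj (I l).1 (I l).2 = ((2 * a + 1 : ℤ) : ℂ) := by
        intro l
        rcases h6 (I l).1 (I l).2 with h | h
        · exact ⟨0, by rw [h]; norm_num⟩
        · exact ⟨-1, by rw [h]; norm_num⟩
      choose a ha using e3
      intro h0
      have e4 : ((∑ l, (2 * a l + 1) : ℤ) : ℂ) = 0 := by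
        rw [← h0]
        push_cast
        refine Finset.sum_congr rfl fun l _ => ?_
        rw [ha l]
        push_cast
        ring
      have e5 : (∑ l, (2 * a l + 1) : ℤ) = 0 := by exact_mod_cast e4
      rw [Finset.sum_add_distrib, ← Finset.mul_sum, Finset.sum_const, Finset.card_univ, nsmul_eq_mul, mul_one] at e5
      obtain ⟨c, hc⟩ := hodd
      rw [hc] at e5
      push_cast at e5
      omega
    have hF0 : F = act (blockDiagonal' Ψ) G0 := by
      rw [hG0, ← act_mul, ← blockDiagonal'_mul]
      have h1 : (fun i => Ψ i * Φ i) = 1 := by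
        funext i
        exact hΨΦ i
      rw [h1, blockDiagonal'_one, act_one]
    rw [hF0, hz, act_zero]
    exact Submodule.zero_mem _
  have hκ : Fintype.card κ = 2 * m := by omega
  -- one type
  have htype : ∀ t : κ → Fin k, Pool.Agent.X120.GS.TT.cmp t F ∈ Submodule.span ℂ {w | ∃ (m : ℕ) (e : Fin m × Fin 2 ≃ κ) (c : Fin m → Fin k),
      w = matB B e c} := by
    intro t
    set G : (κ → Σ i, R i) → ℂ := act (blockDiagonal' Φ) (Pool.Agent.X120.GS.TT.cmp t F) with hG
    have hGs : ∀ I, G I ≠ 0 → ∀ l, (I l).1 = t l := by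
      intro I hI
      rw [hG, act_cmp, Pool.Agent.X120.GS.TT.cmp] at hI
      by_contra hno
      rw [if_neg hno] at hI
      exact hI rfl
    have hGc : G = fun I => if ∀ l, (I l).1 = t l then G0 I else 0 := by
      rw [hG, act_cmp]
      rfl
    have hGinv : ∀ ψ : ∀ i, R i → ℂ, dr (blockDiagonal' fun i => vecMulVec (J i *ᵥ ψ i) (ψ i)) G = 0 := by
      intro ψ
      rw [hGc, dr_cmp, hG0inv]
      · funext I
        split_ifs <;> rfl
      · intro i
        have e1 : vecMulVec (J i *ᵥ ψ i) (ψ i) * J i = -vecMulVec (J i *ᵥ ψ i) (J i *ᵥ ψ i) := by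
          rw [Matrix.vecMulVec_mul, ← Matrix.mulVec_transpose, hJt i, Matrix.neg_mulVec, Matrix.vecMulVec_neg]
        rw [e1, Matrix.transpose_vecMulVec, Matrix.mul_vecMulVec, neg_add_cancel]
    have hkey : ∀ (b c : Σ i, R i), b.1 = c.1 → ∀ I : κ → Σ i, R i,
        ∑ l, (JJ invt jjt (I l) b + JJ invt jjt (I l) c) * (G (Function.update I l b) + G (Function.update I l c)) = 0 := by
      intro b c hbc I
      let ψt : (Σ i, R i) → ℂ := fun x => (if x = b then 1 else 0) + if x = c then 1 else 0
      have h1 := congrFun (hGinv fun i x => ψt ⟨i, x⟩) I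
      rw [Pi.zero_apply] at h1
      rw [← h1]
      unfold dr dl
      refine Finset.sum_congr rfl fun l _ => ?_
      have h2 : ∀ x : Σ i, R i, (blockDiagonal' fun i => vecMulVec (J i *ᵥ fun x => ψt ⟨i, x⟩) (fun x => ψt ⟨i, x⟩))
          (I l) x = (JJ invt jjt (I l) b + JJ invt jjt (I l) c) * ψt x := by
        intro x
        have h3 : ∀ (i : Fin k) (a : R i), (J i *ᵥ fun x => ψt ⟨i, x⟩) a = JJ invt jjt ⟨i, a⟩ b + JJ invt jjt ⟨i, a⟩ c := by
          intro i a
          have h4 : ∀ b' : Σ i, R i, ∑ x : R i, J i a x * (if (⟨i, x⟩ : Σ i, R i) = b' then 1 else 0) =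
              JJ invt jjt ⟨i, a⟩ b' := by
            rintro ⟨j, b'⟩
            rw [hJJt]
            by_cases hij : i = j
            · subst hij
              rw [blockDiagonal'_apply_eq, Finset.sum_eq_single b']
              · rw [if_pos rfl, mul_one]
              · intro x _ hx
                rw [if_neg, mul_zero]
                intro h
                exact hx (eq_of_heq (Sigma.mk.inj_iff.1 h).2)
              · intro h
                exact absurd (Finset.mem_univ _) h
            · rw [blockDiagonal'_apply_ne _ _ _ hij]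
              refine Finset.sum_eq_zero fun x _ => ?_
              rw [if_neg, mul_zero]
              intro h
              exact hij (congrArg Sigma.fst h)
          rw [← h4 b, ← h4 c, ← Finset.sum_add_distrib]
          show ∑ x : R i, J i a x * ψt ⟨i, x⟩ = _
          refine Finset.sum_congr rfl fun x _ => ?_
          rw [← mul_add]
        obtain ⟨i, a⟩ := I l
        obtain ⟨j, x⟩ := x
        by_cases hij : i = j
        · subst hij
          rw [blockDiagonal'_apply_eq, vecMulVec_apply, h3]
        · rw [blockDiagonal'_apply_ne _ _ _ hij]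
          symm
          by_cases hjb : j = b.1
          · have h4 : JJ invt jjt ⟨i, a⟩ b = 0 := by
              rw [hJJt]
              exact blockDiagonal'_apply_ne _ _ _ fun h => hij (h.trans hjb.symm)
            have h5 : JJ invt jjt ⟨i, a⟩ c = 0 := by
              rw [hJJt]
              exact blockDiagonal'_apply_ne _ _ _ fun h => hij (h.trans (hjb.trans hbc).symm)
            rw [h4, h5, add_zero, zero_mul]
          · have h4 : ψt ⟨j, x⟩ = 0 := by
              show (if (⟨j, x⟩ : Σ i, R i) = b then (1 : ℂ) else 0) + (if (⟨j, x⟩ : Σ i, R i) = c then 1 else 0) = 0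
              rw [if_neg, if_neg, add_zero]
              · intro h
                exact hjb ((congrArg Sigma.fst h).trans hbc.symm)
              · intro h
                exact hjb (congrArg Sigma.fst h)
            rw [h4, mul_zero]
      rw [Finset.sum_congr rfl fun x _ => by rw [h2 x]]
      have h3 : ∀ x : Σ i, R i, (JJ invt jjt (I l) b + JJ invt jjt (I l) c) * ψt x * G (Function.update I l x) =
          (if x = b then (JJ invt jjt (I l) b + JJ invt jjt (I l) c) * G (Function.update I l b) else 0) +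
          if x = c then (JJ invt jjt (I l) b + JJ invt jjt (I l) c) * G (Function.update I l c) else 0 := by
        intro x
        show (JJ invt jjt (I l) b + JJ invt jjt (I l) c) * ((if x = b then 1 else 0) + if x = c then 1 else 0) *
          G (Function.update I l x) = _
        rw [mul_add, add_mul]
        congr 1
        · by_cases hx : x = b
          · rw [if_pos hx, if_pos hx, mul_one, hx]
          · rw [if_neg hx, if_neg hx, mul_zero, zero_mul]
        · by_cases hx : x = c
          · rw [if_pos hx, if_pos hx, mul_one, hx]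
          · rw [if_neg hx, if_neg hx, mul_zero, zero_mul]
      rw [Finset.sum_congr rfl fun x _ => h3 x, Finset.sum_add_distrib, Finset.sum_ite_eq', Finset.sum_ite_eq',
        if_pos (Finset.mem_univ _), if_pos (Finset.mem_univ _)]
      ring
    have hkey2 : ∀ (b : Σ i, R i) (I : κ → Σ i, R i), ∑ l, JJ invt jjt (I l) b * G (Function.update I l b) = 0 := by
      intro b I
      have h1 := hkey b b rfl I
      have h2 : ∑ l, (JJ invt jjt (I l) b + JJ invt jjt (I l) b) * (G (Function.update I l b) + G (Function.update I l b)) =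
          4 * ∑ l, JJ invt jjt (I l) b * G (Function.update I l b) := by
        rw [Finset.mul_sum]
        exact Finset.sum_congr rfl fun l _ => by ring
      rw [h2] at h1
      exact (mul_eq_zero.1 h1).resolve_left (by norm_num)
    have hmem : G ∈ InvG Sigma.fst invt jjt κ t := by
      refine ⟨fun b c hbc I => ?_, hGs⟩
      have h1 := hkey b c hbc I
      have h2 := hkey2 b I
      have h3 := hkey2 c I
      have h4 : ∑ l, (JJ invt jjt b (I l) * G (Function.update I l c) + JJ invt jjt c (I l) * G (Function.update I l b)) =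
          -(∑ l, (JJ invt jjt (I l) b + JJ invt jjt (I l) c) * (G (Function.update I l b) + G (Function.update I l c)) -
          ∑ l, JJ invt jjt (I l) b * G (Function.update I l b) - ∑ l, JJ invt jjt (I l) c * G (Function.update I l c)) := by
        rw [← Finset.sum_sub_distrib, ← Finset.sum_sub_distrib, ← Finset.sum_neg_distrib]
        refine Finset.sum_congr rfl fun l _ => ?_
        rw [hanti b (I l), hanti c (I l)]
        ring
      rw [h4, h1, h2, h3]
      ring
    have hfft := fftG (Q := Fin k) (cls := Sigma.fst) (inv := invt) (jj := jjt) (fun x => by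
        show (⟨x.1, inv x.1 (inv x.1 x.2)⟩ : Σ i, R i) = x
        rw [h3]) (fun x => h5 x.1 x.2) (fun x => by
        rcases h6 x.1 x.2 with h | h
        · show jj x.1 x.2 ≠ 0
          rw [h]
          exact one_ne_zero
        · show jj x.1 x.2 ≠ 0
          rw [h]
          exact neg_ne_zero.2 one_ne_zero)
      (fun x y hxy => hxy) m κ hκ t hmem
    have hback : Pool.Agent.X120.GS.TT.cmp t F = act (blockDiagonal' Ψ) G := by
      rw [hG, ← act_mul, ← blockDiagonal'_mul]
      have h1 : (fun i => Ψ i * Φ i) = 1 := by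
        funext i
        exact hΨΦ i
      rw [h1, blockDiagonal'_one, act_one]
    rw [hback]
    refine Submodule.span_induction (p := fun G _ => act (blockDiagonal' Ψ) G ∈ Submodule.span ℂ
      {w | ∃ (m : ℕ) (e : Fin m × Fin 2 ≃ κ) (c : Fin m → Fin k), w = matB B e c}) ?_ ?_ ?_ ?_ hfft
    · rintro _ ⟨e, c, rfl⟩
      refine Submodule.subset_span ⟨m, e, c, ?_⟩
      refine (act_prod (blockDiagonal' Ψ) e
        (fun (s : Fin m) (x y : Σ i, R i) => if x.1 = c s then JJ invt jjt x y else 0)).trans ?_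
      funext I
      unfold matB
      refine Finset.prod_congr rfl fun s _ => ?_
      set a := I (e (s, 0)) with ha
      set b := I (e (s, 1)) with hb
      have h2 : ∀ p : (Σ i, R i) × (Σ i, R i), blockDiagonal' Ψ a p.1 * blockDiagonal' Ψ b p.2 *
          (if p.1.1 = c s then JJ invt jjt p.1 p.2 else 0) =
          if a.1 = c s then blockDiagonal' Ψ a p.1 * (blockDiagonal' J p.1 p.2 * (blockDiagonal' Ψ)ᵀ p.2 b) else 0 := by
        intro p
        rw [Matrix.transpose_apply, hJJt]
        by_cases hap : a.1 = p.1.1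
        · by_cases hc : a.1 = c s
          · rw [if_pos hc, if_pos (hap.symm.trans hc)]
            ring
          · rw [if_neg hc, if_neg fun h => hc (hap.trans h), mul_zero]
        · have h3 : blockDiagonal' Ψ a p.1 = 0 := blockDiagonal'_apply_ne _ _ _ hap
          rw [h3]
          simp
      rw [Finset.sum_congr rfl fun p _ => h2 p]
      by_cases hc : a.1 = c s
      · simp only [if_pos hc]
        rw [Fintype.sum_prod_type]
        have h4 : ∀ x, ∑ y, blockDiagonal' Ψ a x * (blockDiagonal' J x y * (blockDiagonal' Ψ)ᵀ y b) =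
            blockDiagonal' Ψ a x * (blockDiagonal' J * (blockDiagonal' Ψ)ᵀ) x b := by
          intro x
          rw [← Finset.mul_sum, Matrix.mul_apply]
        rw [Finset.sum_congr rfl fun x _ => h4 x, ← Matrix.mul_apply, ← Matrix.mul_assoc, blockDiagonal'_transpose,
          ← blockDiagonal'_mul, ← blockDiagonal'_mul]
        have h5 : (fun i => Ψ i * J i * (Ψ i)ᵀ) = B := by
          funext i
          exact hBJ i
        rw [h5]
      · simp only [if_neg hc, Finset.sum_const_zero]
    · rw [act_zero]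
      exact Submodule.zero_mem _
    · intro x y _ _ hx hy
      rw [act_add]
      exact Submodule.add_mem _ hx hy
    · intro a x _ hx
      rw [act_smul]
      exact Submodule.smul_mem _ _ hx
  rw [sum_cmp F]
  exact Submodule.sum_mem _ fun t _ => htype t

end Pool.Agent.X120.HG
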