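import Pool.Agent.X120.HG.Quad

/-!
# Hodge generic structures
-/

set_option autoImplicit false

open Matrix

namespace Pool.Agent.X120.HG

variable {n : ℕ}

/-- the Hodge operators -/
def Hop (w : ℕ) (H : ℕ → Submodule ℂ (Fin n → ℂ)) (Φ : Matrix (Fin n) (Fin n) ℂ) : Prop :=
  ∀ p ≤ w, ∀ v ∈ H p, v ᵥ* Φ = (p : ℂ) • v

/-- a homogeneous basis -/
theorem exists_basis {w : ℕ} {H : ℕ → Submodule ℂ (Fin n → ℂ)} (hspan : (⨆ p : {p : ℕ // p ≤ w}, H p) = ⊤) :
    ∃ (B : Matrix (Fin n) (Fin n) ℂ) (p : Fin n → ℕ), IsUnit B.det ∧ (∀ i, p i ≤ w) ∧ ∀ i, B i ∈ H (p i) := by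
  classical
  set s : Set (Fin n → ℂ) := {v | ∃ p ≤ w, v ∈ H p} with hs
  have h1 : ⊤ ≤ Submodule.span ℂ s := by
    rw [← hspan]
    refine iSup_le ?_
    rintro ⟨p, hp⟩ v hv
    exact Submodule.subset_span ⟨p, hp, hv⟩
  set b := Module.Basis.ofSpan h1 with hb
  have h2 : ∀ i, b i ∈ s := fun i => Module.Basis.ofSpan_subset h1 ⟨i, rfl⟩
  set e := b.indexEquiv (Pi.basisFun ℂ (Fin n)) with he
  set b' := b.reindex e with hb'
  have h3 : ∀ i, b' i ∈ s := by
    intro i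
    rw [hb', Module.Basis.reindex_apply]
    exact h2 _
  choose p hp hbp using h3
  refine ⟨Matrix.of fun i => b' i, p, ?_, hp, fun i => hbp i⟩
  have h4 : LinearIndependent ℂ (fun i => (Matrix.of fun i => b' i : Matrix (Fin n) (Fin n) ℂ) i) := b'.linearIndependent
  have h5 := Matrix.linearIndependent_rows_iff_isUnit.1 h4
  exact (Matrix.isUnit_iff_isUnit_det _).1 h5

/-- a basis which is adapted to the Hodge decomposition -/
theorem hodge_data {w : ℕ} (hw : 0 < w) {A : Matrix (Fin n) (Fin n) ℚ} (hAd : A.det ≠ 0)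
    {H : ℕ → Submodule ℂ (Fin n → ℂ)} (hspan : (⨆ p : {p : ℕ // p ≤ w}, H p) = ⊤)
    (hconj : ∀ p ≤ w, ∀ v ∈ H p, (fun i => star (v i)) ∈ H (w - p))
    (horth : ∀ p ≤ w, ∀ r ≤ w, p + r ≠ w → ∀ v ∈ H p, ∀ u ∈ H r, v ⬝ᵥ (cq A *ᵥ u) = 0)
    {ω : Fin n → ℂ} (hω0 : ω ≠ 0) (hω : H w = Submodule.span ℂ {ω}) :
    ∃ (B : Matrix (Fin n) (Fin n) ℂ) (p : Fin n → ℕ) (i₀ i₁ : Fin n) (c₀ : ℂ), IsUnit B.det ∧ (∀ i, p i ≤ w) ∧
      (∀ i, p i = w ↔ i = i₀) ∧ (∀ i, p i = 0 ↔ i = i₁) ∧ (∀ i j, p i + p j ≠ w → (B * cq A * Bᵀ) i j = 0) ∧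
      (∃ s : ℂ, s ≠ 0 ∧ ∀ a, star (B i₁ a) = s * B i₀ a) ∧ c₀ ≠ 0 ∧ B i₀ = c₀ • ω ∧
      Hop w H (B⁻¹ * Matrix.diagonal (fun i => (p i : ℂ)) * B) := by
  classical
  obtain ⟨B, p, hB, hp, hBH⟩ := exists_basis hspan
  have hBi : B * B⁻¹ = 1 := Matrix.mul_nonsing_inv _ hB
  have hBi' : B⁻¹ * B = 1 := Matrix.nonsing_inv_mul _ hB
  set G := B * cq A * Bᵀ with hG
  have hAu : IsUnit (cq A).det := by
    have h2 : (cq A).det = algebraMap ℚ ℂ A.det := by
      rw [cq_eq]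
      exact (RingHom.map_det (algebraMap ℚ ℂ) A).symm
    rw [h2]
    exact (isUnit_iff_ne_zero.2 hAd).map (algebraMap ℚ ℂ)
  have hGd : IsUnit G.det := by
    rw [hG, Matrix.det_mul, Matrix.det_mul, Matrix.det_transpose]
    exact (hB.mul hAu).mul hB
  have hGij : ∀ i j, G i j = B i ⬝ᵥ (cq A *ᵥ B j) := by
    intro i j
    rw [hG, Matrix.mul_assoc, Matrix.mul_apply]
    rfl
  have hform : ∀ i j, p i + p j ≠ w → G i j = 0 := by
    intro i j hij
    rw [hGij]
    exact horth _ (hp i) _ (hp j) hij _ (hBH i) _ (hBH j)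
  -- a vector which pairs to zero with the basis is zero
  have hnd : ∀ u : Fin n → ℂ, (∀ i, B i ⬝ᵥ (cq A *ᵥ u) = 0) → u = 0 := by
    intro u hu
    have h1 : (B * cq A) *ᵥ u = 0 := by
      rw [← Matrix.mulVec_mulVec]
      funext i
      exact hu i
    have h2 : IsUnit (B * cq A).det := by
      rw [Matrix.det_mul]
      exact hB.mul hAu
    have h3 := congrArg (fun x => (B * cq A)⁻¹ *ᵥ x) h1
    simp only [Matrix.mulVec_mulVec, Matrix.nonsing_inv_mul _ h2, Matrix.one_mulVec, Matrix.mulVec_zero] at h3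
    exact h3
  have hωH : ω ∈ H w := by
    rw [hω]
    exact Submodule.mem_span_singleton_self ω
  set ω' : Fin n → ℂ := fun i => star (ω i) with hω'
  have hω'H : ω' ∈ H 0 := by
    have h1 := hconj w le_rfl ω hωH
    rwa [Nat.sub_self] at h1
  have hω'0 : ω' ≠ 0 := by
    intro h
    apply hω0
    funext i
    have h1 := congrFun h i
    exact star_eq_zero.1 h1
  -- vectors in `H 0`
  have hH0 : ∀ v ∈ H 0, ∃ c : ℂ, v = c • ω' := by
    intro v hv
    have h1 := hconj 0 (Nat.zero_le _) v hv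
    rw [Nat.sub_zero, hω, Submodule.mem_span_singleton] at h1
    obtain ⟨c, hc⟩ := h1
    refine ⟨star c, ?_⟩
    funext i
    have h2 := congrArg star (congrFun hc i)
    rw [Pi.smul_apply, smul_eq_mul, star_mul', star_star] at h2
    rw [Pi.smul_apply, smul_eq_mul, hω']
    exact h2.symm
  -- two rows are not proportional to one vector
  have huniq : ∀ (u : Fin n → ℂ) (i j : Fin n) (a b : ℂ), B i = a • u → B j = b • u → i = j := by
    intro u i j a b hi hj
    by_contra hij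
    have h1 : B *ᵥ (fun x => 0) = 0 := by
      funext x
      simp [Matrix.mulVec]
    have h2 : b • B i - a • B j = 0 := by
      rw [hi, hj, smul_smul, smul_smul, mul_comm, sub_self]
    have h3 : (Pi.single i b - Pi.single j a : Fin n → ℂ) ᵥ* B = 0 := by
      rw [Matrix.sub_vecMul, Matrix.single_vecMul, Matrix.single_vecMul]
      exact h2
    have h4 := congrArg (fun x => x ᵥ* B⁻¹) h3
    simp only [Matrix.vecMul_vecMul, hBi, Matrix.vecMul_one, Matrix.zero_vecMul] at h4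
    have h5 := congrFun h4 i
    have h6 := congrFun h4 j
    simp [hij, Ne.symm hij] at h5 h6
    rw [h5, zero_smul] at hj
    have h7 : (Pi.single j 1 : Fin n → ℂ) ᵥ* B = 0 := by
      rw [Matrix.single_vecMul, one_smul]
      exact hj
    have h8 := congrArg (fun x => x ᵥ* B⁻¹) h7
    simp only [Matrix.vecMul_vecMul, hBi, Matrix.vecMul_one, Matrix.zero_vecMul] at h8
    have h9 := congrFun h8 j
    simp at h9
  -- the indices
  obtain ⟨i₀, hi₀⟩ : ∃ i, p i = w := by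
    by_contra hcon
    push Not at hcon
    apply hω'0
    refine hnd _ fun i => ?_
    exact horth _ (hp i) 0 (Nat.zero_le _) (by rw [add_zero]; exact hcon i) _ (hBH i) _ hω'H
  obtain ⟨i₁, hi₁⟩ : ∃ i, p i = 0 := by
    by_contra hcon
    push Not at hcon
    apply hω0
    refine hnd _ fun i => ?_
    refine horth _ (hp i) w le_rfl ?_ _ (hBH i) _ hωH
    have := hcon i
    omega
  obtain ⟨c₀, hc₀⟩ : ∃ c : ℂ, B i₀ = c • ω := by
    have h1 := hBH i₀
    rw [hi₀, hω, Submodule.mem_span_singleton] at h1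
    obtain ⟨c, hc⟩ := h1
    exact ⟨c, hc.symm⟩
  obtain ⟨c₁, hc₁⟩ : ∃ c : ℂ, B i₁ = c • ω' := by
    have h1 := hBH i₁
    rw [hi₁] at h1
    exact hH0 _ h1
  have h0 : ∀ i, p i = w ↔ i = i₀ := by
    intro i
    constructor
    · intro h
      have h1 := hBH i
      rw [h, hω, Submodule.mem_span_singleton] at h1
      obtain ⟨c, hc⟩ := h1
      exact huniq ω i i₀ c c₀ hc.symm hc₀
    · rintro rfl
      exact hi₀
  have h1 : ∀ i, p i = 0 ↔ i = i₁ := by
    intro i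
    constructor
    · intro h
      have h1 := hBH i
      rw [h] at h1
      obtain ⟨c, hc⟩ := hH0 _ h1
      exact huniq ω' i i₁ c c₁ hc hc₁
    · rintro rfl
      exact hi₁
  have hrow0 : ∀ i, B i ≠ 0 := by
    intro i hi
    have h7 : (Pi.single i 1 : Fin n → ℂ) ᵥ* B = 0 := by
      rw [Matrix.single_vecMul, one_smul]
      exact hi
    have h8 := congrArg (fun x => x ᵥ* B⁻¹) h7
    simp only [Matrix.vecMul_vecMul, hBi, Matrix.vecMul_one, Matrix.zero_vecMul] at h8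
    have h9 := congrFun h8 i
    simp at h9
  have hc₀0 : c₀ ≠ 0 := by
    rintro rfl
    exact hrow0 i₀ (by rw [hc₀, zero_smul])
  have hc₁0 : c₁ ≠ 0 := by
    rintro rfl
    exact hrow0 i₁ (by rw [hc₁, zero_smul])
  refine ⟨B, p, i₀, i₁, c₀, hB, hp, h0, h1, hform, ⟨star c₁ / c₀, div_ne_zero (star_ne_zero.2 hc₁0) hc₀0, fun a => ?_⟩,
    hc₀0, hc₀, ?_⟩
  · rw [hc₁, hc₀, Pi.smul_apply, Pi.smul_apply, smul_eq_mul, smul_eq_mul, star_mul', hω', star_star]
    field_simp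
  · -- the Hodge operator
    intro q hq v hv
    set c := v ᵥ* B⁻¹ with hc
    have hvc : v = c ᵥ* B := by
      rw [hc, Matrix.vecMul_vecMul, hBi', Matrix.vecMul_one]
    have hcG : ∀ j, q + p j ≠ w → (c ᵥ* G) j = 0 := by
      intro j hj
      have h2 : (c ᵥ* G) j = v ⬝ᵥ (cq A *ᵥ B j) := by
        rw [hG, ← Matrix.vecMul_vecMul, ← Matrix.vecMul_vecMul, ← hvc, Matrix.dotProduct_mulVec]
        rfl
      rw [h2]
      exact horth q hq _ (hp j) hj v hv _ (hBH j)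
    set c' : Fin n → ℂ := fun i => if p i = q then 0 else c i with hc'
    have h2 : c' ᵥ* G = 0 := by
      funext j
      by_cases hj : q + p j = w
      · show ∑ i, c' i * G i j = 0
        refine Finset.sum_eq_zero fun i _ => ?_
        by_cases hi : p i = q
        · rw [hc']
          simp only
          rw [if_pos hi, zero_mul]
        · rw [hform i j (by omega), mul_zero]
      · have h3 := hcG j hj
        rw [Pi.zero_apply, ← h3]
        show ∑ i, c' i * G i j = ∑ i, c i * G i j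
        refine Finset.sum_congr rfl fun i _ => ?_
        by_cases hi : p i = q
        · rw [hform i j (by rw [hi]; exact hj), mul_zero, mul_zero]
        · rw [hc']
          simp only
          rw [if_neg hi]
    have h3 : c' = 0 := by
      have h4 := congrArg (fun x => x ᵥ* G⁻¹) h2
      simp only [Matrix.vecMul_vecMul, Matrix.mul_nonsing_inv _ hGd, Matrix.vecMul_one, Matrix.zero_vecMul] at h4
      exact h4
    have h4 : ∀ i, p i ≠ q → c i = 0 := by
      intro i hi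
      have h5 := congrFun h3 i
      rw [hc'] at h5
      simp only [Pi.zero_apply] at h5
      rwa [if_neg hi] at h5
    have h5 : v ᵥ* (B⁻¹ * Matrix.diagonal (fun i => (p i : ℂ)) * B) = (c ᵥ* Matrix.diagonal (fun i => (p i : ℂ))) ᵥ* B := by
      rw [← Matrix.vecMul_vecMul, ← Matrix.vecMul_vecMul]
    rw [h5]
    have h6 : c ᵥ* Matrix.diagonal (fun i => (p i : ℂ)) = (q : ℂ) • c := by
      funext i
      rw [Matrix.vecMul_diagonal, Pi.smul_apply, smul_eq_mul]
      by_cases hi : p i = q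
      · rw [hi, mul_comm]
      · rw [h4 i hi, zero_mul, mul_zero]
    rw [h6, Matrix.smul_vecMul, ← hvc]

/-- **The criterion.** A polarised Hodge structure of odd weight with `h^(w,0) = 1` such that the period point is on no
rational quadric is generic. -/
theorem generic {w : ℕ} (hw : 0 < w) {A : Matrix (Fin n) (Fin n) ℚ} (hA : Aᵀ = -A) (hAd : A.det ≠ 0)
    {H : ℕ → Submodule ℂ (Fin n → ℂ)} (hspan : (⨆ p : {p : ℕ // p ≤ w}, H p) = ⊤)
    (hconj : ∀ p ≤ w, ∀ v ∈ H p, (fun i => star (v i)) ∈ H (w - p))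
    (horth : ∀ p ≤ w, ∀ r ≤ w, p + r ≠ w → ∀ v ∈ H p, ∀ u ∈ H r, v ⬝ᵥ (cq A *ᵥ u) = 0)
    {ω : Fin n → ℂ} (hω0 : ω ≠ 0) (hω : H w = Submodule.span ℂ {ω})
    (hquad : ∀ Q : Matrix (Fin n) (Fin n) ℚ, Qᵀ = Q → ω ⬝ᵥ (cq Q *ᵥ ω) = 0 → Q = 0)
    {V : Submodule ℚ (Matrix (Fin n) (Fin n) ℚ)} (hbr : ∀ X ∈ V, ∀ Y ∈ V, X * Y - Y * X ∈ V)
    (hΦ : ∀ Φ, Hop w H Φ → Φ ∈ cx V) (X : Matrix (Fin n) (Fin n) ℚ) (hX : X * A + A * Xᵀ = 0) : X ∈ V := by
  obtain ⟨B, p, i₀, i₁, c₀, hB, hp, h0, h1, hform, hconj', hc₀0, hc₀, hop⟩ := hodge_data hw hAd hspan hconj horth hω0 hω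
  refine core hw hA hAd hB hp h0 h1 hform hconj' ?_ hbr (hΦ _ hop) X hX
  intro Q hQ h
  refine hquad Q hQ ?_
  rw [hc₀, Matrix.mulVec_smul, dotProduct_smul, smul_dotProduct, smul_eq_mul, smul_eq_mul] at h
  exact (mul_eq_zero.1 ((mul_eq_zero.1 h).resolve_left hc₀0)).resolve_left hc₀0

end Pool.Agent.X120.HG
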