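import Pool.Agent.X120.HG.Tens

/-!
# Hodge forms are combinations of products of Hodge forms on the fixed structure and of the polarisations
-/

set_option autoImplicit false
set_option linter.unusedSectionVars false

open Matrix Module

namespace Pool.Agent.X120.HG

open Pool.Agent.X120.GS.TT

section
variable {κ : Type} [Fintype κ] [DecidableEq κ] {n₀ k : ℕ} {n : Fin k → ℕ} {K : Type} [Field K]

/-- the action of matrices on forms in `r` variables as a matrix -/
def rh (r : ℕ) (X : Matrix (Fin n₀) (Fin n₀) K) : Matrix (Fin r → Fin n₀) (Fin r → Fin n₀) K :=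
  Matrix.of fun J J' => dr X (Pi.single J' 1) J

theorem rh_mulVec (r : ℕ) (X : Matrix (Fin n₀) (Fin n₀) K) (F : (Fin r → Fin n₀) → K) : rh r X *ᵥ F = dr X F := by
  classical
  funext J
  have h1 : F = ∑ J', F J' • (Pi.single J' (1 : K) : (Fin r → Fin n₀) → K) := by
    funext I
    rw [Finset.sum_apply, Finset.sum_eq_single I]
    · simp
    · intro J' _ hJ'
      rw [Pi.smul_apply, Pi.single_eq_of_ne (Ne.symm hJ'), smul_zero]
    · intro h
      exact absurd (Finset.mem_univ _) h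
  have h2 : ∀ s : Finset (Fin r → Fin n₀), dr X (∑ J' ∈ s, F J' • (Pi.single J' (1 : K) : (Fin r → Fin n₀) → K)) =
      ∑ J' ∈ s, F J' • dr X (Pi.single J' (1 : K)) := by
    intro s
    induction s using Finset.induction_on with
    | empty => rw [Finset.sum_empty, Finset.sum_empty, dr_zero]
    | insert a s ha ih => rw [Finset.sum_insert ha, Finset.sum_insert ha, dr_add, ih, dr_smul]
  conv_rhs => rw [h1, h2, Finset.sum_apply]
  show ∑ J', rh r X J J' * F J' = _
  refine Finset.sum_congr rfl fun J' _ => ?_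
  rw [Pi.smul_apply, smul_eq_mul, mul_comm]
  rfl

theorem rh_ext {r : ℕ} {M N : Matrix (Fin r → Fin n₀) (Fin r → Fin n₀) K} (h : ∀ F : (Fin r → Fin n₀) → K, M *ᵥ F = N *ᵥ F) : M = N := by
  classical
  ext i j
  have h1 := congrFun (h (Pi.single j 1)) i
  rw [Matrix.mulVec_single_one, Matrix.mulVec_single_one] at h1
  exact h1

theorem rh_br (r : ℕ) (X Y : Matrix (Fin n₀) (Fin n₀) K) : rh r X * rh r Y - rh r Y * rh r X = rh r (X * Y - Y * X) := by
  refine rh_ext fun F => ?_
  rw [Matrix.sub_mulVec, ← Matrix.mulVec_mulVec, ← Matrix.mulVec_mulVec, rh_mulVec, rh_mulVec, rh_mulVec, rh_mulVec, rh_mulVec, dr_br]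

theorem rh_add (r : ℕ) (X Y : Matrix (Fin n₀) (Fin n₀) K) : rh r (X + Y) = rh r X + rh r Y := by
  refine rh_ext fun F => ?_
  rw [Matrix.add_mulVec, rh_mulVec, rh_mulVec, rh_mulVec, dr_add']

theorem rh_smul (r : ℕ) (c : K) (X : Matrix (Fin n₀) (Fin n₀) K) : rh r (c • X) = c • rh r X := by
  refine rh_ext fun F => ?_
  rw [Matrix.smul_mulVec, rh_mulVec, rh_mulVec, dr_smul']

theorem rh_zero (r : ℕ) : rh r (0 : Matrix (Fin n₀) (Fin n₀) K) = 0 := by
  refine rh_ext fun F => ?_
  rw [Matrix.zero_mulVec, rh_mulVec, dr_zero']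

/-- the action on the first variables -/
def m0 {E E₀ : Type} [Fintype E₀] (X : Matrix E₀ E₀ K) (T : E₀ → E → K) : E₀ → E → K := fun a => ∑ b, X a b • T b

/-- the action on the other variables -/
def d1 {E₀ : Type} (X : ∀ i, Matrix (Fin (n i)) (Fin (n i)) K) (T : E₀ → (κ → Σ i, Fin (n i)) → K) :
    E₀ → (κ → Σ i, Fin (n i)) → K := fun a => dr (blockDiagonal' X) (T a)

/-- the derivation -/
def Dt {r : ℕ} (X : TM n₀ n K) (T : (Fin r → Fin n₀) → (κ → Σ i, Fin (n i)) → K) :
    (Fin r → Fin n₀) → (κ → Σ i, Fin (n i)) → K :=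
  fun a => m0 (rh r X.1) T a + d1 X.2 T a

theorem dr_sum {R : Type} [Fintype R] {ι : Type} (s : Finset ι) (X : Matrix R R K) (F : ι → (κ → R) → K) :
    dr X (∑ b ∈ s, F b) = ∑ b ∈ s, dr X (F b) := by
  classical
  induction s using Finset.induction_on with
  | empty => rw [Finset.sum_empty, Finset.sum_empty, dr_zero]
  | insert a s ha ih => rw [Finset.sum_insert ha, Finset.sum_insert ha, dr_add, ih]

theorem Dt_br {r : ℕ} (X Y : TM n₀ n K) (T : (Fin r → Fin n₀) → (κ → Σ i, Fin (n i)) → K) (a : Fin r → Fin n₀) :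
    Dt X (Dt Y T) a - Dt Y (Dt X T) a =
      Dt ((X.1 * Y.1 - Y.1 * X.1, fun i => X.2 i * Y.2 i - Y.2 i * X.2 i) : TM n₀ n K) T a := by
  have hm : ∀ (Z W : Matrix (Fin r → Fin n₀) (Fin r → Fin n₀) K) (T : (Fin r → Fin n₀) → (κ → Σ i, Fin (n i)) → K),
      m0 Z (m0 W T) a = m0 (Z * W) T a := by
    intro Z W T
    unfold m0
    simp only [Finset.smul_sum, smul_smul]
    rw [Finset.sum_comm]
    refine Finset.sum_congr rfl fun b _ => ?_
    rw [← Finset.sum_smul, Matrix.mul_apply]
  have hma : ∀ (Z : Matrix (Fin r → Fin n₀) (Fin r → Fin n₀) K) (T S : (Fin r → Fin n₀) → (κ → Σ i, Fin (n i)) → K),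
      m0 Z (fun a => T a + S a) a = m0 Z T a + m0 Z S a := by
    intro Z T S
    unfold m0
    simp only [smul_add, Finset.sum_add_distrib]
  have hms : ∀ (Z W : Matrix (Fin r → Fin n₀) (Fin r → Fin n₀) K) (T : (Fin r → Fin n₀) → (κ → Σ i, Fin (n i)) → K),
      m0 (Z - W) T a = m0 Z T a - m0 W T a := by
    intro Z W T
    unfold m0
    simp only [Matrix.sub_apply, sub_smul, Finset.sum_sub_distrib]
  have hc : ∀ (Z : Matrix (Fin r → Fin n₀) (Fin r → Fin n₀) K) (W : ∀ i, Matrix (Fin (n i)) (Fin (n i)) K)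
      (T : (Fin r → Fin n₀) → (κ → Σ i, Fin (n i)) → K), dr (blockDiagonal' W) (m0 Z T a) = m0 Z (d1 W T) a := by
    intro Z W T
    unfold m0 d1
    rw [dr_sum]
    refine Finset.sum_congr rfl fun b _ => ?_
    rw [dr_smul]
  show m0 (rh r X.1) (fun a => m0 (rh r Y.1) T a + d1 Y.2 T a) a +
      dr (blockDiagonal' X.2) (m0 (rh r Y.1) T a + dr (blockDiagonal' Y.2) (T a)) -
    (m0 (rh r Y.1) (fun a => m0 (rh r X.1) T a + d1 X.2 T a) a +
      dr (blockDiagonal' Y.2) (m0 (rh r X.1) T a + dr (blockDiagonal' X.2) (T a))) =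
    m0 (rh r (X.1 * Y.1 - Y.1 * X.1)) T a + dr (blockDiagonal' fun i => X.2 i * Y.2 i - Y.2 i * X.2 i) (T a)
  have hb : (blockDiagonal' fun i => X.2 i * Y.2 i - Y.2 i * X.2 i) =
      blockDiagonal' X.2 * blockDiagonal' Y.2 - blockDiagonal' Y.2 * blockDiagonal' X.2 := by
    rw [← blockDiagonal'_mul, ← blockDiagonal'_mul, ← blockDiagonal'_sub]
    rfl
  rw [hb, ← dr_br, hma, hma, dr_add, dr_add, hc, hc, ← rh_br, hms, ← hm, ← hm]
  abel

/-- the rational Lie algebra of the matrices for which `T` is an eigenvector -/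
def VT {r : ℕ} (T : (Fin r → Fin n₀) → (κ → Σ i, Fin (n i)) → ℚ) : Submodule ℚ (TM n₀ n ℚ) where
  carrier := {X | ∃ c : ℚ, ∀ a, Dt X T a = c • T a}
  zero_mem' := ⟨0, fun a => by
    show m0 (rh r 0) T a + dr (blockDiagonal' (0 : ∀ i, Matrix (Fin (n i)) (Fin (n i)) ℚ)) (T a) = _
    rw [blockDiagonal'_zero, dr_zero', zero_smul, add_zero, rh_zero]
    unfold m0
    simp⟩
  add_mem' := by
    rintro X Y ⟨c, hc⟩ ⟨d, hd⟩
    refine ⟨c + d, fun a => ?_⟩
    rw [add_smul, ← hc, ← hd]
    show m0 (rh r (X.1 + Y.1)) T a + dr (blockDiagonal' (X.2 + Y.2)) (T a) =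
      m0 (rh r X.1) T a + dr (blockDiagonal' X.2) (T a) + (m0 (rh r Y.1) T a + dr (blockDiagonal' Y.2) (T a))
    rw [blockDiagonal'_add, dr_add', rh_add]
    unfold m0
    simp only [Matrix.add_apply, add_smul, Finset.sum_add_distrib]
    abel
  smul_mem' := by
    rintro x X ⟨c, hc⟩
    refine ⟨x * c, fun a => ?_⟩
    rw [mul_smul, ← hc]
    show m0 (rh r (x • X.1)) T a + dr (blockDiagonal' (x • X.2)) (T a) =
      x • (m0 (rh r X.1) T a + dr (blockDiagonal' X.2) (T a))
    rw [blockDiagonal'_smul, dr_smul', smul_add, rh_smul]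
    unfold m0
    simp only [Matrix.smul_apply, smul_assoc, Finset.smul_sum]

theorem Dt_smul {r : ℕ} (X : TM n₀ n K) (c : K) (T : (Fin r → Fin n₀) → (κ → Σ i, Fin (n i)) → K) (a : Fin r → Fin n₀) :
    Dt X (fun a => c • T a) a = c • Dt X T a := by
  show m0 (rh r X.1) (fun a => c • T a) a + dr (blockDiagonal' X.2) (c • T a) =
    c • (m0 (rh r X.1) T a + dr (blockDiagonal' X.2) (T a))
  rw [dr_smul, smul_add]
  unfold m0
  simp only [Finset.smul_sum, smul_comm c]

theorem VT_br {r : ℕ} (T : (Fin r → Fin n₀) → (κ → Σ i, Fin (n i)) → ℚ) : ∀ X ∈ VT T, ∀ Y ∈ VT T, tbr X Y ∈ VT T := by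
  rintro X ⟨c, hc⟩ Y ⟨d, hd⟩
  refine ⟨0, fun a => ?_⟩
  have h1 := Dt_br X Y T a
  have e1 : Dt X T = fun a => c • T a := funext hc
  have e2 : Dt Y T = fun a => d • T a := funext hd
  rw [e1, e2, Dt_smul, Dt_smul, e1, e2, smul_smul, smul_smul, mul_comm, sub_self] at h1
  rw [zero_smul]
  exact h1.symm

/-- commuting brackets kill `T` -/
theorem d1_zero {r : ℕ} {T : (Fin r → Fin n₀) → (κ → Σ i, Fin (n i)) → ℚ} {A : ∀ i, Matrix (Fin (n i)) (Fin (n i)) ℚ}
    (hA : ∀ i, (A i)ᵀ = -A i) (hAd : ∀ i, (A i).det ≠ 0)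
    (h : ∀ X : ∀ i, Matrix (Fin (n i)) (Fin (n i)) ℚ, (∀ i, IsSp (A i) (X i)) → ((0, X) : TM n₀ n ℚ) ∈ VT T)
    {X : ∀ i, Matrix (Fin (n i)) (Fin (n i)) ℚ} (hX : ∀ i, IsSp (A i) (X i)) (a : Fin r → Fin n₀) :
    dr (blockDiagonal' X) (T a) = 0 := by
  classical
  have hD : ∀ (X : ∀ i, Matrix (Fin (n i)) (Fin (n i)) ℚ) (T : (Fin r → Fin n₀) → (κ → Σ i, Fin (n i)) → ℚ) (a : Fin r → Fin n₀),
      Dt ((0, X) : TM n₀ n ℚ) T a = dr (blockDiagonal' X) (T a) := by
    intro X T a
    show m0 (rh r 0) T a + dr (blockDiagonal' X) (T a) = _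
    rw [rh_zero]
    unfold m0
    simp
  have hone : ∀ i, ∀ Z, IsSp (A i) Z → dr (blockDiagonal' (Pi.single i Z)) (T a) = 0 := by
    intro i Z hZ
    let P : Submodule ℚ (Matrix (Fin (n i)) (Fin (n i)) ℚ) :=
      { carrier := {Z | dr (blockDiagonal' (Pi.single i Z)) (T a) = 0}
        zero_mem' := by
          show dr (blockDiagonal' (Pi.single i (0 : Matrix (Fin (n i)) (Fin (n i)) ℚ))) (T a) = 0
          rw [Pi.single_zero, blockDiagonal'_zero, dr_zero']
        add_mem' := by
          intro Z W hZ hW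
          show dr (blockDiagonal' (Pi.single i (Z + W))) (T a) = 0
          rw [Pi.single_add, blockDiagonal'_add, dr_add', hZ, hW, add_zero]
        smul_mem' := by
          intro r Z hZ
          show dr (blockDiagonal' (Pi.single i (r • Z))) (T a) = 0
          rw [Pi.single_smul, blockDiagonal'_smul, dr_smul', hZ, smul_zero] }
    refine sp_perfect (P := P) (hA i) (hAd i) (fun Z W hZ hW => ?_) hZ
    have hs : ∀ Z, IsSp (A i) Z → ∀ j, IsSp (A j) ((Pi.single i Z : ∀ i, Matrix (Fin (n i)) (Fin (n i)) ℚ) j) := by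
      intro Z hZ j
      by_cases hj : j = i
      · subst hj
        rw [Pi.single_eq_same]
        exact hZ
      · rw [Pi.single_eq_of_ne hj]
        unfold IsSp
        rw [Matrix.zero_mul, Matrix.transpose_zero, Matrix.mul_zero, add_zero]
    obtain ⟨c, hc⟩ := h _ (hs Z hZ)
    obtain ⟨d, hd⟩ := h _ (hs W hW)
    show dr (blockDiagonal' (Pi.single i (Z * W - W * Z))) (T a) = 0
    have h2 : blockDiagonal' (Pi.single i (Z * W - W * Z)) =
        blockDiagonal' (Pi.single i Z) * blockDiagonal' (Pi.single i W) -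
        blockDiagonal' (Pi.single i W) * blockDiagonal' (Pi.single i Z : ∀ i, Matrix (Fin (n i)) (Fin (n i)) ℚ) := by
      rw [← blockDiagonal'_mul, ← blockDiagonal'_mul, ← blockDiagonal'_sub]
      congr 1
      funext j
      rw [Pi.sub_apply]
      by_cases hj : j = i
      · subst hj
        rw [Pi.single_eq_same, Pi.single_eq_same, Pi.single_eq_same]
      · rw [Pi.single_eq_of_ne hj, Pi.single_eq_of_ne hj, Pi.single_eq_of_ne hj, Matrix.mul_zero, sub_zero]
    rw [h2, ← dr_br]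
    have e1 := hc a
    have e2 := hd a
    rw [hD] at e1 e2
    rw [e1, e2, dr_smul, dr_smul, e1, e2, smul_smul, smul_smul, mul_comm, sub_self]
  have h3 : X = ∑ i, Pi.single i (X i) := (Finset.univ_sum_single X).symm
  have h4 : ∀ s : Finset (Fin k), dr (blockDiagonal' (∑ i ∈ s, Pi.single i (X i))) (T a) = 0 := by
    intro s
    induction s using Finset.induction_on with
    | empty => rw [Finset.sum_empty, blockDiagonal'_zero, dr_zero']
    | insert i s hi ih => rw [Finset.sum_insert hi, blockDiagonal'_add, dr_add', hone i _ (hX i), ih, add_zero]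
  rw [h3]
  exact h4 _

end

section
variable {m n₀ k : ℕ} {n : Fin k → ℕ}

/-- forms of a given type -/
def OfType (τ : Fin m → Fin k) (F : (Fin m → Σ i, Fin (n i)) → ℚ) : Prop := ∀ I, F I ≠ 0 → ∀ l, (I l).1 = τ l

/-- the products of the forms of type `τ` -/
def Pr (A : ∀ i, Matrix (Fin (n i)) (Fin (n i)) ℚ) (τ : Fin m → Fin k) : Set ((Fin m → Σ i, Fin (n i)) → ℚ) :=
  {w | ∃ (s : ℕ) (e : Fin s × Fin 2 ≃ Fin m) (c : Fin s → Fin k), (∀ l, c l = τ (e (l, 0)) ∧ c l = τ (e (l, 1))) ∧ w = pq A e c}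

theorem pq_type {A : ∀ i, Matrix (Fin (n i)) (Fin (n i)) ℚ} {s : ℕ} {e : Fin s × Fin 2 ≃ Fin m} {c : Fin s → Fin k}
    {I : Fin m → Σ i, Fin (n i)} (h : pq A e c I ≠ 0) (l : Fin s) : (I (e (l, 0))).1 = c l ∧ (I (e (l, 1))).1 = c l := by
  unfold pq at h
  have h1 := Finset.prod_ne_zero_iff.1 h l (Finset.mem_univ l)
  by_cases h0 : (I (e (l, 0))).1 = c l
  · refine ⟨h0, ?_⟩
    rw [if_pos h0] at h1
    by_contra h2
    apply h1
    exact blockDiagonal'_apply_ne _ _ _ fun h3 => h2 (h3.symm.trans h0)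
  · rw [if_neg h0] at h1
    exact absurd rfl h1

theorem span_type {A : ∀ i, Matrix (Fin (n i)) (Fin (n i)) ℚ} {τ : Fin m → Fin k} {F : (Fin m → Σ i, Fin (n i)) → ℚ}
    (hF : OfType τ F)
    (h : F ∈ Submodule.span ℚ {w | ∃ (s : ℕ) (e : Fin s × Fin 2 ≃ Fin m) (c : Fin s → Fin k), w = pq A e c}) :
    F ∈ Submodule.span ℚ (Pr A τ) := by
  classical
  have h1 : ∀ G ∈ Submodule.span ℚ {w : (Fin m → Σ i, Fin (n i)) → ℚ |
      ∃ (s : ℕ) (e : Fin s × Fin 2 ≃ Fin m) (c : Fin s → Fin k), w = pq A e c},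
      (fun I => if ∀ l, (I l).1 = τ l then G I else 0) ∈ Submodule.span ℚ (Pr A τ) := by
    intro G hG
    induction hG using Submodule.span_induction with
    | mem x hx =>
      obtain ⟨s, e, c, rfl⟩ := hx
      by_cases hc : ∀ l, c l = τ (e (l, 0)) ∧ c l = τ (e (l, 1))
      · have h2 : (fun I => if ∀ l, (I l).1 = τ l then pq A e c I else 0) = pq A e c := by
          funext I
          by_cases h0 : pq A e c I = 0
          · rw [h0, ite_self]
          · rw [if_pos]
            intro l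
            obtain ⟨⟨l', ε⟩, rfl⟩ := e.surjective l
            have h3 := pq_type h0 l'
            have h4 : ε = 0 ∨ ε = 1 := by
              fin_cases ε
              · exact Or.inl rfl
              · exact Or.inr rfl
            rcases h4 with rfl | rfl
            · rw [h3.1, (hc l').1]
            · rw [h3.2, (hc l').2]
        rw [h2]
        exact Submodule.subset_span ⟨s, e, c, hc, rfl⟩
      · have h2 : (fun I => if ∀ l, (I l).1 = τ l then pq A e c I else 0) = 0 := by
          funext I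
          rw [Pi.zero_apply]
          by_cases h0 : pq A e c I = 0
          · rw [h0, ite_self]
          · rw [if_neg]
            intro hI
            apply hc
            intro l
            have h3 := pq_type h0 l
            exact ⟨h3.1.symm.trans (hI _), h3.2.symm.trans (hI _)⟩
        rw [h2]
        exact Submodule.zero_mem _
    | zero =>
      have h2 : (fun I : Fin m → Σ i, Fin (n i) => if ∀ l, (I l).1 = τ l then (0 : (Fin m → Σ i, Fin (n i)) → ℚ) I else 0) = 0 := by
        funext I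
        simp
      rw [h2]
      exact Submodule.zero_mem _
    | add x y _ _ hx hy =>
      have h2 : (fun I => if ∀ l, (I l).1 = τ l then (x + y) I else 0) =
          (fun I => if ∀ l, (I l).1 = τ l then x I else 0) + fun I => if ∀ l, (I l).1 = τ l then y I else 0 := by
        funext I
        show (if ∀ l, (I l).1 = τ l then (x + y) I else 0) =
          (if ∀ l, (I l).1 = τ l then x I else 0) + (if ∀ l, (I l).1 = τ l then y I else 0)
        split_ifs
        · rfl
        · rw [add_zero]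
      rw [h2]
      exact Submodule.add_mem _ hx hy
    | smul a x _ hx =>
      have h2 : (fun I => if ∀ l, (I l).1 = τ l then (a • x) I else 0) =
          a • (fun I => if ∀ l, (I l).1 = τ l then x I else 0) := by
        funext I
        show (if ∀ l, (I l).1 = τ l then (a • x) I else 0) = a • (if ∀ l, (I l).1 = τ l then x I else 0)
        split_ifs
        · rfl
        · rw [smul_zero]
      rw [h2]
      exact Submodule.smul_mem _ _ hx
  have h2 := h1 F h
  have h3 : (fun I => if ∀ l, (I l).1 = τ l then F I else 0) = F := by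
    funext I
    by_cases h0 : F I = 0
    · rw [h0, ite_self]
    · rw [if_pos (hF I h0)]
  rwa [h3] at h2

/-- the tensor product of a vector and a form -/
def tp {r : ℕ} (w : (Fin r → Fin n₀) → ℚ) (P : (Fin m → Σ i, Fin (n i)) → ℚ) : (Fin r → Fin n₀) → (Fin m → Σ i, Fin (n i)) → ℚ := fun a => w a • P

/-- **Hodge forms.** -/
theorem hodge_forms {r : ℕ} {A : ∀ i, Matrix (Fin (n i)) (Fin (n i)) ℚ} (hA : ∀ i, (A i)ᵀ = -A i) (hAd : ∀ i, (A i).det ≠ 0)
    {Φ₀ : Matrix (Fin n₀) (Fin n₀) ℂ} {Φ : ∀ i, Matrix (Fin (n i)) (Fin (n i)) ℂ} {w : Fin k → ℂ}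
    (hΦ : ∀ i, Φ i * cq (A i) + cq (A i) * (Φ i)ᵀ = w i • cq (A i)) {τ : Fin m → Fin k}
    {T : (Fin r → Fin n₀) → (Fin m → Σ i, Fin (n i)) → ℚ} (hT : ∀ a, OfType τ (T a))
    (h : ∀ X : ∀ i, Matrix (Fin (n i)) (Fin (n i)) ℚ, (∀ i, IsSp (A i) (X i)) → ((0, X) : TM n₀ n ℚ) ∈ VT T) {c : ℂ}
    (hc : ∀ a, Dt ((Φ₀, Φ) : TM n₀ n ℂ) (fun a => cst (T a)) a = c • cst (T a)) :
    T ∈ Submodule.span ℚ {S | ∃ (v : (Fin r → Fin n₀) → ℚ) (P : (Fin m → Σ i, Fin (n i)) → ℚ), P ∈ Pr A τ ∧
      rh r Φ₀ *ᵥ (fun a => (v a : ℂ)) = (c - (∑ l, w (τ l)) / 2) • (fun a => (v a : ℂ)) ∧ S = tp v P} := by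
  classical
  have h1 : ∀ a, T a ∈ Submodule.span ℚ (Pr A τ) := fun a =>
    span_type (hT a) (inv_span hA hAd fun X hX => d1_zero hA hAd h hX a)
  set U := Submodule.span ℚ (Pr A τ) with hU
  set β := Module.finBasis ℚ U with hβ
  set ν : ℂ := (∑ l, w (τ l)) / 2 with hν
  -- the eigenvalue of the products
  have h2 : ∀ F ∈ U, dr (blockDiagonal' Φ) (cst F) = ν • cst F := by
    intro F hF
    have hadd : ∀ F G : (Fin m → Σ i, Fin (n i)) → ℚ, cst (F + G) = cst F + cst G := by
      intro F G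
      funext I
      simp [cst]
    have hsm : ∀ (r : ℚ) (F : (Fin m → Σ i, Fin (n i)) → ℚ), cst (r • F) = (r : ℂ) • cst F := by
      intro r F
      funext I
      simp [cst]
    induction hF using Submodule.span_induction with
    | mem x hx =>
      obtain ⟨s, e, c', hc', rfl⟩ := hx
      rw [cst_pq, dr_mat hΦ]
      congr 1
      rw [hν, ← Equiv.sum_comp e, Fintype.sum_prod_type]
      have h3 : ∀ l : Fin s, ∑ ε : Fin 2, w (τ (e (l, ε))) = 2 * w (c' l) := by
        intro l
        rw [Fin.sum_univ_two, ← (hc' l).1, ← (hc' l).2]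
        ring
      rw [Finset.sum_congr rfl fun l _ => h3 l, ← Finset.mul_sum]
      ring
    | zero =>
      have h3 : cst (0 : (Fin m → Σ i, Fin (n i)) → ℚ) = 0 := by
        funext I
        simp [cst]
      rw [h3, dr_zero, smul_zero]
    | add x y _ _ hx hy => rw [hadd, dr_add, hx, hy, smul_add]
    | smul r x _ hx => rw [hsm, dr_smul, hx, smul_comm]
  -- coordinates
  set v : Fin (finrank ℚ U) → (Fin r → Fin n₀) → ℚ := fun j a => β.repr ⟨T a, h1 a⟩ j with hv
  have h3 : T = ∑ j, tp (v j) (β j : (Fin m → Σ i, Fin (n i)) → ℚ) := by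
    funext a
    have h4 := β.sum_repr ⟨T a, h1 a⟩
    have h5 : T a = ((∑ i, β.repr ⟨T a, h1 a⟩ i • β i : U) : (Fin m → Σ i, Fin (n i)) → ℚ) := by rw [h4]
    refine h5.trans ?_
    rw [Finset.sum_apply]
    push_cast
    rfl
  -- the equation for the coordinates
  have h4 : ∀ j, rh r Φ₀ *ᵥ (fun a => (v j a : ℂ)) = (c - ν) • (fun a => (v j a : ℂ)) := by
    intro j
    funext a
    have key : ∀ φ : ℂ →ₗ[ℚ] ℚ, ∑ b, φ (rh r Φ₀ a b) * v j b = φ (c - ν) * v j a := by
      intro φ
      have e1 : ∑ b, φ (rh r Φ₀ a b) • T b = φ (c - ν) • T a := by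
        funext I
        have e2 := congrFun (hc a) I
        have e3 : Dt ((Φ₀, Φ) : TM n₀ n ℂ) (fun a => cst (T a)) a I =
            ∑ b, rh r Φ₀ a b * cst (T b) I + ν * cst (T a) I := by
          show m0 (rh r Φ₀) (fun a => cst (T a)) a I + dr (blockDiagonal' Φ) (cst (T a)) I = _
          rw [h2 _ (h1 a)]
          unfold m0
          rw [Finset.sum_apply]
          rfl
        rw [e3] at e2
        have e4 : ∑ b, rh r Φ₀ a b * cst (T b) I = (c - ν) * cst (T a) I := by
          have e5 : (c • cst (T a)) I = c * cst (T a) I := rfl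
          rw [e5] at e2
          linear_combination e2
        have e5 := congrArg φ e4
        rw [map_sum] at e5
        unfold cst at e5
        rw [Finset.sum_apply, Pi.smul_apply, smul_eq_mul]
        have e6 : ∀ (z : ℂ) (q : ℚ), φ (z * (q : ℂ)) = φ z * q := by
          intro z q
          rw [mul_comm, phi_rat, mul_comm]
        rw [e6] at e5
        rw [← e5]
        refine Finset.sum_congr rfl fun b _ => ?_
        rw [e6]
        rfl
      have e7 : (∑ b, φ (rh r Φ₀ a b) • (⟨T b, h1 b⟩ : U)) = φ (c - ν) • (⟨T a, h1 a⟩ : U) := by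
        apply Subtype.ext
        push_cast
        exact e1
      have e8 := congrArg (fun x => β.repr x j) e7
      simp only [map_sum, map_smul, Finsupp.smul_apply, smul_eq_mul, Finsupp.coe_finsetSum, Finset.sum_apply] at e8
      exact e8
    have h5 : (rh r Φ₀ *ᵥ fun a => (v j a : ℂ)) a - ((c - ν) • fun a => (v j a : ℂ)) a = 0 := by
      refine phi_zero fun φ => ?_
      have e9 : ∀ (z : ℂ) (q : ℚ), φ (z * (q : ℂ)) = φ z * q := by
        intro z q
        rw [mul_comm, phi_rat, mul_comm]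
      rw [map_sub, Pi.smul_apply, smul_eq_mul, e9, ← key φ]
      simp only [Matrix.mulVec, dotProduct]
      rw [map_sum, sub_eq_zero]
      exact Finset.sum_congr rfl fun b _ => e9 _ _
    exact sub_eq_zero.1 h5
  rw [h3]
  refine Submodule.sum_mem _ fun j _ => ?_
  -- the basis element is a combination of products
  have h5 : ∀ F ∈ U, tp (v j) F ∈ Submodule.span ℚ {S | ∃ (v : (Fin r → Fin n₀) → ℚ) (P : (Fin m → Σ i, Fin (n i)) → ℚ), P ∈ Pr A τ ∧
      rh r Φ₀ *ᵥ (fun a => (v a : ℂ)) = (c - ν) • (fun a => (v a : ℂ)) ∧ S = tp v P} := by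
    intro F hF
    induction hF using Submodule.span_induction with
    | mem x hx => exact Submodule.subset_span ⟨v j, x, hx, h4 j, rfl⟩
    | zero =>
      have h6 : tp (v j) (0 : (Fin m → Σ i, Fin (n i)) → ℚ) = 0 := by
        funext a
        show v j a • (0 : (Fin m → Σ i, Fin (n i)) → ℚ) = 0
        rw [smul_zero]
      rw [h6]
      exact Submodule.zero_mem _
    | add x y _ _ hx hy =>
      have h6 : tp (v j) (x + y) = tp (v j) x + tp (v j) y := by
        funext a
        exact smul_add _ _ _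
      rw [h6]
      exact Submodule.add_mem _ hx hy
    | smul r x _ hx =>
      have h6 : tp (v j) (r • x) = r • tp (v j) x := by
        funext a
        exact smul_comm _ _ _
      rw [h6]
      exact Submodule.smul_mem _ _ hx
  exact h5 _ (β j).2

end

end Pool.Agent.X120.HG
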