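import Pool.Agent.X120.HG.Gen
import Pool.Agent.X120.GS.Hyv
import Pool.Agent.Y118.CM.Cl

/-!
# Quadratic relations between the periods of hypergeometric families
-/

set_option autoImplicit false

open Matrix

namespace Pool.Agent.X120.HG

open Pool.Agent.Y119.HY Pool.Agent.Y119.HZ Pool.Agent.Y118.CM
open Pool.Agent.X120.GS (GoodZ)
open Pool.Agent.Y113 (SDc)

section
variable {m : ℕ} {β : Fin m → ℚ}

/-- the constants -/
noncomputable def Omc (β : Fin m → ℚ) (C : Matrix (Fin (2 * m)) (Fin (2 * m)) ℂ) : Matrix (Fin (2 * m)) (Fin (2 * m)) ℂ :=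
  cm (DN β)⁻¹ * C

theorem Omc_unit (hQ : QD (2 * m) (QB β)) {C : Matrix (Fin (2 * m)) (Fin (2 * m)) ℂ} (hC : C.det ≠ 0) :
    IsUnit (Omc β C) := by
  rw [Matrix.isUnit_iff_isUnit_det]
  unfold Omc
  rw [Matrix.det_mul]
  refine IsUnit.mul ?_ (isUnit_iff_ne_zero.2 hC)
  have h1 : cm (DN β) * cm (DN β)⁻¹ = 1 := by rw [← cm_mul, Matrix.mul_nonsing_inv _ (DN_unit hQ), cm_one]
  have h2 := congrArg Matrix.det h1
  rw [Matrix.det_mul, Matrix.det_one] at h2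
  exact IsUnit.of_mul_eq_one_right _ h2

/-- the period vector in terms of the period matrix -/
theorem per_om (hm : 1 ≤ m) (hQ : QD (2 * m) (QB β)) {t : ℕ} (ht : 2 ≤ t) (C : Matrix (Fin (2 * m)) (Fin (2 * m)) ℂ) :
    perr β t 0 ᵥ* C = (Yt (2 * m) (QB β) t * Omc β C)ᵀ *ᵥ (fun c : Fin (2 * m) => (dd β 0 c : ℂ)) := by
  rw [perr_C hQ (by omega) ht, Matrix.mulVec_transpose]
  unfold Omc Yt Cc
  rw [DN_commE hQ]
  simp only [Matrix.vecMul_vecMul, Matrix.mul_assoc]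

/-- **no quadratic relations** -/
theorem no_quad (hm : 1 ≤ m) (hQ : QD (2 * m) (QB β)) {t : ℕ} (ht : 2 ≤ t) {C : Matrix (Fin (2 * m)) (Fin (2 * m)) ℂ}
    (hC : C.det ≠ 0) (hdd : (fun c : Fin (2 * m) => (dd β 0 c : ℂ)) ≠ 0)
    (hgood : GoodZ (k := 1) (n := fun _ => 2 * m) 2 (Submodule.span ℚ {(1 : ℂ)})
      (fun _ => (Yt (2 * m) (QB β) t * Omc β C)ᵀ) (fun _ => cm (Jm (2 * m) (QB β)))
      (fun _ => (Omc β C)ᵀ * cm (Jm (2 * m) (QB β)) * Omc β C)) :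
    perr β t 0 ᵥ* C ≠ 0 ∧ ∀ Q : Matrix (Fin (2 * m)) (Fin (2 * m)) ℚ, Qᵀ = Q →
      (perr β t 0 ᵥ* C) ⬝ᵥ (cq Q *ᵥ (perr β t 0 ᵥ* C)) = 0 → Q = 0 := by
  classical
  set W := (Yt (2 * m) (QB β) t * Omc β C)ᵀ with hW
  set d : Fin (2 * m) → ℂ := fun c => (dd β 0 c : ℂ) with hd
  set J := cm (Jm (2 * m) (QB β)) with hJ
  set B' := (Omc β C)ᵀ * J * Omc β C with hB'
  have hΩ : ∀ i : Fin 1, IsUnit ((fun _ => Omc β C : ∀ i : Fin 1, Matrix (Fin (2 * m)) (Fin (2 * m)) ℂ) i) := fun _ => Omc_unit hQ hC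
  have hWJ : W * J * Wᵀ = B' :=
    Pool.Agent.Y123.GN.cM_form (k := 1) (n := fun _ => 2 * m) (Q := fun _ => QB β) (fun _ => hQ) (fun _ => Omc β C)
      (t := fun _ => t) (fun _ => ht) 0
  have hWu : IsUnit W :=
    Pool.Agent.Y123.GN.cM_unit (k := 1) (n := fun _ => 2 * m) (Q := fun _ => QB β) (fun _ => hQ) hΩ
      (t := fun _ => t) (fun _ => ht) 0
  have hBt : B'ᵀ = -B' := Pool.Agent.Y123.GN.PM'_skew (k := 1) (n := fun _ => 2 * m) (Q := fun _ => QB β) (fun _ => hQ)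
    (fun _ => Omc β C) 0
  have hBd : IsUnit B'.det := isUnit_iff_ne_zero.2
    (Pool.Agent.Y123.GN.PM'_det (k := 1) (n := fun _ => 2 * m) (Q := fun _ => QB β) (fun _ => hQ) hΩ 0)
  have hω : perr β t 0 ᵥ* C = W *ᵥ d := per_om hm hQ ht C
  have hω0 : W *ᵥ d ≠ 0 := by
    intro h
    apply hdd
    have hWd := (Matrix.isUnit_iff_isUnit_det _).1 hWu
    have h3 := congrArg (fun x => W⁻¹ *ᵥ x) h
    simp only [Matrix.mulVec_mulVec, Matrix.nonsing_inv_mul _ hWd, Matrix.one_mulVec, Matrix.mulVec_zero] at h3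
    exact h3
  rw [hω]
  refine ⟨hω0, ?_⟩
  intro Q hQs hQ0
  have hQs' : (cq Q)ᵀ = cq Q := by rw [← cq_tr, hQs]
  -- the polynomial
  let lin : Fin (2 * m) → MvPolynomial (Σ _ : Fin 1, Fin (2 * m) × Fin (2 * m)) ℚ := fun j =>
    ∑ a : Fin (2 * m), MvPolynomial.C (dd β 0 a) * MvPolynomial.X ⟨0, (j, a)⟩
  let F₀ : MvPolynomial (Σ _ : Fin 1, Fin (2 * m) × Fin (2 * m)) ℚ :=
    ∑ i, ∑ j, MvPolynomial.C (Q i j) * (lin i * lin j)
  have hlin : ∀ j, (lin j).totalDegree ≤ 1 := by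
    intro j
    refine (MvPolynomial.totalDegree_finsetSum_le fun a _ => ?_)
    refine (MvPolynomial.totalDegree_mul _ _).trans ?_
    rw [MvPolynomial.totalDegree_C, MvPolynomial.totalDegree_X]
  have hF₀ : F₀.totalDegree ≤ 2 := by
    refine (MvPolynomial.totalDegree_finsetSum_le fun i _ => ?_)
    refine (MvPolynomial.totalDegree_finsetSum_le fun j _ => ?_)
    refine (MvPolynomial.totalDegree_mul _ _).trans ?_
    rw [MvPolynomial.totalDegree_C, zero_add]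
    refine (MvPolynomial.totalDegree_mul _ _).trans ?_
    exact Nat.add_le_add (hlin i) (hlin j)
  set F := MvPolynomial.map (algebraMap ℚ ℂ) F₀ with hF
  have hev : ∀ X : ∀ _ : Fin 1, Matrix (Fin (2 * m)) (Fin (2 * m)) ℂ,
      MvPolynomial.aeval (fun v : Σ _ : Fin 1, Fin (2 * m) × Fin (2 * m) => X v.1 v.2.1 v.2.2) F =
        (X 0 *ᵥ d) ⬝ᵥ (cq Q *ᵥ (X 0 *ᵥ d)) := by
    intro X
    rw [hF, MvPolynomial.aeval_map_algebraMap]
    have h1 : ∀ j, MvPolynomial.aeval (fun v : Σ _ : Fin 1, Fin (2 * m) × Fin (2 * m) => X v.1 v.2.1 v.2.2) (lin j) =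
        (X 0 *ᵥ d) j := by
      intro j
      rw [map_sum]
      show _ = ∑ a, X 0 j a * d a
      refine Finset.sum_congr rfl fun a _ => ?_
      rw [map_mul, MvPolynomial.aeval_C, MvPolynomial.aeval_X, mul_comm]
      rfl
    rw [map_sum]
    show _ = ∑ i, (X 0 *ᵥ d) i * ∑ j, cq Q i j * (X 0 *ᵥ d) j
    refine Finset.sum_congr rfl fun i _ => ?_
    rw [map_sum, Finset.mul_sum]
    refine Finset.sum_congr rfl fun j _ => ?_
    rw [map_mul, map_mul, MvPolynomial.aeval_C, h1, h1]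
    have h2 : (algebraMap ℚ ℂ) (Q i j) = cq Q i j := by
      rw [eq_ratCast]
      rfl
    rw [h2]
    ring
  have hQ' : cq Q = 0 := by
    refine quad_zero hBd hBt hω0 hQs' fun g hg => ?_
    have h1 := hgood F ((Finset.sup_mono (MvPolynomial.support_map_subset _ _)).trans hF₀) (fun s => by
      rw [hF, MvPolynomial.coeff_map]
      have h2 : (algebraMap ℚ ℂ) (F₀.coeff s) = (F₀.coeff s) • (1 : ℂ) := by
        rw [Algebra.smul_def, mul_one]
      rw [h2]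
      exact Submodule.smul_mem _ _ (Submodule.mem_span_singleton_self _)) (by
      rw [hev fun _ => W]
      exact hQ0) (fun _ => g * W) (fun _ => by
        show (g * W) * J * (g * W)ᵀ = B'
        rw [Matrix.transpose_mul]
        calc g * W * J * (Wᵀ * gᵀ) = g * (W * J * Wᵀ) * gᵀ := by simp only [Matrix.mul_assoc]
          _ = B' := by rw [hWJ, hg])
    rw [hev fun _ => g * W] at h1
    rw [Matrix.mulVec_mulVec]
    exact h1
  exact cq_inj (by rw [hQ']; ext i j; simp [cq])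

end

end Pool.Agent.X120.HG
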