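import Pool.Agent.X120.HG.Mult
import Pool.Agent.X120.HG.Hyp

/-!
# Genericity from the relations between the periods of hypergeometric families
-/

set_option autoImplicit false

open Matrix

namespace Pool.Agent.X120.HG

open Pool.Agent.Y119.HY Pool.Agent.Y119.HZ Pool.Agent.Y118.CM
open Pool.Agent.X120.GS (GoodZ)

section poly
variable {k : ℕ} {n : Fin k → ℕ}

/-- the linear form `∑ a, d a * X_(i, (j, a))` -/
noncomputable def lfm (d : ∀ i, Fin (n i) → ℚ) (i : Fin k) (j : Fin (n i)) : MvPolynomial (Σ i, Fin (n i) × Fin (n i)) ℚ :=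
  ∑ a : Fin (n i), MvPolynomial.C (d i a) * MvPolynomial.X ⟨i, (j, a)⟩

theorem lfm_deg (d : ∀ i, Fin (n i) → ℚ) (i : Fin k) (j : Fin (n i)) : (lfm d i j).totalDegree ≤ 1 := by
  refine (MvPolynomial.totalDegree_finsetSum_le fun a _ => ?_)
  refine (MvPolynomial.totalDegree_mul _ _).trans ?_
  rw [MvPolynomial.totalDegree_C, MvPolynomial.totalDegree_X]

theorem lfm_ev (d : ∀ i, Fin (n i) → ℚ) (i : Fin k) (j : Fin (n i)) (X : ∀ i, Matrix (Fin (n i)) (Fin (n i)) ℂ) :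
    MvPolynomial.aeval (fun v : Σ i, Fin (n i) × Fin (n i) => X v.1 v.2.1 v.2.2) (lfm d i j) =
      (X i *ᵥ fun a => (d i a : ℂ)) j := by
  unfold lfm
  rw [map_sum]
  show _ = ∑ a, X i j a * (d i a : ℂ)
  refine Finset.sum_congr rfl fun a _ => ?_
  rw [map_mul, MvPolynomial.aeval_C, MvPolynomial.aeval_X, mul_comm]
  rfl

theorem coeff_mem {σ : Type} {M : Submodule ℚ ℂ} {c : ℂ} (hc : c ∈ M) (f : MvPolynomial σ ℚ) (s : σ →₀ ℕ) :
    (MvPolynomial.C c * MvPolynomial.map (algebraMap ℚ ℂ) f).coeff s ∈ M := by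
  rw [MvPolynomial.coeff_C_mul, MvPolynomial.coeff_map]
  have h1 : c * (algebraMap ℚ ℂ) (f.coeff s) = (f.coeff s) • c := by
    rw [Algebra.smul_def, mul_comm]
  rw [h1]
  exact M.smul_mem _ hc

theorem map_deg {σ : Type} (f : MvPolynomial σ ℚ) : (MvPolynomial.map (algebraMap ℚ ℂ) f).totalDegree ≤ f.totalDegree :=
  Finset.sup_mono (MvPolynomial.support_map_subset _ _)

/-- **no quadratic relations with coefficients in `M`** -/
theorem noQ_of {d : ∀ i, Fin (n i) → ℚ} {M : Submodule ℚ ℂ} {D : ℕ} (hD : 2 ≤ D)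
    {W J B : ∀ i, Matrix (Fin (n i)) (Fin (n i)) ℂ} (hgood : GoodZ D M W J B) (hW : ∀ i, W i * J i * (W i)ᵀ = B i)
    (hBd : ∀ i, IsUnit (B i).det) (hBt : ∀ i, (B i)ᵀ = -B i) {i : Fin k} (h0 : W i *ᵥ (fun a => (d i a : ℂ)) ≠ 0) :
    NoQ M (W i *ᵥ fun a => (d i a : ℂ)) := by
  classical
  intro Q hQ hQM hQ0
  set F : MvPolynomial (Σ i, Fin (n i) × Fin (n i)) ℂ :=
    ∑ j, ∑ l, MvPolynomial.C (Q j l) * MvPolynomial.map (algebraMap ℚ ℂ) (lfm d i j * lfm d i l) with hF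
  have hev : ∀ X : ∀ i, Matrix (Fin (n i)) (Fin (n i)) ℂ,
      MvPolynomial.aeval (fun v : Σ i, Fin (n i) × Fin (n i) => X v.1 v.2.1 v.2.2) F =
        (X i *ᵥ fun a => (d i a : ℂ)) ⬝ᵥ (Q *ᵥ (X i *ᵥ fun a => (d i a : ℂ))) := by
    intro X
    rw [hF, map_sum]
    show _ = ∑ j, (X i *ᵥ fun a => (d i a : ℂ)) j * ∑ l, Q j l * (X i *ᵥ fun a => (d i a : ℂ)) l
    refine Finset.sum_congr rfl fun j _ => ?_
    rw [map_sum, Finset.mul_sum]
    refine Finset.sum_congr rfl fun l _ => ?_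
    rw [map_mul, MvPolynomial.aeval_C, MvPolynomial.aeval_map_algebraMap, map_mul, lfm_ev, lfm_ev]
    rw [Algebra.algebraMap_self_apply]
    ring
  refine quad_zero (hBd i) (hBt i) h0 hQ fun g hg => ?_
  have h1 := hgood F (by
      refine (MvPolynomial.totalDegree_finsetSum_le fun j _ => ?_)
      refine (MvPolynomial.totalDegree_finsetSum_le fun l _ => ?_)
      refine (MvPolynomial.totalDegree_mul _ _).trans ?_
      rw [MvPolynomial.totalDegree_C, zero_add]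
      refine (map_deg _).trans ((MvPolynomial.totalDegree_mul _ _).trans ?_)
      exact (Nat.add_le_add (lfm_deg _ _ _) (lfm_deg _ _ _)).trans hD) (fun s => by
      rw [hF, MvPolynomial.coeff_sum]
      refine M.sum_mem fun j _ => ?_
      rw [MvPolynomial.coeff_sum]
      exact M.sum_mem fun l _ => coeff_mem (hQM j l) _ _) (by
      rw [hev W]
      exact hQ0) (Function.update W i (g * W i)) (fun l => by
      by_cases hl : l = i
      · subst hl
        rw [Function.update_self, Matrix.transpose_mul]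
        calc g * W l * J l * ((W l)ᵀ * gᵀ) = g * (W l * J l * (W l)ᵀ) * gᵀ := by simp only [Matrix.mul_assoc]
          _ = B l := by rw [hW, hg]
      · rw [Function.update_of_ne hl]
        exact hW l)
  rw [hev, Function.update_self] at h1
  rw [Matrix.mulVec_mulVec]
  exact h1

/-- **no relations of bidegree `(2, 2)`** -/
theorem noB_of {d : ∀ i, Fin (n i) → ℚ} {M : Submodule ℚ ℂ} (hM : (1 : ℂ) ∈ M) {D : ℕ} (hD : 4 ≤ D)
    {W J B : ∀ i, Matrix (Fin (n i)) (Fin (n i)) ℂ} (hgood : GoodZ D M W J B) (hW : ∀ i, W i * J i * (W i)ᵀ = B i)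
    (hBd : ∀ i, IsUnit (B i).det) (hBt : ∀ i, (B i)ᵀ = -B i) {i j : Fin k} (hij : i ≠ j)
    (h0 : W j *ᵥ (fun a => (d j a : ℂ)) ≠ 0) :
    NoB (W i *ᵥ fun a => (d i a : ℂ)) (W j *ᵥ fun a => (d j a : ℂ)) := by
  classical
  intro Q₁ Q₁' Q₂ Q₂' hrel
  let qf : ∀ i, Matrix (Fin (n i)) (Fin (n i)) ℚ → MvPolynomial (Σ i, Fin (n i) × Fin (n i)) ℚ := fun i Q =>
    ∑ x, ∑ y, MvPolynomial.C (Q x y) * (lfm d i x * lfm d i y)
  have hqd : ∀ i Q, (qf i Q).totalDegree ≤ 2 := by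
    intro i Q
    refine (MvPolynomial.totalDegree_finsetSum_le fun x _ => ?_)
    refine (MvPolynomial.totalDegree_finsetSum_le fun y _ => ?_)
    refine (MvPolynomial.totalDegree_mul _ _).trans ?_
    rw [MvPolynomial.totalDegree_C, zero_add]
    refine (MvPolynomial.totalDegree_mul _ _).trans ?_
    exact Nat.add_le_add (lfm_deg _ _ _) (lfm_deg _ _ _)
  have hqe : ∀ i Q, ∀ X : ∀ i, Matrix (Fin (n i)) (Fin (n i)) ℂ,
      MvPolynomial.aeval (fun v : Σ i, Fin (n i) × Fin (n i) => X v.1 v.2.1 v.2.2) (qf i Q) =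
        (X i *ᵥ fun a => (d i a : ℂ)) ⬝ᵥ (cq Q *ᵥ (X i *ᵥ fun a => (d i a : ℂ))) := by
    intro i Q X
    rw [map_sum]
    show _ = ∑ x, (X i *ᵥ fun a => (d i a : ℂ)) x * ∑ y, cq Q x y * (X i *ᵥ fun a => (d i a : ℂ)) y
    refine Finset.sum_congr rfl fun x _ => ?_
    rw [map_sum, Finset.mul_sum]
    refine Finset.sum_congr rfl fun y _ => ?_
    rw [map_mul, map_mul, MvPolynomial.aeval_C, lfm_ev, lfm_ev]
    have h2 : (algebraMap ℚ ℂ) (Q x y) = cq Q x y := by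
      rw [eq_ratCast]
      rfl
    rw [h2]
    ring
  set F₀ : MvPolynomial (Σ i, Fin (n i) × Fin (n i)) ℚ := qf j Q₂ * qf i Q₁' - qf j Q₂' * qf i Q₁ with hF₀
  set F : MvPolynomial (Σ i, Fin (n i) × Fin (n i)) ℂ := MvPolynomial.map (algebraMap ℚ ℂ) F₀ with hF
  set ui := W i *ᵥ fun a => (d i a : ℂ) with hui
  set uj := W j *ᵥ fun a => (d j a : ℂ) with huj
  have hmain : ∀ g : Matrix (Fin (n j)) (Fin (n j)) ℂ, g * B j * gᵀ = B j →
      ((g *ᵥ uj) ⬝ᵥ (cq Q₂ *ᵥ (g *ᵥ uj))) * (ui ⬝ᵥ (cq Q₁' *ᵥ ui)) =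
        ((g *ᵥ uj) ⬝ᵥ (cq Q₂' *ᵥ (g *ᵥ uj))) * (ui ⬝ᵥ (cq Q₁ *ᵥ ui)) := by
    intro g hg
    have h1 := hgood F (by
        refine (map_deg _).trans ((MvPolynomial.totalDegree_sub _ _).trans (max_le ?_ ?_))
        · exact ((MvPolynomial.totalDegree_mul _ _).trans (Nat.add_le_add (hqd _ _) (hqd _ _))).trans hD
        · exact ((MvPolynomial.totalDegree_mul _ _).trans (Nat.add_le_add (hqd _ _) (hqd _ _))).trans hD) (fun s => by
        have h2 := coeff_mem hM F₀ s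
        rwa [MvPolynomial.C_1, one_mul] at h2) (by
        rw [hF, MvPolynomial.aeval_map_algebraMap, map_sub, map_mul, map_mul, hqe, hqe, hqe, hqe, sub_eq_zero]
        exact hrel) (Function.update W j (g * W j)) (fun l => by
        by_cases hl : l = j
        · subst hl
          rw [Function.update_self, Matrix.transpose_mul]
          calc g * W l * J l * ((W l)ᵀ * gᵀ) = g * (W l * J l * (W l)ᵀ) * gᵀ := by simp only [Matrix.mul_assoc]
            _ = B l := by rw [hW, hg]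
        · rw [Function.update_of_ne hl]
          exact hW l)
    rw [hF, MvPolynomial.aeval_map_algebraMap, map_sub, map_mul, map_mul, hqe, hqe, hqe, hqe, Function.update_self,
      Function.update_of_ne hij, sub_eq_zero, ← hui, ← Matrix.mulVec_mulVec, ← huj] at h1
    exact h1
  set α := ui ⬝ᵥ (cq Q₁' *ᵥ ui) with hα
  set β := ui ⬝ᵥ (cq Q₁ *ᵥ ui) with hβ
  have h2 : α • (cq Q₂ + (cq Q₂)ᵀ) - β • (cq Q₂' + (cq Q₂')ᵀ) = 0 := by
    refine quad_zero (hBd j) (hBt j) h0 ?_ fun g hg => ?_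
    · rw [Matrix.transpose_sub, Matrix.transpose_smul, Matrix.transpose_smul, Matrix.transpose_add, Matrix.transpose_add,
        Matrix.transpose_transpose, Matrix.transpose_transpose, add_comm (cq Q₂)ᵀ, add_comm (cq Q₂')ᵀ]
    · have h3 := hmain g hg
      rw [Matrix.sub_mulVec, Matrix.smul_mulVec, Matrix.smul_mulVec, Matrix.add_mulVec, Matrix.add_mulVec,
        dotProduct_sub, dotProduct_smul, dotProduct_smul, dotProduct_add, dotProduct_add, quad_tr', quad_tr', smul_eq_mul,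
        smul_eq_mul]
      linear_combination 2 * h3
  exact sub_eq_zero.1 h2

end poly

theorem NoQ.smul {n : ℕ} {M : Submodule ℚ ℂ} {u : Fin n → ℂ} (h : NoQ M u) {c : ℂ} (hc : c ≠ 0) : NoQ M (c • u) := by
  intro Q hQ hQM h0
  refine h Q hQ hQM ?_
  rw [Matrix.mulVec_smul, dotProduct_smul, smul_dotProduct, smul_eq_mul, smul_eq_mul] at h0
  exact (mul_eq_zero.1 ((mul_eq_zero.1 h0).resolve_left hc)).resolve_left hc

theorem NoB.smul {a b : ℕ} {u₁ : Fin a → ℂ} {u₂ : Fin b → ℂ} (h : NoB u₁ u₂) {c₁ c₂ : ℂ} (h₁ : c₁ ≠ 0) (h₂ : c₂ ≠ 0) :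
    NoB (c₁ • u₁) (c₂ • u₂) := by
  intro Q₁ Q₁' Q₂ Q₂' h0
  simp only [Matrix.mulVec_smul, dotProduct_smul, smul_dotProduct, smul_eq_mul] at h0 ⊢
  have h1 := h Q₁ Q₁' Q₂ Q₂' (by
    have h2 : (c₁ * c₁ * (c₂ * c₂)) * ((u₂ ⬝ᵥ (cq Q₂ *ᵥ u₂)) * (u₁ ⬝ᵥ (cq Q₁' *ᵥ u₁))) =
        (c₁ * c₁ * (c₂ * c₂)) * ((u₂ ⬝ᵥ (cq Q₂' *ᵥ u₂)) * (u₁ ⬝ᵥ (cq Q₁ *ᵥ u₁))) := by
      linear_combination h0
    exact mul_left_cancel₀ (mul_ne_zero (mul_ne_zero h₁ h₁) (mul_ne_zero h₂ h₂)) h2)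
  rw [← mul_assoc, ← mul_assoc, mul_smul (c₁ * c₁), mul_smul (c₁ * c₁), h1]

end Pool.Agent.X120.HG
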