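import Mathlib

/-!
# Hodge structures of odd weight with `h^(w,0) = 1` whose period point is on no rational quadric

Their Mumford-Tate groups are the full groups of symplectic similitudes.
-/

set_option autoImplicit false

open Matrix

namespace Pool.Agent.X120.HG

variable {n : ℕ}

/-- rational matrices as complex matrices -/
def cq (M : Matrix (Fin n) (Fin n) ℚ) : Matrix (Fin n) (Fin n) ℂ := M.map fun x : ℚ => (x : ℂ)

theorem cq_eq (M : Matrix (Fin n) (Fin n) ℚ) : cq M = M.map (algebraMap ℚ ℂ) := by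
  ext i j
  simp [cq]

theorem cq_mul (M N : Matrix (Fin n) (Fin n) ℚ) : cq (M * N) = cq M * cq N := by
  rw [cq_eq, cq_eq, cq_eq]
  exact Matrix.map_mul (f := algebraMap ℚ ℂ)

theorem cq_add (M N : Matrix (Fin n) (Fin n) ℚ) : cq (M + N) = cq M + cq N := by
  ext i j
  simp [cq]

theorem cq_sub (M N : Matrix (Fin n) (Fin n) ℚ) : cq (M - N) = cq M - cq N := by
  ext i j
  simp [cq]

theorem cq_neg (M : Matrix (Fin n) (Fin n) ℚ) : cq (-M) = -cq M := by
  ext i j
  simp [cq]

theorem cq_tr (M : Matrix (Fin n) (Fin n) ℚ) : cq Mᵀ = (cq M)ᵀ := rfl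

theorem cq_inj {M N : Matrix (Fin n) (Fin n) ℚ} (h : cq M = cq N) : M = N := by
  ext i j
  have h1 := congrFun (congrFun h i) j
  simp only [cq, Matrix.map_apply] at h1
  exact_mod_cast h1

/-- the complexification of a rational space of matrices -/
def cx (V : Submodule ℚ (Matrix (Fin n) (Fin n) ℚ)) : Submodule ℂ (Matrix (Fin n) (Fin n) ℂ) :=
  Submodule.span ℂ (cq '' (V : Set (Matrix (Fin n) (Fin n) ℚ)))

/-- linear functionals on rational matrices -/
theorem exists_fun {V : Submodule ℚ (Matrix (Fin n) (Fin n) ℚ)} {X : Matrix (Fin n) (Fin n) ℚ} (hX : X ∉ V) :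
    ∃ L : Matrix (Fin n) (Fin n) ℚ, (∀ Y ∈ V, (Y * L).trace = 0) ∧ (X * L).trace ≠ 0 := by
  obtain ⟨f, hf1, hf2⟩ := Submodule.exists_le_ker_of_notMem hX
  refine ⟨Matrix.of fun j i => f (Matrix.single i j 1), ?_, ?_⟩
  · intro Y hY
    have h1 : (Y * Matrix.of fun j i => f (Matrix.single i j 1)).trace = f Y := by
      conv_rhs => rw [Matrix.matrix_eq_sum_single Y]
      rw [map_sum, Matrix.trace]
      refine Finset.sum_congr rfl fun i _ => ?_
      rw [map_sum, Matrix.diag_apply, Matrix.mul_apply]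
      refine Finset.sum_congr rfl fun j _ => ?_
      rw [Matrix.of_apply]
      have h2 : (Matrix.single i j (Y i j) : Matrix (Fin n) (Fin n) ℚ) = Y i j • Matrix.single i j 1 := by
        rw [Matrix.smul_single, smul_eq_mul, mul_one]
      rw [h2, map_smul, smul_eq_mul]
    rw [h1]
    exact hf2 hY
  · have h1 : (X * Matrix.of fun j i => f (Matrix.single i j 1)).trace = f X := by
      conv_rhs => rw [Matrix.matrix_eq_sum_single X]
      rw [map_sum, Matrix.trace]
      refine Finset.sum_congr rfl fun i _ => ?_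
      rw [map_sum, Matrix.diag_apply, Matrix.mul_apply]
      refine Finset.sum_congr rfl fun j _ => ?_
      rw [Matrix.of_apply]
      have h2 : (Matrix.single i j (X i j) : Matrix (Fin n) (Fin n) ℚ) = X i j • Matrix.single i j 1 := by
        rw [Matrix.smul_single, smul_eq_mul, mul_one]
      rw [h2, map_smul, smul_eq_mul]
    rw [h1]
    exact hf1

/-- the functionals on the complexification -/
theorem fun_cx {V : Submodule ℚ (Matrix (Fin n) (Fin n) ℚ)} {L : Matrix (Fin n) (Fin n) ℚ}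
    (hL : ∀ Y ∈ V, (Y * L).trace = 0) {Z : Matrix (Fin n) (Fin n) ℂ} (hZ : Z ∈ cx V) : (Z * cq L).trace = 0 := by
  unfold cx at hZ
  induction hZ using Submodule.span_induction with
  | mem x hx =>
    obtain ⟨Y, hY, rfl⟩ := hx
    rw [← cq_mul]
    have h1 : (cq (Y * L)).trace = (((Y * L).trace : ℚ) : ℂ) := by
      unfold Matrix.trace
      push_cast
      rfl
    rw [h1, hL Y hY, Rat.cast_zero]
  | zero => rw [Matrix.zero_mul, Matrix.trace_zero]
  | add x y _ _ hx hy => rw [Matrix.add_mul, Matrix.trace_add, hx, hy, add_zero]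
  | smul a x _ hx => rw [Matrix.smul_mul, Matrix.trace_smul, hx, smul_zero]

/-- brackets in the complexification -/
theorem cx_br {V : Submodule ℚ (Matrix (Fin n) (Fin n) ℚ)} (hbr : ∀ X ∈ V, ∀ Y ∈ V, X * Y - Y * X ∈ V)
    {Z W : Matrix (Fin n) (Fin n) ℂ} (hZ : Z ∈ cx V) (hW : W ∈ cx V) : Z * W - W * Z ∈ cx V := by
  unfold cx at hZ
  induction hZ using Submodule.span_induction with
  | mem x hx =>
    obtain ⟨X, hX, rfl⟩ := hx
    unfold cx at hW
    induction hW using Submodule.span_induction with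
    | mem y hy =>
      obtain ⟨Y, hY, rfl⟩ := hy
      rw [← cq_mul, ← cq_mul, ← cq_sub]
      exact Submodule.subset_span ⟨_, hbr X hX Y hY, rfl⟩
    | zero =>
      rw [Matrix.mul_zero, Matrix.zero_mul, sub_zero]
      exact Submodule.zero_mem _
    | add y z _ _ hy hz =>
      have h1 : cq X * (y + z) - (y + z) * cq X = (cq X * y - y * cq X) + (cq X * z - z * cq X) := by
        rw [Matrix.mul_add, Matrix.add_mul]
        abel
      rw [h1]
      exact Submodule.add_mem _ hy hz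
    | smul a y _ hy =>
      rw [Matrix.mul_smul, Matrix.smul_mul, ← smul_sub]
      exact Submodule.smul_mem _ _ hy
  | zero =>
    rw [Matrix.mul_zero, Matrix.zero_mul, sub_zero]
    exact Submodule.zero_mem _
  | add y z _ _ hy hz =>
    have h1 : (y + z) * W - W * (y + z) = (y * W - W * y) + (z * W - W * z) := by
      rw [Matrix.mul_add, Matrix.add_mul]
      abel
    rw [h1]
    exact Submodule.add_mem _ hy hz
  | smul a y _ hy =>
    rw [Matrix.mul_smul, Matrix.smul_mul, ← smul_sub]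
    exact Submodule.smul_mem _ _ hy

/-- the extreme weight component -/
theorem extreme {w : ℕ} {B : Matrix (Fin n) (Fin n) ℂ} (hB : IsUnit B.det) {p : Fin n → ℕ} (hp : ∀ i, p i ≤ w)
    {i₀ i₁ : Fin n} (h0 : ∀ i, p i = w ↔ i = i₀) (h1 : ∀ i, p i = 0 ↔ i = i₁)
    {V : Submodule ℂ (Matrix (Fin n) (Fin n) ℂ)}
    (hbr : ∀ X ∈ V, (B⁻¹ * Matrix.diagonal (fun i => (p i : ℂ)) * B) * X - X * (B⁻¹ * Matrix.diagonal (fun i => (p i : ℂ)) * B) ∈ V)
    {X : Matrix (Fin n) (Fin n) ℂ} (hX : X ∈ V) :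
    B⁻¹ * Matrix.single i₁ i₀ ((B * X * B⁻¹) i₁ i₀) * B ∈ V := by
  set Φ := B⁻¹ * Matrix.diagonal (fun i => (p i : ℂ)) * B with hΦ
  have hBi : B * B⁻¹ = 1 := Matrix.mul_nonsing_inv _ hB
  have hBi' : B⁻¹ * B = 1 := Matrix.nonsing_inv_mul _ hB
  -- products of `ad Φ - a`
  have key : ∀ s : Finset ℤ, B⁻¹ * (Matrix.of fun i j => (∏ a ∈ s, ((p i : ℂ) - (p j : ℂ) - (a : ℂ))) * (B * X * B⁻¹) i j) * B ∈ V := by
    intro s
    induction s using Finset.induction_on with
    | empty =>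
      have e1 : (Matrix.of fun i j => (∏ a ∈ (∅ : Finset ℤ), ((p i : ℂ) - (p j : ℂ) - (a : ℂ))) * (B * X * B⁻¹) i j) = B * X * B⁻¹ := by
        ext i j
        simp
      rw [e1]
      have e2 : B⁻¹ * (B * X * B⁻¹) * B = X := by
        calc B⁻¹ * (B * X * B⁻¹) * B = (B⁻¹ * B) * X * (B⁻¹ * B) := by simp only [Matrix.mul_assoc]
          _ = X := by rw [hBi', Matrix.one_mul, Matrix.mul_one]
      rw [e2]
      exact hX
    | insert b s hb ih =>
      set Y := (Matrix.of fun i j => (∏ a ∈ s, ((p i : ℂ) - (p j : ℂ) - (a : ℂ))) * (B * X * B⁻¹) i j) with hY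
      have e1 : B⁻¹ * (Matrix.of fun i j => (∏ a ∈ insert b s, ((p i : ℂ) - (p j : ℂ) - (a : ℂ))) * (B * X * B⁻¹) i j) * B =
          (Φ * (B⁻¹ * Y * B) - (B⁻¹ * Y * B) * Φ) - (b : ℂ) • (B⁻¹ * Y * B) := by
        have e2 : Φ * (B⁻¹ * Y * B) = B⁻¹ * (Matrix.diagonal (fun i => (p i : ℂ)) * Y) * B := by
          calc Φ * (B⁻¹ * Y * B) = B⁻¹ * Matrix.diagonal (fun i => (p i : ℂ)) * (B * B⁻¹) * Y * B := by
                rw [hΦ]
                simp only [Matrix.mul_assoc]
            _ = _ := by rw [hBi, Matrix.mul_one]; simp only [Matrix.mul_assoc]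
        have e3 : (B⁻¹ * Y * B) * Φ = B⁻¹ * (Y * Matrix.diagonal (fun i => (p i : ℂ))) * B := by
          calc (B⁻¹ * Y * B) * Φ = B⁻¹ * Y * (B * B⁻¹) * Matrix.diagonal (fun i => (p i : ℂ)) * B := by
                rw [hΦ]
                simp only [Matrix.mul_assoc]
            _ = _ := by rw [hBi, Matrix.mul_one]; simp only [Matrix.mul_assoc]
        have e4 : (b : ℂ) • (B⁻¹ * Y * B) = B⁻¹ * ((b : ℂ) • Y) * B := by
          rw [Matrix.mul_smul, Matrix.smul_mul]
        rw [e2, e3, e4, ← Matrix.sub_mul, ← Matrix.mul_sub, ← Matrix.sub_mul, ← Matrix.mul_sub]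
        congr 2
        ext i j
        rw [Matrix.sub_apply, Matrix.sub_apply, Matrix.diagonal_mul, Matrix.mul_diagonal, Matrix.smul_apply, hY,
          Matrix.of_apply, Matrix.of_apply, Finset.prod_insert hb, smul_eq_mul]
        ring
      rw [e1]
      exact Submodule.sub_mem _ (hbr _ ih) (Submodule.smul_mem _ _ ih)
  set s : Finset ℤ := Finset.Ioc (-(w : ℤ)) w with hs
  have h2 := key s
  have h3 : (Matrix.of fun i j => (∏ a ∈ s, ((p i : ℂ) - (p j : ℂ) - (a : ℂ))) * (B * X * B⁻¹) i j) =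
      (∏ a ∈ s, (-(w : ℂ) - (a : ℂ))) • Matrix.single i₁ i₀ ((B * X * B⁻¹) i₁ i₀) := by
    ext i j
    rw [Matrix.of_apply, Matrix.smul_apply, Matrix.single_apply, smul_eq_mul]
    split_ifs with h
    · obtain ⟨rfl, rfl⟩ := h
      rw [(h1 i₁).2 rfl, (h0 i₀).2 rfl]
      congr 1
      refine Finset.prod_congr rfl fun a _ => ?_
      push_cast
      ring
    · rw [mul_zero]
      have h5 : ((p i : ℤ) - (p j : ℤ)) ∈ s := by
        rw [hs, Finset.mem_Ioc]
        have h6 := hp i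
        have h7 := hp j
        refine ⟨?_, by omega⟩
        by_contra hcon
        apply h
        have h8 : p i = 0 ∧ p j = w := by omega
        exact ⟨((h1 i).1 h8.1).symm, ((h0 j).1 h8.2).symm⟩
      rw [Finset.prod_eq_zero h5, zero_mul]
      push_cast
      ring
  rw [h3, Matrix.mul_smul, Matrix.smul_mul] at h2
  have h4 : (∏ a ∈ s, (-(w : ℂ) - (a : ℂ))) ≠ 0 := by
    refine Finset.prod_ne_zero_iff.2 fun a ha => ?_
    rw [hs, Finset.mem_Ioc] at ha
    intro h5
    have h6 : ((-(w : ℤ) - a : ℤ) : ℂ) = 0 := by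
      push_cast
      exact h5
    have h7 : (-(w : ℤ) - a : ℤ) = 0 := by exact_mod_cast h6
    omega
  have h5 := Submodule.smul_mem _ ((∏ a ∈ s, (-(w : ℂ) - (a : ℂ)))⁻¹) h2
  rw [smul_smul, inv_mul_cancel₀ h4, one_smul] at h5
  exact h5

theorem quad_tr (M : Matrix (Fin n) (Fin n) ℂ) (v : Fin n → ℂ) : v ⬝ᵥ (Mᵀ *ᵥ v) = v ⬝ᵥ (M *ᵥ v) := by
  rw [Matrix.mulVec_transpose, dotProduct_comm, Matrix.dotProduct_mulVec]

/-- the trace of a symmetric and an alternating matrix -/
theorem trace_zero_of {X L A : Matrix (Fin n) (Fin n) ℚ} (hA : Aᵀ = -A) (hAd : A.det ≠ 0) (hX : X * A + A * Xᵀ = 0)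
    (hL : L * A + (L * A)ᵀ = 0) : (X * L).trace = 0 := by
  have hAu : IsUnit A.det := isUnit_iff_ne_zero.2 hAd
  have hAi : A * A⁻¹ = 1 := Matrix.mul_nonsing_inv _ hAu
  have hAi' : A⁻¹ * A = 1 := Matrix.nonsing_inv_mul _ hAu
  have hAit : (A⁻¹)ᵀ = -A⁻¹ := by
    rw [Matrix.transpose_nonsing_inv, hA]
    refine Matrix.inv_eq_right_inv ?_
    rw [neg_mul_neg, hAi]
  have hL' : L * A = A * Lᵀ := by
    rw [Matrix.transpose_mul, hA, Matrix.neg_mul] at hL
    exact add_neg_eq_zero.1 hL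
  have hK : A⁻¹ * L = Lᵀ * A⁻¹ := by
    calc A⁻¹ * L = A⁻¹ * (L * A) * A⁻¹ := by rw [Matrix.mul_assoc, Matrix.mul_assoc, hAi, Matrix.mul_one]
      _ = (A⁻¹ * A) * Lᵀ * A⁻¹ := by rw [hL']; simp only [Matrix.mul_assoc]
      _ = _ := by rw [hAi', Matrix.one_mul]
  have hS : (X * A)ᵀ = X * A := by
    rw [Matrix.transpose_mul, hA, Matrix.neg_mul]
    exact (eq_neg_of_add_eq_zero_left hX).symm
  have hKt : (A⁻¹ * L)ᵀ = -(A⁻¹ * L) := by
    rw [Matrix.transpose_mul, hAit, Matrix.mul_neg, ← hK]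
  have h1 : X * L = (X * A) * (A⁻¹ * L) := by
    calc X * L = X * (A * A⁻¹) * L := by rw [hAi, Matrix.mul_one]
      _ = _ := by simp only [Matrix.mul_assoc]
  have h2 : ((X * A) * (A⁻¹ * L)).trace = -((X * A) * (A⁻¹ * L)).trace := by
    conv_lhs => rw [← Matrix.trace_transpose, Matrix.transpose_mul, hS, hKt, Matrix.neg_mul, Matrix.trace_neg,
      Matrix.trace_mul_comm]
  rw [h1]
  linarith

/-- **The lemma.** -/
theorem core {w : ℕ} (hw : 0 < w) {A : Matrix (Fin n) (Fin n) ℚ} (hA : Aᵀ = -A) (hAd : A.det ≠ 0)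
    {B : Matrix (Fin n) (Fin n) ℂ} (hB : IsUnit B.det) {p : Fin n → ℕ} (hp : ∀ i, p i ≤ w)
    {i₀ i₁ : Fin n} (h0 : ∀ i, p i = w ↔ i = i₀) (h1 : ∀ i, p i = 0 ↔ i = i₁)
    (hform : ∀ i j, p i + p j ≠ w → (B * cq A * Bᵀ) i j = 0)
    (hconj : ∃ s : ℂ, s ≠ 0 ∧ ∀ a, star (B i₁ a) = s * B i₀ a)
    (hquad : ∀ Q : Matrix (Fin n) (Fin n) ℚ, Qᵀ = Q → B i₀ ⬝ᵥ (cq Q *ᵥ B i₀) = 0 → Q = 0)
    {V : Submodule ℚ (Matrix (Fin n) (Fin n) ℚ)} (hbr : ∀ X ∈ V, ∀ Y ∈ V, X * Y - Y * X ∈ V)
    (hΦ : B⁻¹ * Matrix.diagonal (fun i => (p i : ℂ)) * B ∈ cx V) :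
    ∀ X : Matrix (Fin n) (Fin n) ℚ, X * A + A * Xᵀ = 0 → X ∈ V := by
  have hBi : B * B⁻¹ = 1 := Matrix.mul_nonsing_inv _ hB
  have hBi' : B⁻¹ * B = 1 := Matrix.nonsing_inv_mul _ hB
  set G := B * cq A * Bᵀ with hG
  have hAu : IsUnit (cq A).det := by
    have h2 : (cq A).det = algebraMap ℚ ℂ A.det := by
      rw [cq_eq]
      exact (RingHom.map_det (algebraMap ℚ ℂ) A).symm
    rw [h2]
    exact (isUnit_iff_ne_zero.2 hAd).map (algebraMap ℚ ℂ)
  have hGd : IsUnit G.det := by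
    rw [hG, Matrix.det_mul, Matrix.det_mul, Matrix.det_transpose]
    exact (hB.mul hAu).mul hB
  -- the number `γ`
  set γ := G i₁ i₀ with hγ
  have hcol : ∀ j, j ≠ i₁ → G j i₀ = 0 := by
    intro j hj
    refine hform j i₀ ?_
    rw [(h0 i₀).2 rfl]
    intro h2
    apply hj
    exact (h1 j).1 (by omega)
  have hγ0 : γ ≠ 0 := by
    intro h2
    have h3 : G *ᵥ (Pi.single i₀ 1) = 0 := by
      funext j
      rw [Matrix.mulVec_single_one]
      by_cases hj : j = i₁
      · rw [hj]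
        exact h2
      · exact hcol j hj
    have h4 : (Pi.single i₀ 1 : Fin n → ℂ) = 0 := by
      have h5 := congrArg (fun v => G⁻¹ *ᵥ v) h3
      simp only [Matrix.mulVec_mulVec, Matrix.nonsing_inv_mul _ hGd, Matrix.one_mulVec, Matrix.mulVec_zero] at h5
      exact h5
    have h5 := congrFun h4 i₀
    simp at h5
  -- the extreme component
  have hbrV : ∀ X ∈ cx V, (B⁻¹ * Matrix.diagonal (fun i => (p i : ℂ)) * B) * X -
      X * (B⁻¹ * Matrix.diagonal (fun i => (p i : ℂ)) * B) ∈ cx V := fun X hX => cx_br hbr hΦ hX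
  by_cases hcase : ∃ X ∈ cx V, (B * X * B⁻¹) i₁ i₀ ≠ 0
  · -- the vector `A ωᵀ ω`
    obtain ⟨X, hX, hX0⟩ := hcase
    have h2 := extreme hB hp h0 h1 hbrV hX
    have h3 : B⁻¹ * Matrix.single i₁ i₀ (1 : ℂ) * B ∈ cx V := by
      have h4 := Submodule.smul_mem _ (((B * X * B⁻¹) i₁ i₀)⁻¹) h2
      have h5 : (((B * X * B⁻¹) i₁ i₀)⁻¹) • (B⁻¹ * Matrix.single i₁ i₀ ((B * X * B⁻¹) i₁ i₀) * B) =
          B⁻¹ * Matrix.single i₁ i₀ (1 : ℂ) * B := by
        rw [← Matrix.smul_mul, ← Matrix.mul_smul, Matrix.smul_single, smul_eq_mul, inv_mul_cancel₀ hX0]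
      rwa [h5] at h4
    have h4 : Matrix.vecMulVec (cq A *ᵥ B i₀) (B i₀) = γ • (B⁻¹ * Matrix.single i₁ i₀ (1 : ℂ) * B) := by
      have h5 : B * Matrix.vecMulVec (cq A *ᵥ B i₀) (B i₀) * B⁻¹ = γ • Matrix.single i₁ i₀ (1 : ℂ) := by
        rw [Matrix.mul_vecMulVec, Matrix.vecMulVec_mul]
        ext i j
        rw [Matrix.vecMulVec_apply, Matrix.smul_apply, Matrix.single_apply, smul_eq_mul]
        have h6 : (B *ᵥ (cq A *ᵥ B i₀)) i = G i i₀ := by
          rw [hG, Matrix.mulVec_mulVec]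
          rfl
        have h7 : (B i₀ ᵥ* B⁻¹) j = if i₀ = j then 1 else 0 := by
          have h8 := congrFun (congrFun hBi i₀) j
          rw [Matrix.one_apply] at h8
          exact h8
        rw [h6, h7]
        by_cases hi : i = i₁
        · subst hi
          by_cases hj : i₀ = j
          · subst hj
            simp [hγ]
          · simp [hj]
        · rw [hcol i hi, zero_mul, if_neg (fun h => hi h.1.symm), mul_zero]
      calc Matrix.vecMulVec (cq A *ᵥ B i₀) (B i₀) = (B⁻¹ * B) * Matrix.vecMulVec (cq A *ᵥ B i₀) (B i₀) * (B⁻¹ * B) := by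
            rw [hBi', Matrix.one_mul, Matrix.mul_one]
        _ = B⁻¹ * (B * Matrix.vecMulVec (cq A *ᵥ B i₀) (B i₀) * B⁻¹) * B := by simp only [Matrix.mul_assoc]
        _ = _ := by rw [h5, Matrix.mul_smul, Matrix.smul_mul]
    have h5 : Matrix.vecMulVec (cq A *ᵥ B i₀) (B i₀) ∈ cx V := by
      rw [h4]
      exact Submodule.smul_mem _ _ h3
    intro X₁ hX₁
    by_contra hnot
    obtain ⟨L, hL1, hL2⟩ := exists_fun hnot
    have h6 := fun_cx hL1 h5
    have h7 : (Matrix.vecMulVec (cq A *ᵥ B i₀) (B i₀) * cq L).trace = B i₀ ⬝ᵥ (cq (L * A) *ᵥ B i₀) := by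
      rw [Matrix.vecMulVec_mul, Matrix.trace_vecMulVec, cq_mul, ← Matrix.mulVec_mulVec, Matrix.dotProduct_mulVec, dotProduct_comm]
    rw [h7] at h6
    have h8 : L * A + (L * A)ᵀ = 0 := by
      refine hquad _ ?_ ?_
      · rw [Matrix.transpose_add, Matrix.transpose_transpose, add_comm]
      · rw [cq_add, Matrix.add_mulVec, dotProduct_add, h6, cq_tr, zero_add, quad_tr, h6]
    exact hL2 (trace_zero_of hA hAd hX₁ h8)
  · push Not at hcase
    exfalso
    -- all elements of `V` have `Y A` alternating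
    have hY : ∀ Y ∈ V, Y * A = A * Yᵀ := by
      intro Y hY
      have h2 : (B * cq Y * B⁻¹) i₁ i₀ = 0 := hcase _ (Submodule.subset_span ⟨Y, hY, rfl⟩)
      have h3 : B i₁ ⬝ᵥ (cq (Y * A) *ᵥ B i₁) = 0 := by
        have h4 : B i₁ ⬝ᵥ (cq (Y * A) *ᵥ B i₁) = ((B * cq Y * B⁻¹) * G) i₁ i₁ := by
          have h5 : (B * cq Y * B⁻¹) * G = B * cq (Y * A) * Bᵀ := by
            calc (B * cq Y * B⁻¹) * (B * cq A * Bᵀ) = B * cq Y * (B⁻¹ * B) * cq A * Bᵀ := by simp only [Matrix.mul_assoc]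
              _ = _ := by
                rw [hBi', Matrix.mul_one, cq_mul]
                simp only [Matrix.mul_assoc]
          rw [h5, Matrix.mul_assoc, Matrix.mul_apply_eq_vecMul, Matrix.dotProduct_mulVec]
          show _ = (B i₁ ᵥ* (cq (Y * A) * Bᵀ)) i₁
          rw [← Matrix.vecMul_vecMul]
          rfl
        rw [h4, Matrix.mul_apply]
        refine Finset.sum_eq_zero fun j _ => ?_
        by_cases hj : j = i₀
        · rw [hj, h2, zero_mul]
        · have h6 : G j i₁ = 0 := by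
            refine hform j i₁ ?_
            rw [(h1 i₁).2 rfl, add_zero]
            intro h7
            exact hj ((h0 j).1 h7)
          rw [h6, mul_zero]
      -- conjugation
      obtain ⟨s, hs, hs'⟩ := hconj
      have h4 : B i₀ ⬝ᵥ (cq (Y * A) *ᵥ B i₀) = 0 := by
        have h5 := congrArg star h3
        rw [star_zero] at h5
        have h6 : star (B i₁ ⬝ᵥ (cq (Y * A) *ᵥ B i₁)) = s * s * (B i₀ ⬝ᵥ (cq (Y * A) *ᵥ B i₀)) := by
          simp only [dotProduct, Matrix.mulVec]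
          rw [star_sum, Finset.mul_sum]
          refine Finset.sum_congr rfl fun a _ => ?_
          rw [star_mul', hs', star_sum, Finset.mul_sum, Finset.mul_sum, Finset.mul_sum]
          refine Finset.sum_congr rfl fun b _ => ?_
          rw [star_mul', hs']
          have h7 : star (cq (Y * A) a b) = cq (Y * A) a b := by
            unfold cq
            rw [Matrix.map_apply]
            simp
          rw [h7]
          ring
        rw [h6] at h5
        exact (mul_eq_zero.1 h5).resolve_left (mul_ne_zero hs hs)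
      have h8 : Y * A + (Y * A)ᵀ = 0 := by
        refine hquad _ ?_ ?_
        · rw [Matrix.transpose_add, Matrix.transpose_transpose, add_comm]
        · rw [cq_add, Matrix.add_mulVec, dotProduct_add, h4, cq_tr, zero_add, quad_tr, h4]
      rw [Matrix.transpose_mul, hA, Matrix.neg_mul] at h8
      exact add_neg_eq_zero.1 h8
    have hZ : ∀ Z ∈ cx V, Z * cq A = cq A * Zᵀ := by
      intro Z hZ
      unfold cx at hZ
      induction hZ using Submodule.span_induction with
      | mem x hx =>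
        obtain ⟨Y, hY', rfl⟩ := hx
        rw [← cq_mul, hY Y hY', cq_mul, cq_tr]
      | zero => rw [Matrix.zero_mul, Matrix.transpose_zero, Matrix.mul_zero]
      | add x y _ _ hx hy => rw [Matrix.add_mul, hx, hy, Matrix.transpose_add, Matrix.mul_add]
      | smul a x _ hx => rw [Matrix.smul_mul, hx, Matrix.transpose_smul, Matrix.mul_smul]
    have h2 := hZ _ hΦ
    set D : Matrix (Fin n) (Fin n) ℂ := Matrix.diagonal (fun i => (p i : ℂ)) with hD
    have h3 : D * G = G * D := by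
      calc D * G = (B * B⁻¹) * D * B * cq A * Bᵀ := by
            rw [hBi, Matrix.one_mul, hG]
            simp only [Matrix.mul_assoc]
        _ = B * ((B⁻¹ * D * B) * cq A) * Bᵀ := by simp only [Matrix.mul_assoc]
        _ = B * (cq A * (B⁻¹ * D * B)ᵀ) * Bᵀ := by rw [h2]
        _ = B * cq A * (Bᵀ * (D * ((B⁻¹)ᵀ * Bᵀ))) := by
            rw [Matrix.transpose_mul, Matrix.transpose_mul, hD, Matrix.diagonal_transpose]
            simp only [Matrix.mul_assoc]
        _ = G * D := by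
            have h4 : (B⁻¹)ᵀ * Bᵀ = 1 := by rw [← Matrix.transpose_mul, hBi, Matrix.transpose_one]
            rw [h4, Matrix.mul_one, hG]
            simp only [Matrix.mul_assoc]
    have h4 := congrFun (congrFun h3 i₁) i₀
    rw [hD, Matrix.diagonal_mul, Matrix.mul_diagonal, (h1 i₁).2 rfl, (h0 i₀).2 rfl] at h4
    have h5 : γ * (w : ℂ) = 0 := by
      rw [← h4]
      simp
    rcases mul_eq_zero.1 h5 with h6 | h6
    · exact hγ0 h6
    · have : w = 0 := by exact_mod_cast h6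
      omega

end Pool.Agent.X120.HG
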