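import Pool.Agent.X120.HG.Rel

/-!
# Rational Lie algebras for several structures
-/

set_option autoImplicit false

open Matrix Module

namespace Pool.Agent.X120.HG

theorem HD.op {n w : ℕ} {A : Matrix (Fin n) (Fin n) ℚ} {B : Matrix (Fin n) (Fin n) ℂ} {p : Fin n → ℕ} {i₀ i₁ : Fin n}
    (h : HD w A B p i₀ i₁) : opB B (pz p) * cq A + cq A * (opB B (pz p))ᵀ = (w : ℂ) • cq A := by
  have hBi : B * B⁻¹ = 1 := Matrix.mul_nonsing_inv _ h.hB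
  have hBi' : B⁻¹ * B = 1 := Matrix.nonsing_inv_mul _ h.hB
  have hBit : Bᵀ * (B⁻¹)ᵀ = 1 := by rw [← Matrix.transpose_mul, hBi', Matrix.transpose_one]
  have hBit' : (B⁻¹)ᵀ * Bᵀ = 1 := by rw [← Matrix.transpose_mul, hBi, Matrix.transpose_one]
  set D : Matrix (Fin n) (Fin n) ℂ := Matrix.diagonal (fun i => (pz p i : ℂ)) with hD
  set G := B * cq A * Bᵀ with hG
  have hA : cq A = B⁻¹ * G * (B⁻¹)ᵀ := by
    calc cq A = (B⁻¹ * B) * cq A * (Bᵀ * (B⁻¹)ᵀ) := by rw [hBi', hBit, Matrix.one_mul, Matrix.mul_one]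
      _ = _ := by rw [hG]; simp only [Matrix.mul_assoc]
  have h1 : D * G + G * D = (w : ℂ) • G := by
    ext i j
    rw [Matrix.add_apply, Matrix.smul_apply, hD, Matrix.diagonal_mul, Matrix.mul_diagonal, smul_eq_mul]
    by_cases hij : p i + p j = w
    · have h2 : ((pz p i : ℤ) : ℂ) + ((pz p j : ℤ) : ℂ) = (w : ℂ) := by
        unfold pz
        rw [← hij]
        push_cast
        ring
      rw [← h2]
      ring
    · rw [hG, h.hform i j hij]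
      ring
  have h2 : opB B (pz p) * cq A = B⁻¹ * (D * G) * (B⁻¹)ᵀ := by
    unfold opB
    rw [hA]
    calc B⁻¹ * D * B * (B⁻¹ * G * (B⁻¹)ᵀ) = B⁻¹ * D * (B * B⁻¹) * G * (B⁻¹)ᵀ := by simp only [Matrix.mul_assoc]
      _ = _ := by rw [hBi, Matrix.mul_one]; simp only [Matrix.mul_assoc]
  have h3 : cq A * (opB B (pz p))ᵀ = B⁻¹ * (G * D) * (B⁻¹)ᵀ := by
    unfold opB
    rw [hA, Matrix.transpose_mul, Matrix.transpose_mul, ← hD]
    have h4 : Dᵀ = D := Matrix.diagonal_transpose _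
    rw [h4]
    calc B⁻¹ * G * (B⁻¹)ᵀ * (Bᵀ * (D * (B⁻¹)ᵀ)) = B⁻¹ * G * ((B⁻¹)ᵀ * Bᵀ) * D * (B⁻¹)ᵀ := by simp only [Matrix.mul_assoc]
      _ = _ := by rw [hBit', Matrix.mul_one]; simp only [Matrix.mul_assoc]
  rw [h2, h3, ← Matrix.add_mul, ← Matrix.mul_add, h1, Matrix.mul_smul, Matrix.smul_mul, ← hA]

theorem HD.ph_op {n w : ℕ} {A : Matrix (Fin n) (Fin n) ℚ} {B : Matrix (Fin n) (Fin n) ℂ} {p : Fin n → ℕ} {i₀ i₁ : Fin n}
    (h : HD w A B p i₀ i₁) (φ : ℂ →ₗ[ℚ] ℚ) :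
    ph φ (opB B (pz p)) * A + A * (ph φ (opB B (pz p)))ᵀ = φ w • A := by
  rw [← ph_mul_right, ← ph_tr, ← ph_mul_left, ← ph_add, h.op, ph_smul_cq]

/-- similitudes -/
def IsGSp {n : ℕ} (A X : Matrix (Fin n) (Fin n) ℚ) : Prop := ∃ c : ℚ, X * A + A * Xᵀ = c • A

theorem IsSp.gsp {n : ℕ} {A X : Matrix (Fin n) (Fin n) ℚ} (h : IsSp A X) : IsGSp A X := ⟨0, by rw [zero_smul]; exact h⟩

theorem IsGSp.zero {n : ℕ} (A : Matrix (Fin n) (Fin n) ℚ) : IsGSp A 0 := ⟨0, by simp⟩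

theorem IsGSp.add {n : ℕ} {A X Y : Matrix (Fin n) (Fin n) ℚ} (hX : IsGSp A X) (hY : IsGSp A Y) : IsGSp A (X + Y) := by
  obtain ⟨c, hc⟩ := hX
  obtain ⟨d, hd⟩ := hY
  refine ⟨c + d, ?_⟩
  rw [Matrix.add_mul, Matrix.transpose_add, Matrix.mul_add, add_smul, ← hc, ← hd]
  abel

theorem IsGSp.smul {n : ℕ} {A X : Matrix (Fin n) (Fin n) ℚ} (r : ℚ) (hX : IsGSp A X) : IsGSp A (r • X) := by
  obtain ⟨c, hc⟩ := hX
  refine ⟨r * c, ?_⟩
  rw [Matrix.smul_mul, Matrix.transpose_smul, Matrix.mul_smul, ← smul_add, hc, smul_smul]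

section pair
variable {a b : ℕ}

/-- pairs of similitudes -/
def gspV (V : Submodule ℚ (PM a b ℚ)) (A₁ : Matrix (Fin a) (Fin a) ℚ) (A₂ : Matrix (Fin b) (Fin b) ℚ) :
    Submodule ℚ (PM a b ℚ) where
  carrier := {Y | Y ∈ V ∧ IsGSp A₁ Y.1 ∧ IsGSp A₂ Y.2}
  zero_mem' := ⟨V.zero_mem, IsGSp.zero _, IsGSp.zero _⟩
  add_mem' := fun hx hy => ⟨V.add_mem hx.1 hy.1, hx.2.1.add hy.2.1, hx.2.2.add hy.2.2⟩
  smul_mem' := fun c _ hx => ⟨V.smul_mem c hx.1, hx.2.1.smul c, hx.2.2.smul c⟩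

/-- if the Lie algebra contains the symplectic Lie algebra of the first factor, then also that of the second -/
theorem swap_sp {w₁ w₂ : ℕ} {A₁ : Matrix (Fin a) (Fin a) ℚ} {B₁ : Matrix (Fin a) (Fin a) ℂ} {p₁ : Fin a → ℕ} {i₀ i₁ : Fin a}
    (h₁ : HD w₁ A₁ B₁ p₁ i₀ i₁) {A₂ : Matrix (Fin b) (Fin b) ℚ} {B₂ : Matrix (Fin b) (Fin b) ℂ} {p₂ : Fin b → ℕ}
    {j₀ j₁ : Fin b} (h₂ : HD w₂ A₂ B₂ p₂ j₀ j₁)
    (hq : ∀ Q : Matrix (Fin b) (Fin b) ℚ, Qᵀ = Q → B₂ j₀ ⬝ᵥ (cq Q *ᵥ B₂ j₀) = 0 → Q = 0)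
    {V : Submodule ℚ (PM a b ℚ)}
    (hbr : ∀ X ∈ V, ∀ Y ∈ V, ((X.1 * Y.1 - Y.1 * X.1, X.2 * Y.2 - Y.2 * X.2) : PM a b ℚ) ∈ V)
    (hΦ : ((opB B₁ (pz p₁), opB B₂ (pz p₂)) : PM a b ℂ) ∈ inC V)
    (h : ∀ X, IsSp A₁ X → ((X, 0) : PM a b ℚ) ∈ V) {X : Matrix (Fin b) (Fin b) ℚ} (hX : IsSp A₂ X) :
    ((0, X) : PM a b ℚ) ∈ V := by
  have hW : ∀ X, IsSp A₂ X → ∃ Y, ((Y, X) : PM a b ℚ) ∈ gspV V A₁ A₂ := by
    intro X hX
    refine core_map_snd h₂ hq (V := gspV V A₁ A₂) ?_ (Φ₀ := opB B₁ (pz p₁)) ?_ hX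
    · rintro Y ⟨hY, ⟨c, hc⟩, ⟨d, hd⟩⟩ Z ⟨hZ, ⟨c', hc'⟩, ⟨d', hd'⟩⟩
      exact ⟨hbr Y hY Z hZ, (br_sp hc hc').gsp, (br_sp hd hd').gsp⟩
    · intro φ
      exact ⟨hΦ φ, ⟨_, h₁.ph_op φ⟩, ⟨_, h₂.ph_op φ⟩⟩
  refine sp_perfect (P := V.comap (LinearMap.inr ℚ (Matrix (Fin a) (Fin a) ℚ) (Matrix (Fin b) (Fin b) ℚ))) h₂.hA h₂.hAd ?_ hX
  intro Z Z' hZ hZ'
  obtain ⟨Y, hYV, ⟨c, hc⟩, -⟩ := hW Z hZ
  obtain ⟨Y', hYV', ⟨c', hc'⟩, -⟩ := hW Z' hZ'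
  have h3 := hbr _ hYV _ hYV'
  have h4 := h _ (br_sp hc hc')
  have h5 := V.sub_mem h3 h4
  rw [Prod.mk_sub_mk, sub_self, sub_zero] at h5
  exact h5

end pair

section mult
variable {n₀ k : ℕ} {n : Fin k → ℕ}

/-- the elements `(X₀, X_1, …, X_k)` -/
abbrev TM (n₀ : ℕ) {k : ℕ} (n : Fin k → ℕ) (K : Type) : Type :=
  Matrix (Fin n₀) (Fin n₀) K × (∀ i, Matrix (Fin (n i)) (Fin (n i)) K)

/-- the bracket -/
def tbr (X Y : TM n₀ n ℚ) : TM n₀ n ℚ := (X.1 * Y.1 - Y.1 * X.1, fun i => X.2 i * Y.2 i - Y.2 i * X.2 i)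

/-- projection to a pair with the fixed structure -/
def pr0 (i : Fin k) : TM n₀ n ℚ →ₗ[ℚ] PM n₀ (n i) ℚ where
  toFun := fun X => (X.1, X.2 i)
  map_add' := fun _ _ => rfl
  map_smul' := fun _ _ => rfl

/-- projection to a pair -/
def pr2 (j i : Fin k) : TM n₀ n ℚ →ₗ[ℚ] PM (n j) (n i) ℚ where
  toFun := fun X => (X.2 j, X.2 i)
  map_add' := fun _ _ => rfl
  map_smul' := fun _ _ => rfl

/-- **Several structures.** -/
theorem rel_mult (n₀ : ℕ) : ∃ d : ℕ, ∀ (B₀ : Matrix (Fin n₀) (Fin n₀) ℂ) (_ : IsUnit B₀.det) (p₀ : Fin n₀ → ℤ) (k : ℕ)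
    (n w : Fin k → ℕ) (A : ∀ i, Matrix (Fin (n i)) (Fin (n i)) ℚ) (B : ∀ i, Matrix (Fin (n i)) (Fin (n i)) ℂ)
    (p : ∀ i, Fin (n i) → ℕ) (i₀ i₁ : ∀ i, Fin (n i)), (∀ i, HD (w i) (A i) (B i) (p i) (i₀ i) (i₁ i)) →
    (∀ i, NoQ (EntM B₀ ^ d) (B i (i₀ i))) → (∀ i j, i ≠ j → NoB (B i (i₀ i)) (B j (i₀ j))) →
    ∀ V : Submodule ℚ (TM n₀ n ℚ), (∀ X ∈ V, ∀ Y ∈ V, tbr X Y ∈ V) →
    (∀ φ : ℂ →ₗ[ℚ] ℚ, ((ph φ (opB B₀ p₀), fun i => ph φ (opB (B i) (pz (p i)))) : TM n₀ n ℚ) ∈ V) →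
    ∀ X : ∀ i, Matrix (Fin (n i)) (Fin (n i)) ℚ, (∀ i, IsSp (A i) (X i)) → ((0, X) : TM n₀ n ℚ) ∈ V := by
  classical
  obtain ⟨d, hd⟩ := rel_one n₀
  refine ⟨d, ?_⟩
  intro B₀ hB₀ p₀ k n w A B p i₀ i₁ h hq hb V hbr hΦ X hX
  have h1M : (1 : ℂ) ∈ EntM B₀ ^ d := by
    have := pow_mono' (EntM_one B₀) (Nat.zero_le d)
    refine this ?_
    rw [pow_zero]
    exact Submodule.one_le.1 le_rfl
  have hqr : ∀ i, ∀ Q : Matrix (Fin (n i)) (Fin (n i)) ℚ, Qᵀ = Q → B i (i₀ i) ⬝ᵥ (cq Q *ᵥ B i (i₀ i)) = 0 → Q = 0 :=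
    fun i => (hq i).rat h1M
  -- pairs with the fixed structure
  have hA : ∀ i, ∀ Z, IsSp (A i) Z → ∃ Y ∈ V, Y.1 = 0 ∧ Y.2 i = Z := by
    intro i Z hZ
    have h1 := hd B₀ hB₀ p₀ (n i) (w i) (A i) (B i) (p i) (i₀ i) (i₁ i) (h i) (hq i) (V.map (pr0 i)) (by
      rintro _ ⟨Y, hY, rfl⟩ _ ⟨Y', hY', rfl⟩
      exact ⟨_, hbr Y hY Y' hY', rfl⟩) (fun φ => ⟨_, hΦ φ, rfl⟩) Z hZ
    obtain ⟨Y, hY, hY'⟩ := h1
    exact ⟨Y, hY, congrArg Prod.fst hY', congrArg Prod.snd hY'⟩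
  -- pairs
  have hbr2 : ∀ j i : Fin k, ∀ X ∈ V.map (pr2 j i), ∀ Y ∈ V.map (pr2 j i),
      ((X.1 * Y.1 - Y.1 * X.1, X.2 * Y.2 - Y.2 * X.2) : PM (n j) (n i) ℚ) ∈ V.map (pr2 j i) := by
    rintro j i _ ⟨Y, hY, rfl⟩ _ ⟨Y', hY', rfl⟩
    exact ⟨_, hbr Y hY Y' hY', rfl⟩
  have hΦ2 : ∀ j i : Fin k, ((opB (B j) (pz (p j)), opB (B i) (pz (p i))) : PM (n j) (n i) ℂ) ∈ inC (V.map (pr2 j i)) :=
    fun j i φ => ⟨_, hΦ φ, rfl⟩
  have hle : ∀ j i, j ≠ i → w j ≤ w i → ∀ Z, IsSp (A i) Z → ((0, Z) : PM (n j) (n i) ℚ) ∈ V.map (pr2 j i) := by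
    intro j i hji hw Z hZ
    exact rel_two (h j) (h i) hw (hqr i) (hb j i hji) (hbr2 j i) (hΦ2 j i) hZ
  have hB : ∀ j i, j ≠ i → ∀ Z, IsSp (A i) Z → ∃ Y ∈ V, Y.2 j = 0 ∧ Y.2 i = Z := by
    intro j i hji Z hZ
    have h1 : ((0, Z) : PM (n j) (n i) ℚ) ∈ V.map (pr2 j i) := by
      rcases le_total (w j) (w i) with hw | hw
      · exact hle j i hji hw Z hZ
      · refine swap_sp (h j) (h i) (hqr i) (hbr2 j i) (hΦ2 j i) ?_ hZ
        intro Z' hZ'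
        obtain ⟨Y, hY, hY'⟩ := hle i j (Ne.symm hji) hw Z' hZ'
        refine ⟨Y, hY, ?_⟩
        have e1 : Y.2 i = 0 := congrArg Prod.fst hY'
        have e2 : Y.2 j = Z' := congrArg Prod.snd hY'
        show ((Y.2 j, Y.2 i) : PM (n j) (n i) ℚ) = (Z', 0)
        rw [e1, e2]
    obtain ⟨Y, hY, hY'⟩ := h1
    exact ⟨Y, hY, congrArg Prod.fst hY', congrArg Prod.snd hY'⟩
  -- induction on the set of the other structures
  have key : ∀ (i : Fin k) (S : Finset (Option (Fin k))), ∀ Z, IsSp (A i) Z → ∃ Y ∈ V, Y.2 i = Z ∧ (none ∈ S → Y.1 = 0) ∧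
      ∀ j, some j ∈ S → j ≠ i → Y.2 j = 0 := by
    intro i S
    induction S using Finset.induction_on with
    | empty =>
      intro Z hZ
      obtain ⟨Y, hY, -, hY'⟩ := hA i Z hZ
      exact ⟨Y, hY, hY', fun h => absurd h (Finset.notMem_empty _), fun j h => absurd h (Finset.notMem_empty _)⟩
    | insert x S _ ih =>
      intro Z hZ
      let P : Submodule ℚ (Matrix (Fin (n i)) (Fin (n i)) ℚ) :=
        { carrier := {Z | ∃ Y ∈ V, Y.2 i = Z ∧ (none ∈ insert x S → Y.1 = 0) ∧ ∀ j, some j ∈ insert x S → j ≠ i → Y.2 j = 0}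
          zero_mem' := ⟨0, V.zero_mem, rfl, fun _ => rfl, fun _ _ _ => rfl⟩
          add_mem' := by
            rintro Z Z' ⟨Y, hY, h1, h2, h3⟩ ⟨Y', hY', h1', h2', h3'⟩
            refine ⟨Y + Y', V.add_mem hY hY', ?_, fun hx => ?_, fun j hj hji => ?_⟩
            · show Y.2 i + Y'.2 i = _
              rw [h1, h1']
            · show Y.1 + Y'.1 = 0
              rw [h2 hx, h2' hx, add_zero]
            · show Y.2 j + Y'.2 j = 0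
              rw [h3 j hj hji, h3' j hj hji, add_zero]
          smul_mem' := by
            rintro c Z ⟨Y, hY, h1, h2, h3⟩
            refine ⟨c • Y, V.smul_mem c hY, ?_, fun hx => ?_, fun j hj hji => ?_⟩
            · show c • Y.2 i = _
              rw [h1]
            · show c • Y.1 = 0
              rw [h2 hx, smul_zero]
            · show c • Y.2 j = 0
              rw [h3 j hj hji, smul_zero] }
      have hP : ∀ Z Z', IsSp (A i) Z → IsSp (A i) Z' → Z * Z' - Z' * Z ∈ P := by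
        intro Z Z' hZ hZ'
        obtain ⟨Y, hY, h1, h2, h3⟩ := ih Z hZ
        obtain ⟨Y', hY', h1', h2', h3'⟩ : ∃ Y ∈ V, Y.2 i = Z' ∧ (x = none → Y.1 = 0) ∧ ∀ j, x = some j → j ≠ i → Y.2 j = 0 := by
          rcases x with _ | j
          · obtain ⟨Y, hY, e1, e2⟩ := hA i Z' hZ'
            exact ⟨Y, hY, e2, fun _ => e1, fun j hj => absurd hj (by simp)⟩
          · by_cases hji : j = i
            · obtain ⟨Y, hY, e1, e2⟩ := hA i Z' hZ'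
              refine ⟨Y, hY, e2, fun h => absurd h (by simp), fun j' hj' hj'i => ?_⟩
              exfalso
              exact hj'i ((Option.some.inj hj').symm.trans hji)
            · obtain ⟨Y, hY, e1, e2⟩ := hB j i hji Z' hZ'
              refine ⟨Y, hY, e2, fun h => absurd h (by simp), fun j' hj' _ => ?_⟩
              rw [← Option.some.inj hj']
              exact e1
        refine ⟨tbr Y Y', hbr Y hY Y' hY', ?_, fun hx => ?_, fun j hj hji => ?_⟩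
        · show Y.2 i * Y'.2 i - Y'.2 i * Y.2 i = _
          rw [h1, h1']
        · show Y.1 * Y'.1 - Y'.1 * Y.1 = 0
          rcases Finset.mem_insert.1 hx with h | h
          · rw [h2' h.symm, Matrix.mul_zero, Matrix.zero_mul, sub_zero]
          · rw [h2 h, Matrix.mul_zero, Matrix.zero_mul, sub_zero]
        · show Y.2 j * Y'.2 j - Y'.2 j * Y.2 j = 0
          rcases Finset.mem_insert.1 hj with h | h
          · rw [h3' j h.symm hji, Matrix.mul_zero, Matrix.zero_mul, sub_zero]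
          · rw [h3 j h hji, Matrix.mul_zero, Matrix.zero_mul, sub_zero]
      exact sp_perfect (h i).hA (h i).hAd hP hZ
  have hone : ∀ i, ((0, Pi.single i (X i)) : TM n₀ n ℚ) ∈ V := by
    intro i
    obtain ⟨Y, hY, h1, h2, h3⟩ := key i Finset.univ (X i) (hX i)
    have h4 : Y = (0, Pi.single i (X i)) := by
      refine Prod.ext (h2 (Finset.mem_univ _)) ?_
      funext j
      by_cases hji : j = i
      · subst hji
        refine h1.trans ?_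
        exact (Pi.single_eq_same (M := fun i => Matrix (Fin (n i)) (Fin (n i)) ℚ) j (X j)).symm
      · refine (h3 j (Finset.mem_univ _) hji).trans ?_
        exact (Pi.single_eq_of_ne (M := fun i => Matrix (Fin (n i)) (Fin (n i)) ℚ) hji (X i)).symm
    rw [← h4]
    exact hY
  have h5 : ((0, X) : TM n₀ n ℚ) = ∑ i, ((0, Pi.single i (X i)) : TM n₀ n ℚ) := by
    refine Prod.ext ?_ ?_
    · rw [Prod.fst_sum]
      simp
    · rw [Prod.snd_sum]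
      exact (Finset.univ_sum_single X).symm
  rw [h5]
  exact V.sum_mem fun i _ => hone i

end mult

end Pool.Agent.X120.HG
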