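import Pool.Agent.X120.HG.Wt

/-!
# Rational Lie algebras of pairs
-/

set_option autoImplicit false

open Matrix Module

namespace Pool.Agent.X120.HG

section hd
variable {n w : ℕ} {A : Matrix (Fin n) (Fin n) ℚ} {B : Matrix (Fin n) (Fin n) ℂ} {p : Fin n → ℕ} {i₀ i₁ : Fin n}

theorem HD.col (h : HD w A B p i₀ i₁) : ∀ j, j ≠ i₁ → (B * cq A * Bᵀ) j i₀ = 0 := by
  intro j hj
  refine h.hform j i₀ ?_
  rw [(h.h0 i₀).2 rfl]
  intro h2
  apply hj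
  exact (h.h1 j).1 (by omega)

theorem HD.gam (h : HD w A B p i₀ i₁) : (B * cq A * Bᵀ) i₁ i₀ ≠ 0 := by
  have hAu : IsUnit (cq A).det := by
    have h2 : (cq A).det = algebraMap ℚ ℂ A.det := by
      rw [cq_eq]
      exact (RingHom.map_det (algebraMap ℚ ℂ) A).symm
    rw [h2]
    exact (isUnit_iff_ne_zero.2 h.hAd).map (algebraMap ℚ ℂ)
  have hGd : IsUnit (B * cq A * Bᵀ).det := by
    rw [Matrix.det_mul, Matrix.det_mul, Matrix.det_transpose]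
    exact (h.hB.mul hAu).mul h.hB
  intro h2
  have h3 : (B * cq A * Bᵀ) *ᵥ (Pi.single i₀ 1) = 0 := by
    funext j
    rw [Matrix.mulVec_single_one]
    by_cases hj : j = i₁
    · rw [hj]
      exact h2
    · exact h.col j hj
  have h4 : (Pi.single i₀ 1 : Fin n → ℂ) = 0 := by
    have h5 := congrArg (fun v => (B * cq A * Bᵀ)⁻¹ *ᵥ v) h3
    simp only [Matrix.mulVec_mulVec, Matrix.nonsing_inv_mul _ hGd, Matrix.one_mulVec, Matrix.mulVec_zero] at h5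
    exact h5
  have h5 := congrFun h4 i₀
  simp at h5

theorem HD.b0 (h : HD w A B p i₀ i₁) : B * hv A (B i₀) * B⁻¹ = (B * cq A * Bᵀ) i₁ i₀ • Matrix.single i₁ i₀ 1 :=
  conj_hv h _ h.col rfl

theorem conj_hv' {i : Fin n} (hB : IsUnit B.det) {k : Fin n} (hi : ∀ j, j ≠ i → (B * cq A * Bᵀ) j k = 0) :
    B * hv A (B k) * B⁻¹ = (B * cq A * Bᵀ) i k • Matrix.single i k 1 := by
  have hBi : B * B⁻¹ = 1 := Matrix.mul_nonsing_inv _ hB
  unfold hv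
  rw [Matrix.mul_vecMulVec, Matrix.vecMulVec_mul]
  ext a b
  rw [Matrix.vecMulVec_apply, Matrix.smul_apply, Matrix.single_apply, smul_eq_mul]
  have h6 : (B *ᵥ (cq A *ᵥ B k)) a = (B * cq A * Bᵀ) a k := by
    rw [Matrix.mulVec_mulVec]
    rfl
  have h7 : (B k ᵥ* B⁻¹) b = if k = b then 1 else 0 := by
    have h8 := congrFun (congrFun hBi k) b
    rw [Matrix.one_apply] at h8
    exact h8
  rw [h6, h7]
  by_cases ha : a = i
  · rw [ha]
    by_cases hb : k = b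
    · simp [hb]
    · simp [hb]
  · rw [hi a ha, zero_mul, if_neg (fun h => ha h.1.symm), mul_zero]

theorem HD.b1 (h : HD w A B p i₀ i₁) : B * hv A (B i₁) * B⁻¹ = (B * cq A * Bᵀ) i₀ i₁ • Matrix.single i₀ i₁ 1 := by
  refine conj_hv' h.hB fun j hj => h.hform j i₁ ?_
  rw [(h.h1 i₁).2 rfl, add_zero]
  intro h7
  exact hj ((h.h0 j).1 h7)

theorem wc_single {B : Matrix (Fin n) (Fin n) ℂ} (hB : IsUnit B.det) {p : Fin n → ℤ} {q : ℤ} {X : Matrix (Fin n) (Fin n) ℂ}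
    {a b : Fin n} {r : ℂ} (hX : B * X * B⁻¹ = r • Matrix.single a b 1) (hq : p a - p b = q) : wc B p q X = X := by
  have hBi' : B⁻¹ * B = 1 := Matrix.nonsing_inv_mul _ hB
  unfold wc
  have h1 : (Matrix.of fun i j => if p i - p j = q then (B * X * B⁻¹) i j else 0) = B * X * B⁻¹ := by
    ext i j
    rw [Matrix.of_apply]
    split_ifs with h
    · rfl
    · rw [hX, Matrix.smul_apply, Matrix.single_apply, if_neg, smul_zero]
      rintro ⟨rfl, rfl⟩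
      exact h hq
  rw [h1]
  calc B⁻¹ * (B * X * B⁻¹) * B = (B⁻¹ * B) * X * (B⁻¹ * B) := by simp only [Matrix.mul_assoc]
    _ = X := by rw [hBi', Matrix.one_mul, Matrix.mul_one]

theorem HD.wc0 (h : HD w A B p i₀ i₁) : wc B (pz p) (-(w : ℤ)) (hv A (B i₀)) = hv A (B i₀) := by
  refine wc_single h.hB h.b0 ?_
  unfold pz
  rw [(h.h1 i₁).2 rfl, (h.h0 i₀).2 rfl]
  simp

theorem HD.wc1 (h : HD w A B p i₀ i₁) : wc B (pz p) w (hv A (B i₁)) = hv A (B i₁) := by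
  refine wc_single h.hB h.b1 ?_
  unfold pz
  rw [(h.h1 i₁).2 rfl, (h.h0 i₀).2 rfl]
  simp

/-- the lowest weight space is a line -/
theorem HD.wcl (h : HD w A B p i₀ i₁) (X : Matrix (Fin n) (Fin n) ℂ) :
    ∃ c : ℂ, wc B (pz p) (-(w : ℤ)) X = c • hv A (B i₀) := by
  have hBi' : B⁻¹ * B = 1 := Matrix.nonsing_inv_mul _ h.hB
  have h2 : hv A (B i₀) = (B * cq A * Bᵀ) i₁ i₀ • (B⁻¹ * Matrix.single i₁ i₀ 1 * B) := by
    calc hv A (B i₀) = (B⁻¹ * B) * hv A (B i₀) * (B⁻¹ * B) := by rw [hBi', Matrix.one_mul, Matrix.mul_one]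
      _ = B⁻¹ * (B * hv A (B i₀) * B⁻¹) * B := by simp only [Matrix.mul_assoc]
      _ = _ := by rw [h.b0, Matrix.mul_smul, Matrix.smul_mul]
  refine ⟨(B * X * B⁻¹) i₁ i₀ * ((B * cq A * Bᵀ) i₁ i₀)⁻¹, ?_⟩
  rw [h2, smul_smul, mul_assoc, inv_mul_cancel₀ h.gam, mul_one, ← Matrix.smul_mul, ← Matrix.mul_smul]
  unfold wc
  congr 2
  ext i j
  rw [Matrix.of_apply, Matrix.smul_apply, Matrix.single_apply, smul_eq_mul]
  have hi := h.hp i
  have hj := h.hp j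
  by_cases hij : i₁ = i ∧ i₀ = j
  · obtain ⟨rfl, rfl⟩ := hij
    have hc : pz p i₁ - pz p i₀ = -(w : ℤ) := by
      unfold pz
      rw [(h.h1 i₁).2 rfl, (h.h0 i₀).2 rfl]
      simp
    rw [if_pos hc, if_pos (And.intro rfl rfl), mul_one]
  · rw [if_neg hij, if_neg, mul_zero]
    intro h3
    unfold pz at h3
    apply hij
    have h4 : p i = 0 ∧ p j = w := by omega
    exact ⟨((h.h1 i).1 h4.1).symm, ((h.h0 j).1 h4.2).symm⟩

theorem HD.wc_big (h : HD w A B p i₀ i₁) {q : ℤ} (hq : q < -(w : ℤ)) (X : Matrix (Fin n) (Fin n) ℂ) :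
    wc B (pz p) q X = 0 := by
  unfold wc
  have h1 : (Matrix.of fun i j => if pz p i - pz p j = q then (B * X * B⁻¹) i j else 0) = 0 := by
    ext i j
    rw [Matrix.of_apply, if_neg, Matrix.zero_apply]
    have hi := h.hp i
    have hj := h.hp j
    unfold pz
    omega
  rw [h1, Matrix.mul_zero, Matrix.zero_mul]

theorem tr_hv (A : Matrix (Fin n) (Fin n) ℚ) (u : Fin n → ℂ) (L : Matrix (Fin n) (Fin n) ℚ) :
    (hv A u * cq L).trace = u ⬝ᵥ (cq (L * A) *ᵥ u) := by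
  unfold hv
  rw [Matrix.vecMulVec_mul, Matrix.trace_vecMulVec, cq_mul, ← Matrix.mulVec_mulVec, Matrix.dotProduct_mulVec, dotProduct_comm]

/-- the trace of a complex symplectic matrix and a functional -/
theorem trace_zero_c {S : Matrix (Fin n) (Fin n) ℂ} (hS : Sᵀ = S) {L A : Matrix (Fin n) (Fin n) ℂ}
    (hL : L * A + (L * A)ᵀ = 0) : ((A * S) * L).trace = 0 := by
  have h1 : ((A * S) * L).trace = (S * (L * A)).trace := by
    rw [Matrix.mul_assoc, Matrix.trace_mul_comm, Matrix.mul_assoc]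
  have h2 : (S * (L * A)).trace = -(S * (L * A)).trace := by
    conv_lhs => rw [← Matrix.trace_transpose, Matrix.transpose_mul, hS, ← neg_eq_of_add_eq_zero_right hL, Matrix.neg_mul,
      Matrix.trace_neg, Matrix.trace_mul_comm]
  rw [h1]
  linear_combination h2 / 2

/-- the period vector is on no quadric with coefficients in `M` -/
def NoQ (M : Submodule ℚ ℂ) (u : Fin n → ℂ) : Prop :=
  ∀ Q : Matrix (Fin n) (Fin n) ℂ, Qᵀ = Q → (∀ i j, Q i j ∈ M) → u ⬝ᵥ (Q *ᵥ u) = 0 → Q = 0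

theorem quad_tr' (M : Matrix (Fin n) (Fin n) ℂ) (v : Fin n → ℂ) : v ⬝ᵥ (Mᵀ *ᵥ v) = v ⬝ᵥ (M *ᵥ v) := by
  rw [Matrix.mulVec_transpose, dotProduct_comm, Matrix.dotProduct_mulVec]

theorem NoQ.rat {M : Submodule ℚ ℂ} (hM : (1 : ℂ) ∈ M) {u : Fin n → ℂ} (h : NoQ M u) (Q : Matrix (Fin n) (Fin n) ℚ)
    (hQ : Qᵀ = Q) (h0 : u ⬝ᵥ (cq Q *ᵥ u) = 0) : Q = 0 := by
  refine cq_inj (?_ : cq Q = cq 0)
  have h1 : cq (0 : Matrix (Fin n) (Fin n) ℚ) = 0 := by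
    ext i j
    simp [cq]
  rw [h1]
  refine h _ (by rw [← cq_tr, hQ]) (fun i j => ?_) h0
  have h2 : cq Q i j = Q i j • (1 : ℂ) := by
    rw [Rat.smul_def, mul_one]
    rfl
  rw [h2]
  exact M.smul_mem _ hM

end hd

section pair
variable {a b : ℕ} {V : Submodule ℚ (PM a b ℚ)}

theorem core_map_snd {w : ℕ} {A : Matrix (Fin b) (Fin b) ℚ} {B : Matrix (Fin b) (Fin b) ℂ} {p : Fin b → ℕ} {i₀ i₁ : Fin b}
    (h : HD w A B p i₀ i₁) (hq : ∀ Q : Matrix (Fin b) (Fin b) ℚ, Qᵀ = Q → B i₀ ⬝ᵥ (cq Q *ᵥ B i₀) = 0 → Q = 0)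
    (hbr : ∀ X ∈ V, ∀ Y ∈ V, ((X.1 * Y.1 - Y.1 * X.1, X.2 * Y.2 - Y.2 * X.2) : PM a b ℚ) ∈ V)
    {Φ₀ : Matrix (Fin a) (Fin a) ℂ} (hΦ : ((Φ₀, opB B (pz p)) : PM a b ℂ) ∈ inC V) {X : Matrix (Fin b) (Fin b) ℚ}
    (hX : IsSp A X) : ∃ Y, ((Y, X) : PM a b ℚ) ∈ V := by
  have h1 := core h.hw h.hA h.hAd h.hB h.hp h.h0 h.h1 h.hform h.hconj hq
    (V := V.map (LinearMap.snd ℚ (Matrix (Fin a) (Fin a) ℚ) (Matrix (Fin b) (Fin b) ℚ))) (by
      rintro _ ⟨Y, hY, rfl⟩ _ ⟨Z, hZ, rfl⟩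
      exact ⟨_, hbr Y hY Z hZ, rfl⟩) (cx_of fun φ => ⟨_, hΦ φ, by
        show ph φ (opB B (pz p)) = _
        unfold opB pz
        simp⟩) X hX
  obtain ⟨Y, hY, rfl⟩ := h1
  exact ⟨Y.1, hY⟩

/-- the highest weight vector in the projection -/
theorem lift_hv {w : ℕ} {A : Matrix (Fin b) (Fin b) ℚ} {B : Matrix (Fin b) (Fin b) ℂ} {p : Fin b → ℕ} {i₀ i₁ : Fin b}
    (h : HD w A B p i₀ i₁) (hq : ∀ Q : Matrix (Fin b) (Fin b) ℚ, Qᵀ = Q → B i₀ ⬝ᵥ (cq Q *ᵥ B i₀) = 0 → Q = 0)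
    (hbr : ∀ X ∈ V, ∀ Y ∈ V, ((X.1 * Y.1 - Y.1 * X.1, X.2 * Y.2 - Y.2 * X.2) : PM a b ℚ) ∈ V)
    {Φ₀ : Matrix (Fin a) (Fin a) ℂ} (hΦ : ((Φ₀, opB B (pz p)) : PM a b ℂ) ∈ inC V) (u : Fin b → ℂ) :
    ∃ Z, ((Z, hv A u) : PM a b ℂ) ∈ inC V := by
  have h1 : ∀ i j : Fin b, ∃ Y, ((Y, A * (Matrix.single i j (1 : ℚ) + Matrix.single j i 1)) : PM a b ℚ) ∈ V := by
    intro i j
    refine core_map_snd h hq hbr hΦ (sp_symm h.hA ?_)
    rw [Matrix.transpose_add, Matrix.transpose_single, Matrix.transpose_single, add_comm]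
  choose Y hY using h1
  refine ⟨∑ i, ∑ j, (u i * u j / 2) • cq (Y i j), ?_⟩
  unfold hv
  rw [vec_cx u]
  have h2 : ((∑ i, ∑ j, (u i * u j / 2) • cq (Y i j),
      ∑ i, ∑ j, (u i * u j / 2) • cq (A * (Matrix.single i j (1 : ℚ) + Matrix.single j i 1))) : PM a b ℂ) =
      ∑ i, ∑ j, (u i * u j / 2) • ((cq (Y i j), cq (A * (Matrix.single i j (1 : ℚ) + Matrix.single j i 1))) : PM a b ℂ) := by
    refine Prod.ext ?_ ?_
    · simp only [Prod.fst_sum]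
      rfl
    · simp only [Prod.snd_sum]
      rfl
  rw [h2]
  refine Submodule.sum_mem _ fun i _ => Submodule.sum_mem _ fun j _ => Submodule.smul_mem _ _ ?_
  have h3 := inC_of (hY i j)
  exact h3

/-- **from the highest weight vector to the symplectic Lie algebra** -/
theorem sp_snd {w : ℕ} {A : Matrix (Fin b) (Fin b) ℚ} {B : Matrix (Fin b) (Fin b) ℂ} {p : Fin b → ℕ} {i₀ i₁ : Fin b}
    (h : HD w A B p i₀ i₁) (hq : ∀ Q : Matrix (Fin b) (Fin b) ℚ, Qᵀ = Q → B i₀ ⬝ᵥ (cq Q *ᵥ B i₀) = 0 → Q = 0)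
    (hV : ((0, hv A (B i₀)) : PM a b ℂ) ∈ inC V) {X : Matrix (Fin b) (Fin b) ℚ} (hX : IsSp A X) :
    ((0, X) : PM a b ℚ) ∈ V := by
  by_contra hno
  obtain ⟨L, h1, h2⟩ := exists_fun_p hno
  have h3 := vl_zero h1 hV
  unfold vl at h3
  rw [Matrix.zero_mul, Matrix.trace_zero, zero_add, tr_hv] at h3
  have h8 : L.2 * A + (L.2 * A)ᵀ = 0 := by
    refine hq _ ?_ ?_
    · rw [Matrix.transpose_add, Matrix.transpose_transpose, add_comm]
    · rw [cq_add, Matrix.add_mulVec, dotProduct_add, h3, cq_tr, zero_add, quad_tr, h3]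
  rw [Matrix.zero_mul, Matrix.trace_zero, zero_add] at h2
  exact h2 (trace_zero_of h.hA h.hAd hX h8)

/-- the conjugate of the highest weight vector suffices -/
theorem hv_of_conj {w : ℕ} {A : Matrix (Fin b) (Fin b) ℚ} {B : Matrix (Fin b) (Fin b) ℂ} {p : Fin b → ℕ} {i₀ i₁ : Fin b}
    (h : HD w A B p i₀ i₁) (hV : ((0, hv A (B i₁)) : PM a b ℂ) ∈ inC V) : ((0, hv A (B i₀)) : PM a b ℂ) ∈ inC V := by
  obtain ⟨c, hc, hc'⟩ := hv_conj h
  have h1 := inC_star ((inC V).smul_mem c hV)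
  have h2 : ((((c • ((0, hv A (B i₁)) : PM a b ℂ)).1).map star, ((c • ((0, hv A (B i₁)) : PM a b ℂ)).2).map star) : PM a b ℂ) =
      (0, hv A (B i₀)) := by
    refine Prod.ext ?_ ?_
    · show (c • (0 : Matrix (Fin a) (Fin a) ℂ)).map star = 0
      ext i j
      simp
    · show (c • hv A (B i₁)).map star = hv A (B i₀)
      rw [← hc']
      ext i j
      simp
  rwa [h2] at h1

end pair

end Pool.Agent.X120.HG
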