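import Pool.Agent.X120.HG.Lem

/-!
# Quadratic forms on orbits of symplectic groups
-/

set_option autoImplicit false

open Matrix

namespace Pool.Agent.X120.HG

variable {n : ℕ}

/-- transvections -/
theorem tv_mem {B : Matrix (Fin n) (Fin n) ℂ} (hB : IsUnit B.det) (hBt : Bᵀ = -B) (v : Fin n → ℂ) (s : ℂ) :
    (1 + s • Matrix.vecMulVec v (v ᵥ* B⁻¹)) * B * (1 + s • Matrix.vecMulVec v (v ᵥ* B⁻¹))ᵀ = B := by
  have hBi : B * B⁻¹ = 1 := Matrix.mul_nonsing_inv _ hB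
  have hBi' : B⁻¹ * B = 1 := Matrix.nonsing_inv_mul _ hB
  set M := Matrix.vecMulVec v (v ᵥ* B⁻¹) with hM
  have h1 : M * B = Matrix.vecMulVec v v := by
    rw [hM, Matrix.vecMulVec_mul, Matrix.vecMul_vecMul, hBi', Matrix.vecMul_one]
  have h2 : B * Mᵀ = -Matrix.vecMulVec v v := by
    have h3 : (M * B)ᵀ = Matrix.vecMulVec v v := by
      rw [h1, Matrix.transpose_vecMulVec]
    rw [Matrix.transpose_mul, hBt, Matrix.neg_mul] at h3
    exact neg_eq_iff_eq_neg.1 h3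
  have h3 : Matrix.vecMulVec v v * Mᵀ = 0 := by
    have h4 : v ⬝ᵥ (v ᵥ* B⁻¹) = 0 := by
      have h5 : (B⁻¹)ᵀ = -B⁻¹ := by
        rw [Matrix.transpose_nonsing_inv, hBt]
        refine Matrix.inv_eq_right_inv ?_
        rw [neg_mul_neg, hBi]
      have h6 : v ⬝ᵥ (v ᵥ* B⁻¹) = -(v ⬝ᵥ (v ᵥ* B⁻¹)) := by
        conv_lhs => rw [← Matrix.mulVec_transpose, h5, Matrix.neg_mulVec, dotProduct_neg, Matrix.dotProduct_mulVec,
          dotProduct_comm]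
      linear_combination h6 / 2
    rw [hM, Matrix.transpose_vecMulVec, Matrix.vecMulVec_mul, Matrix.vecMul_vecMulVec, h4, zero_smul, Matrix.vecMulVec_zero]
  rw [Matrix.transpose_add, Matrix.transpose_smul, Matrix.transpose_one, Matrix.add_mul, Matrix.one_mul, Matrix.smul_mul,
    Matrix.mul_add, Matrix.mul_one, Matrix.mul_smul, Matrix.add_mul, Matrix.smul_mul, h1, h2, h3]
  simp

/-- **a quadratic form which vanishes on an orbit of the symplectic group is zero** -/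
theorem quad_zero {B Q : Matrix (Fin n) (Fin n) ℂ} (hB : IsUnit B.det) (hBt : Bᵀ = -B) {ω : Fin n → ℂ} (hω : ω ≠ 0)
    (hQ : Qᵀ = Q) (h : ∀ g : Matrix (Fin n) (Fin n) ℂ, g * B * gᵀ = B → (g *ᵥ ω) ⬝ᵥ (Q *ᵥ (g *ᵥ ω)) = 0) : Q = 0 := by
  set K := B⁻¹ with hK
  have hexp : ∀ (u v : Fin n → ℂ) (s : ℂ), (u + s • v) ⬝ᵥ (Q *ᵥ (u + s • v)) =
      u ⬝ᵥ (Q *ᵥ u) + 2 * s * (u ⬝ᵥ (Q *ᵥ v)) + s * s * (v ⬝ᵥ (Q *ᵥ v)) := by
    intro u v s
    have h1 : v ⬝ᵥ (Q *ᵥ u) = u ⬝ᵥ (Q *ᵥ v) := by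
      rw [Matrix.dotProduct_mulVec, dotProduct_comm, ← Matrix.mulVec_transpose, hQ]
    simp only [Matrix.mulVec_add, Matrix.mulVec_smul, dotProduct_add, add_dotProduct, dotProduct_smul, smul_dotProduct,
      smul_eq_mul, h1]
    ring
  have h1 : ∀ v : Fin n → ℂ, v ⬝ᵥ (K *ᵥ ω) ≠ 0 → v ⬝ᵥ (Q *ᵥ v) = 0 := by
    intro v hv
    set a := v ⬝ᵥ (K *ᵥ ω) with ha
    have h2 : ∀ s : ℂ, ω ⬝ᵥ (Q *ᵥ ω) + 2 * (s * a) * (ω ⬝ᵥ (Q *ᵥ v)) + (s * a) * (s * a) * (v ⬝ᵥ (Q *ᵥ v)) = 0 := by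
      intro s
      have h3 := h _ (tv_mem hB hBt v s)
      have h4 : (1 + s • Matrix.vecMulVec v (v ᵥ* B⁻¹)) *ᵥ ω = ω + (s * a) • v := by
        rw [Matrix.add_mulVec, Matrix.one_mulVec, Matrix.smul_mulVec, Matrix.vecMulVec_mulVec, ← Matrix.dotProduct_mulVec,
          ← hK, ← ha, op_smul_eq_smul, smul_smul]
      rw [h4, hexp] at h3
      exact h3
    have e0 := h2 0
    have e1 := h2 1
    have e2 := h2 (-1)
    have h5 : a * a * (v ⬝ᵥ (Q *ᵥ v)) = 0 := by linear_combination (e1 + e2) / 2 - e0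
    exact (mul_eq_zero.1 h5).resolve_left (mul_ne_zero hv hv)
  have hKω : K *ᵥ ω ≠ 0 := by
    intro h2
    apply hω
    have h3 := congrArg (fun x => B *ᵥ x) h2
    simp only [Matrix.mulVec_mulVec, Matrix.mulVec_zero] at h3
    rw [hK, Matrix.mul_nonsing_inv _ hB, Matrix.one_mulVec] at h3
    exact h3
  obtain ⟨i₀, hi₀⟩ : ∃ i, (K *ᵥ ω) i ≠ 0 := by
    by_contra hcon
    push Not at hcon
    exact hKω (funext hcon)
  set v₀ : Fin n → ℂ := Pi.single i₀ 1 with hv₀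
  have ha₀ : v₀ ⬝ᵥ (K *ᵥ ω) ≠ 0 := by
    rw [hv₀, single_one_dotProduct]
    exact hi₀
  have h2 : ∀ v : Fin n → ℂ, v ⬝ᵥ (Q *ᵥ v) = 0 := by
    intro v
    by_cases hv : v ⬝ᵥ (K *ᵥ ω) = 0
    · have h3 : ∀ s : ℂ, s ≠ 0 → v ⬝ᵥ (Q *ᵥ v) + 2 * s * (v ⬝ᵥ (Q *ᵥ v₀)) + s * s * (v₀ ⬝ᵥ (Q *ᵥ v₀)) = 0 := by
        intro s hs
        rw [← hexp]
        refine h1 _ ?_
        rw [add_dotProduct, hv, zero_add, smul_dotProduct, smul_eq_mul]
        exact mul_ne_zero hs ha₀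
      have e1 := h3 1 one_ne_zero
      have e2 := h3 (-1) (by norm_num)
      have e3 := h1 v₀ ha₀
      rw [e3] at e1 e2
      linear_combination (e1 + e2) / 2
    · exact h1 v hv
  ext i j
  have e1 := hexp (Pi.single i 1) (Pi.single j 1) 1
  rw [h2, h2, h2, zero_add, mul_zero, add_zero, mul_one] at e1
  have e2 : (Pi.single i 1 : Fin n → ℂ) ⬝ᵥ (Q *ᵥ Pi.single j 1) = Q i j := by
    rw [single_one_dotProduct, Matrix.mulVec_single_one]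
    rfl
  rw [e2] at e1
  rw [Matrix.zero_apply]
  linear_combination -e1 / 2

end Pool.Agent.X120.HG
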