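import Pool.Agent.X120.HG.Pair

/-!
# Relative genericity: a fixed structure and a structure of Calabi–Yau type, and two structures of Calabi–Yau type
-/

set_option autoImplicit false

open Matrix Module

namespace Pool.Agent.X120.HG

section gen
variable {a b : ℕ} {V : Submodule ℚ (PM a b ℚ)}

/-- the annihilator -/
def annp (V : Submodule ℚ (PM a b ℚ)) : Submodule ℚ (PM a b ℚ) where
  carrier := {L | ∀ Y ∈ V, (Y.1 * L.1).trace + (Y.2 * L.2).trace = 0}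
  zero_mem' := fun Y _ => by
    show (Y.1 * 0).trace + (Y.2 * 0).trace = 0
    simp
  add_mem' := fun {x y} hx hy Y hY => by
    show (Y.1 * (x.1 + y.1)).trace + (Y.2 * (x.2 + y.2)).trace = 0
    rw [Matrix.mul_add, Matrix.mul_add, Matrix.trace_add, Matrix.trace_add]
    have h1 := hx Y hY
    have h2 := hy Y hY
    linear_combination h1 + h2
  smul_mem' := fun c x hx Y hY => by
    show (Y.1 * (c • x.1)).trace + (Y.2 * (c • x.2)).trace = 0
    rw [Matrix.mul_smul, Matrix.mul_smul, Matrix.trace_smul, Matrix.trace_smul, smul_eq_mul, smul_eq_mul]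
    have h1 := hx Y hY
    linear_combination c * h1

theorem vl_add (L L' : PM a b ℚ) (Z : PM a b ℂ) : vl (L + L') Z = vl L Z + vl L' Z := by
  unfold vl
  rw [Prod.fst_add, Prod.snd_add, cq_add, cq_add, Matrix.mul_add, Matrix.mul_add, Matrix.trace_add, Matrix.trace_add]
  ring

theorem cq_smul' {n : ℕ} (c : ℚ) (M : Matrix (Fin n) (Fin n) ℚ) : cq (c • M) = (c : ℂ) • cq M := by
  ext i j
  simp [cq]

theorem vl_smul (c : ℚ) (L : PM a b ℚ) (Z : PM a b ℂ) : vl (c • L) Z = (c : ℂ) * vl L Z := by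
  unfold vl
  rw [Prod.smul_fst, Prod.smul_snd, cq_smul', cq_smul', Matrix.mul_smul, Matrix.mul_smul, Matrix.trace_smul,
    Matrix.trace_smul, smul_eq_mul, smul_eq_mul]
  ring

theorem inC_ad (hbr : ∀ X ∈ V, ∀ Y ∈ V, ((X.1 * Y.1 - Y.1 * X.1, X.2 * Y.2 - Y.2 * X.2) : PM a b ℚ) ∈ V)
    {Φ₀ : Matrix (Fin a) (Fin a) ℂ} {Φ : Matrix (Fin b) (Fin b) ℂ} (hΦ : ((Φ₀, Φ) : PM a b ℂ) ∈ inC V) :
    ∀ X ∈ inC V, ((Φ₀ * X.1 - X.1 * Φ₀, Φ * X.2 - X.2 * Φ) : PM a b ℂ) ∈ inC V := by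
  intro X hX
  have h1 := inC_br hbr hΦ hX
  exact h1

/-- finitely many functionals -/
theorem exists_funs (V : Submodule ℚ (PM a b ℚ)) : ∃ (s : ℕ) (L : Fin s → PM a b ℚ), (∀ c, L c ∈ annp V) ∧
    ∀ Z : PM a b ℂ, (∀ c, vl (L c) Z = 0) → Z ∈ inC V := by
  obtain ⟨s, L, hL⟩ := Submodule.fg_iff_exists_fin_generating_family.1 (Module.Finite.iff_fg.1 (inferInstance : Module.Finite ℚ (annp V)))
  refine ⟨s, L, fun c => ?_, fun Z hZ => inC_iff fun L' hL' => ?_⟩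
  · rw [← hL]
    exact Submodule.subset_span ⟨c, rfl⟩
  · have h1 : L' ∈ Submodule.span ℚ (Set.range L) := by
      rw [hL]
      exact hL'
    induction h1 using Submodule.span_induction with
    | mem x hx =>
      obtain ⟨c, rfl⟩ := hx
      exact hZ c
    | zero => simp [vl, cq]
    | add x y hx' hy' hx hy =>
      rw [hL] at hx' hy'
      rw [vl_add, hx hx', hy hy', add_zero]
    | smul c x hx' hx =>
      rw [hL] at hx'
      rw [vl_smul, hx hx', mul_zero]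

end gen

/-- the space spanned by the products of entries of the basis and its inverse -/
noncomputable def EntM {a : ℕ} (B₀ : Matrix (Fin a) (Fin a) ℂ) : Submodule ℚ ℂ :=
  Submodule.span ℚ (Set.range fun x : Option ((Fin a × Fin a) × (Fin a × Fin a)) =>
    match x with
    | none => (1 : ℂ)
    | some x => B₀⁻¹ x.1.1 x.1.2 * B₀ x.2.1 x.2.2)

theorem EntM_one {a : ℕ} (B₀ : Matrix (Fin a) (Fin a) ℂ) : (1 : ℂ) ∈ EntM B₀ :=
  Submodule.subset_span ⟨none, rfl⟩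

theorem EntM_mem {a : ℕ} (B₀ : Matrix (Fin a) (Fin a) ℂ) (i j k l : Fin a) : B₀⁻¹ i j * B₀ k l ∈ EntM B₀ :=
  Submodule.subset_span ⟨some ((i, j), (k, l)), rfl⟩

theorem EntM_fin {a : ℕ} (B₀ : Matrix (Fin a) (Fin a) ℂ) : Module.Finite ℚ (EntM B₀) ∧
    finrank ℚ (EntM B₀) ≤ (a * a) * (a * a) + 1 := by
  refine ⟨Module.Finite.span_of_finite ℚ (Set.finite_range _), ?_⟩
  refine (finrank_range_le_card _).trans ?_
  simp

section one
variable {a b : ℕ}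

/-- the weight vectors of the fixed structure -/
noncomputable def ev (B₀ : Matrix (Fin a) (Fin a) ℂ) (p₀ : Fin a → ℤ) (w : ℕ) (x : Fin a × Fin a) : Matrix (Fin a) (Fin a) ℂ :=
  if p₀ x.1 - p₀ x.2 = -(w : ℤ) then B₀⁻¹ * Matrix.single x.1 x.2 1 * B₀ else 0

theorem ev_apply (B₀ : Matrix (Fin a) (Fin a) ℂ) (i j k l : Fin a) :
    (B₀⁻¹ * Matrix.single i j (1 : ℂ) * B₀) k l = B₀⁻¹ k i * B₀ j l := by
  rw [Matrix.mul_assoc, Matrix.mul_apply, Finset.sum_eq_single i]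
  · rw [Matrix.mul_apply, Finset.sum_eq_single j]
    · rw [Matrix.single_apply_same, one_mul]
    · intro x _ hx
      rw [Matrix.single_apply, if_neg (fun h => hx h.2.symm), zero_mul]
    · intro h
      exact absurd (Finset.mem_univ _) h
  · intro x _ hx
    rw [Matrix.mul_apply, Finset.sum_eq_zero, mul_zero]
    intro y _
    rw [Matrix.single_apply, if_neg (fun h => hx h.1.symm), zero_mul]
  · intro h
    exact absurd (Finset.mem_univ _) h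

theorem ev_mem (B₀ : Matrix (Fin a) (Fin a) ℂ) (p₀ : Fin a → ℤ) (w : ℕ) (x : Fin a × Fin a) (L : Matrix (Fin a) (Fin a) ℚ) :
    (ev B₀ p₀ w x * cq L).trace ∈ EntM B₀ := by
  unfold ev
  split_ifs
  · rw [Matrix.trace]
    refine Submodule.sum_mem _ fun i _ => ?_
    rw [Matrix.diag_apply, Matrix.mul_apply]
    refine Submodule.sum_mem _ fun j _ => ?_
    rw [ev_apply]
    have h1 : B₀⁻¹ i x.1 * B₀ x.2 j * cq L j i = L j i • (B₀⁻¹ i x.1 * B₀ x.2 j) := by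
      rw [Rat.smul_def, mul_comm]
      rfl
    rw [h1]
    exact Submodule.smul_mem _ _ (EntM_mem _ _ _ _ _)
  · rw [Matrix.zero_mul, Matrix.trace_zero]
    exact Submodule.zero_mem _

theorem wc_ev (B₀ : Matrix (Fin a) (Fin a) ℂ) (p₀ : Fin a → ℤ) (w : ℕ) (Z : Matrix (Fin a) (Fin a) ℂ) :
    wc B₀ p₀ (-(w : ℤ)) Z = ∑ x : Fin a × Fin a, (B₀ * Z * B₀⁻¹) x.1 x.2 • ev B₀ p₀ w x := by
  unfold wc
  conv_lhs => rw [Matrix.matrix_eq_sum_single (Matrix.of fun i j => if p₀ i - p₀ j = -(w : ℤ) then (B₀ * Z * B₀⁻¹) i j else 0)]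
  rw [Matrix.mul_sum, Matrix.sum_mul, Fintype.sum_prod_type]
  refine Finset.sum_congr rfl fun i _ => ?_
  rw [Matrix.mul_sum, Matrix.sum_mul]
  refine Finset.sum_congr rfl fun j _ => ?_
  unfold ev
  rw [Matrix.of_apply]
  split_ifs with h
  · have h1 : Matrix.single i j ((B₀ * Z * B₀⁻¹) i j) = (B₀ * Z * B₀⁻¹) i j • Matrix.single i j (1 : ℂ) := by
      rw [Matrix.smul_single, smul_eq_mul, mul_one]
    rw [h1, Matrix.mul_smul, Matrix.smul_mul]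
  · rw [Matrix.single_zero, Matrix.mul_zero, Matrix.zero_mul, smul_zero]

theorem wc_ev0 {B₀ : Matrix (Fin a) (Fin a) ℂ} (hB₀ : IsUnit B₀.det) (p₀ : Fin a → ℤ) {w : ℕ} (hw : 0 < w)
    (c : Fin a × Fin a → ℂ) : wc B₀ p₀ w (∑ x, c x • ev B₀ p₀ w x) = 0 := by
  have hBi : B₀ * B₀⁻¹ = 1 := Matrix.mul_nonsing_inv _ hB₀
  unfold wc
  have h1 : (Matrix.of fun i j => if p₀ i - p₀ j = (w : ℤ) then (B₀ * (∑ x, c x • ev B₀ p₀ w x) * B₀⁻¹) i j else 0) = 0 := by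
    ext i j
    rw [Matrix.of_apply, Matrix.zero_apply]
    split_ifs with h
    · rw [Matrix.mul_sum, Matrix.sum_mul, Matrix.sum_apply]
      refine Finset.sum_eq_zero fun x _ => ?_
      rw [Matrix.mul_smul, Matrix.smul_mul, Matrix.smul_apply]
      unfold ev
      split_ifs with hx
      · have h2 : B₀ * (B₀⁻¹ * Matrix.single x.1 x.2 (1 : ℂ) * B₀) * B₀⁻¹ = Matrix.single x.1 x.2 1 := by
          calc B₀ * (B₀⁻¹ * Matrix.single x.1 x.2 (1 : ℂ) * B₀) * B₀⁻¹ =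
              (B₀ * B₀⁻¹) * Matrix.single x.1 x.2 1 * (B₀ * B₀⁻¹) := by simp only [Matrix.mul_assoc]
            _ = _ := by rw [hBi, Matrix.one_mul, Matrix.mul_one]
        rw [h2, Matrix.single_apply, if_neg, smul_zero]
        rintro ⟨rfl, rfl⟩
        omega
      · rw [Matrix.mul_zero, Matrix.zero_mul, Matrix.zero_apply, smul_zero]
    · rfl
  rw [h1, Matrix.mul_zero, Matrix.zero_mul]

/-- **A fixed structure and a structure of Calabi–Yau type.** -/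
theorem rel_one (a : ℕ) : ∃ d : ℕ, ∀ (B₀ : Matrix (Fin a) (Fin a) ℂ) (_ : IsUnit B₀.det) (p₀ : Fin a → ℤ) (b w : ℕ)
    (A : Matrix (Fin b) (Fin b) ℚ) (B : Matrix (Fin b) (Fin b) ℂ) (p : Fin b → ℕ) (i₀ i₁ : Fin b), HD w A B p i₀ i₁ →
    NoQ (EntM B₀ ^ d) (B i₀) → ∀ V : Submodule ℚ (PM a b ℚ),
    (∀ X ∈ V, ∀ Y ∈ V, ((X.1 * Y.1 - Y.1 * X.1, X.2 * Y.2 - Y.2 * X.2) : PM a b ℚ) ∈ V) →
    ((opB B₀ p₀, opB B (pz p)) : PM a b ℂ) ∈ inC V → ∀ X, IsSp A X → ((0, X) : PM a b ℚ) ∈ V := by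
  classical
  obtain ⟨d, hd⟩ := ann (a * a)
  refine ⟨d, ?_⟩
  intro B₀ hB₀ p₀ b w A B p i₀ i₁ h hq V hbr hΦ X hX
  have h1M : (1 : ℂ) ∈ EntM B₀ ^ d := by
    have := pow_mono' (EntM_one B₀) (Nat.zero_le d)
    refine this ?_
    rw [pow_zero]
    exact Submodule.one_le.1 le_rfl
  have hqr := hq.rat h1M
  obtain ⟨s, L, hL, hLV⟩ := exists_funs V
  obtain ⟨Z, hZ⟩ := lift_hv h hqr hbr hΦ (B i₀)
  have hbrC := inC_ad hbr hΦ
  have hZ' := wcomp hB₀ p₀ h.hB (pz p) hbrC hZ (-(w : ℤ))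
  rw [h.wc0, wc_ev] at hZ'
  set z : Fin a × Fin a → ℂ := fun x => (B₀ * Z * B₀⁻¹) x.1 x.2 with hz
  -- the values of the functionals
  have hval : ∀ c, ∑ x, z x * (ev B₀ p₀ w x * cq (L c).1).trace + B i₀ ⬝ᵥ (cq ((L c).2 * A) *ᵥ B i₀) = 0 := by
    intro c
    have h2 := vl_zero (hL c) hZ'
    unfold vl at h2
    rw [tr_hv, Matrix.sum_mul, Matrix.trace_sum] at h2
    rw [← h2]
    congr 1
    refine Finset.sum_congr rfl fun x _ => ?_
    rw [Matrix.smul_mul, Matrix.trace_smul, smul_eq_mul]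
  -- the vectors
  set E := finProdFinEquiv (m := a) (n := a) with hE
  set e : Fin (a * a) → Fin s → ℂ := fun q c => (ev B₀ p₀ w (E.symm q) * cq (L c).1).trace with he
  have key : ∀ u : Fin b → ℂ, ∃ y : Fin a × Fin a → ℂ, ((∑ x, y x • ev B₀ p₀ w x, hv A u) : PM a b ℂ) ∈ inC V := by
    intro u
    have h3 : (fun c => (hv A u * cq (L c).2).trace) ∈ Submodule.span ℂ (Set.range e) := by
      refine hd s (EntM B₀) (EntM_one B₀) e (fun q c => ev_mem _ _ _ _ _) _ ?_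
      intro κ hκ hκe
      have h4 : ∀ x, ∑ c, κ c * (ev B₀ p₀ w x * cq (L c).1).trace = 0 := by
        intro x
        have h5 := hκe (E x)
        simp only [he, Equiv.symm_apply_apply] at h5
        exact h5
      -- the quadratic relation
      set LL : Matrix (Fin b) (Fin b) ℂ := ∑ c, κ c • cq (L c).2 with hLL
      have h5 : B i₀ ⬝ᵥ ((LL * cq A) *ᵥ B i₀) = 0 := by
        have h6 : LL * cq A = ∑ c, κ c • cq ((L c).2 * A) := by
          rw [hLL, Matrix.sum_mul]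
          refine Finset.sum_congr rfl fun c _ => ?_
          rw [Matrix.smul_mul, cq_mul]
        rw [h6, Matrix.sum_mulVec, dotProduct_sum]
        have h7 : ∀ c, B i₀ ⬝ᵥ ((κ c • cq ((L c).2 * A)) *ᵥ B i₀) = -∑ x, z x * (κ c * (ev B₀ p₀ w x * cq (L c).1).trace) := by
          intro c
          rw [Matrix.smul_mulVec, dotProduct_smul, smul_eq_mul]
          have h8 := hval c
          have h9 : ∑ x, z x * (κ c * (ev B₀ p₀ w x * cq (L c).1).trace) =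
              κ c * ∑ x, z x * (ev B₀ p₀ w x * cq (L c).1).trace := by
            rw [Finset.mul_sum]
            refine Finset.sum_congr rfl fun x _ => ?_
            ring
          rw [h9]
          linear_combination κ c * h8
        rw [Finset.sum_congr rfl fun c _ => h7 c, Finset.sum_neg_distrib, Finset.sum_comm]
        rw [Finset.sum_eq_zero, neg_zero]
        intro x _
        rw [← Finset.mul_sum, h4, mul_zero]
      have h6 : LL * cq A + (LL * cq A)ᵀ = 0 := by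
        refine hq _ ?_ ?_ ?_
        · rw [Matrix.transpose_add, Matrix.transpose_transpose, add_comm]
        · have h7 : ∀ i j, (LL * cq A) i j ∈ EntM B₀ ^ d := by
            intro i j
            rw [Matrix.mul_apply]
            refine Submodule.sum_mem _ fun l _ => ?_
            rw [hLL, Matrix.sum_apply, Finset.sum_mul]
            refine Submodule.sum_mem _ fun c _ => ?_
            have h8 : (κ c • cq (L c).2) i l * cq A l j = ((L c).2 i l * A l j) • κ c := by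
              rw [Rat.smul_def]
              unfold cq
              rw [Matrix.smul_apply, Matrix.map_apply, Matrix.map_apply, smul_eq_mul]
              push_cast
              ring
            rw [h8]
            exact Submodule.smul_mem _ _ (hκ c)
          intro i j
          exact Submodule.add_mem _ (h7 i j) (h7 j i)
        · rw [Matrix.add_mulVec, dotProduct_add, h5, zero_add, quad_tr', h5]
      have h7 := trace_zero_c (S := Matrix.vecMulVec u u) (by rw [Matrix.transpose_vecMulVec]) h6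
      have h8 : cq A * Matrix.vecMulVec u u = hv A u := by
        unfold hv
        rw [Matrix.mul_vecMulVec]
      rw [h8, hLL, Matrix.mul_sum, Matrix.trace_sum] at h7
      rw [← h7]
      refine Finset.sum_congr rfl fun c _ => ?_
      rw [Matrix.mul_smul, Matrix.trace_smul, smul_eq_mul]
    obtain ⟨y, hy⟩ := (Submodule.mem_span_range_iff_exists_fun ℂ).1 h3
    refine ⟨fun x => -y (E x), hLV _ fun c => ?_⟩
    unfold vl
    have h4 := congrFun hy c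
    rw [Finset.sum_apply] at h4
    show ((∑ x, (-y (E x)) • ev B₀ p₀ w x) * cq (L c).1).trace + (hv A u * cq (L c).2).trace = 0
    rw [← h4, Matrix.sum_mul, Matrix.trace_sum, ← Equiv.sum_comp E]
    rw [← Finset.sum_add_distrib]
    refine Finset.sum_eq_zero fun x _ => ?_
    rw [Pi.smul_apply, smul_eq_mul, Matrix.smul_mul, Matrix.trace_smul, smul_eq_mul]
    simp only [he, Equiv.symm_apply_apply]
    ring
  obtain ⟨y, hy⟩ := key (B i₁)
  have h3 := wcomp hB₀ p₀ h.hB (pz p) hbrC hy (w : ℤ)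
  rw [wc_ev0 hB₀ p₀ h.hw, h.wc1] at h3
  exact sp_snd h hqr (hv_of_conj h h3) hX

end one

section two
variable {a b : ℕ}

/-- no relations of bidegree `(2, 2)` -/
def NoB (u₁ : Fin a → ℂ) (u₂ : Fin b → ℂ) : Prop :=
  ∀ (Q₁ Q₁' : Matrix (Fin a) (Fin a) ℚ) (Q₂ Q₂' : Matrix (Fin b) (Fin b) ℚ),
    (u₂ ⬝ᵥ (cq Q₂ *ᵥ u₂)) * (u₁ ⬝ᵥ (cq Q₁' *ᵥ u₁)) = (u₂ ⬝ᵥ (cq Q₂' *ᵥ u₂)) * (u₁ ⬝ᵥ (cq Q₁ *ᵥ u₁)) →
    (u₁ ⬝ᵥ (cq Q₁' *ᵥ u₁)) • (cq Q₂ + (cq Q₂)ᵀ) = (u₁ ⬝ᵥ (cq Q₁ *ᵥ u₁)) • (cq Q₂' + (cq Q₂')ᵀ)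

theorem tr_hv2 {n : ℕ} (A : Matrix (Fin n) (Fin n) ℚ) (u : Fin n → ℂ) (L : Matrix (Fin n) (Fin n) ℚ) :
    2 * (hv A u * cq L).trace = u ⬝ᵥ ((cq (L * A) + (cq (L * A))ᵀ) *ᵥ u) := by
  rw [tr_hv, Matrix.add_mulVec, dotProduct_add, quad_tr']
  ring

/-- **Two structures of Calabi–Yau type.** -/
theorem rel_two {w₁ w₂ : ℕ} {A₁ : Matrix (Fin a) (Fin a) ℚ} {B₁ : Matrix (Fin a) (Fin a) ℂ} {p₁ : Fin a → ℕ} {i₀ i₁ : Fin a}
    (h₁ : HD w₁ A₁ B₁ p₁ i₀ i₁) {A₂ : Matrix (Fin b) (Fin b) ℚ} {B₂ : Matrix (Fin b) (Fin b) ℂ} {p₂ : Fin b → ℕ}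
    {j₀ j₁ : Fin b} (h₂ : HD w₂ A₂ B₂ p₂ j₀ j₁) (hw : w₁ ≤ w₂)
    (hq : ∀ Q : Matrix (Fin b) (Fin b) ℚ, Qᵀ = Q → B₂ j₀ ⬝ᵥ (cq Q *ᵥ B₂ j₀) = 0 → Q = 0)
    (hb : NoB (B₁ i₀) (B₂ j₀)) {V : Submodule ℚ (PM a b ℚ)}
    (hbr : ∀ X ∈ V, ∀ Y ∈ V, ((X.1 * Y.1 - Y.1 * X.1, X.2 * Y.2 - Y.2 * X.2) : PM a b ℚ) ∈ V)
    (hΦ : ((opB B₁ (pz p₁), opB B₂ (pz p₂)) : PM a b ℂ) ∈ inC V) {X : Matrix (Fin b) (Fin b) ℚ} (hX : IsSp A₂ X) :
    ((0, X) : PM a b ℚ) ∈ V := by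
  classical
  obtain ⟨Z, hZ⟩ := lift_hv h₂ hq hbr hΦ (B₂ j₀)
  have hbrC := inC_ad hbr hΦ
  have hZ' := wcomp h₁.hB (pz p₁) h₂.hB (pz p₂) hbrC hZ (-(w₂ : ℤ))
  rw [h₂.wc0] at hZ'
  obtain ⟨c, hc⟩ : ∃ c : ℂ, wc B₁ (pz p₁) (-(w₂ : ℤ)) Z = c • hv A₁ (B₁ i₀) := by
    rcases hw.eq_or_lt with h | h
    · rw [← h]
      exact h₁.wcl Z
    · refine ⟨0, ?_⟩
      rw [h₁.wc_big (by omega), zero_smul]
  rw [hc] at hZ'
  have hval : ∀ L ∈ annp V, c * (B₁ i₀ ⬝ᵥ (cq (L.1 * A₁) *ᵥ B₁ i₀)) + B₂ j₀ ⬝ᵥ (cq (L.2 * A₂) *ᵥ B₂ j₀) = 0 := by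
    intro L hL
    have h3 := vl_zero hL hZ'
    unfold vl at h3
    rw [tr_hv, Matrix.smul_mul, Matrix.trace_smul, smul_eq_mul, tr_hv] at h3
    exact h3
  refine sp_snd h₂ hq (hv_of_conj h₂ ?_) hX
  by_cases hcase : ∀ L ∈ annp V, c * (B₁ i₀ ⬝ᵥ (cq (L.1 * A₁) *ᵥ B₁ i₀)) = 0
  · -- then the highest weight vector is in the space
    have h3 : ((0, hv A₂ (B₂ j₀)) : PM a b ℂ) ∈ inC V := by
      refine inC_iff fun L hL => ?_
      unfold vl
      rw [Matrix.zero_mul, Matrix.trace_zero, zero_add, tr_hv]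
      have h4 := hval L hL
      rwa [hcase L hL, zero_add] at h4
    -- conjugation
    obtain ⟨r, hr, hr'⟩ := hv_conj h₂
    have h4 := (inC V).smul_mem r⁻¹ (inC_star h3)
    have h5 : (r⁻¹ • ((((0, hv A₂ (B₂ j₀)) : PM a b ℂ).1.map star, ((0, hv A₂ (B₂ j₀)) : PM a b ℂ).2.map star) : PM a b ℂ)) =
        (0, hv A₂ (B₂ j₁)) := by
      refine Prod.ext ?_ ?_
      · show r⁻¹ • (0 : Matrix (Fin a) (Fin a) ℂ).map star = 0
        ext i j
        simp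
      · show r⁻¹ • (hv A₂ (B₂ j₀)).map star = hv A₂ (B₂ j₁)
        rw [hr', smul_smul, inv_mul_cancel₀ hr, one_smul]
    rwa [h5] at h4
  · push Not at hcase
    obtain ⟨L₀, hL₀, hne⟩ := hcase
    set g₀ := B₁ i₀ ⬝ᵥ (cq (L₀.1 * A₁) *ᵥ B₁ i₀) with hg₀
    have hg₀0 : g₀ ≠ 0 := right_ne_zero_of_mul hne
    have h3 : ∀ L ∈ annp V, g₀ • (cq (L.2 * A₂) + (cq (L.2 * A₂))ᵀ) =
        (B₁ i₀ ⬝ᵥ (cq (L.1 * A₁) *ᵥ B₁ i₀)) • (cq (L₀.2 * A₂) + (cq (L₀.2 * A₂))ᵀ) := by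
      intro L hL
      refine hb (L.1 * A₁) (L₀.1 * A₁) (L.2 * A₂) (L₀.2 * A₂) ?_
      have e1 := hval L hL
      have e2 := hval L₀ hL₀
      rw [← hg₀] at e2 ⊢
      linear_combination g₀ * e1 - (B₁ i₀ ⬝ᵥ (cq (L.1 * A₁) *ᵥ B₁ i₀)) * e2
    have h4 : ∀ u : Fin b → ℂ, ∃ y : ℂ, ((y • hv A₁ (B₁ i₀), hv A₂ u) : PM a b ℂ) ∈ inC V := by
      intro u
      refine ⟨-(hv A₂ u * cq L₀.2).trace / g₀, inC_iff fun L hL => ?_⟩
      unfold vl
      rw [Matrix.smul_mul, Matrix.trace_smul, smul_eq_mul, tr_hv A₁]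
      have h5 := congrArg (fun M => u ⬝ᵥ (M *ᵥ u)) (h3 L hL)
      simp only [Matrix.smul_mulVec, dotProduct_smul, smul_eq_mul] at h5
      rw [← tr_hv2, ← tr_hv2] at h5
      field_simp
      linear_combination h5 / 2
    obtain ⟨y, hy⟩ := h4 (B₂ j₁)
    have h5 := wcomp h₁.hB (pz p₁) h₂.hB (pz p₂) hbrC hy (w₂ : ℤ)
    rw [h₂.wc1] at h5
    have h6 : wc B₁ (pz p₁) (w₂ : ℤ) (y • hv A₁ (B₁ i₀)) = 0 := by
      unfold wc
      have h7 : (Matrix.of fun i j => if pz p₁ i - pz p₁ j = (w₂ : ℤ) then (B₁ * (y • hv A₁ (B₁ i₀)) * B₁⁻¹) i j else 0) = 0 := by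
        ext i j
        rw [Matrix.of_apply, Matrix.zero_apply]
        split_ifs with h
        · rw [Matrix.mul_smul, Matrix.smul_mul, h₁.b0, Matrix.smul_apply, Matrix.smul_apply, Matrix.single_apply, if_neg,
            smul_zero, smul_zero]
          rintro ⟨rfl, rfl⟩
          unfold pz at h
          rw [(h₁.h1 i₁).2 rfl, (h₁.h0 i₀).2 rfl] at h
          have := h₁.hw
          have := h₂.hw
          omega
        · rfl
      rw [h7, Matrix.mul_zero, Matrix.zero_mul]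
    rw [h6] at h5
    exact h5

end two

end Pool.Agent.X120.HG
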