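import Pool.Agent.X120.HG.Gen

/-!
# The rational symplectic Lie algebra
-/

set_option autoImplicit false

open Matrix

namespace Pool.Agent.X120.HG

variable {n : ℕ}

/-- the symplectic Lie algebra -/
def IsSp (A X : Matrix (Fin n) (Fin n) ℚ) : Prop := X * A + A * Xᵀ = 0

theorem IsSp.sub {A X Y : Matrix (Fin n) (Fin n) ℚ} (hX : IsSp A X) (hY : IsSp A Y) : IsSp A (X - Y) := by
  unfold IsSp at *
  rw [Matrix.sub_mul, Matrix.transpose_sub, Matrix.mul_sub, sub_add_sub_comm, hX, hY, sub_zero]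

theorem IsSp.smul {A X : Matrix (Fin n) (Fin n) ℚ} (hX : IsSp A X) (c : ℚ) : IsSp A (c • X) := by
  unfold IsSp at *
  rw [Matrix.smul_mul, Matrix.transpose_smul, Matrix.mul_smul, ← smul_add, hX, smul_zero]

/-- products of the form and symmetric matrices -/
theorem sp_symm {A S : Matrix (Fin n) (Fin n) ℚ} (hA : Aᵀ = -A) (hS : Sᵀ = S) : IsSp A (A * S) := by
  unfold IsSp
  rw [Matrix.transpose_mul, hA, hS, Matrix.mul_neg, Matrix.mul_neg, ← Matrix.mul_assoc, add_neg_cancel]

theorem symm_sp {A X : Matrix (Fin n) (Fin n) ℚ} (hA : Aᵀ = -A) (hAd : A.det ≠ 0) (hX : IsSp A X) :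
    ∃ S, Sᵀ = S ∧ X = A * S := by
  have hAu : IsUnit A.det := isUnit_iff_ne_zero.2 hAd
  have hAi : A * A⁻¹ = 1 := Matrix.mul_nonsing_inv _ hAu
  have hAi' : A⁻¹ * A = 1 := Matrix.nonsing_inv_mul _ hAu
  have hAit : (A⁻¹)ᵀ = -A⁻¹ := by
    rw [Matrix.transpose_nonsing_inv, hA]
    refine Matrix.inv_eq_right_inv ?_
    rw [neg_mul_neg, hAi]
  refine ⟨A⁻¹ * X, ?_, ?_⟩
  · have h1 : A * Xᵀ = -(X * A) := by
      unfold IsSp at hX
      rw [add_comm] at hX
      exact eq_neg_of_add_eq_zero_left hX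
    have h2 : Xᵀ * A⁻¹ = -(A⁻¹ * X) := by
      calc Xᵀ * A⁻¹ = (A⁻¹ * A) * Xᵀ * A⁻¹ := by rw [hAi', Matrix.one_mul]
        _ = A⁻¹ * (A * Xᵀ) * A⁻¹ := by simp only [Matrix.mul_assoc]
        _ = -(A⁻¹ * X * (A * A⁻¹)) := by
            rw [h1, Matrix.mul_neg, Matrix.neg_mul]
            simp only [Matrix.mul_assoc]
        _ = _ := by rw [hAi, Matrix.mul_one]
    rw [Matrix.transpose_mul, hAit, Matrix.mul_neg, h2, neg_neg]
  · rw [← Matrix.mul_assoc, hAi, Matrix.one_mul]

/-- the long root elements -/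
def mu (A : Matrix (Fin n) (Fin n) ℚ) (u : Fin n → ℚ) : Matrix (Fin n) (Fin n) ℚ := A * Matrix.vecMulVec u u

theorem mu_sp {A : Matrix (Fin n) (Fin n) ℚ} (hA : Aᵀ = -A) (u : Fin n → ℚ) : IsSp A (mu A u) :=
  sp_symm hA (by rw [Matrix.transpose_vecMulVec])

/-- **the symplectic Lie algebra is perfect** -/
theorem sp_perfect {A : Matrix (Fin n) (Fin n) ℚ} (hA : Aᵀ = -A) (hAd : A.det ≠ 0)
    {P : Submodule ℚ (Matrix (Fin n) (Fin n) ℚ)} (hP : ∀ X Y, IsSp A X → IsSp A Y → X * Y - Y * X ∈ P)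
    {X : Matrix (Fin n) (Fin n) ℚ} (hX : IsSp A X) : X ∈ P := by
  have hAu : IsUnit A.det := isUnit_iff_ne_zero.2 hAd
  have hskew : ∀ u v : Fin n → ℚ, v ⬝ᵥ (A *ᵥ u) = -(u ⬝ᵥ (A *ᵥ v)) := by
    intro u v
    rw [Matrix.dotProduct_mulVec, ← Matrix.mulVec_transpose, hA, Matrix.neg_mulVec, neg_dotProduct, dotProduct_comm]
  have hself : ∀ u : Fin n → ℚ, u ⬝ᵥ (A *ᵥ u) = 0 := by
    intro u
    have := hskew u u
    linarith
  have hvv : ∀ a b c d : Fin n → ℚ, Matrix.vecMulVec a b * A * Matrix.vecMulVec c d = (b ⬝ᵥ (A *ᵥ c)) • Matrix.vecMulVec a d := by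
    intro a b c d
    rw [Matrix.mul_assoc, Matrix.mul_vecMulVec, Matrix.vecMulVec_mul_vecMulVec, Matrix.vecMulVec_smul]
  have hmu : ∀ u : Fin n → ℚ, mu A u ∈ P := by
    intro u
    by_cases hu : u = 0
    · have h1 : mu A u = 0 := by
        unfold mu
        rw [hu, Matrix.vecMulVec_zero, Matrix.mul_zero]
      rw [h1]
      exact P.zero_mem
    · -- a vector with nonzero product
      have h1 : u ᵥ* A ≠ 0 := by
        intro h2
        apply hu
        have h3 := congrArg (fun x => x ᵥ* A⁻¹) h2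
        simp only [Matrix.vecMul_vecMul, Matrix.mul_nonsing_inv _ hAu, Matrix.vecMul_one, Matrix.zero_vecMul] at h3
        exact h3
      obtain ⟨i, hi⟩ : ∃ i, (u ᵥ* A) i ≠ 0 := by
        by_contra hcon
        push Not at hcon
        exact h1 (funext hcon)
      set v : Fin n → ℚ := Pi.single i 1 with hv
      set a := u ⬝ᵥ (A *ᵥ v) with ha
      have ha0 : a ≠ 0 := by
        rw [ha, Matrix.dotProduct_mulVec, hv, dotProduct_single_one]
        exact hi
      have h2 := hP (A * (Matrix.vecMulVec u v + Matrix.vecMulVec v u)) (mu A u)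
        (sp_symm hA (by rw [Matrix.transpose_add, Matrix.transpose_vecMulVec, Matrix.transpose_vecMulVec, add_comm])) (mu_sp hA u)
      have e1 : (A * (Matrix.vecMulVec u v + Matrix.vecMulVec v u)) * mu A u = (-a) • mu A u := by
        unfold mu
        have e2 : (Matrix.vecMulVec u v + Matrix.vecMulVec v u) * A * Matrix.vecMulVec u u = (-a) • Matrix.vecMulVec u u := by
          rw [Matrix.add_mul, Matrix.add_mul, hvv, hvv, hself, hskew u v, ← ha, zero_smul, add_zero]
        calc A * (Matrix.vecMulVec u v + Matrix.vecMulVec v u) * (A * Matrix.vecMulVec u u) =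
            A * ((Matrix.vecMulVec u v + Matrix.vecMulVec v u) * A * Matrix.vecMulVec u u) := by simp only [Matrix.mul_assoc]
          _ = _ := by rw [e2, Matrix.mul_smul]
      have e3 : mu A u * (A * (Matrix.vecMulVec u v + Matrix.vecMulVec v u)) = a • mu A u := by
        unfold mu
        have e2 : Matrix.vecMulVec u u * A * (Matrix.vecMulVec u v + Matrix.vecMulVec v u) = a • Matrix.vecMulVec u u := by
          rw [Matrix.mul_add, hvv, hvv, hself, ← ha, zero_smul, zero_add]
        calc A * Matrix.vecMulVec u u * (A * (Matrix.vecMulVec u v + Matrix.vecMulVec v u)) =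
            A * (Matrix.vecMulVec u u * A * (Matrix.vecMulVec u v + Matrix.vecMulVec v u)) := by simp only [Matrix.mul_assoc]
          _ = _ := by rw [e2, Matrix.mul_smul]
      rw [e1, e3, ← sub_smul] at h2
      have h3 := P.smul_mem ((-a - a)⁻¹) h2
      rw [smul_smul, inv_mul_cancel₀ (by intro h; apply ha0; linarith), one_smul] at h3
      exact h3
  obtain ⟨S, hS, rfl⟩ := symm_sp hA hAd hX
  have h1 : ∀ i j : Fin n, A * (Matrix.single i j (1 : ℚ) + Matrix.single j i 1) ∈ P := by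
    intro i j
    have e1 : A * (Matrix.single i j (1 : ℚ) + Matrix.single j i 1) =
        mu A (Pi.single i 1 + Pi.single j 1) - mu A (Pi.single i 1) - mu A (Pi.single j 1) := by
      unfold mu
      rw [← Matrix.mul_sub, ← Matrix.mul_sub]
      congr 1
      have e2 : ∀ a b : Fin n, Matrix.single a b (1 : ℚ) = Matrix.vecMulVec (Pi.single a 1) (Pi.single b 1) := by
        intro a b
        ext x y
        simp only [Matrix.single_apply, Matrix.vecMulVec_apply, Pi.single_apply]
        by_cases h1 : a = x <;> by_cases h2 : b = y <;> simp [h1, h2, eq_comm]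
      rw [e2, e2, Matrix.add_vecMulVec, Matrix.vecMulVec_add, Matrix.vecMulVec_add]
      abel
    rw [e1]
    exact P.sub_mem (P.sub_mem (hmu _) (hmu _)) (hmu _)
  have h2 : A * S = ∑ i, ∑ j, (S i j / 2) • (A * (Matrix.single i j (1 : ℚ) + Matrix.single j i 1)) := by
    have h3 : S = ∑ i, ∑ j, (S i j / 2) • (Matrix.single i j (1 : ℚ) + Matrix.single j i 1) := by
      have e1 : S = ∑ i, ∑ j, Matrix.single i j (S i j) := Matrix.matrix_eq_sum_single S
      have e2 : (∑ i, ∑ j, (S i j / 2) • (Matrix.single i j (1 : ℚ) + Matrix.single j i 1)) =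
          (∑ i, ∑ j, (S i j / 2) • Matrix.single i j (1 : ℚ)) + ∑ i, ∑ j, (S i j / 2) • Matrix.single j i (1 : ℚ) := by
        simp only [smul_add, Finset.sum_add_distrib]
      have e3 : (∑ i, ∑ j, (S i j / 2) • Matrix.single j i (1 : ℚ)) = ∑ i, ∑ j, (S i j / 2) • Matrix.single i j (1 : ℚ) := by
        rw [Finset.sum_comm]
        refine Finset.sum_congr rfl fun i _ => Finset.sum_congr rfl fun j _ => ?_
        have e4 : S j i = S i j := by
          conv_lhs => rw [← hS, Matrix.transpose_apply]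
        rw [e4]
      rw [e2, e3, ← Finset.sum_add_distrib]
      conv_lhs => rw [e1]
      refine Finset.sum_congr rfl fun i _ => ?_
      rw [← Finset.sum_add_distrib]
      refine Finset.sum_congr rfl fun j _ => ?_
      rw [← add_smul, add_halves, Matrix.smul_single, smul_eq_mul, mul_one]
    conv_lhs => rw [h3]
    rw [Finset.mul_sum]
    refine Finset.sum_congr rfl fun i _ => ?_
    rw [Finset.mul_sum]
    refine Finset.sum_congr rfl fun j _ => ?_
    rw [Matrix.mul_smul]
  rw [h2]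
  exact P.sum_mem fun i _ => P.sum_mem fun j _ => P.smul_mem _ (h1 i j)

/-- brackets of similitudes -/
theorem br_sp {A X Y : Matrix (Fin n) (Fin n) ℚ} {c d : ℚ} (hX : X * A + A * Xᵀ = c • A) (hY : Y * A + A * Yᵀ = d • A) :
    IsSp A (X * Y - Y * X) := by
  unfold IsSp
  have h1 : A * Xᵀ = c • A - X * A := by rw [← hX]; abel
  have h2 : A * Yᵀ = d • A - Y * A := by rw [← hY]; abel
  rw [Matrix.transpose_sub, Matrix.transpose_mul, Matrix.transpose_mul, Matrix.mul_sub, ← Matrix.mul_assoc, ← Matrix.mul_assoc,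
    h1, h2, Matrix.sub_mul, Matrix.sub_mul, Matrix.sub_mul, Matrix.mul_assoc Y A, Matrix.mul_assoc X A, h1, h2, Matrix.smul_mul,
    Matrix.smul_mul, h1, h2, Matrix.mul_sub, Matrix.mul_sub, Matrix.mul_smul, Matrix.mul_smul, smul_sub, smul_sub, smul_smul,
    smul_smul, mul_comm c d, ← Matrix.mul_assoc, ← Matrix.mul_assoc]
  abel

/-- complex rank one matrices are in the complexification -/
theorem vec_cx {A : Matrix (Fin n) (Fin n) ℚ} (u : Fin n → ℂ) : Matrix.vecMulVec (cq A *ᵥ u) u =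
    ∑ i, ∑ j, (u i * u j / 2) • cq (A * (Matrix.single i j (1 : ℚ) + Matrix.single j i 1)) := by
  have h1 : Matrix.vecMulVec (cq A *ᵥ u) u = cq A * Matrix.vecMulVec u u := by
    rw [Matrix.mul_vecMulVec]
  have h2 : Matrix.vecMulVec u u = ∑ i, ∑ j, (u i * u j / 2) • (Matrix.single i j (1 : ℂ) + Matrix.single j i 1) := by
    have e1 : Matrix.vecMulVec u u = ∑ i, ∑ j, Matrix.single i j (u i * u j) := Matrix.matrix_eq_sum_single _
    have e2 : (∑ i, ∑ j, (u i * u j / 2) • (Matrix.single i j (1 : ℂ) + Matrix.single j i 1)) =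
        (∑ i, ∑ j, (u i * u j / 2) • Matrix.single i j (1 : ℂ)) + ∑ i, ∑ j, (u i * u j / 2) • Matrix.single j i (1 : ℂ) := by
      simp only [smul_add, Finset.sum_add_distrib]
    have e3 : (∑ i, ∑ j, (u i * u j / 2) • Matrix.single j i (1 : ℂ)) = ∑ i, ∑ j, (u i * u j / 2) • Matrix.single i j (1 : ℂ) := by
      rw [Finset.sum_comm]
      refine Finset.sum_congr rfl fun i _ => Finset.sum_congr rfl fun j _ => ?_
      rw [mul_comm (u j)]
    rw [e2, e3, ← Finset.sum_add_distrib, e1]
    refine Finset.sum_congr rfl fun i _ => ?_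
    rw [← Finset.sum_add_distrib]
    refine Finset.sum_congr rfl fun j _ => ?_
    rw [← add_smul, add_halves, Matrix.smul_single, smul_eq_mul, mul_one]
  rw [h1, h2, Finset.mul_sum]
  refine Finset.sum_congr rfl fun i _ => ?_
  rw [Finset.mul_sum]
  refine Finset.sum_congr rfl fun j _ => ?_
  rw [Matrix.mul_smul, cq_mul, cq_add]
  congr 3
  · ext a b
    simp only [cq, Matrix.single_apply, Matrix.map_apply]
    split_ifs <;> simp
  · ext a b
    simp only [cq, Matrix.single_apply, Matrix.map_apply]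
    split_ifs <;> simp

end Pool.Agent.X120.HG
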