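import Pool.Agent.X120.HG.Fftl
import Pool.Agent.X120.HG.Cnt

/-!
# Hodge tensors of relatively generic tuples of Hodge structures
-/

set_option autoImplicit false
set_option linter.unusedSectionVars false

open Matrix Module

namespace Pool.Agent.X120.HG

open Pool.Agent.X120.GS.TT

section
variable {κ : Type} [Fintype κ] [DecidableEq κ] {k : ℕ} {n : Fin k → ℕ}

/-- the matrix of a factor -/
def fm (K : Type) [Field K] (B : ∀ i, Matrix (Fin (n i)) (Fin (n i)) K) (c : Fin k) :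
    Matrix (Σ i, Fin (n i)) (Σ i, Fin (n i)) K := Matrix.of fun x y => if x.1 = c then blockDiagonal' B x y else 0

theorem fm_eq {K : Type} [Field K] (B : ∀ i, Matrix (Fin (n i)) (Fin (n i)) K) (c : Fin k) :
    fm K B c = blockDiagonal' (fun i => if i = c then B i else 0) := by
  ext ⟨i, x⟩ ⟨j, y⟩
  unfold fm
  rw [Matrix.of_apply]
  by_cases hij : i = j
  · subst hij
    rw [blockDiagonal'_apply_eq, blockDiagonal'_apply_eq]
    by_cases hc : i = c
    · rw [if_pos hc, if_pos hc]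
    · rw [if_neg hc, if_neg hc, Matrix.zero_apply]
  · rw [blockDiagonal'_apply_ne _ _ _ hij, blockDiagonal'_apply_ne _ _ _ hij, ite_self]

theorem fm_der {B X : ∀ i, Matrix (Fin (n i)) (Fin (n i)) ℂ} {w : Fin k → ℂ}
    (h : ∀ i, X i * B i + B i * (X i)ᵀ = w i • B i) (c : Fin k) :
    blockDiagonal' X * fm ℂ B c + fm ℂ B c * (blockDiagonal' X)ᵀ = w c • fm ℂ B c := by
  rw [fm_eq, blockDiagonal'_transpose, ← blockDiagonal'_mul, ← blockDiagonal'_mul, ← blockDiagonal'_add, ← blockDiagonal'_smul]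
  congr 1
  funext i
  rw [Pi.add_apply, Pi.smul_apply]
  by_cases hc : i = c
  · subst hc
    rw [if_pos rfl]
    exact h i
  · rw [if_neg hc, Matrix.mul_zero, Matrix.zero_mul, add_zero, smul_zero]

/-- **the derivation of a product over a matching** -/
theorem dr_mat {B X : ∀ i, Matrix (Fin (n i)) (Fin (n i)) ℂ} {w : Fin k → ℂ}
    (h : ∀ i, X i * B i + B i * (X i)ᵀ = w i • B i) {m : ℕ} (e : Fin m × Fin 2 ≃ κ) (c : Fin m → Fin k) :
    dr (blockDiagonal' X) (matB B e c) = (∑ s, w (c s)) • matB B e c := by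
  classical
  funext I
  have hmat : ∀ I, matB B e c I = ∏ s, fm ℂ B (c s) (I (e (s, 0))) (I (e (s, 1))) := fun I => rfl
  unfold dr dl
  rw [Pi.smul_apply, smul_eq_mul, Finset.sum_mul, ← Equiv.sum_comp e, Fintype.sum_prod_type]
  refine Finset.sum_congr rfl fun s₀ _ => ?_
  rw [Fin.sum_univ_two]
  have h0 : ∀ y, matB B e c (Function.update I (e (s₀, 0)) y) =
      fm ℂ B (c s₀) y (I (e (s₀, 1))) * ∏ s ∈ Finset.univ.erase s₀, fm ℂ B (c s) (I (e (s, 0))) (I (e (s, 1))) := by
    intro y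
    rw [hmat, ← Finset.mul_prod_erase _ _ (Finset.mem_univ s₀), Function.update_self,
      Function.update_of_ne (fun h => by simpa using e.injective h)]
    congr 1
    refine Finset.prod_congr rfl fun s hs => ?_
    have hs' := Finset.ne_of_mem_erase hs
    rw [Function.update_of_ne (fun h => hs' (congrArg Prod.fst (e.injective h))),
      Function.update_of_ne (fun h => hs' (congrArg Prod.fst (e.injective h)))]
  have h1 : ∀ y, matB B e c (Function.update I (e (s₀, 1)) y) =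
      fm ℂ B (c s₀) (I (e (s₀, 0))) y * ∏ s ∈ Finset.univ.erase s₀, fm ℂ B (c s) (I (e (s, 0))) (I (e (s, 1))) := by
    intro y
    rw [hmat, ← Finset.mul_prod_erase _ _ (Finset.mem_univ s₀), Function.update_self,
      Function.update_of_ne (fun h => by simpa using e.injective h)]
    congr 1
    refine Finset.prod_congr rfl fun s hs => ?_
    have hs' := Finset.ne_of_mem_erase hs
    rw [Function.update_of_ne (fun h => hs' (congrArg Prod.fst (e.injective h))),
      Function.update_of_ne (fun h => hs' (congrArg Prod.fst (e.injective h)))]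
  have h2 := congrFun (congrFun (fm_der h (c s₀)) (I (e (s₀, 0)))) (I (e (s₀, 1)))
  rw [Matrix.add_apply, Matrix.mul_apply, Matrix.mul_apply, Matrix.smul_apply, smul_eq_mul] at h2
  have h3 : matB B e c I = fm ℂ B (c s₀) (I (e (s₀, 0))) (I (e (s₀, 1))) *
      ∏ s ∈ Finset.univ.erase s₀, fm ℂ B (c s) (I (e (s, 0))) (I (e (s, 1))) := by
    rw [hmat, ← Finset.mul_prod_erase _ _ (Finset.mem_univ s₀)]
  simp only [h0, h1]
  rw [h3, ← mul_assoc, ← h2, add_mul, Finset.sum_mul, Finset.sum_mul]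
  refine congrArg₂ _ (Finset.sum_congr rfl fun y _ => ?_) (Finset.sum_congr rfl fun y _ => ?_)
  · ring
  · rw [Matrix.transpose_apply]
    ring

/-- the product of the forms over a matching -/
def pq (A : ∀ i, Matrix (Fin (n i)) (Fin (n i)) ℚ) {m : ℕ} (e : Fin m × Fin 2 ≃ κ) (c : Fin m → Fin k) :
    (κ → Σ i, Fin (n i)) → ℚ :=
  fun I => ∏ s, if (I (e (s, 0))).1 = c s then blockDiagonal' A (I (e (s, 0))) (I (e (s, 1))) else 0

/-- a rational tensor as a complex tensor -/
def cst {ι : Type} (F : ι → ℚ) : ι → ℂ := fun I => ((F I : ℚ) : ℂ)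

theorem bd_cq (A : ∀ i, Matrix (Fin (n i)) (Fin (n i)) ℚ) (x y : Σ i, Fin (n i)) :
    blockDiagonal' (fun i => cq (A i)) x y = ((blockDiagonal' A x y : ℚ) : ℂ) := by
  obtain ⟨i, x⟩ := x
  obtain ⟨j, y⟩ := y
  by_cases hij : i = j
  · subst hij
    rw [blockDiagonal'_apply_eq, blockDiagonal'_apply_eq]
    rfl
  · rw [blockDiagonal'_apply_ne _ _ _ hij, blockDiagonal'_apply_ne _ _ _ hij, Rat.cast_zero]

theorem cst_pq (A : ∀ i, Matrix (Fin (n i)) (Fin (n i)) ℚ) {m : ℕ} (e : Fin m × Fin 2 ≃ κ) (c : Fin m → Fin k) :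
    cst (pq A e c) = matB (fun i => cq (A i)) e c := by
  funext I
  unfold cst pq matB
  push_cast
  refine Finset.prod_congr rfl fun s _ => ?_
  split_ifs
  · rw [bd_cq]
  · exact Rat.cast_zero

/-- coordinates of a tensor -/
theorem phi_dr (X : ∀ i, Matrix (Fin (n i)) (Fin (n i)) ℂ) (F : (κ → Σ i, Fin (n i)) → ℚ) (φ : ℂ →ₗ[ℚ] ℚ)
    (I : κ → Σ i, Fin (n i)) :
    φ (dr (blockDiagonal' X) (cst F) I) = dr (blockDiagonal' fun i => ph φ (X i)) F I := by
  unfold dr dl cst
  rw [map_sum]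
  refine Finset.sum_congr rfl fun l _ => ?_
  rw [map_sum]
  refine Finset.sum_congr rfl fun y _ => ?_
  rw [mul_comm, phi_rat, mul_comm]
  congr 1
  obtain ⟨i, x⟩ := I l
  obtain ⟨j, y⟩ := y
  by_cases hij : i = j
  · subst hij
    rw [blockDiagonal'_apply_eq, blockDiagonal'_apply_eq]
    rfl
  · rw [blockDiagonal'_apply_ne _ _ _ hij, blockDiagonal'_apply_ne _ _ _ hij, map_zero]

/-- the invariants of the symplectic Lie algebras over `ℚ` -/
theorem inv_span {A : ∀ i, Matrix (Fin (n i)) (Fin (n i)) ℚ} (hA : ∀ i, (A i)ᵀ = -A i) (hAd : ∀ i, (A i).det ≠ 0)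
    {F : (κ → Σ i, Fin (n i)) → ℚ}
    (h : ∀ X : ∀ i, Matrix (Fin (n i)) (Fin (n i)) ℚ, (∀ i, IsSp (A i) (X i)) → dr (blockDiagonal' X) F = 0) :
    F ∈ Submodule.span ℚ {w | ∃ (m : ℕ) (e : Fin m × Fin 2 ≃ κ) (c : Fin m → Fin k), w = pq A e c} := by
  have hu : ∀ i, IsUnit (cq (A i)) := by
    intro i
    rw [Matrix.isUnit_iff_isUnit_det]
    have h2 : (cq (A i)).det = algebraMap ℚ ℂ (A i).det := by
      rw [cq_eq]
      exact (RingHom.map_det (algebraMap ℚ ℂ) (A i)).symm
    rw [h2]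
    exact (isUnit_iff_ne_zero.2 (hAd i)).map (algebraMap ℚ ℂ)
  have h1 := fft_lie (κ := κ) (fun i => cq (A i)) hu (fun i => by rw [← cq_tr, hA i, cq_neg]) (cst F) (by
    intro X hX
    funext I
    refine phi_zero fun φ => ?_
    rw [phi_dr, h]
    · rfl
    · intro i
      unfold IsSp
      have h2 := congrArg (ph φ) (hX i)
      rw [ph_add, ph_mul_right, ph_mul_left, ph_tr, ph_zero] at h2
      exact h2)
  -- descent to `ℚ`
  obtain ⟨φ, hφ⟩ : ∃ φ : ℂ →ₗ[ℚ] ℚ, φ 1 = 1 := by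
    obtain ⟨φ, hφ⟩ := LinearMap.exists_extend (p := Submodule.span ℚ {(1 : ℂ)})
      ((LinearEquiv.toSpanNonzeroSingleton ℚ ℂ (1 : ℂ) one_ne_zero).symm : Submodule.span ℚ {(1 : ℂ)} →ₗ[ℚ] ℚ)
    refine ⟨φ, ?_⟩
    have h2 := LinearMap.congr_fun hφ ⟨1, Submodule.mem_span_singleton_self _⟩
    rw [LinearMap.comp_apply] at h2
    have h3 : (Submodule.span ℚ {(1 : ℂ)}).subtype ⟨1, Submodule.mem_span_singleton_self _⟩ = (1 : ℂ) := rfl
    rw [h3] at h2
    rw [h2]
    show (LinearEquiv.toSpanNonzeroSingleton ℚ ℂ (1 : ℂ) one_ne_zero).symm ⟨1, _⟩ = 1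
    rw [LinearEquiv.symm_apply_eq]
    apply Subtype.ext
    rw [LinearEquiv.toSpanNonzeroSingleton_apply]
    simp
  have h2 : ∀ G ∈ Submodule.span ℂ {w | ∃ (m : ℕ) (e : Fin m × Fin 2 ≃ κ) (c : Fin m → Fin k), w = matB (fun i => cq (A i)) e c},
      ∀ ψ : ℂ →ₗ[ℚ] ℚ, (fun I => ψ (G I)) ∈
        Submodule.span ℚ {w | ∃ (m : ℕ) (e : Fin m × Fin 2 ≃ κ) (c : Fin m → Fin k), w = pq A e c} := by
    intro G hG
    induction hG using Submodule.span_induction with
    | mem x hx =>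
      obtain ⟨m, e, c, rfl⟩ := hx
      intro ψ
      have h3 : (fun I => ψ (matB (fun i => cq (A i)) e c I)) = ψ 1 • pq A e c := by
        funext I
        rw [← cst_pq, Pi.smul_apply, smul_eq_mul]
        unfold cst
        have h4 := phi_rat ψ (pq A e c I) 1
        rw [mul_one] at h4
        rw [h4, mul_comm]
      rw [h3]
      exact Submodule.smul_mem _ _ (Submodule.subset_span ⟨m, e, c, rfl⟩)
    | zero =>
      intro ψ
      have h3 : (fun I : κ → Σ i, Fin (n i) => ψ ((0 : (κ → Σ i, Fin (n i)) → ℂ) I)) = 0 := by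
        funext I
        rw [Pi.zero_apply, map_zero]
        rfl
      rw [h3]
      exact Submodule.zero_mem _
    | add x y _ _ hx hy =>
      intro ψ
      have h3 : (fun I => ψ ((x + y) I)) = (fun I => ψ (x I)) + fun I => ψ (y I) := by
        funext I
        rw [Pi.add_apply, map_add]
        rfl
      rw [h3]
      exact Submodule.add_mem _ (hx ψ) (hy ψ)
    | smul a x _ hx =>
      intro ψ
      exact hx (phs ψ a)
  have h3 := h2 _ h1 φ
  have h4 : (fun I => φ (cst F I)) = F := by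
    funext I
    unfold cst
    have h4 := phi_rat φ (F I) 1
    rw [mul_one, hφ, mul_one] at h4
    exact h4
  rw [h4] at h3
  exact h3

end

end Pool.Agent.X120.HG
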