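import Pool.Agent.X120.HG.Ann

/-!
# Weight components and Hodge data
-/

set_option autoImplicit false

open Matrix Module

namespace Pool.Agent.X120.HG

section one
variable {n : ℕ}

/-- the product of the `ad - a` -/
noncomputable def adp (B : Matrix (Fin n) (Fin n) ℂ) (p : Fin n → ℤ) (s : Finset ℤ) (X : Matrix (Fin n) (Fin n) ℂ) :
    Matrix (Fin n) (Fin n) ℂ :=
  B⁻¹ * (Matrix.of fun i j => (∏ a ∈ s, ((p i : ℂ) - (p j : ℂ) - (a : ℂ))) * (B * X * B⁻¹) i j) * B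

/-- the Hodge operator in a basis -/
noncomputable def opB (B : Matrix (Fin n) (Fin n) ℂ) (p : Fin n → ℤ) : Matrix (Fin n) (Fin n) ℂ :=
  B⁻¹ * Matrix.diagonal (fun i => (p i : ℂ)) * B

/-- the component of weight `q` -/
noncomputable def wc (B : Matrix (Fin n) (Fin n) ℂ) (p : Fin n → ℤ) (q : ℤ) (X : Matrix (Fin n) (Fin n) ℂ) :
    Matrix (Fin n) (Fin n) ℂ :=
  B⁻¹ * (Matrix.of fun i j => if p i - p j = q then (B * X * B⁻¹) i j else 0) * B

variable {B : Matrix (Fin n) (Fin n) ℂ} (hB : IsUnit B.det) (p : Fin n → ℤ)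
include hB

theorem adp_empty (X : Matrix (Fin n) (Fin n) ℂ) : adp B p ∅ X = X := by
  have hBi' : B⁻¹ * B = 1 := Matrix.nonsing_inv_mul _ hB
  have e1 : (Matrix.of fun i j => (∏ a ∈ (∅ : Finset ℤ), ((p i : ℂ) - (p j : ℂ) - (a : ℂ))) * (B * X * B⁻¹) i j) = B * X * B⁻¹ := by
    ext i j
    simp
  unfold adp
  rw [e1]
  calc B⁻¹ * (B * X * B⁻¹) * B = (B⁻¹ * B) * X * (B⁻¹ * B) := by simp only [Matrix.mul_assoc]
    _ = X := by rw [hBi', Matrix.one_mul, Matrix.mul_one]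

theorem adp_insert (X : Matrix (Fin n) (Fin n) ℂ) {b : ℤ} {s : Finset ℤ} (hb : b ∉ s) :
    adp B p (insert b s) X = (opB B p * adp B p s X - adp B p s X * opB B p) - (b : ℂ) • adp B p s X := by
  have hBi : B * B⁻¹ = 1 := Matrix.mul_nonsing_inv _ hB
  unfold adp opB
  set Y := (Matrix.of fun i j => (∏ a ∈ s, ((p i : ℂ) - (p j : ℂ) - (a : ℂ))) * (B * X * B⁻¹) i j) with hY
  have e2 : (B⁻¹ * Matrix.diagonal (fun i => (p i : ℂ)) * B) * (B⁻¹ * Y * B) = B⁻¹ * (Matrix.diagonal (fun i => (p i : ℂ)) * Y) * B := by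
    calc (B⁻¹ * Matrix.diagonal (fun i => (p i : ℂ)) * B) * (B⁻¹ * Y * B) =
          B⁻¹ * Matrix.diagonal (fun i => (p i : ℂ)) * (B * B⁻¹) * Y * B := by
          simp only [Matrix.mul_assoc]
      _ = _ := by rw [hBi, Matrix.mul_one]; simp only [Matrix.mul_assoc]
  have e3 : (B⁻¹ * Y * B) * (B⁻¹ * Matrix.diagonal (fun i => (p i : ℂ)) * B) = B⁻¹ * (Y * Matrix.diagonal (fun i => (p i : ℂ))) * B := by
    calc (B⁻¹ * Y * B) * (B⁻¹ * Matrix.diagonal (fun i => (p i : ℂ)) * B) =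
          B⁻¹ * Y * (B * B⁻¹) * Matrix.diagonal (fun i => (p i : ℂ)) * B := by
          simp only [Matrix.mul_assoc]
      _ = _ := by rw [hBi, Matrix.mul_one]; simp only [Matrix.mul_assoc]
  have e4 : (b : ℂ) • (B⁻¹ * Y * B) = B⁻¹ * ((b : ℂ) • Y) * B := by
    rw [Matrix.mul_smul, Matrix.smul_mul]
  rw [e2, e3, e4, ← Matrix.sub_mul, ← Matrix.mul_sub, ← Matrix.sub_mul, ← Matrix.mul_sub]
  congr 2
  ext i j
  rw [Matrix.sub_apply, Matrix.sub_apply, Matrix.diagonal_mul, Matrix.mul_diagonal, Matrix.smul_apply, hY,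
    Matrix.of_apply, Matrix.of_apply, Finset.prod_insert hb, smul_eq_mul]
  ring

omit hB in
theorem adp_wc (X : Matrix (Fin n) (Fin n) ℂ) {s : Finset ℤ} {q : ℤ} (hs : ∀ i j, p i - p j ≠ q → p i - p j ∈ s) :
    adp B p s X = (∏ a ∈ s, ((q : ℂ) - (a : ℂ))) • wc B p q X := by
  unfold adp wc
  rw [← Matrix.smul_mul, ← Matrix.mul_smul]
  congr 2
  ext i j
  rw [Matrix.of_apply, Matrix.smul_apply, Matrix.of_apply, smul_eq_mul]
  split_ifs with h
  · congr 1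
    refine Finset.prod_congr rfl fun a _ => ?_
    rw [← h]
    push_cast
    ring
  · rw [Finset.prod_eq_zero (hs i j h), zero_mul, mul_zero]
    push_cast
    ring

end one

section pair
variable {a b : ℕ}

/-- **weight components of pairs** -/
theorem wcomp {B₀ : Matrix (Fin a) (Fin a) ℂ} (hB₀ : IsUnit B₀.det) (p₀ : Fin a → ℤ) {B : Matrix (Fin b) (Fin b) ℂ}
    (hB : IsUnit B.det) (p : Fin b → ℤ) {V : Submodule ℂ (PM a b ℂ)}
    (hbr : ∀ X ∈ V, ((opB B₀ p₀ * X.1 - X.1 * opB B₀ p₀, opB B p * X.2 - X.2 * opB B p) : PM a b ℂ) ∈ V)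
    {X : PM a b ℂ} (hX : X ∈ V) (q : ℤ) : ((wc B₀ p₀ q X.1, wc B p q X.2) : PM a b ℂ) ∈ V := by
  classical
  have key : ∀ s : Finset ℤ, ((adp B₀ p₀ s X.1, adp B p s X.2) : PM a b ℂ) ∈ V := by
    intro s
    induction s using Finset.induction_on with
    | empty =>
      rw [adp_empty hB₀, adp_empty hB]
      exact hX
    | insert c s hc ih =>
      rw [adp_insert hB₀ p₀ X.1 hc, adp_insert hB p X.2 hc]
      exact V.sub_mem (hbr _ ih) (V.smul_mem (c : ℂ) ih)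
  set s : Finset ℤ := ((Finset.univ.image fun x : Fin a × Fin a => p₀ x.1 - p₀ x.2) ∪
    (Finset.univ.image fun x : Fin b × Fin b => p x.1 - p x.2)).erase q with hs
  have h1 := key s
  rw [adp_wc p₀ X.1 (q := q) (fun i j hij => by
      rw [hs, Finset.mem_erase]
      exact ⟨hij, Finset.mem_union_left _ (Finset.mem_image.2 ⟨(i, j), Finset.mem_univ _, rfl⟩)⟩),
    adp_wc p X.2 (q := q) (fun i j hij => by
      rw [hs, Finset.mem_erase]
      exact ⟨hij, Finset.mem_union_right _ (Finset.mem_image.2 ⟨(i, j), Finset.mem_univ _, rfl⟩)⟩)] at h1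
  have h2 : (∏ a ∈ s, ((q : ℂ) - (a : ℂ))) ≠ 0 := by
    refine Finset.prod_ne_zero_iff.2 fun c hc h => ?_
    have h3 : (q : ℂ) = c := sub_eq_zero.1 h
    have h4 : q = c := by exact_mod_cast h3
    rw [hs, Finset.mem_erase] at hc
    exact hc.1 h4.symm
  have h3 := V.smul_mem ((∏ a ∈ s, ((q : ℂ) - (a : ℂ)))⁻¹) h1
  rw [Prod.smul_mk, smul_smul, smul_smul, inv_mul_cancel₀ h2, one_smul, one_smul] at h3
  exact h3

end pair

/-- the data of a Hodge structure of Calabi–Yau type in a basis -/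
structure HD {n : ℕ} (w : ℕ) (A : Matrix (Fin n) (Fin n) ℚ) (B : Matrix (Fin n) (Fin n) ℂ) (p : Fin n → ℕ)
    (i₀ i₁ : Fin n) : Prop where
  hw : 0 < w
  hA : Aᵀ = -A
  hAd : A.det ≠ 0
  hB : IsUnit B.det
  hp : ∀ i, p i ≤ w
  h0 : ∀ i, p i = w ↔ i = i₀
  h1 : ∀ i, p i = 0 ↔ i = i₁
  hform : ∀ i j, p i + p j ≠ w → (B * cq A * Bᵀ) i j = 0
  hconj : ∃ s : ℂ, s ≠ 0 ∧ ∀ a, star (B i₁ a) = s * B i₀ a

/-- the weights as integers -/
def pz {n : ℕ} (p : Fin n → ℕ) : Fin n → ℤ := fun i => (p i : ℤ)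

/-- the highest weight vector -/
noncomputable def hv {n : ℕ} (A : Matrix (Fin n) (Fin n) ℚ) (u : Fin n → ℂ) : Matrix (Fin n) (Fin n) ℂ :=
  Matrix.vecMulVec (cq A *ᵥ u) u

section hd
variable {n w : ℕ} {A : Matrix (Fin n) (Fin n) ℚ} {B : Matrix (Fin n) (Fin n) ℂ} {p : Fin n → ℕ} {i₀ i₁ : Fin n}

theorem hv_conj (h : HD w A B p i₀ i₁) : ∃ c : ℂ, c ≠ 0 ∧ (hv A (B i₀)).map star = c • hv A (B i₁) := by
  obtain ⟨s, hs, hs'⟩ := h.hconj
  have h1 : ∀ a, star (B i₀ a) = (star s)⁻¹ * B i₁ a := by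
    intro a
    have h2 := congrArg star (hs' a)
    rw [star_star, star_mul'] at h2
    rw [h2, ← mul_assoc, inv_mul_cancel₀ (star_ne_zero.2 hs), one_mul]
  refine ⟨(star s)⁻¹ * (star s)⁻¹, mul_ne_zero (inv_ne_zero (star_ne_zero.2 hs)) (inv_ne_zero (star_ne_zero.2 hs)), ?_⟩
  ext a b
  unfold hv
  rw [Matrix.map_apply, Matrix.smul_apply, Matrix.vecMulVec_apply, Matrix.vecMulVec_apply, star_mul', h1, smul_eq_mul]
  have h3 : star ((cq A *ᵥ B i₀) a) = (star s)⁻¹ * (cq A *ᵥ B i₁) a := by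
    simp only [Matrix.mulVec, dotProduct]
    rw [star_sum, Finset.mul_sum]
    refine Finset.sum_congr rfl fun c _ => ?_
    rw [star_mul', h1]
    have h7 : star (cq A a c) = cq A a c := by
      unfold cq
      rw [Matrix.map_apply]
      simp
    rw [h7]
    ring
  rw [h3]
  ring

theorem conj_hv (h : HD w A B p i₀ i₁) {i : Fin n} (r : ℂ) (hi : ∀ j, j ≠ i → (B * cq A * Bᵀ) j i₀ = 0)
    (hi' : (B * cq A * Bᵀ) i i₀ = r) : B * hv A (B i₀) * B⁻¹ = r • Matrix.single i i₀ 1 := by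
  have hBi : B * B⁻¹ = 1 := Matrix.mul_nonsing_inv _ h.hB
  unfold hv
  rw [Matrix.mul_vecMulVec, Matrix.vecMulVec_mul]
  ext a b
  rw [Matrix.vecMulVec_apply, Matrix.smul_apply, Matrix.single_apply, smul_eq_mul]
  have h6 : (B *ᵥ (cq A *ᵥ B i₀)) a = (B * cq A * Bᵀ) a i₀ := by
    rw [Matrix.mulVec_mulVec]
    rfl
  have h7 : (B i₀ ᵥ* B⁻¹) b = if i₀ = b then 1 else 0 := by
    have h8 := congrFun (congrFun hBi i₀) b
    rw [Matrix.one_apply] at h8
    exact h8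
  rw [h6, h7]
  by_cases ha : a = i
  · rw [ha, hi']
    by_cases hb : i₀ = b
    · simp [hb]
    · simp [hb]
  · rw [hi a ha, zero_mul, if_neg (fun h => ha h.1.symm), mul_zero]

end hd

end Pool.Agent.X120.HG
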